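import Mathlib

/-!
Piecewise continuous permutations of the circle modulo finitely supported permutations
(definitions for Cornulier's questions on realizability).
-/

namespace Pool.Agent.R291

/-- The circle `ℝ/ℤ`. -/
abbrev S1 : Type := AddCircle (1 : ℝ)

/-- The group of finitely supported permutations of a set `Y`. -/
def finSupp (Y : Type) : Subgroup (Equiv.Perm Y) where
  carrier := {f | {y | f y ≠ y}.Finite}
  mul_mem' := by
    intro f g hf hg
    refine (hg.union hf).subset fun y hy => ?_
    by_cases h : g y = y
    · right
      intro h2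
      apply hy
      show f (g y) = y
      rw [h]; exact h2
    · exact Or.inl h
  one_mem' := by simp
  inv_mem' := by
    intro f hf
    refine Set.Finite.subset hf fun y hy h => ?_
    apply hy
    rw [Equiv.Perm.inv_eq_iff_eq]
    exact h.symm

instance (Y : Type) : (finSupp Y).Normal where
  conj_mem := by
    intro f hf g
    refine (Set.Finite.image g hf).subset fun y hy => ?_
    refine ⟨g⁻¹ y, fun h => hy ?_, g.apply_symm_apply y⟩
    show g (f (g⁻¹ y)) = y
    rw [h]
    exact g.apply_symm_apply y

/-- Permutations of `Y` modulo finitely supported permutations. -/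
abbrev NearPerm (Y : Type) : Type := Equiv.Perm Y ⧸ finSupp Y

/-- The quotient map. -/
abbrev cls (Y : Type) : Equiv.Perm Y →* NearPerm Y := QuotientGroup.mk' (finSupp Y)

/-- `f` is piecewise continuous: continuous at all but finitely many points of the circle. -/
def IsPC (f : Equiv.Perm S1) : Prop := {x | ¬ ContinuousAt f x}.Finite

/-- `f` is piecewise isometric: off a finite set `P`, on every connected set `C` (in particular
on every one of the finitely many open arcs which make up the complement of `P`) it is of the form
`x ↦ ± x + c`. -/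
def IsIET (f : Equiv.Perm S1) : Prop :=
  ∃ P : Set S1, P.Finite ∧ ∀ C : Set S1, C ⊆ Pᶜ → IsPreconnected C →
    ∃ c : S1, (∀ x ∈ C, f x = x + c) ∨ (∀ x ∈ C, f x = -x + c)

/-- The subgroup `Γ` of `NearPerm S1` consists of classes of piecewise continuous permutations,
that is, it is a subgroup of `PC(S)`. -/
def SubPC (Γ : Subgroup (NearPerm S1)) : Prop := ∀ γ ∈ Γ, ∃ f : Equiv.Perm S1, IsPC f ∧ cls S1 f = γ

/-- The subgroup `Γ` consists of classes of piecewise isometric permutations. -/
def SubIET (Γ : Subgroup (NearPerm S1)) : Prop := ∀ γ ∈ Γ, ∃ f : Equiv.Perm S1, IsIET f ∧ cls S1 f = γ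

/-- `Γ` is realizable: there is a group `Λ` of piecewise continuous permutations which the quotient
map sends bijectively onto `Γ`. -/
def Realizable (Γ : Subgroup (NearPerm S1)) : Prop :=
  ∃ Λ : Subgroup (Equiv.Perm S1), (∀ f ∈ Λ, IsPC f) ∧ Set.BijOn (cls S1) (Λ : Set (Equiv.Perm S1)) Γ

end Pool.Agent.R291
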