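import Mathlib

/-!
Definitions for the questions of Kadets and Seliutin on free filters on `ℕ`, their ideals and
statistical (finitely additive) measures.
-/

namespace Pool.Agent.R291

/-- A free filter on `ℕ`: a proper filter containing every cofinite set. -/
def IsFree (F : Filter ℕ) : Prop := F.NeBot ∧ F ≤ Filter.cofinite

/-- `A` belongs to the ideal of `F`, that is, `ℕ \ A ∈ F`. -/
def InIdeal (F : Filter ℕ) (A : Set ℕ) : Prop := Aᶜ ∈ F

/-- `A` belongs to the grill of `F`, that is, `A` is not in the ideal of `F`. -/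
def InGrill (F : Filter ℕ) (A : Set ℕ) : Prop := ¬ InIdeal F A

/-- `F` is poor: every family of members of the grill whose pairwise intersections lie in the
ideal is at most countable. -/
def IsPoor (F : Filter ℕ) : Prop :=
  ∀ 𝒜 : Set (Set ℕ), (∀ A ∈ 𝒜, InGrill F A) →
    (∀ A ∈ 𝒜, ∀ B ∈ 𝒜, A ≠ B → InIdeal F (A ∩ B)) → 𝒜.Countable

/-- `F` is conglomerated: there are pairwise disjoint sets `D n` in the ideal such that
`⋃ n ∈ M, D n` is in the grill for every infinite `M`. -/
def IsConglomerated (F : Filter ℕ) : Prop :=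
  ∃ D : ℕ → Set ℕ, (∀ m n, m ≠ n → Disjoint (D m) (D n)) ∧ (∀ n, InIdeal F (D n)) ∧
    ∀ M : Set ℕ, M.Infinite → InGrill F (⋃ n ∈ M, D n)

/-- A statistical measure: a finitely additive `μ : 2^ℕ → [0, ∞)` with `μ ℕ = 1` vanishing on
singletons. -/
structure IsStatMeasure (μ : Set ℕ → ℝ) : Prop where
  nonneg : ∀ A, 0 ≤ μ A
  univ : μ Set.univ = 1
  additive : ∀ A B, Disjoint A B → μ (A ∪ B) = μ A + μ B
  singleton : ∀ k : ℕ, μ {k} = 0

/-- `F` is generated by a statistical measure: `F = {A : μ A = 1}` for some statistical `μ`. -/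
def IsGenerated (F : Filter ℕ) : Prop :=
  ∃ μ : Set ℕ → ℝ, IsStatMeasure μ ∧ ∀ A : Set ℕ, A ∈ F ↔ μ A = 1

end Pool.Agent.R291
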