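import Pool.Agent.R291.PoorFilter

/-!
A free filter on `ℕ` which is neither poor nor conglomerated (ZFC).
-/

open Set

namespace Pool.Agent.R291

/-! ### Pseudo-intersections -/

/-- A countable family of sets with infinite finite intersections has an infinite
pseudo-intersection. -/
lemma exists_pseudo {ι : Type} [Countable ι] (G : ι → Set ℕ)
    (h : ∀ s : Finset ι, (⋂ i ∈ s, G i).Infinite) :
    ∃ W : Set ℕ, W.Infinite ∧ ∀ i, (W \ G i).Finite := by
  classical
  by_cases hι : Nonempty ι
  · obtain ⟨e, he⟩ := exists_surjective_nat ι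
    have hstep : ∀ (k m : ℕ), ∃ n, m < n ∧ n ∈ ⋂ i ∈ (Finset.range (k + 1)).image e, G i := by
      intro k m
      obtain ⟨n, hn, hmn⟩ := (h ((Finset.range (k + 1)).image e)).exists_gt m
      exact ⟨n, hmn, hn⟩
    choose next hn1 hn2 using hstep
    let w : ℕ → ℕ := fun k => Nat.rec (next 0 0) (fun k r => next (k + 1) r) k
    have hw : ∀ k, w (k + 1) = next (k + 1) (w k) := fun k => rfl
    have hwmono : StrictMono w := strictMono_nat_of_lt_succ fun k => by rw [hw]; exact hn1 _ _
    have hwmem : ∀ k, w k ∈ ⋂ i ∈ (Finset.range (k + 1)).image e, G i := by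
      intro k
      cases k with
      | zero => exact hn2 0 0
      | succ k => rw [hw]; exact hn2 _ _
    refine ⟨range w, infinite_range_of_injective hwmono.injective, fun i => ?_⟩
    obtain ⟨k, rfl⟩ := he i
    refine ((Set.finite_lt_nat k).image w).subset ?_
    rintro _ ⟨⟨j, rfl⟩, hj⟩
    refine ⟨j, ?_, rfl⟩
    by_contra hjk
    apply hj
    have h3 := hwmem j
    simp only [mem_iInter] at h3
    exact h3 (e k) (Finset.mem_image_of_mem _ (Finset.mem_range.2 (by
      have : k ≤ j := not_lt.1 hjk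
      omega)))
  · refine ⟨univ, infinite_univ, fun i => absurd ⟨i⟩ hι⟩

/-- The task at a function `T`. -/
def Task (T : ℕ → Finset ℕ) (W : Set ℕ) : Prop :=
  (∃ m, ∀ n ∈ W, m ∈ T n) ∨ ∃ M : Set ℕ, M.Infinite ∧ ∀ n ∈ W, ∀ m ∈ M, m ∉ T n

lemma exists_task (T : ℕ → Finset ℕ) {W : Set ℕ} (hW : W.Infinite) :
    ∃ W' ⊆ W, W'.Infinite ∧ Task T W' := by
  classical
  by_cases h : ∃ m, {n ∈ W | m ∈ T n}.Infinite
  · obtain ⟨m, hm⟩ := h
    exact ⟨_, fun n hn => hn.1, hm, Or.inl ⟨m, fun n hn => hn.2⟩⟩
  · push Not at h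
    -- `p.1` : point of `W`, `p.2` : point of `M`
    have hstep : ∀ (s : Finset ℕ) (k : ℕ), ∃ n ∈ W, k < n ∧ ∀ m ∈ s, m ∉ T n := by
      intro s k
      have hfin : (⋃ m ∈ s, {n ∈ W | m ∈ T n}).Finite := by
        refine Set.Finite.biUnion s.finite_toSet fun m _ => ?_
        exact h m
      obtain ⟨n, hn, hkn⟩ := (hW.sdiff hfin).exists_gt k
      refine ⟨n, hn.1, hkn, fun m hm hmT => hn.2 ?_⟩
      simp only [mem_iUnion]
      exact ⟨m, hm, hn.1, hmT⟩
    choose nx hx1 hx2 hx3 using hstep
    -- state: (n_i, finite set of m's so far, bound)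
    let S : ℕ → ℕ × Finset ℕ × ℕ := fun i => Nat.rec
      (nx {0} 0, {0}, 0)
      (fun _ r =>
        let mnew := r.2.2 + (T r.1).sup id + 1
        (nx (insert mnew r.2.1) r.1, insert mnew r.2.1, mnew)) i
    let ni : ℕ → ℕ := fun i => (S i).1
    let mi : ℕ → ℕ := fun i => (S i).2.2
    have hS : ∀ i, S (i + 1) = (nx (insert (mi i + (T (ni i)).sup id + 1) (S i).2.1) (ni i),
        insert (mi i + (T (ni i)).sup id + 1) (S i).2.1, mi i + (T (ni i)).sup id + 1) := fun i => rfl
    have hmi : ∀ i, mi (i + 1) = mi i + (T (ni i)).sup id + 1 := fun i => rfl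
    have hni : ∀ i, ni (i + 1) = nx (S (i + 1)).2.1 (ni i) := fun i => rfl
    have hset : ∀ i j, j ≤ i → mi j ∈ (S i).2.1 := by
      intro i
      induction i with
      | zero => intro j hj; obtain rfl : j = 0 := by omega
                exact Finset.mem_singleton_self _
      | succ i ih =>
        intro j hj
        rw [hS]
        rcases Nat.lt_or_ge j (i + 1) with hj' | hj'
        · exact Finset.mem_insert_of_mem (ih j (by omega))
        · obtain rfl : j = i + 1 := by omega
          rw [hmi]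
          exact Finset.mem_insert_self _ _
    have hnW : ∀ i, ni i ∈ W := by
      intro i
      cases i with
      | zero => exact hx1 _ _
      | succ i => rw [hni]; exact hx1 _ _
    have hnmono : StrictMono ni := strictMono_nat_of_lt_succ fun i => by rw [hni]; exact hx2 _ _
    have hmmono : StrictMono mi := strictMono_nat_of_lt_succ fun i => by rw [hmi]; omega
    have hgood : ∀ i, ∀ m ∈ (S i).2.1, m ∉ T (ni i) := by
      intro i
      cases i with
      | zero => exact hx3 _ _
      | succ i => rw [hni]; exact hx3 _ _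
    refine ⟨range ni, ?_, infinite_range_of_injective hnmono.injective, Or.inr ⟨range mi,
      infinite_range_of_injective hmmono.injective, ?_⟩⟩
    · rintro _ ⟨i, rfl⟩; exact hnW i
    · rintro _ ⟨i, rfl⟩ _ ⟨j, rfl⟩ hmem
      rcases le_or_gt j i with hij | hij
      · exact hgood i _ (hset i j hij) hmem
      · have h1 : mi (i + 1) ≤ mi j := hmmono.monotone hij
        have h2 : mi j ≤ (T (ni i)).sup id := Finset.le_sup (f := id) hmem
        rw [hmi] at h1
        omega

lemma Task.mono {T : ℕ → Finset ℕ} {W W' : Set ℕ} (h : Task T W) (hs : W' ⊆ W) : Task T W' := by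
  rcases h with ⟨m, hm⟩ | ⟨M, hM, h⟩
  · exact Or.inl ⟨m, fun n hn => hm n (hs hn)⟩
  · exact Or.inr ⟨M, hM, fun n hn => h n (hs hn)⟩

/-! ### The tower under CH -/

/-- The required property of the filter `V`. -/
def TaskFilter (V : Filter ℕ) : Prop :=
  V.NeBot ∧ V ≤ Filter.cofinite ∧ ∀ T : ℕ → Finset ℕ, (∀ m, {n | m ∉ T n} ∈ V) →
    ∃ M : Set ℕ, M.Infinite ∧ {n | ∀ m ∈ M, m ∉ T n} ∈ V

lemma exists_taskFilter (hCH : Cardinal.continuum.{0} ≤ Cardinal.aleph.{0} 1) :
    ∃ V : Filter ℕ, TaskFilter V := by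
  classical
  let Ω := (Cardinal.aleph.{0} 1).ord.ToType
  have hΩ : Cardinal.mk Ω = Cardinal.aleph 1 := Cardinal.mk_ord_toType _
  have hIio : ∀ i : Ω, (Iio i).Countable := by
    intro i
    have h1 : Cardinal.mk (Iio i) < Cardinal.aleph 1 := by
      have := Cardinal.mk_Iio_lt i (by rw [hΩ]; simp [Ω])
      rwa [hΩ] at this
    exact (Cardinal.countable_iff_lt_aleph_one _).2 h1
  have hne : Nonempty Ω := by
    rw [← Cardinal.mk_ne_zero_iff, hΩ]
    exact (Cardinal.aleph_pos 1).ne'
  obtain ⟨e, he⟩ : ∃ e : Ω → (ℕ → Finset ℕ), Function.Surjective e := by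
    have h1 : Cardinal.mk (ℕ → Finset ℕ) ≤ Cardinal.mk Ω := by
      rw [hΩ]
      refine le_trans (le_of_eq ?_) hCH
      rw [← Cardinal.power_def, Cardinal.mk_nat, Cardinal.mk_eq_aleph0 (Finset ℕ)]
      exact Cardinal.aleph0_power_aleph0
    obtain ⟨g⟩ := h1
    exact ⟨Function.invFun g, Function.invFun_surjective g.injective⟩
  -- the recursion
  let step : (i : Ω) → ((j : Ω) → j < i → Set ℕ) → Set ℕ := fun i g =>
    if h : ∃ W : Set ℕ, W.Infinite ∧ (∀ j (hj : j < i), (W \ g j hj).Finite) ∧ Task (e i) W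
    then h.choose else univ
  let f : Ω → Set ℕ := (wellFounded_lt (α := Ω)).fix step
  have hf : ∀ i, f i = step i (fun j _ => f j) := fun i => WellFounded.fix_eq _ _ _
  have hP : ∀ i, (f i).Infinite ∧ (∀ j, j < i → (f i \ f j).Finite) ∧ Task (e i) (f i) := by
    intro i
    induction i using (wellFounded_lt (α := Ω)).induction with
    | _ i ih =>
    have hex : ∃ W : Set ℕ, W.Infinite ∧ (∀ j (_ : j < i), (W \ f j).Finite) ∧ Task (e i) W := by
      have := (hIio i).to_subtype
      obtain ⟨W, hW1, hW2⟩ := exists_pseudo (fun j : Iio i => f j.1) (by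
        intro s
        by_cases hs : s.Nonempty
        · obtain ⟨b, hb, hmax⟩ := s.exists_max_image id hs
          have h1 : (⋂ j ∈ s, f j.1) ⊇ f b.1 \ ⋃ j ∈ s, (f b.1 \ f j.1) := by
            rintro n ⟨hn1, hn2⟩
            simp only [mem_iInter]
            intro j hj
            by_contra hnj
            apply hn2
            simp only [mem_iUnion]
            exact ⟨j, hj, hn1, hnj⟩
          refine Set.Infinite.mono h1 ((ih b.1 b.2).1.sdiff ?_)
          refine Set.Finite.biUnion s.finite_toSet fun j hj => ?_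
          rcases lt_or_eq_of_le (hmax j hj) with h | h
          · exact (ih b.1 b.2).2.1 j.1 h
          · have h2 : j = b := h
            rw [h2, Set.sdiff_self]
            exact finite_empty
        · rw [Finset.not_nonempty_iff_eq_empty] at hs
          subst hs
          simpa using infinite_univ)
      obtain ⟨W', hs, hinf, ht⟩ := exists_task (e i) hW1
      exact ⟨W', hinf, fun j hj => (hW2 ⟨j, hj⟩).subset (sdiff_subset_sdiff_left hs), ht⟩
    have h3 : f i = hex.choose := by
      rw [hf i]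
      show (if h : _ then _ else _) = _
      rw [dif_pos hex]
    rw [h3]
    exact hex.choose_spec
  have hmono : ∀ i j, i ≤ j → (f j \ f i).Finite := by
    intro i j hij
    rcases lt_or_eq_of_le hij with h | h
    · exact (hP j).2.1 i h
    · subst h; rw [Set.sdiff_self]; exact finite_empty
  let V : Filter ℕ :=
    { sets := {A | ∃ i, (f i \ A).Finite}
      univ_sets := ⟨hne.some, by simp⟩
      sets_of_superset := by
        rintro A B ⟨i, hi⟩ hAB
        exact ⟨i, hi.subset (sdiff_subset_sdiff_right hAB)⟩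
      inter_sets := by
        rintro A B ⟨i, hi⟩ ⟨j, hj⟩
        refine ⟨max i j, ?_⟩
        refine (((hmono i (max i j) (le_max_left _ _)).union hi).union
          ((hmono j (max i j) (le_max_right _ _)).union hj)).subset ?_
        rintro n ⟨hn1, hn2⟩
        by_cases h1 : n ∈ A
        · have h2 : n ∉ B := fun h => hn2 ⟨h1, h⟩
          by_cases h3 : n ∈ f j
          · exact Or.inr (Or.inr ⟨h3, h2⟩)
          · exact Or.inr (Or.inl ⟨hn1, h3⟩)
        · by_cases h3 : n ∈ f i
          · exact Or.inl (Or.inr ⟨h3, h1⟩)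
          · exact Or.inl (Or.inl ⟨hn1, h3⟩) }
  have hV : ∀ A, A ∈ V ↔ ∃ i, (f i \ A).Finite := fun A => Iff.rfl
  have hfV : ∀ i, f i ∈ V := fun i => (hV _).2 ⟨i, by rw [Set.sdiff_self]; exact finite_empty⟩
  have hVne : V.NeBot := by
    refine ⟨fun hbot => ?_⟩
    have h1 : (∅ : Set ℕ) ∈ V := by rw [hbot]; trivial
    obtain ⟨i, hi⟩ := (hV _).1 h1
    rw [sdiff_empty] at hi
    exact (hP i).1 hi
  refine ⟨V, hVne, ?_, ?_⟩
  · intro A hA
    refine (hV _).2 ⟨hne.some, ?_⟩
    exact Set.Finite.subset hA (fun n hn => hn.2)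
  · intro T hT
    obtain ⟨i, rfl⟩ := he T
    rcases (hP i).2.2 with ⟨m, hm⟩ | ⟨M, hM, h⟩
    · exfalso
      have h1 := Filter.inter_mem (hfV i) (hT m)
      obtain ⟨n, hn⟩ := hVne.nonempty_of_mem h1
      exact hn.2 (hm n hn.1)
    · exact ⟨M, hM, Filter.mem_of_superset (hfV i) fun n hn => h n hn⟩

/-! ### The filter under CH -/

/-- Nodes of the binary tree. -/
abbrev Nd : Type := Σ n : ℕ, (Fin n → Bool)

/-- The filter on the binary tree: a set belongs to it if it contains the whole level `n` for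
`V`-almost all `n`. -/
def treeFilter (V : Filter ℕ) : Filter Nd where
  sets := {Z | {n | ∀ κ : Fin n → Bool, (⟨n, κ⟩ : Nd) ∈ Z} ∈ V}
  univ_sets := by simp
  sets_of_superset := by
    intro Z W hZ hZW
    exact Filter.mem_of_superset hZ fun n hn κ => hZW (hn κ)
  inter_sets := by
    intro Z W hZ hW
    filter_upwards [hZ, hW] with n h1 h2 κ
    exact ⟨h1 κ, h2 κ⟩

lemma mem_treeFilter {V : Filter ℕ} {Z : Set Nd} :
    Z ∈ treeFilter V ↔ {n | ∀ κ : Fin n → Bool, (⟨n, κ⟩ : Nd) ∈ Z} ∈ V := Iff.rfl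

lemma not_countable_X : ¬ Countable X := by
  intro hX
  have h1 := Cardinal.mk_le_aleph0_iff.2 hX
  have h2 : Cardinal.mk X = Cardinal.continuum := by
    rw [← Cardinal.two_power_aleph0, ← Cardinal.mk_bool, ← Cardinal.mk_nat, Cardinal.power_def]
  rw [h2] at h1
  exact absurd h1 (not_le.2 Cardinal.aleph0_lt_continuum)

lemma exists_of_taskFilter {V : Filter ℕ} (hV : TaskFilter V) :
    ∃ F : Filter ℕ, IsFree F ∧ ¬ IsPoor F ∧ ¬ IsConglomerated F := by
  classical
  obtain ⟨hne, hcof, htask⟩ := hV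
  obtain ⟨e, he⟩ := Countable.exists_injective_nat Nd
  have hlevel : ∀ N : ℕ, {n : ℕ | N < n} ∈ V := by
    intro N
    apply hcof
    rw [Filter.mem_cofinite]
    refine (Set.finite_le_nat N).subset fun n hn => ?_
    simpa using hn
  refine ⟨Filter.map e (treeFilter V), ⟨?_, ?_⟩, ?_, ?_⟩
  · apply Filter.NeBot.map
    refine ⟨fun hbot => ?_⟩
    have h1 : (∅ : Set Nd) ∈ treeFilter V := by rw [hbot]; trivial
    obtain ⟨n, hn⟩ := hne.nonempty_of_mem (mem_treeFilter.1 h1)
    exact hn (fun _ => false)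
  · intro A hA
    rw [Filter.mem_cofinite] at hA
    have h1 : (e ⁻¹' Aᶜ).Finite := hA.preimage he.injOn
    obtain ⟨N, hN⟩ : ∃ N : ℕ, ∀ k ∈ e ⁻¹' Aᶜ, k.1 ≤ N := by
      obtain ⟨N, hN⟩ := (h1.image Sigma.fst).bddAbove
      exact ⟨N, fun k hk => hN (mem_image_of_mem _ hk)⟩
    rw [Filter.mem_map, mem_treeFilter]
    refine Filter.mem_of_superset (hlevel N) fun n hn κ => ?_
    by_contra hcon
    have := hN ⟨n, κ⟩ hcon
    exact absurd hn (not_lt.2 this)
  · intro hpoor
    -- branches
    let B : X → Set ℕ := fun x => e '' {k : Nd | k.2 = res k.1 x}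
    have hpre : ∀ x, e ⁻¹' (B x) = {k : Nd | k.2 = res k.1 x} := fun x => he.preimage_image _
    have hgrill : ∀ x, InGrill (Filter.map e (treeFilter V)) (B x) := by
      intro x hx
      unfold InIdeal at hx
      rw [Filter.mem_map, preimage_compl, hpre, mem_treeFilter] at hx
      obtain ⟨n, hn⟩ := hne.nonempty_of_mem hx
      exact hn (res n x) rfl
    have hinter : ∀ x y, x ≠ y → InIdeal (Filter.map e (treeFilter V)) (B x ∩ B y) := by
      intro x y hxy
      obtain ⟨N, hN⟩ := exists_res_ne hxy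
      unfold InIdeal
      rw [Filter.mem_map, preimage_compl, preimage_inter, hpre, hpre, mem_treeFilter]
      refine Filter.mem_of_superset (hlevel N) fun n hn κ => ?_
      rintro ⟨h1, h2⟩
      have h3 : κ = res n x := h1
      have h4 : κ = res n y := h2
      exact hN n (le_of_lt hn) (h3.symm.trans h4)
    have hinj : Function.Injective B := by
      intro x y hxy
      by_contra hne
      have h1 := hinter x y hne
      rw [← hxy, inter_self] at h1
      exact hgrill x h1
    have hcount := hpoor (Set.range B) (by rintro _ ⟨x, rfl⟩; exact hgrill x) (by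
      rintro _ ⟨x, rfl⟩ _ ⟨y, rfl⟩ hne
      exact hinter x y (fun h => hne (by rw [h])))
    apply not_countable_X
    rw [← Set.countable_univ_iff]
    exact Set.countable_of_injective_of_countable_image (hinj.injOn) (by rwa [image_univ])
  · rintro ⟨D, hD1, hD2, hD3⟩
    -- the levels met by `D m`
    have hfin : ∀ n : ℕ, {m : ℕ | ∃ κ : Fin n → Bool, e ⟨n, κ⟩ ∈ D m}.Finite := by
      intro n
      have h1 : {m : ℕ | ∃ κ : Fin n → Bool, e ⟨n, κ⟩ ∈ D m} ⊆
          ⋃ κ ∈ (Finset.univ : Finset (Fin n → Bool)), {m | e ⟨n, κ⟩ ∈ D m} := by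
        rintro m ⟨κ, hκ⟩
        simp only [mem_iUnion]
        exact ⟨κ, Finset.mem_univ _, hκ⟩
      refine Set.Finite.subset (Set.Finite.biUnion (Finset.finite_toSet _) fun κ _ => ?_) h1
      apply Set.Subsingleton.finite
      intro m hm m' hm'
      by_contra hne
      exact Set.disjoint_left.1 (hD1 m m' hne) hm hm'
    let T : ℕ → Finset ℕ := fun n => (hfin n).toFinset
    have hT : ∀ m n, m ∈ T n ↔ ∃ κ : Fin n → Bool, e ⟨n, κ⟩ ∈ D m := by
      intro m n
      simp [T]
    obtain ⟨M, hM, hMV⟩ := htask T (by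
      intro m
      have h1 := hD2 m
      unfold InIdeal at h1
      rw [Filter.mem_map, mem_treeFilter] at h1
      refine Filter.mem_of_superset h1 fun n hn => ?_
      show m ∉ T n
      rw [hT]
      rintro ⟨κ, hκ⟩
      exact hn κ hκ)
    apply hD3 M hM
    unfold InIdeal
    rw [Filter.mem_map, mem_treeFilter]
    refine Filter.mem_of_superset hMV fun n hn κ => ?_
    intro hmem
    simp only [mem_iUnion] at hmem
    obtain ⟨m, hm, hκ⟩ := hmem
    exact hn m hm ((hT m n).2 ⟨κ, hκ⟩)

/-! ### The filter when CH fails -/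

lemma exists_of_not_CH (hCH : Cardinal.aleph.{0} 1 < Cardinal.continuum.{0}) :
    ∃ F : Filter ℕ, IsFree F ∧ ¬ IsPoor F ∧ ¬ IsConglomerated F := by
  classical
  have hX : Cardinal.mk X = Cardinal.continuum := by
    rw [← Cardinal.two_power_aleph0, ← Cardinal.mk_bool, ← Cardinal.mk_nat, Cardinal.power_def]
  obtain ⟨S, hS⟩ : ∃ S : Set X, Cardinal.mk S = Cardinal.aleph 1 := by
    apply Cardinal.le_mk_iff_exists_set.1
    rw [hX]; exact hCH.le
  obtain ⟨e, he⟩ := Countable.exists_injective_nat Nd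
  let M : X → Set ℕ := fun x => Set.range (fun n => e ⟨n, res n x⟩)
  have hMinf : ∀ x, (M x).Infinite := by
    intro x
    apply infinite_range_of_injective
    intro m n hmn
    exact congrArg Sigma.fst (he hmn)
  have hMfin : ∀ x y, x ≠ y → (M x ∩ M y).Finite := by
    intro x y hxy
    obtain ⟨n, hn⟩ := exists_res_ne hxy
    refine ((Set.finite_lt_nat n).image (fun m => e ⟨m, res m x⟩)).subset ?_
    rintro _ ⟨⟨m, rfl⟩, ⟨m', hm'⟩⟩
    refine ⟨m, ?_, rfl⟩
    have h1 := he hm'
    have h2 : m' = m := congrArg Sigma.fst h1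
    subst h2
    by_contra h3
    apply hn m' (not_lt.1 h3)
    exact (eq_of_heq (Sigma.mk.inj h1).2).symm
  have hult : ∀ x, ∃ U : Ultrafilter ℕ, (U : Filter ℕ) ≤ Filter.cofinite ⊓ Filter.principal (M x) := by
    intro x
    have : (Filter.cofinite ⊓ Filter.principal (M x)).NeBot := by
      rw [Filter.cofinite_inf_principal_neBot_iff]
      exact hMinf x
    exact Ultrafilter.exists_le _
  choose U hU using hult
  let F : Filter ℕ := ⨆ x : S, (U x.1 : Filter ℕ)
  have hF : ∀ A : Set ℕ, A ∈ F ↔ ∀ x : S, A ∈ U x.1 := by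
    intro A
    simp only [F, Filter.mem_iSup, Ultrafilter.mem_coe]
  have hSne : Nonempty S := by
    rw [← Cardinal.mk_ne_zero_iff, hS]
    exact (Cardinal.aleph_pos 1).ne'
  have hMU : ∀ x, M x ∈ U x := fun x => by
    have := (hU x).trans inf_le_right
    exact Filter.le_principal_iff.1 this
  have hfree : IsFree F := by
    constructor
    · refine ⟨fun hbot => ?_⟩
      have h1 : (∅ : Set ℕ) ∈ F := by rw [hbot]; trivial
      exact Ultrafilter.empty_notMem ((hF _).1 h1 hSne.some)
    · exact iSup_le fun x => (hU x.1).trans inf_le_left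
  have hfinI : ∀ A : Set ℕ, A.Finite → InIdeal F A := by
    intro A hA
    apply hfree.2
    rw [Filter.mem_cofinite, compl_compl]
    exact hA
  refine ⟨F, hfree, ?_, ?_⟩
  · intro hpoor
    have hgr : ∀ x : S, InGrill F (M x.1) := by
      intro x hx
      have h1 := (hF _).1 hx x
      exact (Ultrafilter.compl_mem_iff_notMem.1 h1) (hMU x.1)
    have hinj : Function.Injective (fun x : S => M x.1) := by
      intro x y hxy
      by_contra hne
      have h1 := hMfin x.1 y.1 (fun h => hne (Subtype.ext h))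
      have h2 : M x.1 = M y.1 := hxy
      rw [← h2, inter_self] at h1
      exact hMinf x.1 h1
    have hcount := hpoor (Set.range (fun x : S => M x.1)) (by rintro _ ⟨x, rfl⟩; exact hgr x) (by
      rintro _ ⟨x, rfl⟩ _ ⟨y, rfl⟩ hne
      exact hfinI _ (hMfin _ _ (fun h => hne (by simp only [h]))))
    have hcS : Countable S := by
      rw [← Set.countable_univ_iff]
      exact Set.countable_of_injective_of_countable_image (hinj.injOn) (by rwa [image_univ])
    have h1 := Cardinal.mk_le_aleph0_iff.2 hcS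
    rw [hS] at h1
    exact absurd h1 (not_le.2 Cardinal.aleph0_lt_aleph_one)
  · rintro ⟨D, hD1, hD2, hD3⟩
    let Y : X → Set ℕ := fun x => ⋃ n ∈ M x, D n
    have hYinter : ∀ x y, x ≠ y → InIdeal F (Y x ∩ Y y) := by
      intro x y hxy
      have h1 : Y x ∩ Y y ⊆ ⋃ n ∈ M x ∩ M y, D n := by
        rintro k ⟨hk1, hk2⟩
        simp only [Y, mem_iUnion] at hk1 hk2
        obtain ⟨m, hm, hkm⟩ := hk1
        obtain ⟨m', hm', hkm'⟩ := hk2
        have h2 : m = m' := by
          by_contra hne
          exact (Set.disjoint_left.1 (hD1 m m' hne) hkm) hkm'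
        subst h2
        simp only [mem_iUnion]
        exact ⟨m, ⟨hm, hm'⟩, hkm⟩
      unfold InIdeal
      have h3 : (⋃ n ∈ M x ∩ M y, D n)ᶜ ∈ F := by
        rw [compl_iUnion₂]
        exact (Filter.biInter_mem (hMfin x y hxy)).2 (fun n _ => hD2 n)
      exact Filter.mem_of_superset h3 (compl_subset_compl.2 h1)
    have hs : ∀ x, ∃ s : S, Y x ∈ U s.1 := by
      intro x
      have h1 : (Y x)ᶜ ∉ F := hD3 (M x) (hMinf x)
      rw [hF] at h1
      push Not at h1
      obtain ⟨s, hs⟩ := h1
      exact ⟨s, Ultrafilter.compl_notMem_iff.1 hs⟩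
    choose s hs using hs
    have hninj : ¬ Function.Injective s := by
      intro hinj
      have h1 := Cardinal.mk_le_of_injective hinj
      rw [hS, hX] at h1
      exact absurd hCH (not_lt.2 h1)
    apply hninj
    intro x y hxy
    by_contra hne
    have h1 := (hF _).1 (hYinter x y hne) (s x)
    have h2 := Filter.inter_mem (hs x) (hxy ▸ hs y)
    exact (Ultrafilter.compl_mem_iff_notMem.1 h1) h2

/-- In ZFC there is a free filter on `ℕ` which is neither poor nor conglomerated. -/
theorem exists_not_poor_not_conglomerated :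
    ∃ F : Filter ℕ, IsFree F ∧ ¬ IsPoor F ∧ ¬ IsConglomerated F := by
  by_cases h : Cardinal.continuum.{0} ≤ Cardinal.aleph.{0} 1
  · obtain ⟨V, hV⟩ := exists_taskFilter h
    exact exists_of_taskFilter hV
  · exact exists_of_not_CH (not_le.1 h)

end Pool.Agent.R291
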