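import Pool.Agent.R291.FilterDefs

/-!
A poor free filter on `ℕ` which is not generated by a statistical measure (Gaifman's algebra,
embedded densely in `P(ℕ)/I` for a maximal ideal `I`).
-/

open Set

namespace Pool.Agent.R291

/-- Points of the Cantor space. -/
abbrev X : Type := ℕ → Bool

/-- Restriction to the first `n` bits. -/
def res (n : ℕ) (x : X) : Fin n → Bool := fun i => x i

lemma res_eq_of_le {m n : ℕ} (h : m ≤ n) {x y : X} (hxy : res n x = res n y) : res m x = res m y := by
  funext i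
  exact congrFun hxy ⟨i, lt_of_lt_of_le i.2 h⟩

lemma exists_res_ne {x y : X} (h : x ≠ y) : ∃ n, ∀ m, n ≤ m → res m x ≠ res m y := by
  obtain ⟨i, hi⟩ := Function.ne_iff.1 h
  exact ⟨i + 1, fun m hm h2 => hi (congrFun h2 ⟨i, hm⟩)⟩

/-- A separating length for a finite set of points. -/
lemma exists_sep (s : Finset X) : ∃ n, ∀ m, n ≤ m → ∀ x ∈ s, ∀ y ∈ s, res m x = res m y → x = y := by
  classical
  have h : ∀ p : X × X, ∃ n, ∀ m, n ≤ m → res m p.1 = res m p.2 → p.1 = p.2 := by
    intro p
    by_cases hp : p.1 = p.2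
    · exact ⟨0, fun m _ _ => hp⟩
    · obtain ⟨n, hn⟩ := exists_res_ne hp
      exact ⟨n, fun m hm h2 => absurd h2 (hn m hm)⟩
  choose N hN using h
  refine ⟨(s ×ˢ s).sup N, fun m hm x hx y hy hxy => hN (x, y) m ?_ hxy⟩
  exact (Finset.le_sup (f := N) (Finset.mk_mem_product hx hy)).trans hm

/-- There is an independent family of subsets of `ℕ` indexed by the Cantor space. -/
lemma exists_indep : ∃ A : X → Set ℕ, ∀ a b : Finset X, Disjoint a b →
    ((⋂ x ∈ a, A x) ∩ (⋂ y ∈ b, (A y)ᶜ)).Infinite := by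
  classical
  let T := Σ n : ℕ, Finset (Fin n → Bool)
  obtain ⟨e, he⟩ := exists_injective_nat T
  refine ⟨fun x => {k | ∃ t : T, e t = k ∧ res t.1 x ∈ t.2}, fun a b hab => ?_⟩
  obtain ⟨n, hn⟩ := exists_sep (a ∪ b)
  let g : ℕ → T := fun m => ⟨n + m, a.image (res (n + m))⟩
  have hg : Function.Injective (fun m => e (g m)) := by
    intro m m' h
    have h2 : g m = g m' := he h
    have h3 : n + m = n + m' := congrArg Sigma.fst h2
    omega
  refine (infinite_range_of_injective hg).mono ?_
  rintro _ ⟨m, rfl⟩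
  refine ⟨?_, ?_⟩
  · simp only [mem_iInter]
    intro x hx
    exact ⟨g m, rfl, Finset.mem_image_of_mem _ hx⟩
  · simp only [mem_iInter]
    intro y hy
    rintro ⟨t, ht, hty⟩
    have h4 : t = g m := he ht
    subst h4
    obtain ⟨x, hx, hxy⟩ := Finset.mem_image.1 hty
    have h5 : x = y := hn (n + m) (Nat.le_add_right _ _) x (Finset.mem_union_left _ hx) y
      (Finset.mem_union_right _ hy) hxy
    subst h5
    exact (Finset.disjoint_left.1 hab hx) hy
where
  exists_injective_nat (T : Type) [Countable T] : ∃ e : T → ℕ, Function.Injective e :=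
    Countable.exists_injective_nat T

open Classical in
/-- The nodes of length `2 l` met by `a` below the node `σ` of length `l`. -/
noncomputable def nodes (a : Finset X) (l : ℕ) (σ : Fin l → Bool) : Finset (Fin (2 * l) → Bool) :=
  (a.filter (fun x => res l x = σ)).image (res (2 * l))

/-- The admissible finite sets: below every node `σ` of length `l` at most `l + 1` nodes of length
`2 l` are met. -/
def Adm (a : Finset X) : Prop := ∀ (l : ℕ) (σ : Fin l → Bool), (nodes a l σ).card ≤ l + 1

lemma mem_nodes {a : Finset X} {l : ℕ} {σ : Fin l → Bool} {τ : Fin (2 * l) → Bool} :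
    τ ∈ nodes a l σ ↔ ∃ x ∈ a, res l x = σ ∧ res (2 * l) x = τ := by
  classical
  simp only [nodes, Finset.mem_image, Finset.mem_filter, and_assoc]

lemma nodes_card_le {a : Finset X} (l : ℕ) (σ : Fin l → Bool) : (nodes a l σ).card ≤ a.card := by
  classical
  exact Finset.card_image_le.trans (Finset.card_filter_le _ _)

lemma Adm.mono {a b : Finset X} (h : Adm a) (hba : b ⊆ a) : Adm b := by
  intro l σ
  refine (Finset.card_le_card ?_).trans (h l σ)
  intro τ hτ
  obtain ⟨x, hx, h1, h2⟩ := mem_nodes.1 hτ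
  exact mem_nodes.2 ⟨x, hba hx, h1, h2⟩

lemma adm_empty : Adm ∅ := fun l σ => (nodes_card_le l σ).trans (by simp)

lemma adm_singleton (x : X) : Adm {x} := fun l σ => (nodes_card_le l σ).trans (by simp)

open Classical in
/-- The code of a finite set: its cardinality and its restriction to a suitable level. -/
noncomputable def code (a : Finset X) : Σ m : ℕ, Finset (Fin (4 * m) → Bool) :=
  ⟨a.card, a.image (res (4 * a.card))⟩

open Classical in
lemma adm_union {a b : Finset X} (ha : Adm a) (h : code a = code b) : Adm (a ∪ b) := by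
  have hcard : a.card = b.card := congrArg Sigma.fst h
  have himg : a.image (res (4 * a.card)) = b.image (res (4 * a.card)) := by
    unfold code at h
    rw [← hcard] at h
    simpa using h
  intro l σ
  by_cases hl : 2 * a.card ≤ l + 1
  · refine (nodes_card_le l σ).trans ((Finset.card_union_le a b).trans ?_)
    omega
  · refine (Finset.card_le_card ?_).trans (ha l σ)
    intro τ hτ
    obtain ⟨x, hx, h1, h2⟩ := mem_nodes.1 hτ
    rcases Finset.mem_union.1 hx with hx | hx
    · exact mem_nodes.2 ⟨x, hx, h1, h2⟩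
    · have h3 : res (4 * a.card) x ∈ a.image (res (4 * a.card)) := by
        rw [himg]; exact Finset.mem_image_of_mem _ hx
      obtain ⟨y, hy, hyx⟩ := Finset.mem_image.1 h3
      refine mem_nodes.2 ⟨y, hy, ?_, ?_⟩
      · rw [← h1]; exact res_eq_of_le (by omega) hyx
      · rw [← h2]; exact res_eq_of_le (by omega) hyx

/-- `E a = ⋂ x ∈ a, A x`. -/
def E (A : X → Set ℕ) (a : Finset X) : Set ℕ := ⋂ x ∈ a, A x

open Classical in
lemma E_union (A : X → Set ℕ) (a b : Finset X) : E A (a ∪ b) = E A a ∩ E A b := by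
  ext k
  simp only [E, mem_iInter, mem_inter_iff, Finset.mem_union]
  constructor
  · intro h; exact ⟨fun x hx => h x (Or.inl hx), fun x hx => h x (Or.inr hx)⟩
  · rintro ⟨h1, h2⟩ x (hx | hx)
    · exact h1 x hx
    · exact h2 x hx

lemma E_anti (A : X → Set ℕ) {a b : Finset X} (h : a ⊆ b) : E A b ⊆ E A a := by
  intro k hk
  simp only [E, mem_iInter] at hk ⊢
  exact fun x hx => hk x (h hx)

/-- The base filter: generated by the cofinite sets and the complements of `E a`, `a` not
admissible. -/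
def base (A : X → Set ℕ) : Filter ℕ :=
  Filter.cofinite ⊓ ⨅ a : {a : Finset X // ¬ Adm a}, Filter.principal (E A a.1)ᶜ

/-- The defining requirements. -/
def Good (A : X → Set ℕ) (F : Filter ℕ) : Prop := F ≤ base A ∧ ∀ a, Adm a → (E A a)ᶜ ∉ F

lemma base_good {A : X → Set ℕ} (hA : ∀ a b : Finset X, Disjoint a b →
    ((⋂ x ∈ a, A x) ∩ (⋂ y ∈ b, (A y)ᶜ)).Infinite) : Good A (base A) := by
  classical
  refine ⟨le_rfl, fun a ha hmem => ?_⟩
  rw [base, Filter.mem_inf_iff] at hmem
  obtain ⟨s, hs, t, ht, hst⟩ := hmem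
  rw [Filter.mem_iInf] at ht
  obtain ⟨I, hI, V, hV, rfl⟩ := ht
  -- choose points
  have hpt : ∀ i : I, ∃ y, y ∈ i.1.1 ∧ y ∉ a := by
    intro i
    by_contra hcon
    push Not at hcon
    exact i.1.2 (ha.mono hcon)
  choose y hy1 hy2 using hpt
  have := hI.fintype
  have hdis : Disjoint a (Finset.univ.image y) := by
    rw [Finset.disjoint_left]
    rintro x hx hx2
    obtain ⟨i, -, rfl⟩ := Finset.mem_image.1 hx2
    exact hy2 i hx
  have hinf := hA a _ hdis
  obtain ⟨k, hk1, hk2⟩ := hinf.exists_notMem_finite hs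
  rw [notMem_compl_iff] at hk2
  have hkE : k ∈ E A a := hk1.1
  have hkt : k ∈ ⋂ i : I, V i := by
    rw [mem_iInter]
    intro i
    apply (Filter.mem_principal.1 (hV i))
    intro hkE'
    have h1 : k ∈ A (y i) := by
      simp only [E, mem_iInter] at hkE'
      exact hkE' _ (hy1 i)
    have h2 := hk1.2
    simp only [mem_iInter] at h2
    exact h2 (y i) (Finset.mem_image_of_mem _ (Finset.mem_univ i)) h1
  have : k ∈ (E A a)ᶜ := by
    rw [hst]; exact ⟨hk2, hkt⟩
  exact this hkE

lemma exists_minimal_good {A : X → Set ℕ} (h0 : Good A (base A)) :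
    ∃ F, Good A F ∧ ∀ F', Good A F' → F' ≤ F → F ≤ F' := by
  have hz := zorn_le₀ (α := (Filter ℕ)ᵒᵈ) {F | Good A (OrderDual.ofDual F)} ?_
  · obtain ⟨m, hm⟩ := hz
    refine ⟨OrderDual.ofDual m, hm.prop, fun F' hF' hle => ?_⟩
    exact hm.le_of_ge hF' hle
  · intro c hc hchain
    by_cases hne : c.Nonempty
    · refine ⟨OrderDual.toDual (sInf (OrderDual.ofDual '' c)), ⟨?_, ?_⟩, ?_⟩
      · obtain ⟨F, hF⟩ := hne
        exact (sInf_le (mem_image_of_mem _ hF)).trans (hc hF).1
      · intro a ha hmem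
        have hdir : DirectedOn (· ≥ ·) (OrderDual.ofDual '' c) := by
          rintro _ ⟨F, hF, rfl⟩ _ ⟨F', hF', rfl⟩
          rcases hchain.total hF hF' with h | h
          · exact ⟨_, mem_image_of_mem _ hF', h, le_rfl⟩
          · exact ⟨_, mem_image_of_mem _ hF, le_rfl, h⟩
        have hmem' : (E A a)ᶜ ∈ ⨅ F ∈ (OrderDual.ofDual '' c), F := by
          have h5 : sInf (OrderDual.ofDual '' c) = ⨅ F ∈ (OrderDual.ofDual '' c), F := sInf_eq_iInf
          rw [← h5]; exact hmem
        rw [Filter.mem_biInf_of_directed hdir (hne.image _)] at hmem'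
        obtain ⟨_, ⟨F, hF, rfl⟩, h⟩ := hmem'
        exact (hc hF).2 a ha h
      · intro F hF
        exact (sInf_le (mem_image_of_mem _ hF) : sInf (OrderDual.ofDual '' c) ≤ OrderDual.ofDual F)
    · exact ⟨OrderDual.toDual (base A), h0, fun F hF => absurd ⟨F, hF⟩ hne⟩

/-- The filter dual to a maximal ideal of the required kind, together with its family. -/
lemma exists_filter : ∃ (A : X → Set ℕ) (F : Filter ℕ), Good A F ∧
    ∀ Z : Set ℕ, InGrill F Z → ∃ a, Adm a ∧ Z ∪ (E A a)ᶜ ∈ F := by
  obtain ⟨A, hA⟩ := exists_indep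
  obtain ⟨F, hF, hmin⟩ := exists_minimal_good (base_good hA)
  refine ⟨A, F, hF, fun Z hZ => ?_⟩
  by_contra hcon
  push Not at hcon
  apply hZ
  have hgood : Good A (F ⊓ Filter.principal Zᶜ) := by
    refine ⟨inf_le_left.trans hF.1, fun a ha hmem => hcon a ha ?_⟩
    rw [Filter.mem_inf_principal] at hmem
    refine Filter.mem_of_superset hmem fun k hk => ?_
    by_cases hkZ : k ∈ Z
    · exact Or.inl hkZ
    · exact Or.inr (hk hkZ)
  have hle := hmin _ hgood inf_le_left
  exact hle (Filter.mem_inf_of_right (Filter.mem_principal_self _))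

lemma good_free {A : X → Set ℕ} {F : Filter ℕ} (h : Good A F) : IsFree F := by
  refine ⟨⟨fun hbot => h.2 ∅ adm_empty (by rw [hbot]; trivial)⟩, h.1.trans inf_le_left⟩

lemma good_not_adm {A : X → Set ℕ} {F : Filter ℕ} (h : Good A F) {a : Finset X} (ha : ¬ Adm a) :
    (E A a)ᶜ ∈ F := by
  apply h.1
  apply Filter.mem_inf_of_right
  exact Filter.mem_iInf_of_mem (⟨a, ha⟩ : {a : Finset X // ¬ Adm a}) (Filter.mem_principal_self _)

lemma poor_of_dense {A : X → Set ℕ} {F : Filter ℕ} (h : Good A F)
    (hd : ∀ Z : Set ℕ, InGrill F Z → ∃ a, Adm a ∧ Z ∪ (E A a)ᶜ ∈ F) : IsPoor F := by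
  classical
  intro 𝒜 h1 h2
  choose g hg1 hg2 using fun Z : 𝒜 => hd Z.1 (h1 Z.1 Z.2)
  have hinj : Function.Injective (fun Z : 𝒜 => code (g Z)) := by
    intro Z W hZW
    by_contra hne
    have h3 : InIdeal F (Z.1 ∩ W.1) := h2 _ Z.2 _ W.2 (fun h => hne (Subtype.ext h))
    refine h.2 _ (adm_union (hg1 Z) hZW) ?_
    rw [E_union]
    filter_upwards [h3, hg2 Z, hg2 W] with k k1 k2 k3 k4
    apply k1
    constructor
    · rcases k2 with k2 | k2
      · exact k2
      · exact absurd k4.1 k2
    · rcases k3 with k3 | k3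
      · exact k3
      · exact absurd k4.2 k3
  exact Set.countable_coe_iff.1 hinj.countable

/-! ### Finitely additive measures -/

lemma stat_empty {μ : Set ℕ → ℝ} (h : IsStatMeasure μ) : μ ∅ = 0 := by
  have := h.additive ∅ ∅ (disjoint_empty _)
  rw [union_empty] at this
  linarith

lemma stat_mono {μ : Set ℕ → ℝ} (h : IsStatMeasure μ) {A B : Set ℕ} (hAB : A ⊆ B) : μ A ≤ μ B := by
  have := h.additive A (B \ A) disjoint_sdiff_right
  rw [union_sdiff_cancel hAB] at this
  have := h.nonneg (B \ A)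
  linarith

lemma stat_compl {μ : Set ℕ → ℝ} (h : IsStatMeasure μ) (A : Set ℕ) : μ Aᶜ = 1 - μ A := by
  have := h.additive A Aᶜ disjoint_compl_right
  rw [union_compl_self, h.univ] at this
  linarith

lemma stat_biUnion {μ : Set ℕ → ℝ} (h : IsStatMeasure μ) {ι : Type} [DecidableEq ι] (s : Finset ι)
    (B : ι → Set ℕ) (hB : ∀ i ∈ s, ∀ j ∈ s, i ≠ j → Disjoint (B i) (B j)) :
    μ (⋃ i ∈ s, B i) = ∑ i ∈ s, μ (B i) := by
  induction s using Finset.induction_on with
  | empty => simp [stat_empty h]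
  | insert a s ha ih =>
    rw [Finset.set_biUnion_insert, Finset.sum_insert ha, h.additive, ih]
    · intro i hi j hj
      exact hB i (Finset.mem_insert_of_mem hi) j (Finset.mem_insert_of_mem hj)
    · rw [disjoint_iUnion₂_right]
      intro i hi
      exact hB a (Finset.mem_insert_self _ _) i (Finset.mem_insert_of_mem hi)
        (fun h => ha (h ▸ hi))

open Classical in
/-- If more than `c` of the sets `B i` always have null intersection, then `∑ μ (B i) ≤ c`. -/
lemma sum_le_of_overlap {μ : Set ℕ → ℝ} (h : IsStatMeasure μ) {ι : Type} [Fintype ι]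
    (B : ι → Set ℕ) (c : ℕ) (hc : ∀ S : Finset ι, c < S.card → μ (⋂ i ∈ S, B i) = 0) :
    ∑ i, μ (B i) ≤ c := by
  let P : Finset ι → Set ℕ := fun S => {k | ∀ i, k ∈ B i ↔ i ∈ S}
  have hdis : ∀ S T : Finset ι, S ≠ T → Disjoint (P S) (P T) := by
    intro S T hST
    rw [Set.disjoint_left]
    intro k h1 h2
    apply hST
    ext i
    rw [← h1 i, h2 i]
  have hunion : ∀ Z : Set ℕ, μ Z = ∑ S : Finset ι, μ (Z ∩ P S) := by
    intro Z
    rw [← stat_biUnion h Finset.univ (fun S => Z ∩ P S)]
    · congr 1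
      ext k
      simp only [Finset.mem_univ, iUnion_true, mem_iUnion, mem_inter_iff]
      constructor
      · intro hk
        exact ⟨Finset.univ.filter (fun i => k ∈ B i), hk, fun i => by simp⟩
      · rintro ⟨S, hk, -⟩
        exact hk
    · intro S _ T _ hST
      exact (hdis S T hST).mono inter_subset_right inter_subset_right
  have h1 : ∀ i, μ (B i) = ∑ S : Finset ι, if i ∈ S then μ (P S) else 0 := by
    intro i
    rw [hunion (B i)]
    refine Finset.sum_congr rfl fun S _ => ?_
    split_ifs with hi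
    · congr 1
      ext k
      simp only [mem_inter_iff, and_iff_right_iff_imp]
      intro hk
      exact (hk i).2 hi
    · have : B i ∩ P S = ∅ := by
        ext k
        simp only [mem_inter_iff, mem_empty_iff_false, iff_false, not_and]
        intro hk hP
        exact hi ((hP i).1 hk)
      rw [this, stat_empty h]
  have h2 : ∑ i, μ (B i) = ∑ S : Finset ι, (S.card : ℝ) * μ (P S) := by
    simp_rw [h1]
    rw [Finset.sum_comm]
    refine Finset.sum_congr rfl fun S _ => ?_
    rw [← Finset.sum_filter, Finset.sum_const, nsmul_eq_mul]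
    congr 2
    simp
  rw [h2]
  have h3 : ∑ S : Finset ι, μ (P S) = 1 := by
    have := hunion Set.univ
    rw [h.univ] at this
    rw [this]
    refine Finset.sum_congr rfl fun S _ => ?_
    rw [univ_inter]
  calc ∑ S : Finset ι, (S.card : ℝ) * μ (P S) ≤ ∑ S : Finset ι, (c : ℝ) * μ (P S) := by
        refine Finset.sum_le_sum fun S _ => ?_
        by_cases hS : S.card ≤ c
        · exact mul_le_mul_of_nonneg_right (by exact_mod_cast hS) (h.nonneg _)
        · have h4 : μ (P S) = 0 := by
            apply le_antisymm _ (h.nonneg _)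
            rw [← hc S (not_le.1 hS)]
            apply stat_mono h
            intro k hk
            simp only [mem_iInter]
            exact fun i hi => (hk i).2 hi
          rw [h4]; simp
    _ = c := by rw [← Finset.mul_sum, h3, mul_one]

/-! ### No statistical measure -/

/-- Adding the `l` bits `t` after the first `l` bits of `x`. -/
def ext2 (l : ℕ) (x : X) (t : Fin l → Bool) : X := fun i =>
  if h : l ≤ i ∧ i < 2 * l then t ⟨i - l, by omega⟩ else x i

lemma ext2_lt {l : ℕ} {x : X} {t : Fin l → Bool} {i : ℕ} (h : i < l) : ext2 l x t i = x i := by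
  unfold ext2
  rw [dif_neg (by omega)]

lemma ext2_inj {l : ℕ} {x : X} {t t' : Fin l → Bool} {y y' : X}
    (hy : res (2 * l) y = res (2 * l) (ext2 l x t)) (hy' : res (2 * l) y' = res (2 * l) (ext2 l x t'))
    (h : res (2 * l) y = res (2 * l) y') : t = t' := by
  rw [hy, hy'] at h
  funext i
  have h1 := congrFun h ⟨l + i, by omega⟩
  simp only [res, ext2] at h1
  rw [dif_pos (by omega), dif_pos (by omega)] at h1
  simpa using h1

/-- In a somewhere dense set of points one finds `y t`, `t ∈ 2^l`, extending the same node. -/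
lemma exists_large {S : Set X} (hS : (interior (closure S)).Nonempty) (L : ℕ) :
    ∃ l, L ≤ l ∧ ∃ (x : X) (y : (Fin l → Bool) → X), (∀ t, y t ∈ S) ∧
      ∀ t, res (2 * l) (y t) = res (2 * l) (ext2 l x t) := by
  obtain ⟨x, hx⟩ := hS
  obtain ⟨v, hv, hxv, hvS⟩ := (PiNat.isTopologicalBasis_cylinders (fun _ : ℕ => Bool)).exists_subset_of_mem_open
    hx isOpen_interior
  obtain ⟨z, n, rfl⟩ := hv
  refine ⟨max n L, le_max_right _ _, x, ?_⟩
  have hcl : ∀ t : Fin (max n L) → Bool, ∃ y ∈ S,
      res (2 * max n L) y = res (2 * max n L) (ext2 (max n L) x t) := by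
    intro t
    have h1 : ext2 (max n L) x t ∈ closure S := by
      apply interior_subset
      apply hvS
      intro i hi
      rw [ext2_lt (lt_of_lt_of_le hi (le_max_left _ _))]
      exact hxv i hi
    have h2 := mem_closure_iff.1 h1 (PiNat.cylinder (ext2 (max n L) x t) (2 * max n L))
      (PiNat.isOpen_cylinder _ _ _) (PiNat.self_mem_cylinder _ _)
    obtain ⟨y, hy1, hy2⟩ := h2
    exact ⟨y, hy2, funext fun i => hy1 i i.2⟩
  choose y hy1 hy2 using hcl
  exact ⟨y, hy1, hy2⟩

lemma not_generated {A : X → Set ℕ} {F : Filter ℕ} (h : Good A F) : ¬ IsGenerated F := by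
  classical
  rintro ⟨μ, hμ, hgen⟩
  have hpos : ∀ x, 0 < μ (A x) := by
    intro x
    have h1 := h.2 {x} (adm_singleton x)
    have h2 : E A {x} = A x := by simp [E]
    rw [h2, hgen, stat_compl hμ] at h1
    have h3 := hμ.nonneg (A x)
    by_contra h4
    exact h1 (by linarith)
  have hnull : ∀ a, ¬ Adm a → μ (E A a) = 0 := by
    intro a ha
    have h1 := good_not_adm h ha
    rw [hgen, stat_compl hμ] at h1
    linarith
  -- Baire
  let S : ℕ → Set X := fun j => {x | 1 / ((j : ℝ) + 1) < μ (A x)}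
  have hcov : ⋃ j, closure (S j) = univ := by
    rw [eq_univ_iff_forall]
    intro x
    obtain ⟨j, hj⟩ := exists_nat_one_div_lt (hpos x)
    exact mem_iUnion.2 ⟨j, subset_closure hj⟩
  obtain ⟨j, hj⟩ := nonempty_interior_of_iUnion_of_closed (fun j => isClosed_closure) hcov
  -- choose a level
  obtain ⟨L, hL⟩ : ∃ L : ℕ, ∀ l, L ≤ l → (l + 1) * (j + 1) < 2 ^ l := by
    have h1 := Filter.Tendsto.eventually_lt_const (u := 1 / (2 * ((j : ℝ) + 1))) (by positivity)
      (tendsto_pow_const_div_const_pow_of_one_lt 1 (one_lt_two : (1 : ℝ) < 2))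
    obtain ⟨L, hL⟩ := Filter.eventually_atTop.1 h1
    refine ⟨max L 1, fun l hl => ?_⟩
    have h2 := hL l ((le_max_left _ _).trans hl)
    have hl1 : 1 ≤ l := (le_max_right _ _).trans hl
    rw [pow_one, div_lt_div_iff₀ (by positivity) (by positivity), one_mul] at h2
    have h3 : (l : ℝ) + 1 ≤ 2 * l := by
      have : (1 : ℝ) ≤ l := by exact_mod_cast hl1
      linarith
    have h4 : ((l : ℝ) + 1) * ((j : ℝ) + 1) < 2 ^ l := by nlinarith
    exact_mod_cast h4
  obtain ⟨l, hl, x, y, hyS, hy⟩ := exists_large hj L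
  have hyinj : ∀ t t', res (2 * l) (y t) = res (2 * l) (y t') → t = t' := fun t t' h1 =>
    ext2_inj (hy t) (hy t') h1
  have hover : ∀ T : Finset (Fin l → Bool), l + 1 < T.card → μ (⋂ t ∈ T, A (y t)) = 0 := by
    intro T hT
    have h1 : (⋂ t ∈ T, A (y t)) = E A (T.image y) := by
      ext k
      simp [E]
    rw [h1]
    apply hnull
    intro hadm
    have h2 := hadm l (res l x)
    have h3 : T.card ≤ (nodes (T.image y) l (res l x)).card := by
      have h4 : (T.image (fun t => res (2 * l) (y t))).card = T.card :=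
        Finset.card_image_of_injective _ (fun t t' h => hyinj t t' h)
      rw [← h4]
      apply Finset.card_le_card
      intro τ hτ
      obtain ⟨t, ht, rfl⟩ := Finset.mem_image.1 hτ
      refine mem_nodes.2 ⟨y t, Finset.mem_image_of_mem _ ht, ?_, rfl⟩
      rw [res_eq_of_le (by omega : l ≤ 2 * l) (hy t)]
      funext i
      exact ext2_lt i.2
    omega
  have hsum := sum_le_of_overlap hμ (fun t => A (y t)) (l + 1) hover
  have hlow : (2 : ℝ) ^ l * (1 / ((j : ℝ) + 1)) ≤ ∑ t : Fin l → Bool, μ (A (y t)) := by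
    have h1 : ∑ t : Fin l → Bool, (1 / ((j : ℝ) + 1)) ≤ ∑ t : Fin l → Bool, μ (A (y t)) :=
      Finset.sum_le_sum fun t _ => le_of_lt (hyS t)
    rw [Finset.sum_const, Finset.card_univ, Fintype.card_fun, Fintype.card_bool, Fintype.card_fin,
      nsmul_eq_mul] at h1
    push_cast at h1
    exact h1
  have h5 := hL l hl
  have h6 : ((l : ℝ) + 1) * ((j : ℝ) + 1) < 2 ^ l := by exact_mod_cast h5
  have h7 : (0 : ℝ) < (j : ℝ) + 1 := by positivity
  have h8 : (2 : ℝ) ^ l * (1 / ((j : ℝ) + 1)) ≤ (l : ℝ) + 1 := by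
    push_cast at hsum
    linarith
  rw [mul_one_div, div_le_iff₀ h7] at h8
  linarith

/-! ### Poor filters are not conglomerated -/

lemma not_conglomerated_of_poor {F : Filter ℕ} (h : IsPoor F) : ¬ IsConglomerated F := by
  classical
  rintro ⟨D, hD1, hD2, hD3⟩
  let T := Σ n : ℕ, (Fin n → Bool)
  obtain ⟨e, he⟩ := Countable.exists_injective_nat T
  let M : X → Set ℕ := fun x => Set.range (fun n => e ⟨n, res n x⟩)
  have hMinf : ∀ x, (M x).Infinite := by
    intro x
    apply infinite_range_of_injective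
    intro m n hmn
    exact congrArg Sigma.fst (he hmn)
  have hMfin : ∀ x y, x ≠ y → (M x ∩ M y).Finite := by
    intro x y hxy
    obtain ⟨n, hn⟩ := exists_res_ne hxy
    refine ((Set.finite_lt_nat n).image (fun m => e ⟨m, res m x⟩)).subset ?_
    rintro _ ⟨⟨m, rfl⟩, ⟨m', hm'⟩⟩
    refine ⟨m, ?_, rfl⟩
    have h1 := he hm'
    have h2 : m' = m := congrArg Sigma.fst h1
    subst h2
    by_contra h3
    apply hn m' (not_lt.1 h3)
    exact (eq_of_heq (Sigma.mk.inj h1).2).symm
  let Y : X → Set ℕ := fun x => ⋃ n ∈ M x, D n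
  have hYinter : ∀ x y, x ≠ y → InIdeal F (Y x ∩ Y y) := by
    intro x y hxy
    have h1 : Y x ∩ Y y ⊆ ⋃ n ∈ M x ∩ M y, D n := by
      rintro k ⟨hk1, hk2⟩
      simp only [Y, mem_iUnion] at hk1 hk2
      obtain ⟨m, hm, hkm⟩ := hk1
      obtain ⟨m', hm', hkm'⟩ := hk2
      have h2 : m = m' := by
        by_contra hne
        exact (Set.disjoint_left.1 (hD1 m m' hne) hkm) hkm'
      subst h2
      simp only [mem_iUnion]
      exact ⟨m, ⟨hm, hm'⟩, hkm⟩
    unfold InIdeal
    have h3 : (⋃ n ∈ M x ∩ M y, D n)ᶜ ∈ F := by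
      rw [compl_iUnion₂]
      exact (Filter.biInter_mem (hMfin x y hxy)).2 (fun n _ => hD2 n)
    exact Filter.mem_of_superset h3 (compl_subset_compl.2 h1)
  have hYinj : Function.Injective Y := by
    intro x y hxy
    by_contra hne
    have h1 := hYinter x y hne
    rw [← hxy, inter_self] at h1
    exact hD3 (M x) (hMinf x) h1
  have hcount := h (Set.range Y) (by rintro _ ⟨x, rfl⟩; exact hD3 _ (hMinf x)) (by
    rintro _ ⟨x, rfl⟩ _ ⟨y, rfl⟩ hne
    exact hYinter x y (fun h => hne (by rw [h])))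
  have hX : Countable X := by
    rw [← Set.countable_univ_iff]
    exact Set.countable_of_injective_of_countable_image (hYinj.injOn) (by rwa [image_univ])
  have h1 := Cardinal.mk_le_aleph0_iff.2 hX
  have h2 : Cardinal.mk X = Cardinal.continuum := by
    rw [← Cardinal.two_power_aleph0, ← Cardinal.mk_bool, ← Cardinal.mk_nat, Cardinal.power_def]
  rw [h2] at h1
  exact absurd h1 (not_le.2 Cardinal.aleph0_lt_continuum)

/-- The main construction. -/
theorem exists_poor_not_generated : ∃ F : Filter ℕ, IsFree F ∧ IsPoor F ∧ ¬ IsGenerated F := by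
  obtain ⟨A, F, hF, hd⟩ := exists_filter
  exact ⟨F, good_free hF, poor_of_dense hF hd, not_generated hF⟩

end Pool.Agent.R291
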