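import Pool.Agent.R291.QDDefs

namespace Pool.Agent.R291.QD

open MeasureTheory
open scoped ENNReal

variable {G : Type*} [Group G]

theorem IsSystem.mp {X : Type*} [MeasurableSpace X] [MulAction G X] [MeasurableConstSMul G X]
    {μ : Measure X} (h : IsSystem G μ) (g : G) :
    MeasurePreserving (fun x : X => g • x) μ μ :=
  ⟨measurable_const_smul g, h.inv g⟩

section AP

variable {X : Type*} [MeasurableSpace X] [MulAction G X] [MeasurableConstSMul G X]
    {μ : Measure X}

theorem memLp_smul (hμ : IsSystem G μ) {f : X → ℝ} (hf2 : MemLp f 2 μ) (g : G) :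
    MemLp (fun x => f (g • x)) 2 μ :=
  hf2.comp_measurePreserving (hμ.mp g)

theorem net_of_compact (hμ : IsSystem G μ) {f : X → ℝ} (hf : IsAP G μ f) {ε : ℝ≥0∞}
    (hε : 0 < ε) :
    ∃ T : Set G, T.Finite ∧ ∀ g : G, ∃ t ∈ T,
      eLpNorm (fun x => f (g • x) - f (t • x)) 2 μ < ε := by
  classical
  have := hμ.isProb
  set O : Set (Lp ℝ 2 μ) := {F : Lp ℝ 2 μ | ∃ g : G, F =ᵐ[μ] fun x => f (g • x)} with hO
  have htb : TotallyBounded O := hf.compact.totallyBounded.subset subset_closure
  obtain ⟨t, htO, htf, hcov⟩ := htb.exists_subset (edist_mem_uniformity hε)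
  have hch : ∀ y : Lp ℝ 2 μ, ∃ g : G, y ∈ t → y =ᵐ[μ] fun x => f (g • x) := by
    intro y
    by_cases hy : y ∈ t
    · obtain ⟨g, hg⟩ := htO hy
      exact ⟨g, fun _ => hg⟩
    · exact ⟨1, fun h => absurd h hy⟩
  choose c hc using hch
  refine ⟨c '' t, htf.image c, fun g => ?_⟩
  have hmem : (memLp_smul hμ hf.memLp g).toLp _ ∈ O := ⟨g, MemLp.coeFn_toLp _⟩
  obtain ⟨y, hy, hgy⟩ := Set.mem_iUnion₂.1 (hcov hmem)
  refine ⟨c y, ⟨y, hy, rfl⟩, ?_⟩
  have h1 : edist ((memLp_smul hμ hf.memLp g).toLp _) y < ε := hgy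
  rw [Lp.edist_def] at h1
  refine lt_of_eq_of_lt (eLpNorm_congr_ae ?_) h1
  filter_upwards [MemLp.coeFn_toLp (memLp_smul hμ hf.memLp g), hc y hy] with x hx hx'
  simp only [Pi.sub_apply]
  rw [hx, hx']

theorem isAP_of_net (hμ : IsSystem G μ) {f : X → ℝ} (hf : Measurable f) (hf2 : MemLp f 2 μ)
    (h : ∀ ε : ℝ≥0∞, 0 < ε → ∃ T : Set G, T.Finite ∧ ∀ g : G, ∃ t ∈ T,
      eLpNorm (fun x => f (g • x) - f (t • x)) 2 μ < ε) : IsAP G μ f := by
  classical
  have := hμ.isProb
  refine ⟨hf, hf2, ?_⟩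
  set O : Set (Lp ℝ 2 μ) := {F : Lp ℝ 2 μ | ∃ g : G, F =ᵐ[μ] fun x => f (g • x)} with hO
  have htb : TotallyBounded O := by
    rw [EMetric.totallyBounded_iff]
    intro ε hε
    obtain ⟨T, hT, hcov⟩ := h ε hε
    refine ⟨(fun g => (memLp_smul hμ hf2 g).toLp _) '' T, hT.image _, ?_⟩
    rintro F ⟨g, hg⟩
    obtain ⟨t, ht, hlt⟩ := hcov g
    refine Set.mem_iUnion₂.2 ⟨_, ⟨t, ht, rfl⟩, ?_⟩
    rw [Metric.mem_eball, Lp.edist_def]
    refine lt_of_eq_of_lt (eLpNorm_congr_ae ?_) hlt
    filter_upwards [MemLp.coeFn_toLp (memLp_smul hμ hf2 t), hg] with x hx hx'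
    simp only [Pi.sub_apply]
    rw [hx, hx']
  exact htb.closure.isCompact_of_isClosed isClosed_closure

theorem isAP_of_invariant (hμ : IsSystem G μ) {f : X → ℝ} (hf : Measurable f)
    (hf2 : MemLp f 2 μ) (hinv : ∀ (g : G) (x : X), f (g • x) = f x) : IsAP G μ f := by
  refine isAP_of_net hμ hf hf2 fun ε hε => ⟨{1}, Set.finite_singleton _, fun g => ⟨1, rfl, ?_⟩⟩
  have : (fun x => f (g • x) - f ((1 : G) • x)) = fun _ => 0 := by
    funext x
    rw [hinv, hinv, sub_self]
  rw [this, eLpNorm_zero']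
  exact hε

end AP

/-- A joining of `(X, μ)` and `(Y, ν)` is a joining of `(Y, ν)` and `(X, μ)` after swapping. -/
theorem IsJoining.swap {X Y : Type*} [MeasurableSpace X] [MulAction G X]
    [MeasurableConstSMul G X] [MeasurableSpace Y] [MulAction G Y] [MeasurableConstSMul G Y]
    {μ : Measure X} {ν : Measure Y} {lam : Measure (X × Y)} (h : IsJoining G μ ν lam) :
    IsJoining G ν μ (lam.map Prod.swap) := by
  refine ⟨fun g => ?_, ?_, ?_⟩
  · have hm : Measurable (fun p : X × Y => (g • p.1, g • p.2)) :=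
      (measurable_fst.const_smul g).prodMk (measurable_snd.const_smul g)
    have hm' : Measurable (fun p : Y × X => (g • p.1, g • p.2)) :=
      (measurable_fst.const_smul g).prodMk (measurable_snd.const_smul g)
    rw [Measure.map_map hm' measurable_swap]
    conv_rhs => rw [← h.inv g]
    rw [Measure.map_map measurable_swap hm]
    rfl
  · rw [Measure.map_map measurable_fst measurable_swap]
    exact h.snd
  · rw [Measure.map_map measurable_snd measurable_swap]
    exact h.fst

theorem KroneckerProduct.swap {X Y : Type*} [MeasurableSpace X] [MulAction G X]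
    [MeasurableSpace Y] [MulAction G Y]
    {μ : Measure X} {ν : Measure Y} {lam : Measure (X × Y)} (h : KroneckerProduct G μ ν lam) :
    KroneckerProduct G ν μ (lam.map Prod.swap) := by
  intro f k hf hk
  have hmm : Measurable (fun p : Y × X => f p.1 * k p.2) :=
    (hf.meas.comp measurable_fst).mul (hk.meas.comp measurable_snd)
  rw [integral_map measurable_swap.aemeasurable hmm.aestronglyMeasurable]
  have := h k f hk hf
  simp only [Prod.fst_swap, Prod.snd_swap]
  rw [mul_comm (∫ x, f x ∂ν), ← this]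
  refine integral_congr_ae (Filter.Eventually.of_forall fun p => ?_)
  exact mul_comm _ _

theorem QuasiDisjoint.symm {X Y : Type*} [MeasurableSpace X] [MulAction G X]
    [MeasurableConstSMul G X] [MeasurableSpace Y] [MulAction G Y] [MeasurableConstSMul G Y]
    {μ : Measure X} {ν : Measure Y} [SFinite μ] [SFinite ν] (h : QuasiDisjoint G μ ν) :
    QuasiDisjoint G ν μ := by
  intro lam hj hk
  have h1 := h _ hj.swap hk.swap
  have h2 : (lam.map Prod.swap).map Prod.swap = lam := by
    rw [Measure.map_map measurable_swap measurable_swap]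
    simp
  rw [← h2, h1, Measure.prod_swap]

end Pool.Agent.R291.QD
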