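import Mathlib

/-!
# Quasi-disjointness: definitions

`G` is a countable group.  A `G`-system is a compact metrizable space `X` with its Borel
sigma-algebra, an action of `G` by homeomorphisms and an invariant Borel probability measure.
-/

namespace Pool.Agent.R291.QD

open MeasureTheory

variable (G : Type*) [Group G]

/-- `μ` is a probability measure preserved by every element of `G`. -/
structure IsSystem {X : Type*} [MeasurableSpace X] [MulAction G X] (μ : Measure X) : Prop where
  isProb : IsProbabilityMeasure μ
  inv : ∀ g : G, μ.map (fun x => g • x) = μ

/-- Every measurable set that is invariant under the action has measure `0` or `1`. -/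
def IsErgodicSystem {X : Type*} [MeasurableSpace X] [MulAction G X] (μ : Measure X) : Prop :=
  ∀ A : Set X, MeasurableSet A → (∀ g : G, (fun x => g • x) ⁻¹' A = A) → μ A = 0 ∨ μ A = 1

/-- `f` is a square integrable function whose orbit `{f ∘ g : g ∈ G}` has compact closure in
`L²(X, μ)`.  These functions form (modulo null sets) the closed subspace of `L²(X, μ)` that
corresponds to the Kronecker factor. -/
structure IsAP {X : Type*} [MeasurableSpace X] [MulAction G X] (μ : Measure X)
    (f : X → ℝ) : Prop where
  meas : Measurable f
  memLp : MemLp f 2 μ
  compact : IsCompact (closure {F : Lp ℝ 2 μ | ∃ g : G, F =ᵐ[μ] fun x => f (g • x)})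

/-- `lam` is a joining of `(X, μ)` and `(Y, ν)`: a measure on `X × Y` that is invariant under the
diagonal action and has marginals `μ` and `ν`. -/
structure IsJoining {X Y : Type*} [MeasurableSpace X] [MulAction G X] [MeasurableSpace Y]
    [MulAction G Y] (μ : Measure X) (ν : Measure Y) (lam : Measure (X × Y)) : Prop where
  inv : ∀ g : G, lam.map (fun p => (g • p.1, g • p.2)) = lam
  fst : lam.map Prod.fst = μ
  snd : lam.map Prod.snd = ν

/-- The image of the joining `lam` under the product of the Kronecker factor maps is the product
of the measures of the Kronecker factors, expressed through the spaces of square integrable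
functions of the two Kronecker factors. -/
def KroneckerProduct {X Y : Type*} [MeasurableSpace X] [MulAction G X] [MeasurableSpace Y]
    [MulAction G Y] (μ : Measure X) (ν : Measure Y) (lam : Measure (X × Y)) : Prop :=
  ∀ (f : X → ℝ) (h : Y → ℝ), IsAP G μ f → IsAP G ν h →
    ∫ p, f p.1 * h p.2 ∂lam = (∫ x, f x ∂μ) * ∫ y, h y ∂ν

/-- Quasi-disjointness of `(X, μ)` and `(Y, ν)`. -/
def QuasiDisjoint {X Y : Type*} [MeasurableSpace X] [MulAction G X] [MeasurableSpace Y]
    [MulAction G Y] (μ : Measure X) (ν : Measure Y) : Prop :=
  ∀ lam : Measure (X × Y), IsJoining G μ ν lam → KroneckerProduct G μ ν lam → lam = μ.prod ν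

end Pool.Agent.R291.QD
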