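import Pool.Agent.R291.QDBasic

/-!
# Ergodic decomposition for countable groups, via conditional measures
-/

namespace Pool.Agent.R291.QD

open MeasureTheory ProbabilityTheory
open scoped ENNReal ProbabilityTheory

section Sigma

variable (G : Type*) [Group G] (X : Type*) [mX : MeasurableSpace X] [MulAction G X]

/-- The sigma-algebra of measurable sets that are invariant under the action. -/
@[instance_reducible] def invSigma : MeasurableSpace X where
  MeasurableSet' A := MeasurableSet[mX] A ∧ ∀ g : G, (fun x => g • x) ⁻¹' A = A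
  measurableSet_empty := ⟨MeasurableSet.empty, fun _ => rfl⟩
  measurableSet_compl A h := ⟨h.1.compl, fun g => by rw [Set.preimage_compl, h.2 g]⟩
  measurableSet_iUnion A h := ⟨MeasurableSet.iUnion fun i => (h i).1, fun g => by
    rw [Set.preimage_iUnion]
    exact Set.iUnion_congr fun i => (h i).2 g⟩

theorem invSigma_le : invSigma G X ≤ mX := fun _ h => h.1

end Sigma

variable {G : Type*} [Group G] {X : Type*} [mX : MeasurableSpace X] [MulAction G X]

theorem measurable_inv_iff {f : X → ℝ} :
    Measurable[invSigma G X] f ↔ Measurable f ∧ ∀ (g : G) (x : X), f (g • x) = f x := by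
  constructor
  · intro h
    refine ⟨h.mono (invSigma_le G X) le_rfl, fun g x => ?_⟩
    have h1 : MeasurableSet[invSigma G X] (f ⁻¹' {f x}) := h (measurableSet_singleton _)
    have h2 : x ∈ (fun x => g • x) ⁻¹' (f ⁻¹' {f x}) := by
      rw [h1.2 g]
      rfl
    exact h2
  · rintro ⟨h1, h2⟩ s hs
    refine ⟨h1 hs, fun g => ?_⟩
    ext x
    simp only [Set.mem_preimage, h2]

variable [MeasurableConstSMul G X] [Countable G] {μ : Measure X}

/-- A function that is invariant almost everywhere under each group element is almost everywhere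
equal to an invariant function. -/
theorem aestronglyMeasurable_inv (hμ : IsSystem G μ) {w : X → ℝ}
    (hw : AEStronglyMeasurable w μ) (hinv : ∀ g : G, (fun x => w (g • x)) =ᵐ[μ] w) :
    AEStronglyMeasurable[invSigma G X] w μ := by
  have := hμ.isProb
  set v : X → ℝ := hw.mk w with hv
  have hvm : Measurable v := hw.stronglyMeasurable_mk.measurable
  have hvw : w =ᵐ[μ] v := hw.ae_eq_mk
  have hvinv : ∀ g : G, ∀ᵐ x ∂μ, v (g • x) = v x := by
    intro g
    have h1 := (hμ.mp g).quasiMeasurePreserving.ae hvw
    filter_upwards [hinv g, hvw, h1] with x h2 h3 h4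
    rw [← h4, ← h3]
    exact h2
  set S : Set X := {x | ∀ h g : G, v (g • (h • x)) = v (h • x)} with hS
  have hSm : MeasurableSet S := by
    have : S = ⋂ h : G, ⋂ g : G, {x | v (g • (h • x)) = v (h • x)} := by
      ext x
      simp [hS]
    rw [this]
    refine MeasurableSet.iInter fun h => MeasurableSet.iInter fun g => ?_
    exact measurableSet_eq_fun (hvm.comp ((measurable_const_smul g).comp
      (measurable_const_smul h))) (hvm.comp (measurable_const_smul h))
  have hSae : ∀ᵐ x ∂μ, x ∈ S := by
    have h1 : ∀ h g : G, ∀ᵐ x ∂μ, v (g • (h • x)) = v (h • x) := fun h g =>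
      (hμ.mp h).quasiMeasurePreserving.ae (hvinv g)
    have h2 : ∀ᵐ x ∂μ, ∀ h g : G, v (g • (h • x)) = v (h • x) := by
      rw [ae_all_iff]
      intro h
      rw [ae_all_iff]
      exact h1 h
    exact h2
  have hSinv : ∀ (g : G) (x : X), g • x ∈ S ↔ x ∈ S := by
    have h1 : ∀ (g : G) (x : X), x ∈ S → g • x ∈ S := by
      intro g x hx h k
      have := hx (h * g) k
      rwa [mul_smul] at this
    intro g x
    refine ⟨fun h => ?_, h1 g x⟩
    have := h1 g⁻¹ _ h
    rwa [inv_smul_smul] at this
  classical
  refine ⟨S.indicator v, ?_, ?_⟩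
  · refine Measurable.stronglyMeasurable ?_
    rw [measurable_inv_iff]
    refine ⟨hvm.indicator hSm, fun g x => ?_⟩
    by_cases hx : x ∈ S
    · rw [Set.indicator_of_mem hx, Set.indicator_of_mem ((hSinv g x).2 hx)]
      have := hx 1 g
      rwa [one_smul] at this
    · rw [Set.indicator_of_notMem hx, Set.indicator_of_notMem (fun h => hx ((hSinv g x).1 h))]
  · filter_upwards [hvw, hSae] with x h1 h2
    rw [Set.indicator_of_mem h2, h1]

end Pool.Agent.R291.QD
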