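import Pool.Agent.R291.QDErg

namespace Pool.Agent.R291.QD

open MeasureTheory ProbabilityTheory
open scoped ENNReal ProbabilityTheory

variable {G : Type*} [Group G] {X : Type*} [mX : MeasurableSpace X] [MulAction G X]
variable [StandardBorelSpace X]

/-- The conditional measures with respect to the invariant sigma-algebra. -/
noncomputable def erg (G : Type*) [Group G] [MulAction G X] (μ : Measure X)
    [IsFiniteMeasure μ] : Kernel X X :=
  (condExpKernel μ (invSigma G X)).comap id (measurable_id'' (invSigma_le G X))

theorem erg_apply (μ : Measure X) [IsFiniteMeasure μ] (z : X) :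
    erg G μ z = condExpKernel μ (invSigma G X) z := rfl

instance erg_markov (μ : Measure X) [IsFiniteMeasure μ] : IsMarkovKernel (erg G μ) := by
  unfold erg
  infer_instance

theorem erg_measurable (μ : Measure X) [IsFiniteMeasure μ] {s : Set X} (hs : MeasurableSet s) :
    Measurable[invSigma G X] (fun z => erg G μ z s) :=
  measurable_condExpKernel hs

theorem erg_comp (μ : Measure X) [IsFiniteMeasure μ] : erg G μ ∘ₘ μ = μ := by
  ext s hs
  rw [Measure.bind_apply hs (Kernel.aemeasurable _)]
  have h := congrArg (fun m => m s) (condExpKernel_comp_trim (μ := μ) (invSigma_le G X))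
  rw [Measure.bind_apply hs (Kernel.aemeasurable _)] at h
  rw [lintegral_trim (invSigma_le G X) (measurable_condExpKernel hs)] at h
  exact h

theorem erg_ae (μ : Measure X) [IsFiniteMeasure μ] {p : X → Prop} (h : ∀ᵐ x ∂μ, p x) :
    ∀ᵐ z ∂μ, ∀ᵐ x ∂(erg G μ z), p x := by
  refine Measure.ae_ae_of_ae_comp ?_
  rw [erg_comp]
  exact h

theorem erg_lintegral (μ : Measure X) [IsFiniteMeasure μ] {F : X → ℝ≥0∞} (hF : Measurable F) :
    ∫⁻ z, ∫⁻ x, F x ∂(erg G μ z) ∂μ = ∫⁻ x, F x ∂μ := by
  conv_rhs => rw [← erg_comp (G := G) μ]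
  rw [Measure.lintegral_bind (Kernel.aemeasurable _) hF.aemeasurable]

theorem erg_integral (μ : Measure X) [IsFiniteMeasure μ] {f : X → ℝ} (hf : Integrable f μ) :
    μ[f | invSigma G X] =ᵐ[μ] fun z => ∫ x, f x ∂(erg G μ z) :=
  condExp_ae_eq_integral_condExpKernel (invSigma_le G X) hf

theorem erg_integrable (μ : Measure X) [IsFiniteMeasure μ] {f : X → ℝ} (hf : Integrable f μ) :
    ∀ᵐ z ∂μ, Integrable f (erg G μ z) := hf.condExpKernel_ae

theorem erg_const (μ : Measure X) [IsProbabilityMeasure μ] {u : X → ℝ}
    (hu : Measurable[invSigma G X] u) {C : ℝ} (hC : ∀ x, |u x| ≤ C) :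
    ∀ᵐ z ∂μ, ∀ᵐ x ∂(erg G μ z), u x = u z := by
  have hum : Measurable u := hu.mono (invSigma_le G X) le_rfl
  have hui : Integrable u μ := Integrable.of_bound hum.aestronglyMeasurable C
    (Filter.Eventually.of_forall fun x => hC x)
  have hu2m : Measurable (fun x => u x * u x) := hum.mul hum
  have hC0 : ∀ x : X, |u x * u x| ≤ C * C := fun x => by
    rw [abs_mul]
    exact mul_le_mul (hC x) (hC x) (abs_nonneg _) ((abs_nonneg _).trans (hC x))
  have hu2i : Integrable (fun x => u x * u x) μ := Integrable.of_bound hu2m.aestronglyMeasurable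
    (C * C) (Filter.Eventually.of_forall fun x => hC0 x)
  have e1 : μ[u | invSigma G X] = u :=
    condExp_of_stronglyMeasurable (invSigma_le G X) hu.stronglyMeasurable hui
  have e2 : μ[(fun x => u x * u x) | invSigma G X] = fun x => u x * u x :=
    condExp_of_stronglyMeasurable (invSigma_le G X) (hu.mul hu).stronglyMeasurable hu2i
  have h1 := erg_integral (G := G) μ hui
  have h2 := erg_integral (G := G) μ hu2i
  rw [e1] at h1
  rw [e2] at h2
  filter_upwards [h1, h2] with z hz1 hz2
  have hi1 : Integrable u (erg G μ z) := Integrable.of_bound hum.aestronglyMeasurable C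
    (Filter.Eventually.of_forall fun x => hC x)
  have hi2 : Integrable (fun x => u x * u x) (erg G μ z) :=
    Integrable.of_bound hu2m.aestronglyMeasurable (C * C)
      (Filter.Eventually.of_forall fun x => hC0 x)
  have hexp : (fun x => (u x - u z) ^ 2) = fun x => u x * u x - 2 * u z * u x + u z * u z := by
    funext x
    ring
  have hs : Integrable (fun x => u x * u x - 2 * u z * u x) (erg G μ z) :=
    hi2.sub (hi1.const_mul _)
  have h3 : ∫ x, (u x - u z) ^ 2 ∂(erg G μ z) = 0 := by
    rw [hexp, integral_add hs (integrable_const _), integral_sub hi2 (hi1.const_mul _),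
      integral_const_mul, ← hz1, ← hz2, integral_const]
    simp
    ring
  have hint : Integrable (fun x => (u x - u z) ^ 2) (erg G μ z) := by
    rw [hexp]
    exact hs.add (integrable_const _)
  have h4 := (integral_eq_zero_iff_of_nonneg (fun y => sq_nonneg _) hint).1 h3
  filter_upwards [h4] with y hy
  have h5 : (u y - u z) ^ 2 = 0 := hy
  have h6 := pow_eq_zero_iff (two_ne_zero) |>.1 h5
  linarith

section Inv

variable [MeasurableConstSMul G X]

omit [StandardBorelSpace X] in
theorem condExp_smul {μ : Measure X} (hμ : IsSystem G μ) {f : X → ℝ} (hf : Integrable f μ)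
    (g : G) : μ[(fun x => f (g • x)) | invSigma G X] =ᵐ[μ] μ[f | invSigma G X] := by
  have := hμ.isProb
  have hfg : Integrable (fun x => f (g • x)) μ := (hμ.mp g).integrable_comp_of_integrable hf
  refine (ae_eq_condExp_of_forall_setIntegral_eq (invSigma_le G X) hfg
    (fun s _ _ => integrable_condExp.integrableOn) (fun s hs _ => ?_)
    stronglyMeasurable_condExp.aestronglyMeasurable).symm
  rw [setIntegral_condExp (invSigma_le G X) hf hs]
  have hsm : MeasurableSet s := hs.1
  rw [← integral_indicator hsm, ← integral_indicator hsm]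
  rw [← (hμ.mp g).integral_comp (MeasurableEquiv.smul g).measurableEmbedding (s.indicator f)]
  refine integral_congr_ae (Filter.Eventually.of_forall fun x => ?_)
  have hx : g • x ∈ s ↔ x ∈ s := by
    have := hs.2 g
    constructor
    · intro h
      rw [← this]
      exact h
    · intro h
      rw [← this] at h
      exact h
  by_cases h : x ∈ s
  · simp only [Set.indicator_of_mem h, Set.indicator_of_mem (hx.2 h)]
  · simp only [Set.indicator_of_notMem h, Set.indicator_of_notMem (fun h' => h (hx.1 h'))]

theorem erg_invariant [Countable G] {μ : Measure X} [IsFiniteMeasure μ] (hμ : IsSystem G μ) :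
    ∀ᵐ z ∂μ, ∀ g : G, (erg G μ z).map (fun x => g • x) = erg G μ z := by
  have := hμ.isProb
  rw [ae_all_iff]
  intro g
  have hg : Measurable (fun x : X => g • x) := measurable_const_smul g
  have hM : IsMarkovKernel ((erg G μ).map (fun x => g • x)) := Kernel.IsMarkovKernel.map _ hg
  have key : μ ⊗ₘ ((erg G μ).map (fun x => g • x)) = μ ⊗ₘ (erg G μ) := by
    refine Measure.ext_prod fun {s t} hs ht => ?_
    rw [Measure.compProd_apply_prod hs ht, Measure.compProd_apply_prod hs ht]
    refine setLIntegral_congr_fun_ae hs ?_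
    have hi1 : Integrable (t.indicator (fun _ => (1 : ℝ))) μ :=
      (integrable_const _).indicator ht
    have h1 := erg_integral (G := G) μ hi1
    have h2 := erg_integral (G := G) μ ((hμ.mp g).integrable_comp_of_integrable hi1)
    have h3 := condExp_smul hμ hi1 g
    filter_upwards [h1, h2, h3] with z e1 e2 e3 _
    rw [Kernel.map_apply' _ hg _ ht]
    have e4 : ∫ x, t.indicator (fun _ => (1 : ℝ)) x ∂(erg G μ z) = (erg G μ z).real t := by
      rw [integral_indicator ht, setIntegral_const]
      simp
    have e5 : ∫ x, t.indicator (fun _ => (1 : ℝ)) (g • x) ∂(erg G μ z)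
        = (erg G μ z).real ((fun x => g • x) ⁻¹' t) := by
      have : (fun x => t.indicator (fun _ => (1 : ℝ)) (g • x)) =
          ((fun x => g • x) ⁻¹' t).indicator (fun _ => (1 : ℝ)) := by
        funext x
        by_cases hx : g • x ∈ t
        · rw [Set.indicator_of_mem hx, Set.indicator_of_mem (by exact hx)]
        · rw [Set.indicator_of_notMem hx, Set.indicator_of_notMem (by exact hx)]
      rw [this, integral_indicator (hg ht), setIntegral_const]
      simp
    have e6 : (erg G μ z).real ((fun x => g • x) ⁻¹' t) = (erg G μ z).real t := by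
      rw [← e4, ← e5, ← e1, ← e3]
      exact e2.symm
    exact (ENNReal.toReal_eq_toReal_iff' (measure_ne_top _ _) (measure_ne_top _ _)).1 e6
  have h := Kernel.ae_eq_of_compProd_eq key
  filter_upwards [h] with z hz
  rw [← Kernel.map_apply _ hg, hz]

end Inv

end Pool.Agent.R291.QD
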