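import Pool.Agent.R291.QDErg2

namespace Pool.Agent.R291.QD

open MeasureTheory ProbabilityTheory
open scoped ENNReal ProbabilityTheory InnerProductSpace

variable {G : Type*} [Group G] {X : Type*} [mX : MeasurableSpace X] [MulAction G X]
variable [StandardBorelSpace X]

omit [StandardBorelSpace X] in
theorem lp_integrable {μ : Measure X} [IsProbabilityMeasure μ] (w : Lp ℝ 2 μ) :
    Integrable w μ := (Lp.memLp w).integrable (by norm_num)

/-- The square integrable functions whose integrals with respect to the conditional measures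
over all invariant sets vanish. -/
noncomputable def nullSub (G : Type*) [Group G] [MulAction G X] (μ : Measure X)
    [IsProbabilityMeasure μ] : Submodule ℝ (Lp ℝ 2 μ) where
  carrier := {w | ∀ᵐ z ∂μ, ∀ A : Set X, MeasurableSet[invSigma G X] A →
    ∫ x in A, w x ∂(erg G μ z) = 0}
  zero_mem' := by
    have h := erg_ae (G := G) μ (Lp.coeFn_zero ℝ 2 μ)
    filter_upwards [h] with z hz A hA
    have h1 : ∀ᵐ x ∂(erg G μ z).restrict A, (0 : Lp ℝ 2 μ) x = (0 : ℝ) :=
      ae_restrict_of_ae (hz.mono fun x hx => hx)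
    rw [integral_congr_ae h1]
    simp
  add_mem' := by
    intro a b ha hb
    have h := erg_ae (G := G) μ (Lp.coeFn_add a b)
    filter_upwards [h, ha, hb, erg_integrable (G := G) μ (lp_integrable a),
      erg_integrable (G := G) μ (lp_integrable b)] with z hz h1 h2 h3 h4 A hA
    have h5 : ∀ᵐ x ∂(erg G μ z).restrict A, (a + b : Lp ℝ 2 μ) x = a x + b x :=
      ae_restrict_of_ae (hz.mono fun x hx => hx)
    rw [integral_congr_ae h5, integral_add h3.integrableOn h4.integrableOn, h1 A hA, h2 A hA,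
      add_zero]
  smul_mem' := by
    intro c a ha
    have h := erg_ae (G := G) μ (Lp.coeFn_smul c a)
    have ha' : ∀ᵐ z ∂μ, ∀ A : Set X, MeasurableSet[invSigma G X] A →
      ∫ x in A, a x ∂(erg G μ z) = 0 := ha
    have h' : ∀ᵐ z ∂μ, ∀ A : Set X, MeasurableSet[invSigma G X] A →
        ∫ x in A, (c • a : Lp ℝ 2 μ) x ∂(erg G μ z) = 0 := by
      filter_upwards [h, ha'] with z hz h1 A hA
      have h5 : ∀ᵐ x ∂(erg G μ z).restrict A, (c • a : Lp ℝ 2 μ) x = c * a x :=
        ae_restrict_of_ae (hz.mono fun x hx => hx)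
      rw [integral_congr_ae h5, integral_const_mul, h1 A hA, mul_zero]
    exact h'

theorem mem_nullSub {μ : Measure X} [IsProbabilityMeasure μ] {w : Lp ℝ 2 μ} :
    w ∈ nullSub G μ ↔ ∀ᵐ z ∂μ, ∀ A : Set X, MeasurableSet[invSigma G X] A →
    ∫ x in A, w x ∂(erg G μ z) = 0 := Iff.rfl

theorem isClosed_nullSub (μ : Measure X) [IsProbabilityMeasure μ] :
    IsClosed (nullSub G μ : Set (Lp ℝ 2 μ)) := by
  rw [← closure_subset_iff_isClosed]
  intro w hw
  rw [Metric.mem_closure_iff] at hw
  have hpos : ∀ n : ℕ, (0 : ℝ) < 1 / ((n : ℝ) + 1) := fun n => by positivity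
  choose v hv hvd using fun n : ℕ => hw (1 / ((n : ℝ) + 1)) (hpos n)
  have hwm : ∀ u : Lp ℝ 2 μ, Measurable u := fun u => (Lp.stronglyMeasurable u).measurable
  set D : ℕ → X → ℝ≥0∞ := fun n z => ∫⁻ x, ‖w x - v n x‖ₑ ∂(erg G μ z) with hD
  have hDm : ∀ n, Measurable (D n) := fun n =>
    (((hwm w).sub (hwm (v n))).enorm).lintegral_kernel
  have hDi : ∀ n, ∫⁻ z, D n z ∂μ ≤ ENNReal.ofReal (1 / ((n : ℝ) + 1)) := by
    intro n
    have h0 : ∫⁻ z, D n z ∂μ = ∫⁻ x, ‖w x - v n x‖ₑ ∂μ :=
      erg_lintegral μ ((hwm w).sub (hwm (v n))).enorm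
    rw [h0]
    have h1 : ∫⁻ x, ‖w x - v n x‖ₑ ∂μ = eLpNorm (fun x => w x - v n x) 1 μ :=
      eLpNorm_one_eq_lintegral_enorm.symm
    have h2 : eLpNorm (fun x => w x - v n x) 1 μ ≤ eLpNorm (fun x => w x - v n x) 2 μ :=
      eLpNorm_le_eLpNorm_of_exponent_le (by norm_num)
        ((hwm w).sub (hwm (v n))).aestronglyMeasurable
    have h3 : eLpNorm (fun x => w x - v n x) 2 μ = edist w (v n) := by
      rw [Lp.edist_def]
      rfl
    rw [h1]
    refine h2.trans ?_
    rw [h3, edist_dist]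
    exact ENNReal.ofReal_le_ofReal (hvd n).le
  have hinf : ∫⁻ z, ⨅ n, D n z ∂μ = 0 := by
    have h1 : ∀ n : ℕ, ∫⁻ z, ⨅ k, D k z ∂μ ≤ ENNReal.ofReal (1 / ((n : ℝ) + 1)) := fun n =>
      (lintegral_mono fun z => iInf_le (fun k => D k z) n).trans (hDi n)
    have h2 : Filter.Tendsto (fun n : ℕ => ENNReal.ofReal (1 / ((n : ℝ) + 1))) Filter.atTop
        (nhds 0) := by
      rw [← ENNReal.ofReal_zero]
      exact ENNReal.tendsto_ofReal tendsto_one_div_add_atTop_nhds_zero_nat
    exact le_antisymm (ge_of_tendsto' h2 h1) zero_le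
  rw [lintegral_eq_zero_iff (Measurable.iInf hDm)] at hinf
  have hall : ∀ᵐ z ∂μ, ∀ n, ∀ A : Set X, MeasurableSet[invSigma G X] A →
      ∫ x in A, v n x ∂(erg G μ z) = 0 := by
    rw [ae_all_iff]
    exact hv
  have hint : ∀ᵐ z ∂μ, ∀ n, Integrable (v n) (erg G μ z) := by
    rw [ae_all_iff]
    exact fun n => erg_integrable μ (lp_integrable _)
  change w ∈ nullSub G μ
  rw [mem_nullSub]
  filter_upwards [hinf, hall, hint, erg_integrable (G := G) μ (lp_integrable w)]
    with z h1 h2 h3 h4 A hA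
  have h5 : ∀ n, ‖∫ x in A, w x ∂(erg G μ z)‖ₑ ≤ D n z := by
    intro n
    have e1 : ∫ x in A, w x ∂(erg G μ z) = ∫ x in A, (w x - v n x) ∂(erg G μ z) := by
      rw [integral_sub h4.integrableOn (h3 n).integrableOn, h2 n A hA, sub_zero]
    rw [e1]
    refine (enorm_integral_le_lintegral_enorm _).trans ?_
    exact lintegral_mono' Measure.restrict_le_self le_rfl
  have h6 : ‖∫ x in A, w x ∂(erg G μ z)‖ₑ ≤ ⨅ n, D n z := le_iInf h5
  have h7 : (⨅ n, D n z) = 0 := h1
  rw [h7] at h6
  exact enorm_eq_zero.1 (le_antisymm h6 zero_le)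

section Ortho

variable [MeasurableConstSMul G X]

theorem sub_comp_mem_nullSub [Countable G] {μ : Measure X} [IsProbabilityMeasure μ]
    (hμ : IsSystem G μ) (w : Lp ℝ 2 μ) (g : G) :
    w - Lp.compMeasurePreserving (fun x => g • x) (hμ.mp g) w ∈ nullSub G μ := by
  rw [mem_nullSub]
  have h1 := erg_ae (G := G) μ (Lp.coeFn_sub w
    (Lp.compMeasurePreserving (fun x => g • x) (hμ.mp g) w))
  have h2 := erg_ae (G := G) μ (Lp.coeFn_compMeasurePreserving w (hμ.mp g))
  filter_upwards [h1, h2, erg_invariant hμ, erg_integrable (G := G) μ (lp_integrable w)]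
    with z hz1 hz2 hz3 hz4 A hA
  have hmp : MeasurePreserving (fun x : X => g • x) (erg G μ z) (erg G μ z) :=
    ⟨measurable_const_smul g, hz3 g⟩
  have h5 : ∀ᵐ x ∂(erg G μ z).restrict A,
      (w - Lp.compMeasurePreserving (fun x => g • x) (hμ.mp g) w : Lp ℝ 2 μ) x =
        w x - w (g • x) := by
    refine ae_restrict_of_ae ?_
    filter_upwards [hz1, hz2] with x hx1 hx2
    rw [hx1, Pi.sub_apply, hx2]
    rfl
  have hz5 : Integrable (fun x => w (g • x)) (erg G μ z) := hmp.integrable_comp_of_integrable hz4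
  rw [integral_congr_ae h5, integral_sub hz4.integrableOn hz5.integrableOn]
  have h6 := hmp.setIntegral_preimage_emb (MeasurableEquiv.smul g).measurableEmbedding w A
  rw [hA.2 g] at h6
  rw [h6, sub_self]

theorem inv_of_orthogonal [Countable G] {μ : Measure X} [IsProbabilityMeasure μ]
    (hμ : IsSystem G μ) {w : Lp ℝ 2 μ} (hw : w ∈ (nullSub G μ)ᗮ) :
    AEStronglyMeasurable[invSigma G X] w μ := by
  refine aestronglyMeasurable_inv hμ (Lp.aestronglyMeasurable w) fun g => ?_
  have h1 := (Submodule.mem_orthogonal _ _).1 hw _ (sub_comp_mem_nullSub hμ w g)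
  set U := Lp.compMeasurePreserving (fun x => g • x) (hμ.mp g) w with hU
  have hn : ‖U‖ = ‖w‖ := Lp.norm_compMeasurePreserving w (hμ.mp g)
  rw [inner_sub_left, real_inner_self_eq_norm_sq] at h1
  have h2 : ‖w - U‖ ^ 2 = 0 := by
    rw [norm_sub_sq_real, hn, real_inner_comm]
    linarith
  have h3 : w = U := by
    have := pow_eq_zero_iff (two_ne_zero) |>.1 h2
    exact sub_eq_zero.1 (norm_eq_zero.1 this)
  have h4 := Lp.coeFn_compMeasurePreserving w (hμ.mp g)
  rw [← hU, ← h3] at h4
  exact h4.symm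

/-- For almost every `z` the integral of `f` and of its conditional expectation with respect to
the conditional measure at `z` coincide on all invariant sets. -/
theorem setIntegral_erg [Countable G] {μ : Measure X} [IsProbabilityMeasure μ]
    (hμ : IsSystem G μ) {f : X → ℝ} (hf : MemLp f 2 μ) :
    ∀ᵐ z ∂μ, ∀ A : Set X, MeasurableSet[invSigma G X] A →
      ∫ x in A, f x ∂(erg G μ z) = ∫ x in A, (μ[f | invSigma G X]) x ∂(erg G μ z) := by
  have hE : MemLp (μ[f | invSigma G X]) 2 μ := hf.condExp (by norm_num)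
  have hfi : Integrable f μ := hf.integrable (by norm_num)
  have hEi : Integrable (μ[f | invSigma G X]) μ := integrable_condExp
  set F : Lp ℝ 2 μ := hf.toLp f - hE.toLp _ with hF
  have hcl : (nullSub G μ : Submodule ℝ (Lp ℝ 2 μ)).HasOrthogonalProjection := by
    have := (isClosed_nullSub (G := G) μ).completeSpace_coe
    infer_instance
  have hmem : F ∈ nullSub G μ := by
    rw [← Submodule.orthogonal_orthogonal (nullSub G μ), Submodule.mem_orthogonal]
    intro w hw
    have hwI := inv_of_orthogonal hμ hw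
    have hw2 : MemLp w 2 μ := Lp.memLp w
    rw [L2.inner_def]
    have e1 : ∀ᵐ x ∂μ, ⟪w x, F x⟫_ℝ = w x * f x - w x * (μ[f | invSigma G X]) x := by
      filter_upwards [Lp.coeFn_sub (hf.toLp f) (hE.toLp _), hf.coeFn_toLp, hE.coeFn_toLp]
        with x h1 h2 h3
      rw [hF, h1, Pi.sub_apply, h2, h3]
      rw [real_inner_eq_re_inner, RCLike.inner_apply]
      simp
      ring
    have i1 : Integrable (fun x => w x * f x) μ := hw2.integrable_mul hf
    have i2 : Integrable (fun x => w x * (μ[f | invSigma G X]) x) μ := hw2.integrable_mul hE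
    rw [integral_congr_ae e1, integral_sub i1 i2]
    have e2 : μ[(fun x => w x * f x) | invSigma G X] =ᵐ[μ]
        fun x => w x * (μ[f | invSigma G X]) x :=
      condExp_mul_of_aestronglyMeasurable_left hwI i1 hfi
    rw [← integral_congr_ae e2, integral_condExp (invSigma_le G X), sub_self]
  rw [mem_nullSub] at hmem
  have h1 := erg_ae (G := G) μ (Lp.coeFn_sub (hf.toLp f) (hE.toLp _))
  have h2 := erg_ae (G := G) μ hf.coeFn_toLp
  have h3 := erg_ae (G := G) μ hE.coeFn_toLp
  filter_upwards [hmem, h1, h2, h3, erg_integrable (G := G) μ hfi,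
    erg_integrable (G := G) μ hEi] with z hz hz1 hz2 hz3 hz4 hz5 A hA
  have e3 : ∀ᵐ x ∂(erg G μ z).restrict A, F x = f x - (μ[f | invSigma G X]) x := by
    refine ae_restrict_of_ae ?_
    filter_upwards [hz1, hz2, hz3] with x hx1 hx2 hx3
    rw [hF, hx1, Pi.sub_apply, hx2, hx3]
  have e4 := hz A hA
  rw [integral_congr_ae e3, integral_sub hz4.integrableOn hz5.integrableOn] at e4
  linarith

end Ortho

end Pool.Agent.R291.QD
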