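import Pool.Agent.R291.QDErg3

namespace Pool.Agent.R291.QD

open MeasureTheory ProbabilityTheory
open scoped ENNReal ProbabilityTheory

variable {G : Type*} [Group G] {X : Type*} [mX : MeasurableSpace X] [MulAction G X]
variable [StandardBorelSpace X] [MeasurableConstSMul G X] [Countable G]

omit [StandardBorelSpace X] [MeasurableConstSMul G X] [Countable G] [MulAction G X] in
theorem exists_countable_piSystem [h : MeasurableSpace.CountablyGenerated X] :
    ∃ C : Set (Set X), C.Countable ∧ mX = MeasurableSpace.generateFrom C ∧ IsPiSystem C ∧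
      ∀ B ∈ C, MeasurableSet B := by
  obtain ⟨b, hbc, hb⟩ := h.isCountablyGenerated
  have h1 : mX = MeasurableSpace.generateFrom (generateSetAlgebra b) := by
    rw [generateFrom_generateSetAlgebra_eq]
    exact hb
  refine ⟨generateSetAlgebra b, countable_generateSetAlgebra hbc, h1, ?_, ?_⟩
  · intro s hs t ht _
    exact isSetAlgebra_generateSetAlgebra.inter_mem hs ht
  · intro B hB
    have : MeasurableSet[MeasurableSpace.generateFrom (generateSetAlgebra b)] B :=
      MeasurableSpace.measurableSet_generateFrom hB
    rwa [← h1] at this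

theorem erg_indep {μ : Measure X} [IsProbabilityMeasure μ] (hμ : IsSystem G μ) {B : Set X}
    (hB : MeasurableSet B) :
    ∀ᵐ z ∂μ, ∀ A : Set X, MeasurableSet[invSigma G X] A →
      erg G μ z (B ∩ A) = erg G μ z A * erg G μ z B := by
  set f : X → ℝ := B.indicator (fun _ => (1 : ℝ)) with hf
  have hfm : Measurable f := measurable_const.indicator hB
  have hf2 : MemLp f 2 μ := (memLp_const (1 : ℝ)).indicator hB
  have hfi : Integrable f μ := hf2.integrable (by norm_num)
  set u : X → ℝ := fun z => (erg G μ z).real B with hu
  have hum : Measurable[invSigma G X] u := (erg_measurable μ hB).ennreal_toReal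
  have hub : ∀ x, |u x| ≤ 1 := by
    intro x
    rw [hu]
    simp only
    rw [abs_of_nonneg measureReal_nonneg]
    exact measureReal_le_one
  have hE : μ[f | invSigma G X] =ᵐ[μ] u := by
    filter_upwards [erg_integral (G := G) μ hfi] with z hz
    rw [hz, hf, integral_indicator hB, setIntegral_const]
    simp [hu]
  filter_upwards [setIntegral_erg hμ hf2, erg_ae (G := G) μ hE, erg_const (G := G) μ hum hub]
    with z h1 h2 h3 A hA
  have hAm : MeasurableSet A := hA.1
  have e1 : ∫ x in A, f x ∂(erg G μ z) = (erg G μ z).real (B ∩ A) := by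
    rw [hf, integral_indicator hB, Measure.restrict_restrict hB, setIntegral_const]
    simp
  have e2 : ∫ x in A, (μ[f | invSigma G X]) x ∂(erg G μ z) = (erg G μ z).real A * u z := by
    have h4 : ∀ᵐ x ∂(erg G μ z).restrict A, (μ[f | invSigma G X]) x = u z := by
      refine ae_restrict_of_ae ?_
      filter_upwards [h2, h3] with x hx1 hx2
      rw [hx1, hx2]
    rw [integral_congr_ae h4, setIntegral_const, smul_eq_mul]
  have e3 : (erg G μ z).real (B ∩ A) = (erg G μ z).real A * (erg G μ z).real B := by
    rw [← e1, h1 A hA, e2]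
  rw [← ENNReal.toReal_eq_toReal_iff' (measure_ne_top _ _)
    (ENNReal.mul_ne_top (measure_ne_top _ _) (measure_ne_top _ _)), ENNReal.toReal_mul]
  exact e3

/-- **Ergodic decomposition**: for almost every `z` the conditional measure at `z` with respect
to the invariant sigma-algebra is an ergodic invariant probability measure. -/
theorem erg_ergodic {μ : Measure X} [IsProbabilityMeasure μ] (hμ : IsSystem G μ) :
    ∀ᵐ z ∂μ, IsErgodicSystem G (erg G μ z) := by
  obtain ⟨C, hCc, hCg, hCp, hCm⟩ := exists_countable_piSystem (X := X)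
  have h : ∀ᵐ z ∂μ, ∀ B ∈ C, ∀ A : Set X, MeasurableSet[invSigma G X] A →
      erg G μ z (B ∩ A) = erg G μ z A * erg G μ z B := by
    rw [ae_ball_iff hCc]
    exact fun B hB => erg_indep hμ (hCm B hB)
  filter_upwards [h] with z hz
  intro A hAm hAi
  have hA : MeasurableSet[invSigma G X] A := ⟨hAm, hAi⟩
  have h1 : (erg G μ z).restrict A = (erg G μ z A) • (erg G μ z) := by
    refine ext_of_generate_finite C hCg hCp (fun B hB => ?_) ?_
    · rw [Measure.restrict_apply (hCm B hB), hz B hB A hA]
      simp
    · simp
  have h2 : erg G μ z A = erg G μ z A * erg G μ z A := by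
    have := congrArg (fun m => m A) h1
    simp only [Measure.restrict_apply hAm, Set.inter_self] at this
    simpa using this
  by_cases h0 : erg G μ z A = 0
  · exact Or.inl h0
  · right
    have h3 : erg G μ z A * 1 = erg G μ z A * erg G μ z A := by rwa [mul_one]
    exact ((ENNReal.mul_right_inj h0 (measure_ne_top _ _)).1 h3).symm

theorem erg_isSystem {μ : Measure X} [IsProbabilityMeasure μ] (hμ : IsSystem G μ) :
    ∀ᵐ z ∂μ, IsSystem G (erg G μ z) := by
  filter_upwards [erg_invariant hμ] with z hz
  exact ⟨inferInstance, hz⟩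

end Pool.Agent.R291.QD
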