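import Pool.Agent.R291.QDBasic

namespace Pool.Agent.R291.QD

open MeasureTheory ProbabilityTheory
open scoped ENNReal ProbabilityTheory

variable {G : Type*} [Group G]
variable {X : Type*} [MeasurableSpace X] [MulAction G X] [MeasurableConstSMul G X]
variable {Y : Type*} [MeasurableSpace Y] [MulAction G Y] [MeasurableConstSMul G Y]

theorem measurable_diag (g : G) : Measurable (fun p : Y × X => (g • p.1, g • p.2)) :=
  (measurable_fst.const_smul g).prodMk (measurable_snd.const_smul g)

theorem map_diag_compProd {ν : Measure Y} [IsProbabilityMeasure ν]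
    (κ : Kernel Y X) [IsMarkovKernel κ] (g : G) {s : Set (Y × X)} (hs : MeasurableSet s) :
    ((ν ⊗ₘ κ).map (fun p => (g • p.1, g • p.2))) s =
      ∫⁻ y, κ y ((fun x => (g • y, g • x)) ⁻¹' s) ∂ν := by
  rw [Measure.map_apply (measurable_diag g) hs,
    Measure.compProd_apply ((measurable_diag g) hs)]
  rfl

theorem kernel_equivariant [MeasurableSpace.CountablyGenerated X] {ν : Measure Y}
    (hν : IsSystem G ν) (κ : Kernel Y X) [IsMarkovKernel κ]
    (hinv : ∀ g : G, (ν ⊗ₘ κ).map (fun p => (g • p.1, g • p.2)) = ν ⊗ₘ κ) (g : G) :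
    ∀ᵐ y ∂ν, κ (g • y) = (κ y).map (fun x => g • x) := by
  have := hν.isProb
  have hg : Measurable (fun x : X => g • x) := measurable_const_smul g
  have hg' : Measurable (fun y : Y => g⁻¹ • y) := measurable_const_smul g⁻¹
  set κ' : Kernel Y X := (κ.comap (fun y => g⁻¹ • y) hg').map (fun x => g • x) with hκ'
  have hM : IsMarkovKernel κ' := Kernel.IsMarkovKernel.map _ hg
  have key : ν ⊗ₘ κ' = ν ⊗ₘ κ := by
    ext s hs
    rw [← hinv g, map_diag_compProd κ g hs, Measure.compProd_apply hs]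
    have hmeas : Measurable fun y => κ' y (Prod.mk y ⁻¹' s) :=
      Kernel.measurable_kernel_prodMk_left hs
    rw [← (hν.mp g).lintegral_comp hmeas]
    refine lintegral_congr fun y => ?_
    rw [hκ', Kernel.map_apply' _ hg _ (measurable_prodMk_left hs), Kernel.comap_apply,
      inv_smul_smul]
    rfl
  have h1 := Kernel.ae_eq_of_compProd_eq key
  have h2 := (hν.mp g).quasiMeasurePreserving.ae h1
  filter_upwards [h2] with y hy
  rw [← hy, hκ', Kernel.map_apply _ hg, Kernel.comap_apply, inv_smul_smul]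

section Contraction

variable {ν : Measure Y} {μ : Measure X}

theorem lintegral_snd_compProd [IsProbabilityMeasure ν] (κ : Kernel Y X) [IsMarkovKernel κ]
    (hsnd : (ν ⊗ₘ κ).map Prod.snd = μ) {F : X → ℝ≥0∞} (hF : Measurable F) :
    ∫⁻ y, ∫⁻ x, F x ∂(κ y) ∂ν = ∫⁻ x, F x ∂μ := by
  have h := Measure.lintegral_compProd (μ := ν) (κ := κ) (hF.comp measurable_snd)
  rw [← hsnd, lintegral_map hF measurable_snd]
  exact h.symm

theorem eLpNorm_integral_le [IsProbabilityMeasure ν] (κ : Kernel Y X) [IsMarkovKernel κ]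
    (hsnd : (ν ⊗ₘ κ).map Prod.snd = μ) {f : X → ℝ} (hf : Measurable f) :
    eLpNorm (fun y => ∫ x, f x ∂(κ y)) 2 ν ≤ eLpNorm f 2 μ := by
  rw [eLpNorm_eq_lintegral_rpow_enorm_toReal (by norm_num) (by norm_num),
    eLpNorm_eq_lintegral_rpow_enorm_toReal (by norm_num) (by norm_num)]
  refine ENNReal.rpow_le_rpow ?_ (by norm_num)
  rw [← lintegral_snd_compProd κ hsnd (by fun_prop)]
  refine lintegral_mono fun y => ?_
  have h1 : ‖∫ x, f x ∂(κ y)‖ₑ ≤ eLpNorm f 2 (κ y) := by
    calc ‖∫ x, f x ∂(κ y)‖ₑ ≤ ∫⁻ x, ‖f x‖ₑ ∂(κ y) := enorm_integral_le_lintegral_enorm _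
      _ = eLpNorm f 1 (κ y) := (eLpNorm_one_eq_lintegral_enorm).symm
      _ ≤ eLpNorm f 2 (κ y) :=
        eLpNorm_le_eLpNorm_of_exponent_le (by norm_num) hf.aestronglyMeasurable
  calc ‖∫ x, f x ∂(κ y)‖ₑ ^ (2 : ℝ≥0∞).toReal ≤ eLpNorm f 2 (κ y) ^ (2 : ℝ≥0∞).toReal :=
        ENNReal.rpow_le_rpow h1 (by norm_num)
    _ = ∫⁻ x, ‖f x‖ₑ ^ (2 : ℝ≥0∞).toReal ∂(κ y) := by
        rw [eLpNorm_eq_lintegral_rpow_enorm_toReal (by norm_num) (by norm_num),
          ← ENNReal.rpow_mul]
        norm_num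

theorem measurable_integral_kernel (κ : Kernel Y X) [IsMarkovKernel κ] {f : X → ℝ}
    (hf : Measurable f) : Measurable (fun y => ∫ x, f x ∂(κ y)) :=
  (hf.stronglyMeasurable.integral_kernel).measurable

theorem memLp_integral [IsProbabilityMeasure ν] (κ : Kernel Y X) [IsMarkovKernel κ]
    (hsnd : (ν ⊗ₘ κ).map Prod.snd = μ) {f : X → ℝ} (hf : Measurable f) (hf2 : MemLp f 2 μ) :
    MemLp (fun y => ∫ x, f x ∂(κ y)) 2 ν :=
  ⟨(measurable_integral_kernel κ hf).aestronglyMeasurable,
    (eLpNorm_integral_le κ hsnd hf).trans_lt hf2.2⟩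

theorem ae_integrable_kernel [IsProbabilityMeasure ν] [IsProbabilityMeasure μ]
    (κ : Kernel Y X) [IsMarkovKernel κ]
    (hsnd : (ν ⊗ₘ κ).map Prod.snd = μ) {f : X → ℝ} (hf : Integrable f μ) :
    ∀ᵐ y ∂ν, Integrable f (κ y) := by
  rw [← hsnd] at hf
  have h1 : Integrable (fun p : Y × X => f p.2) (ν ⊗ₘ κ) := hf.comp_measurable measurable_snd
  exact ((Measure.integrable_compProd_iff h1.aestronglyMeasurable).1 h1).1

theorem integral_integral_kernel [IsProbabilityMeasure ν] [IsProbabilityMeasure μ]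
    (κ : Kernel Y X) [IsMarkovKernel κ]
    (hsnd : (ν ⊗ₘ κ).map Prod.snd = μ) {f : X → ℝ} (hf : Integrable f μ) :
    ∫ y, ∫ x, f x ∂(κ y) ∂ν = ∫ x, f x ∂μ := by
  have h0 := hf
  rw [← hsnd] at hf
  have h1 : Integrable (fun p : Y × X => f p.2) (ν ⊗ₘ κ) := hf.comp_measurable measurable_snd
  rw [← Measure.integral_compProd h1, ← hsnd]
  exact (integral_map measurable_snd.aemeasurable hf.1).symm

end Contraction

/-- The operator given by the kernel of a joining maps almost periodic functions to almost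
periodic functions. -/
theorem isAP_integral [MeasurableSpace.CountablyGenerated X] {ν : Measure Y} {μ : Measure X}
    (hν : IsSystem G ν) (hμ : IsSystem G μ) (κ : Kernel Y X) [IsMarkovKernel κ]
    (hj : IsJoining G ν μ (ν ⊗ₘ κ)) {f : X → ℝ} (hf : IsAP G μ f) :
    IsAP G ν (fun y => ∫ x, f x ∂(κ y)) := by
  have := hν.isProb
  have := hμ.isProb
  refine isAP_of_net hν (measurable_integral_kernel κ hf.meas)
    (memLp_integral κ hj.snd hf.meas hf.memLp) fun ε hε => ?_
  obtain ⟨T, hT, hcov⟩ := net_of_compact hμ hf hε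
  refine ⟨T, hT, fun g => ?_⟩
  obtain ⟨t, ht, hlt⟩ := hcov g
  refine ⟨t, ht, ?_⟩
  have hmg : Measurable (fun x : X => f (g • x)) := hf.meas.comp (measurable_const_smul g)
  have hmt : Measurable (fun x : X => f (t • x)) := hf.meas.comp (measurable_const_smul t)
  have hae : (fun y => (∫ x, f x ∂(κ (g • y))) - ∫ x, f x ∂(κ (t • y))) =ᵐ[ν]
      fun y => ∫ x, (f (g • x) - f (t • x)) ∂(κ y) := by
    filter_upwards [kernel_equivariant hν κ hj.inv g, kernel_equivariant hν κ hj.inv t,
      ae_integrable_kernel κ hj.snd ((memLp_smul hμ hf.memLp g).integrable (by norm_num)),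
      ae_integrable_kernel κ hj.snd ((memLp_smul hμ hf.memLp t).integrable (by norm_num))]
      with y h1 h2 h3 h4
    rw [h1, h2, integral_map (measurable_const_smul g).aemeasurable
      hf.meas.aestronglyMeasurable, integral_map (measurable_const_smul t).aemeasurable
      hf.meas.aestronglyMeasurable, integral_sub h3 h4]
  rw [eLpNorm_congr_ae hae]
  exact (eLpNorm_integral_le κ hj.snd (hmg.sub hmt)).trans_lt hlt

theorem integrable_mul_of_joining {ν : Measure Y} {μ : Measure X} {lam : Measure (Y × X)}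
    (hfst : lam.map Prod.fst = ν) (hsnd : lam.map Prod.snd = μ) {h : Y → ℝ} {f : X → ℝ}
    (hh : MemLp h 2 ν) (hf : MemLp f 2 μ) : Integrable (fun p => h p.1 * f p.2) lam := by
  rw [← hfst] at hh
  rw [← hsnd] at hf
  have h1 : MemLp (fun p : Y × X => h p.1) 2 lam := hh.comp_of_map measurable_fst.aemeasurable
  have h2 : MemLp (fun p : Y × X => f p.2) 2 lam := hf.comp_of_map measurable_snd.aemeasurable
  exact h1.integrable_mul h2

theorem integral_mul_compProd {ν : Measure Y} {μ : Measure X} [IsProbabilityMeasure ν]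
    (κ : Kernel Y X) [IsMarkovKernel κ] (hsnd : (ν ⊗ₘ κ).map Prod.snd = μ)
    {h : Y → ℝ} {f : X → ℝ} (hh : MemLp h 2 ν) (hf : MemLp f 2 μ) :
    ∫ p, h p.1 * f p.2 ∂(ν ⊗ₘ κ) = ∫ y, h y * ∫ x, f x ∂(κ y) ∂ν := by
  have hfst : (ν ⊗ₘ κ).map Prod.fst = ν := Measure.fst_compProd ν κ
  rw [Measure.integral_compProd (integrable_mul_of_joining hfst hsnd hh hf)]
  refine integral_congr_ae (Filter.Eventually.of_forall fun y => ?_)
  exact integral_const_mul (h y) _

/-- If a joining has product image in the product of the Kronecker factors then the operator given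
by its kernel maps every almost periodic function to a constant. -/
theorem integral_ae_eq_const [MeasurableSpace.CountablyGenerated X] {ν : Measure Y}
    {μ : Measure X} (hν : IsSystem G ν) (hμ : IsSystem G μ) (κ : Kernel Y X) [IsMarkovKernel κ]
    (hj : IsJoining G ν μ (ν ⊗ₘ κ)) (hK : KroneckerProduct G ν μ (ν ⊗ₘ κ)) {f : X → ℝ}
    (hf : IsAP G μ f) : ∀ᵐ y ∂ν, ∫ x, f x ∂(κ y) = ∫ x, f x ∂μ := by
  have := hν.isProb
  have := hμ.isProb
  set F : Y → ℝ := fun y => ∫ x, f x ∂(κ y) with hF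
  have hFap : IsAP G ν F := isAP_integral hν hμ κ hj hf
  set c : ℝ := ∫ x, f x ∂μ with hc
  have h1 := hK F f hFap hf
  rw [integral_mul_compProd κ hj.snd hFap.memLp hf.memLp] at h1
  have h2 : ∫ y, F y ∂ν = c :=
    integral_integral_kernel κ hj.snd (hf.memLp.integrable (by norm_num))
  rw [h2] at h1
  have h1' : ∫ y, F y * F y ∂ν = c * c := h1
  have hsq : Integrable (fun y => F y * F y) ν := hFap.memLp.integrable_mul hFap.memLp
  have hFi : Integrable F ν := hFap.memLp.integrable (by norm_num)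
  have h3 : ∫ y, (F y - c) ^ 2 ∂ν = 0 := by
    have : (fun y => (F y - c) ^ 2) = fun y => F y * F y - 2 * c * F y + c * c := by
      funext y
      ring
    have hs : Integrable (fun y => F y * F y - 2 * c * F y) ν := hsq.sub (hFi.const_mul _)
    rw [this, integral_add hs (integrable_const _),
      integral_sub hsq (hFi.const_mul _), integral_const_mul, h1', h2, integral_const]
    simp
    ring
  have hint : Integrable (fun y => (F y - c) ^ 2) ν := by
    have : (fun y => (F y - c) ^ 2) = fun y => F y * F y - 2 * c * F y + c * c := by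
      funext y
      ring
    rw [this]
    exact (hsq.sub (hFi.const_mul _)).add (integrable_const _)
  have h4 := (integral_eq_zero_iff_of_nonneg (fun y => sq_nonneg _) hint).1 h3
  filter_upwards [h4] with y hy
  have : (F y - c) ^ 2 = 0 := hy
  have := pow_eq_zero_iff (two_ne_zero) |>.1 this
  linarith

end Pool.Agent.R291.QD
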