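import Pool.Agent.R291.QDKernel

namespace Pool.Agent.R291.QD

open MeasureTheory ProbabilityTheory
open scoped ENNReal ProbabilityTheory

variable {G : Type*} [Group G]
variable {X : Type*} [MeasurableSpace X] [MulAction G X] [MeasurableConstSMul G X]
variable {Y : Type*} [MeasurableSpace Y] [MulAction G Y] [MeasurableConstSMul G Y]

/-- The relatively independent self-joining of `μ` over `ν`. -/
noncomputable def selfJoin (ν : Measure Y) (κ : Kernel Y X) : Measure (X × X) :=
  (ν ⊗ₘ (κ ×ₖ κ)).map Prod.snd

theorem selfJoin_apply {ν : Measure Y} [IsProbabilityMeasure ν] (κ : Kernel Y X)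
    [IsMarkovKernel κ] {s : Set (X × X)} (hs : MeasurableSet s) :
    selfJoin ν κ s = ∫⁻ y, ((κ y).prod (κ y)) s ∂ν := by
  rw [selfJoin, Measure.map_apply measurable_snd hs,
    Measure.compProd_apply (measurable_snd hs)]
  refine lintegral_congr fun y => ?_
  rw [Kernel.prod_apply]
  rfl

theorem selfJoin_isJoining [MeasurableSpace.CountablyGenerated X] {ν : Measure Y} {μ : Measure X}
    (hν : IsSystem G ν) (κ : Kernel Y X) [IsMarkovKernel κ]
    (hj : IsJoining G ν μ (ν ⊗ₘ κ)) : IsJoining G μ μ (selfJoin ν κ) := by
  have := hν.isProb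
  refine ⟨fun g => ?_, ?_, ?_⟩
  · ext s hs
    have hmd : Measurable (fun p : X × X => (g • p.1, g • p.2)) := measurable_diag g
    rw [Measure.map_apply hmd hs, selfJoin_apply κ (hmd hs), selfJoin_apply κ hs]
    have hmeas : Measurable fun y => ((κ y).prod (κ y)) s := by
      have := Kernel.measurable_coe (κ ×ₖ κ) hs
      simpa [Kernel.prod_apply] using this
    rw [← (hν.mp g).lintegral_comp hmeas]
    refine lintegral_congr_ae ?_
    filter_upwards [kernel_equivariant hν κ hj.inv g] with y hy
    rw [hy, Measure.map_prod_map _ _ (measurable_const_smul g) (measurable_const_smul g),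
      Measure.map_apply ((measurable_const_smul g).prodMap (measurable_const_smul g)) hs]
    rfl
  · ext s hs
    rw [Measure.map_apply measurable_fst hs, selfJoin_apply κ (measurable_fst hs),
      ← lintegral_indicator_one hs, ← lintegral_snd_compProd κ hj.snd
        (measurable_one.indicator hs)]
    refine lintegral_congr fun y => ?_
    rw [lintegral_indicator_one hs, ← Set.prod_univ, Measure.prod_prod, measure_univ, mul_one]
  · ext s hs
    rw [Measure.map_apply measurable_snd hs, selfJoin_apply κ (measurable_snd hs),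
      ← lintegral_indicator_one hs, ← lintegral_snd_compProd κ hj.snd
        (measurable_one.indicator hs)]
    refine lintegral_congr fun y => ?_
    rw [lintegral_indicator_one hs, ← Set.univ_prod, Measure.prod_prod, measure_univ, one_mul]

theorem selfJoin_kronecker [MeasurableSpace.CountablyGenerated X] {ν : Measure Y}
    {μ : Measure X} (hν : IsSystem G ν) (hμ : IsSystem G μ) (κ : Kernel Y X) [IsMarkovKernel κ]
    (hj : IsJoining G ν μ (ν ⊗ₘ κ)) (hK : KroneckerProduct G ν μ (ν ⊗ₘ κ)) :
    KroneckerProduct G μ μ (selfJoin ν κ) := by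
  have := hν.isProb
  have := hμ.isProb
  intro f h hf hh
  have hj2 := selfJoin_isJoining hν κ hj
  have hint : Integrable (fun p : X × X => f p.1 * h p.2) (selfJoin ν κ) :=
    integrable_mul_of_joining hj2.fst hj2.snd hf.memLp hh.memLp
  have hint' := hint
  rw [selfJoin] at hint'
  rw [selfJoin, integral_map measurable_snd.aemeasurable hint'.1]
  have h2 : Integrable (fun p : Y × (X × X) => f p.2.1 * h p.2.2) (ν ⊗ₘ (κ ×ₖ κ)) :=
    hint'.comp_measurable measurable_snd
  rw [Measure.integral_compProd h2]
  have h3 : ∀ᵐ y ∂ν, ∫ p, f p.1 * h p.2 ∂((κ ×ₖ κ) y) = (∫ x, f x ∂μ) * ∫ x, h x ∂μ := by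
    filter_upwards [integral_ae_eq_const hν hμ κ hj hK hf,
      integral_ae_eq_const hν hμ κ hj hK hh] with y hy1 hy2
    rw [Kernel.prod_apply, integral_prod_mul, hy1, hy2]
  rw [integral_congr_ae h3, integral_const]
  simp

/-- A system that is quasi-disjoint from itself is quasi-disjoint from every system. -/
theorem quasiDisjoint_of_self [StandardBorelSpace X] {ν : Measure Y} {μ : Measure X}
    (hν : IsSystem G ν) (hμ : IsSystem G μ) (hQ : QuasiDisjoint G μ μ) :
    QuasiDisjoint G ν μ := by
  have := hν.isProb
  have := hμ.isProb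
  intro lam hj hK
  have hX : Nonempty X := by
    by_contra hne
    rw [not_nonempty_iff] at hne
    exact IsProbabilityMeasure.ne_zero μ (Measure.eq_zero_of_isEmpty μ)
  have hlp : IsProbabilityMeasure lam := by
    refine ⟨?_⟩
    have : (lam.map Prod.fst) Set.univ = 1 := by
      rw [hj.fst]
      exact measure_univ
    rwa [Measure.map_apply measurable_fst MeasurableSet.univ, Set.preimage_univ] at this
  obtain ⟨κ, hκM, hκ⟩ : ∃ κ : Kernel Y X, IsMarkovKernel κ ∧ lam = ν ⊗ₘ κ := by
    refine ⟨lam.condKernel, inferInstance, ?_⟩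
    have h1 : lam.fst = ν := hj.fst
    conv_lhs => rw [← lam.disintegrate lam.condKernel, h1]
  subst hκ
  have hS := hQ _ (selfJoin_isJoining hν κ hj) (selfJoin_kronecker hν hμ κ hj hK)
  have hconst : ∀ A : Set X, MeasurableSet A → ∀ᵐ y ∂ν, κ y A = μ A := by
    intro A hA
    have h1 : ∫⁻ y, κ y A * κ y A ∂ν = μ A * μ A := by
      have := selfJoin_apply (ν := ν) κ (hA.prod hA)
      rw [hS, Measure.prod_prod] at this
      rw [this]
      refine lintegral_congr fun y => ?_
      rw [Measure.prod_prod]
    have h2 : ∫⁻ y, κ y A ∂ν = μ A := by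
      rw [← lintegral_indicator_one hA, ← lintegral_snd_compProd κ hj.snd
        (measurable_one.indicator hA)]
      refine lintegral_congr fun y => ?_
      rw [lintegral_indicator_one hA]
    have hm : Measurable fun y => κ y A := κ.measurable_coe hA
    set F : Y → ℝ := fun y => (κ y A).toReal with hF
    set c : ℝ := (μ A).toReal with hc
    have hFm : Measurable F := hm.ennreal_toReal
    have hF0 : ∀ y, 0 ≤ F y := fun y => ENNReal.toReal_nonneg
    have hF1 : ∀ y, F y ≤ 1 := fun y => by
      have : κ y A ≤ 1 := prob_le_one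
      exact ENNReal.toReal_mono ENNReal.one_ne_top this
    have hFi : Integrable F ν := Integrable.of_bound hFm.aestronglyMeasurable 1
      (Filter.Eventually.of_forall fun y => by
        rw [Real.norm_eq_abs, abs_of_nonneg (hF0 y)]
        exact hF1 y)
    have hsq : Integrable (fun y => F y * F y) ν :=
      Integrable.of_bound (hFm.mul hFm).aestronglyMeasurable 1
      (Filter.Eventually.of_forall fun y => by
        rw [Real.norm_eq_abs, abs_of_nonneg (mul_nonneg (hF0 y) (hF0 y))]
        nlinarith [hF0 y, hF1 y])
    have e2 : ∫ y, F y ∂ν = c := by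
      rw [integral_eq_lintegral_of_nonneg_ae (Filter.Eventually.of_forall hF0)
        hFm.aestronglyMeasurable, hc, ← h2]
      congr 1
      refine lintegral_congr fun y => ?_
      exact ENNReal.ofReal_toReal (measure_ne_top _ _)
    have e1 : ∫ y, F y * F y ∂ν = c * c := by
      rw [integral_eq_lintegral_of_nonneg_ae
        (Filter.Eventually.of_forall fun y => mul_nonneg (hF0 y) (hF0 y))
        (hFm.mul hFm).aestronglyMeasurable, hc, ← ENNReal.toReal_mul, ← h1]
      congr 1
      refine lintegral_congr fun y => ?_
      rw [ENNReal.ofReal_mul (hF0 y), hF, ENNReal.ofReal_toReal (measure_ne_top _ _)]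
    have hexp : (fun y => (F y - c) ^ 2) = fun y => F y * F y - 2 * c * F y + c * c := by
      funext y
      ring
    have hs : Integrable (fun y => F y * F y - 2 * c * F y) ν := hsq.sub (hFi.const_mul _)
    have h3 : ∫ y, (F y - c) ^ 2 ∂ν = 0 := by
      rw [hexp, integral_add hs (integrable_const _),
        integral_sub hsq (hFi.const_mul _), integral_const_mul, e1, e2, integral_const]
      simp
      ring
    have hint : Integrable (fun y => (F y - c) ^ 2) ν := by
      rw [hexp]
      exact hs.add (integrable_const _)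
    have h4 := (integral_eq_zero_iff_of_nonneg (fun y => sq_nonneg _) hint).1 h3
    filter_upwards [h4] with y hy
    have h5 : (F y - c) ^ 2 = 0 := hy
    have h6 := pow_eq_zero_iff (two_ne_zero) |>.1 h5
    have h7 : (κ y A).toReal = (μ A).toReal := by
      have : F y = c := by linarith
      exact this
    exact (ENNReal.toReal_eq_toReal_iff' (measure_ne_top _ _) (measure_ne_top _ _)).1 h7
  symm
  refine Measure.prod_eq fun s t hs ht => ?_
  rw [Measure.compProd_apply_prod hs ht, setLIntegral_congr_fun_ae hs
    ((hconst t ht).mono fun y hy _ => hy)]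
  simp [mul_comm]

end Pool.Agent.R291.QD
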