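import Pool.Agent.R291.QDErg4
import Pool.Agent.R291.QDSelf

namespace Pool.Agent.R291.QD

open MeasureTheory ProbabilityTheory
open scoped ENNReal ProbabilityTheory

variable {G : Type*} [Group G] {X : Type*} [mX : MeasurableSpace X] [MulAction G X]
variable [MeasurableConstSMul G X]

theorem inv_of_equivariant {Y : Type*} [MeasurableSpace Y] [MulAction G Y]
    [MeasurableConstSMul G Y] {ν : Measure Y} (hν : IsSystem G ν) (κ : Kernel Y X)
    [IsMarkovKernel κ] (g : G) (h : ∀ᵐ y ∂ν, κ (g • y) = (κ y).map (fun x => g • x)) :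
    (ν ⊗ₘ κ).map (fun p => (g • p.1, g • p.2)) = ν ⊗ₘ κ := by
  have := hν.isProb
  ext s hs
  rw [map_diag_compProd κ g hs, Measure.compProd_apply hs]
  have hmeas : Measurable fun y => κ y (Prod.mk y ⁻¹' s) :=
    Kernel.measurable_kernel_prodMk_left hs
  rw [← (hν.mp g).lintegral_comp hmeas]
  refine lintegral_congr_ae ?_
  filter_upwards [h] with y hy
  rw [hy, Measure.map_apply (measurable_const_smul g) (measurable_prodMk_left hs)]
  rfl

omit [MeasurableConstSMul G X] in
/-- The conditional kernel of a joining. -/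
theorem exists_kernel [StandardBorelSpace X] {Y : Type*} [MeasurableSpace Y] [MulAction G Y]
    {ν : Measure Y} {μ : Measure X} (hν : IsSystem G ν) (hμ : IsSystem G μ)
    {lam : Measure (Y × X)} (hj : IsJoining G ν μ lam) :
    ∃ κ : Kernel Y X, IsMarkovKernel κ ∧ lam = ν ⊗ₘ κ := by
  have := hν.isProb
  have := hμ.isProb
  have hX : Nonempty X := by
    by_contra hne
    rw [not_nonempty_iff] at hne
    exact IsProbabilityMeasure.ne_zero μ (Measure.eq_zero_of_isEmpty μ)
  have hlp : IsProbabilityMeasure lam := by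
    refine ⟨?_⟩
    have : (lam.map Prod.fst) Set.univ = 1 := by
      rw [hj.fst]
      exact measure_univ
    rwa [Measure.map_apply measurable_fst MeasurableSet.univ, Set.preimage_univ] at this
  refine ⟨lam.condKernel, inferInstance, ?_⟩
  have h1 : lam.fst = ν := hj.fst
  conv_lhs => rw [← lam.disintegrate lam.condKernel, h1]

/-- Invariant sets are independent of the second coordinate in a joining with product image in
the product of the Kronecker factors. -/
theorem joining_inv_prod [StandardBorelSpace X] {Y : Type*} [MeasurableSpace Y] [MulAction G Y]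
    [StandardBorelSpace Y] [MeasurableConstSMul G Y]
    {ν : Measure Y} {μ : Measure X} (hν : IsSystem G ν) (hμ : IsSystem G μ)
    {lam : Measure (Y × X)} (hj : IsJoining G ν μ lam) (hK : KroneckerProduct G ν μ lam)
    {s : Set Y} (hs : MeasurableSet[invSigma G Y] s) {B : Set X} (hB : MeasurableSet B) :
    lam (s ×ˢ B) = ν s * μ B := by
  have := hν.isProb
  have := hμ.isProb
  obtain ⟨κ, hκM, hκ⟩ := exists_kernel hμ hν hj.swap
  have hj' := hj.swap
  have hK' := hK.swap
  rw [hκ] at hj' hK'
  have hsm : MeasurableSet s := hs.1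
  set f : Y → ℝ := s.indicator (fun _ => (1 : ℝ)) with hf
  have hfap : IsAP G ν f := by
    refine isAP_of_invariant hν (measurable_const.indicator hsm)
      ((memLp_const (1 : ℝ)).indicator hsm) fun g x => ?_
    have hx : g • x ∈ s ↔ x ∈ s := by
      have := hs.2 g
      constructor
      · intro h
        rw [← this]
        exact h
      · intro h
        rw [← this] at h
        exact h
    by_cases h : x ∈ s
    · rw [hf, Set.indicator_of_mem h, Set.indicator_of_mem (hx.2 h)]
    · rw [hf, Set.indicator_of_notMem h, Set.indicator_of_notMem (fun h' => h (hx.1 h'))]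
  have h1 := integral_ae_eq_const hμ hν κ hj' hK' hfap
  have h2 : ∀ᵐ x ∂μ, κ x s = ν s := by
    filter_upwards [h1] with x hx
    rw [hf, integral_indicator hsm, integral_indicator hsm, setIntegral_const,
      setIntegral_const] at hx
    simp only [smul_eq_mul, mul_one] at hx
    exact (ENNReal.toReal_eq_toReal_iff' (measure_ne_top _ _) (measure_ne_top _ _)).1 hx
  have h3 : lam (s ×ˢ B) = (lam.map Prod.swap) (B ×ˢ s) := by
    rw [Measure.map_apply measurable_swap (hB.prod hsm), Set.preimage_swap_prod]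
  rw [h3, hκ, Measure.compProd_apply_prod hB hsm,
    setLIntegral_congr_fun_ae hB (h2.mono fun x hx _ => hx)]
  simp

/-- The second marginal of the joining over almost every ergodic component is the whole measure. -/
theorem ae_snd_eq [StandardBorelSpace X] [Countable G] {μ : Measure X} [IsProbabilityMeasure μ]
    (hμ : IsSystem G μ) (κ : Kernel X X) [IsMarkovKernel κ]
    (hj : IsJoining G μ μ (μ ⊗ₘ κ)) (hK : KroneckerProduct G μ μ (μ ⊗ₘ κ)) :
    ∀ᵐ z ∂μ, ((erg G μ z) ⊗ₘ κ).map Prod.snd = μ := by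
  obtain ⟨C, hCc, hCg, hCp, hCm⟩ := exists_countable_piSystem (X := X)
  have h : ∀ᵐ z ∂μ, ∀ B ∈ C, ((erg G μ z) ⊗ₘ κ).map Prod.snd B = μ B := by
    rw [ae_ball_iff hCc]
    intro B hBC
    have hB := hCm B hBC
    have hm : Measurable fun y => κ y B := κ.measurable_coe hB
    set F : X → ℝ := fun y => (κ y).real B with hF
    have hFm : Measurable F := hm.ennreal_toReal
    have hFb : ∀ x, ‖F x‖ ≤ 1 := by
      intro x
      rw [hF, Real.norm_eq_abs]
      simp only
      rw [abs_of_nonneg measureReal_nonneg]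
      exact measureReal_le_one
    have hFi : Integrable F μ := Integrable.of_bound hFm.aestronglyMeasurable 1
      (Filter.Eventually.of_forall hFb)
    have h1 : (fun _ => μ.real B) =ᵐ[μ] μ[F | invSigma G X] := by
      refine ae_eq_condExp_of_forall_setIntegral_eq (invSigma_le G X) hFi
        (fun s _ _ => (integrable_const _).integrableOn) (fun s hs _ => ?_)
        stronglyMeasurable_const.aestronglyMeasurable
      have hsm : MeasurableSet s := hs.1
      have h2 := joining_inv_prod hμ hμ hj hK hs hB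
      rw [Measure.compProd_apply_prod hsm hB] at h2
      rw [setIntegral_const, hF]
      have h3 : ∫ y in s, (κ y).real B ∂μ = (∫⁻ y in s, κ y B ∂μ).toReal := by
        rw [integral_eq_lintegral_of_nonneg_ae
          (Filter.Eventually.of_forall fun y => measureReal_nonneg)
          hFm.aestronglyMeasurable]
        congr 1
        refine lintegral_congr fun y => ?_
        exact ENNReal.ofReal_toReal (measure_ne_top _ _)
      rw [h3, h2, ENNReal.toReal_mul, smul_eq_mul]
      rfl
    filter_upwards [h1, erg_integral (G := G) μ hFi] with z hz1 hz2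
    rw [Measure.map_apply measurable_snd hB, ← Set.univ_prod,
      Measure.compProd_apply_prod MeasurableSet.univ hB, Measure.restrict_univ]
    have h4 : ∫ y, F y ∂(erg G μ z) = μ.real B := by rw [← hz2, ← hz1]
    have h5 : ∫ y, F y ∂(erg G μ z) = (∫⁻ y, κ y B ∂(erg G μ z)).toReal := by
      rw [integral_eq_lintegral_of_nonneg_ae
        (Filter.Eventually.of_forall fun y => measureReal_nonneg)
        hFm.aestronglyMeasurable]
      congr 1
      refine lintegral_congr fun y => ?_
      exact ENNReal.ofReal_toReal (measure_ne_top _ _)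
    have h6 : ∫⁻ y, κ y B ∂(erg G μ z) ≠ ∞ := by
      refine ne_of_lt (lt_of_le_of_lt (lintegral_mono fun y => prob_le_one) ?_)
      simp
    rw [h4] at h5
    exact ((ENNReal.toReal_eq_toReal_iff' (measure_ne_top _ _) h6).1 h5).symm
  filter_upwards [h] with z hz
  have hprob : IsProbabilityMeasure (((erg G μ z) ⊗ₘ κ).map Prod.snd) :=
    Measure.isProbabilityMeasure_map measurable_snd.aemeasurable
  refine ext_of_generate_finite C hCg hCp hz ?_
  rw [measure_univ, measure_univ]

/-- Over almost every ergodic component the kernel maps all almost periodic functions to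
constants. -/
theorem ae_const_of_ap [StandardBorelSpace X] [Countable G] {μ : Measure X}
    [IsProbabilityMeasure μ]
    (hμ : IsSystem G μ) (κ : Kernel X X) [IsMarkovKernel κ]
    (hj : IsJoining G μ μ (μ ⊗ₘ κ)) (hK : KroneckerProduct G μ μ (μ ⊗ₘ κ)) :
    ∀ᵐ z ∂μ, ∀ f : X → ℝ, IsAP G μ f → ∀ᵐ y ∂(erg G μ z), ∫ x, f x ∂(κ y) = ∫ x, f x ∂μ := by
  have hfact : Fact ((2 : ℝ≥0∞) ≠ ∞) := ⟨by norm_num⟩
  set P : Set (Lp ℝ 2 μ) := {F | ∃ f : X → ℝ, IsAP G μ f ∧ F =ᵐ[μ] f} with hP
  obtain ⟨t, htP, htc, htd⟩ :=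
    (TopologicalSpace.IsSeparable.of_separableSpace P).exists_countable_dense_subset
  have hch : ∀ F : Lp ℝ 2 μ, ∃ f : X → ℝ, F ∈ t → (IsAP G μ f ∧ F =ᵐ[μ] f) := by
    intro F
    by_cases hF : F ∈ t
    · obtain ⟨f, hf⟩ := htP hF
      exact ⟨f, fun _ => hf⟩
    · exact ⟨0, fun h => absurd h hF⟩
  choose r hr using hch
  have h1 : ∀ᵐ z ∂μ, ∀ F ∈ t, ∀ᵐ y ∂(erg G μ z), ∫ x, r F x ∂(κ y) = ∫ x, r F x ∂μ := by
    rw [ae_ball_iff htc]
    intro F hF
    exact erg_ae μ (integral_ae_eq_const hμ hμ κ hj hK (hr F hF).1)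
  filter_upwards [h1, ae_snd_eq hμ κ hj hK] with z hz hsnd f hf
  set c : ℝ := ∫ x, f x ∂μ with hc
  have hmem : hf.memLp.toLp f ∈ closure t := htd ⟨f, hf, MemLp.coeFn_toLp _⟩
  rw [EMetric.mem_closure_iff] at hmem
  have hfi : Integrable f μ := hf.memLp.integrable (by norm_num)
  have key : ∀ ε : ℝ≥0∞, 0 < ε →
      ∫⁻ y, ‖(∫ x, f x ∂(κ y)) - c‖ₑ ∂(erg G μ z) ≤ ε + ε := by
    intro ε hε
    obtain ⟨F, hFt, hFd⟩ := hmem ε hε
    obtain ⟨hap, hae⟩ := hr F hFt
    have hri : Integrable (r F) μ := hap.memLp.integrable (by norm_num)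
    have hd : ∫⁻ x, ‖f x - r F x‖ₑ ∂μ ≤ ε := by
      have e1 : ∫⁻ x, ‖f x - r F x‖ₑ ∂μ = eLpNorm (fun x => f x - r F x) 1 μ :=
        eLpNorm_one_eq_lintegral_enorm.symm
      have e2 : eLpNorm (fun x => f x - r F x) 1 μ ≤ eLpNorm (fun x => f x - r F x) 2 μ :=
        eLpNorm_le_eLpNorm_of_exponent_le (by norm_num)
          (hf.meas.sub hap.meas).aestronglyMeasurable
      have e3 : eLpNorm (fun x => f x - r F x) 2 μ = edist (hf.memLp.toLp f) F := by
        rw [Lp.edist_def]
        refine eLpNorm_congr_ae ?_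
        filter_upwards [hf.memLp.coeFn_toLp, hae] with x hx1 hx2
        rw [Pi.sub_apply, hx1, hx2]
      rw [e1]
      refine e2.trans ?_
      rw [e3]
      exact hFd.le
    have hcd : ‖(∫ x, r F x ∂μ) - c‖ₑ ≤ ε := by
      rw [hc, ← integral_sub hri hfi]
      refine (enorm_integral_le_lintegral_enorm _).trans (le_trans (le_of_eq ?_) hd)
      refine lintegral_congr fun x => ?_
      rw [← enorm_neg, neg_sub]
    have hpt : ∀ᵐ y ∂(erg G μ z), ‖(∫ x, f x ∂(κ y)) - c‖ₑ ≤
        (∫⁻ x, ‖f x - r F x‖ₑ ∂(κ y)) + ε := by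
      filter_upwards [hz F hFt, ae_integrable_kernel κ hsnd hfi,
        ae_integrable_kernel κ hsnd hri] with y hy1 hy2 hy3
      have e4 : (∫ x, f x ∂(κ y)) - c = (∫ x, (f x - r F x) ∂(κ y)) +
          ((∫ x, r F x ∂μ) - c) := by
        rw [integral_sub hy2 hy3, hy1]
        ring
      rw [e4]
      refine (enorm_add_le _ _).trans ?_
      exact add_le_add (enorm_integral_le_lintegral_enorm _) hcd
    refine (lintegral_mono_ae hpt).trans ?_
    have hm1 : Measurable fun x => ‖f x - r F x‖ₑ := (hf.meas.sub hap.meas).enorm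
    rw [lintegral_add_right _ measurable_const, lintegral_snd_compProd κ hsnd hm1,
      lintegral_const, measure_univ, mul_one]
    exact add_le_add hd le_rfl
  have hzero : ∫⁻ y, ‖(∫ x, f x ∂(κ y)) - c‖ₑ ∂(erg G μ z) = 0 := by
    refine le_antisymm ?_ zero_le
    refine ENNReal.le_of_forall_pos_le_add fun ε hε _ => ?_
    have h2 := key (ENNReal.ofNNReal ε / 2) (by
      refine ENNReal.div_pos (by exact_mod_cast hε.ne') (by norm_num))
    rw [ENNReal.add_halves] at h2
    rw [zero_add]
    exact h2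
  rw [lintegral_eq_zero_iff ((measurable_integral_kernel κ hf.meas).sub_const c).enorm] at hzero
  filter_upwards [hzero] with y hy
  have : ‖(∫ x, f x ∂(κ y)) - c‖ₑ = 0 := hy
  exact sub_eq_zero.1 (enorm_eq_zero.1 this)

/-- A system quasi-disjoint from all ergodic systems on the same space is quasi-disjoint from
itself. -/
theorem self_of_ergodic [StandardBorelSpace X] [Countable G] {μ : Measure X}
    (hμ : IsSystem G μ)
    (hQ : ∀ ν : Measure X, IsSystem G ν → IsErgodicSystem G ν → QuasiDisjoint G ν μ) :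
    QuasiDisjoint G μ μ := by
  have := hμ.isProb
  intro lam hj hK
  obtain ⟨κ, hκM, rfl⟩ := exists_kernel hμ hμ hj
  have hjz : ∀ᵐ z ∂μ, ∀ g : G, ∀ᵐ y ∂(erg G μ z), κ (g • y) = (κ y).map (fun x => g • x) := by
    rw [ae_all_iff]
    intro g
    exact erg_ae μ (kernel_equivariant hμ κ hj.inv g)
  have hmain : ∀ᵐ z ∂μ, (erg G μ z) ⊗ₘ κ = (erg G μ z).prod μ := by
    filter_upwards [hjz, erg_isSystem hμ, erg_ergodic hμ, ae_snd_eq hμ κ hj hK,
      ae_const_of_ap hμ κ hj hK] with z h1 h2 h3 h4 h5
    refine hQ _ h2 h3 _ ⟨fun g => inv_of_equivariant h2 κ g (h1 g),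
      Measure.fst_compProd _ κ, h4⟩ ?_
    intro h f hh hf
    rw [integral_mul_compProd κ h4 hh.memLp hf.memLp]
    have e1 : ∀ᵐ y ∂(erg G μ z), h y * ∫ x, f x ∂(κ y) = h y * ∫ x, f x ∂μ := by
      filter_upwards [h5 f hf] with y hy
      rw [hy]
    rw [integral_congr_ae e1, integral_mul_const]
  symm
  refine Measure.prod_eq fun s t hs ht => ?_
  have hm : Measurable fun y => κ y t := κ.measurable_coe ht
  have e1 : ∀ m : Measure X, IsProbabilityMeasure m →
      (m ⊗ₘ κ) (s ×ˢ t) = ∫⁻ y, s.indicator (fun y => κ y t) y ∂m := by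
    intro m hm'
    rw [Measure.compProd_apply_prod hs ht, lintegral_indicator hs]
  rw [e1 μ inferInstance, ← erg_lintegral (G := G) μ (hm.indicator hs)]
  have e2 : ∀ᵐ z ∂μ, ∫⁻ y, s.indicator (fun y => κ y t) y ∂(erg G μ z) =
      erg G μ z s * μ t := by
    filter_upwards [hmain] with z hz
    rw [← e1 (erg G μ z) inferInstance, hz, Measure.prod_prod]
  rw [lintegral_congr_ae e2, lintegral_mul_const _ ((erg G μ).measurable_coe hs)]
  congr 1
  have e3 := erg_lintegral (G := G) μ (measurable_one.indicator hs : Measurable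
    (s.indicator (1 : X → ℝ≥0∞)))
  simp only [lintegral_indicator_one hs] at e3
  exact e3

end Pool.Agent.R291.QD
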