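import Mathlib

/-!
Rigidity of near actions of `ℤ²`: two commuting permutations which agree off a finite set with two
commuting permutations generating a free action (off a finite set of exceptional points) are
conjugate to them by a finitely supported permutation.
-/

open Set

namespace Pool.Agent.R291

/-- Two permutations agree off a finite set. -/
def Near {Y : Type} (f g : Equiv.Perm Y) : Prop := {y | f y ≠ g y}.Finite

lemma Near.symm {Y : Type} {f g : Equiv.Perm Y} (h : Near f g) : Near g f := by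
  refine Set.Finite.subset h fun y hy => ?_
  exact fun h' => hy h'.symm

lemma Near.refl {Y : Type} (f : Equiv.Perm Y) : Near f f := by simp [Near]

lemma Near.mul {Y : Type} {f g f' g' : Equiv.Perm Y} (h : Near f g) (h' : Near f' g') :
    Near (f * f') (g * g') := by
  have h1 : {y | (f * f') y ≠ (g * g') y} ⊆ {y | f' y ≠ g' y} ∪ f' ⁻¹' {y | f y ≠ g y} := by
    intro y hy
    by_cases h2 : f' y = g' y
    · right
      intro h3
      apply hy
      show f (f' y) = g (g' y)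
      rw [← h2]; exact h3
    · exact Or.inl h2
  exact (h'.union (h.preimage f'.injective.injOn)).subset h1

lemma app_inv {Y : Type} (f : Equiv.Perm Y) (y : Y) : f (f⁻¹ y) = y := f.apply_symm_apply y

lemma inv_app {Y : Type} (f : Equiv.Perm Y) (y : Y) : f⁻¹ (f y) = y := f.symm_apply_apply y

lemma Near.inv {Y : Type} {f g : Equiv.Perm Y} (h : Near f g) : Near f⁻¹ g⁻¹ := by
  have h1 : {y | f⁻¹ y ≠ g⁻¹ y} ⊆ (g⁻¹ : Equiv.Perm Y) ⁻¹' {y | f y ≠ g y} := by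
    intro y hy h2
    apply hy
    rw [Equiv.Perm.inv_eq_iff_eq, h2]
    simp
  exact (h.preimage (g⁻¹ : Equiv.Perm Y).injective.injOn).subset h1

lemma Near.trans {Y : Type} {f g k : Equiv.Perm Y} (h : Near f g) (h' : Near g k) : Near f k := by
  refine (h.union h').subset fun y hy => ?_
  by_cases h1 : f y = g y
  · right; intro h2; exact hy (h1.trans h2)
  · exact Or.inl h1

section rigid

variable {Y : Type} (r1 r2 R1 R2 : Equiv.Perm Y) (W0 : Set Y)

/-- Points whose `R1`-orbit is finite. -/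
def per (R1 : Equiv.Perm Y) : Set Y := {y | ∃ n : ℕ, 0 < n ∧ (R1 ^ n) y = y}

lemma per_iff {R1 : Equiv.Perm Y} {y : Y} : y ∉ per R1 ↔ Function.Injective (fun n : ℕ => (R1 ^ n) y) := by
  constructor
  · intro h
    have key : ∀ m n : ℕ, m < n → (R1 ^ m) y ≠ (R1 ^ n) y := by
      intro m n hmn heq
      apply h
      refine ⟨n - m, by omega, ?_⟩
      have h1 : R1 ^ n = R1 ^ m * R1 ^ (n - m) := by rw [← pow_add]; congr 1; omega
      rw [h1, Equiv.Perm.mul_apply] at heq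
      exact ((R1 ^ m).injective heq).symm
    intro m n hmn
    rcases lt_trichotomy m n with h1 | h1 | h1
    · exact absurd hmn (key m n h1)
    · exact h1
    · exact absurd hmn.symm (key n m h1)
  · rintro hinj ⟨n, hn, h⟩
    have : (fun n : ℕ => (R1 ^ n) y) n = (fun n : ℕ => (R1 ^ n) y) 0 := by simpa using h
    have := hinj this
    omega

lemma per_apply {R1 R2 : Equiv.Perm Y} (hc : R1 * R2 = R2 * R1) {y : Y} :
    R2 y ∈ per R1 ↔ y ∈ per R1 := by
  have hcn : ∀ n : ℕ, R1 ^ n * R2 = R2 * R1 ^ n := fun n => (Commute.pow_left hc n)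
  constructor
  · rintro ⟨n, hn, h⟩
    refine ⟨n, hn, R2.injective ?_⟩
    have := congrArg (fun f : Equiv.Perm Y => f y) (hcn n)
    simp only [Equiv.Perm.mul_apply] at this
    rw [← this, h]
  · rintro ⟨n, hn, h⟩
    refine ⟨n, hn, ?_⟩
    have := congrArg (fun f : Equiv.Perm Y => f y) (hcn n)
    simp only [Equiv.Perm.mul_apply] at this
    rw [this, h]

lemma evt_notMem {s : Set Y} (hs : s.Finite) {u : ℕ → Y} (hu : Function.Injective u) :
    ∀ᶠ n in Filter.atTop, u n ∉ s := by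
  have := (hs.preimage hu.injOn)
  rw [← Nat.cofinite_eq_atTop]
  exact this.compl_mem_cofinite

/-- The hypotheses: a standard free action of `ℤ²` off the finite invariant set `W0`, and a nearby
exact commuting pair. -/
structure Setup (r1 r2 R1 R2 : Equiv.Perm Y) (W0 : Set Y) : Prop where
  comm : r1 * r2 = r2 * r1
  Comm : R1 * R2 = R2 * R1
  near1 : Near R1 r1
  near2 : Near R2 r2
  fin : W0.Finite
  inv1 : ∀ y, r1 y ∈ W0 ↔ y ∈ W0
  inv2 : ∀ y, r2 y ∈ W0 ↔ y ∈ W0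
  free : ∀ y, y ∉ W0 → ∀ m n : ℤ, (r1 ^ m) ((r2 ^ n) y) = y → m = 0 ∧ n = 0

variable {r1 r2 R1 R2 W0}

lemma zpow_mem_iff {r : Equiv.Perm Y} {W0 : Set Y} (h : ∀ y, r y ∈ W0 ↔ y ∈ W0) (n : ℤ) (y : Y) :
    (r ^ n) y ∈ W0 ↔ y ∈ W0 := by
  induction n using Int.induction_on with
  | zero => simp
  | succ n ih => rw [add_comm, zpow_add, zpow_one, Equiv.Perm.mul_apply, h, ih]
  | pred n ih =>
    rw [show (-(n : ℤ) - 1) = -1 + -n by ring, zpow_add, Equiv.Perm.mul_apply, ← ih,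
      ← h ((r ^ (-1 : ℤ)) _), zpow_neg_one, app_inv]

lemma pow_mem_iff {r : Equiv.Perm Y} {W0 : Set Y} (h : ∀ y, r y ∈ W0 ↔ y ∈ W0) (n : ℕ) (y : Y) :
    (r ^ n) y ∈ W0 ↔ y ∈ W0 := by
  have := zpow_mem_iff h n y
  rwa [zpow_natCast] at this

/-- Translates of a point along `r1` and `r2` determine the exponents. -/
lemma Setup.inj (S : Setup r1 r2 R1 R2 W0) {y : Y} (hy : y ∉ W0) {m n m' n' : ℤ}
    (h : (r1 ^ m) ((r2 ^ n) y) = (r1 ^ m') ((r2 ^ n') y)) : m = m' ∧ n = n' := by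
  have hc : Commute r1 r2 := S.comm
  have h1 : (r1 ^ (m - m')) ((r2 ^ (n - n')) y) = y := by
    have h2 : r1 ^ (m - m') * r2 ^ (n - n') = (r1 ^ m' * r2 ^ n')⁻¹ * (r1 ^ m * r2 ^ n) := by
      have c1 : Commute (r1 ^ m) (r2 ^ n') := hc.zpow_zpow m n'
      have c2 : Commute (r1 ^ m') (r2 ^ n') := hc.zpow_zpow m' n'
      rw [zpow_sub, zpow_sub, mul_inv_rev]
      have c3 : Commute (r1 ^ m) (r1 ^ m')⁻¹ := (Commute.refl r1).zpow_zpow m m' |>.inv_right
      have c4 : Commute (r2 ^ n) (r2 ^ n')⁻¹ := (Commute.refl r2).zpow_zpow n n' |>.inv_right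
      rw [c3.eq, c4.eq]
      have c5 : Commute (r1 ^ m) (r2 ^ n')⁻¹ := c1.inv_right
      have c6 : Commute (r1 ^ m')⁻¹ (r2 ^ n')⁻¹ := c2.inv_inv
      calc (r1 ^ m')⁻¹ * r1 ^ m * ((r2 ^ n')⁻¹ * r2 ^ n)
          = (r1 ^ m')⁻¹ * (r1 ^ m * (r2 ^ n')⁻¹) * r2 ^ n := by group
        _ = (r1 ^ m')⁻¹ * ((r2 ^ n')⁻¹ * r1 ^ m) * r2 ^ n := by rw [c5.eq]
        _ = ((r1 ^ m')⁻¹ * (r2 ^ n')⁻¹) * (r1 ^ m * r2 ^ n) := by group
        _ = ((r2 ^ n')⁻¹ * (r1 ^ m')⁻¹) * (r1 ^ m * r2 ^ n) := by rw [c6.eq]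
    rw [← Equiv.Perm.mul_apply, h2, Equiv.Perm.mul_apply, Equiv.Perm.inv_eq_iff_eq,
      Equiv.Perm.mul_apply, Equiv.Perm.mul_apply, h]
  have := S.free y hy _ _ h1
  omega

lemma Setup.inj1 (S : Setup r1 r2 R1 R2 W0) {y : Y} (hy : y ∉ W0) :
    Function.Injective (fun n : ℕ => (r1 ^ n) y) := by
  intro m n hmn
  have h : (r1 ^ (m : ℤ)) ((r2 ^ (0 : ℤ)) y) = (r1 ^ (n : ℤ)) ((r2 ^ (0 : ℤ)) y) := by
    simpa using hmn
  have := (S.inj hy h).1
  omega

lemma Setup.exists_lim (S : Setup r1 r2 R1 R2 W0) {y : Y} (hy : y ∉ per R1) :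
    ∃ z, ∀ᶠ n : ℕ in Filter.atTop, (r1 ^ n) z = (R1 ^ n) y := by
  have h1 := evt_notMem S.near1 (per_iff.1 hy)
  obtain ⟨N, hN⟩ := Filter.eventually_atTop.1 h1
  refine ⟨(r1 ^ N)⁻¹ ((R1 ^ N) y), Filter.eventually_atTop.2 ⟨N, fun n hn => ?_⟩⟩
  induction n, hn using Nat.le_induction with
  | base => simp
  | succ n hn ih =>
    rw [pow_succ', pow_succ', Equiv.Perm.mul_apply, Equiv.Perm.mul_apply, ih]
    have := hN n hn
    simp only [mem_ofPred_eq, not_not] at this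
    exact this.symm

open Classical in
/-- The limit map. -/
noncomputable def lim (r1 R1 : Equiv.Perm Y) (y : Y) : Y :=
  if h : ∃ z, ∀ᶠ n : ℕ in Filter.atTop, (r1 ^ n) z = (R1 ^ n) y then h.choose else y

lemma Setup.lim_spec (S : Setup r1 r2 R1 R2 W0) {y : Y} (hy : y ∉ per R1) :
    ∀ᶠ n : ℕ in Filter.atTop, (r1 ^ n) (lim r1 R1 y) = (R1 ^ n) y := by
  unfold lim
  rw [dif_pos (S.exists_lim hy)]
  exact (S.exists_lim hy).choose_spec

lemma Setup.lim_eq (S : Setup r1 r2 R1 R2 W0) {y z : Y} (hy : y ∉ per R1)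
    (h : ∃ᶠ n : ℕ in Filter.atTop, (r1 ^ n) z = (R1 ^ n) y) : lim r1 R1 y = z := by
  obtain ⟨n, h1, h2⟩ := (h.and_eventually (S.lim_spec hy)).exists
  exact (r1 ^ n).injective (h2.trans h1.symm)

lemma Setup.lim_R1 (S : Setup r1 r2 R1 R2 W0) {y : Y} (hy : y ∉ per R1) :
    lim r1 R1 (R1 y) = r1 (lim r1 R1 y) := by
  apply S.lim_eq (fun h => hy ((per_apply rfl).1 h))
  apply Filter.Eventually.frequently
  have h1 := (Filter.tendsto_add_atTop_nat 1).eventually (S.lim_spec hy)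
  filter_upwards [h1] with n hn
  have e1 : (r1 ^ n) (r1 (lim r1 R1 y)) = (r1 ^ (n + 1)) (lim r1 R1 y) := by
    rw [pow_succ, Equiv.Perm.mul_apply]
  have e2 : (R1 ^ n) (R1 y) = (R1 ^ (n + 1)) y := by
    rw [pow_succ, Equiv.Perm.mul_apply]
  rw [e1, e2, hn]

lemma Setup.lim_R2 (S : Setup r1 r2 R1 R2 W0) {y : Y} (hy : y ∉ per R1) :
    lim r1 R1 (R2 y) = r2 (lim r1 R1 y) := by
  apply S.lim_eq (fun h => hy ((per_apply S.Comm).1 h))
  apply Filter.Eventually.frequently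
  filter_upwards [S.lim_spec hy, evt_notMem S.near2 (per_iff.1 hy)] with n hn h2
  simp only [mem_ofPred_eq, not_not] at h2
  have c1 : r1 ^ n * r2 = r2 * r1 ^ n := (Commute.pow_left S.comm n)
  have c2 : R1 ^ n * R2 = R2 * R1 ^ n := (Commute.pow_left S.Comm n)
  rw [← Equiv.Perm.mul_apply, c1, Equiv.Perm.mul_apply, hn, ← h2, ← Equiv.Perm.mul_apply, ← c2,
    Equiv.Perm.mul_apply]

lemma Setup.lim_notMem (S : Setup r1 r2 R1 R2 W0) {y : Y} (hy : y ∉ per R1) :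
    lim r1 R1 y ∉ W0 := by
  intro h
  obtain ⟨n, h1, h2⟩ := ((S.lim_spec hy).and (evt_notMem S.fin (per_iff.1 hy))).exists
  apply h2
  show (R1 ^ n) y ∈ W0
  rw [← h1]
  exact (pow_mem_iff S.inv1 n _).2 h

/-- The exceptional set of points which may be moved by the limit map. -/
def bad (r1 r2 R1 R2 : Equiv.Perm Y) (W0 : Set Y) : Set Y :=
  {y | y ∉ W0 ∧ (∃ n : ℕ, R1 ((r1 ^ n) y) ≠ r1 ((r1 ^ n) y)) ∧ ∃ n : ℕ, R2 ((r2 ^ n) y) ≠ r2 ((r2 ^ n) y)}

lemma Setup.bad_finite (S : Setup r1 r2 R1 R2 W0) : (bad r1 r2 R1 R2 W0).Finite := by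
  classical
  have hex : ∀ y : bad r1 r2 R1 R2 W0, ∃ p : Y × Y, p.1 ∈ {y | R1 y ≠ r1 y} ∧ p.2 ∈ {y | R2 y ≠ r2 y} ∧
      (∃ n : ℕ, p.1 = (r1 ^ n) y.1) ∧ (∃ n : ℕ, p.2 = (r2 ^ n) y.1) := by
    rintro ⟨y, -, ⟨n, hn⟩, ⟨m, hm⟩⟩
    exact ⟨((r1 ^ n) y, (r2 ^ m) y), hn, hm, ⟨n, rfl⟩, ⟨m, rfl⟩⟩
  choose g hg1 hg2 hg3 hg4 using hex
  have hinj : Function.Injective g := by
    intro y y' hyy
    obtain ⟨n, hn⟩ := hg3 y
    obtain ⟨n', hn'⟩ := hg3 y'
    obtain ⟨m, hm⟩ := hg4 y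
    obtain ⟨m', hm'⟩ := hg4 y'
    rw [hyy] at hn hm
    -- `y' = r1 ^ (n - n') y = r2 ^ (m - m') y`
    have e1 : (r1 ^ (n : ℤ)) y.1 = (r1 ^ (n' : ℤ)) y'.1 := by
      rw [zpow_natCast, zpow_natCast, ← hn, ← hn']
    have e2 : (r2 ^ (m : ℤ)) y.1 = (r2 ^ (m' : ℤ)) y'.1 := by
      rw [zpow_natCast, zpow_natCast, ← hm, ← hm']
    have e3 : y'.1 = (r1 ^ ((n : ℤ) - n')) y.1 := by
      rw [sub_eq_neg_add, zpow_add, Equiv.Perm.mul_apply, e1, zpow_neg, inv_app]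
    have e4 : y'.1 = (r2 ^ ((m : ℤ) - m')) y.1 := by
      rw [sub_eq_neg_add, zpow_add, Equiv.Perm.mul_apply, e2, zpow_neg, inv_app]
    have h : (r1 ^ ((n : ℤ) - n')) ((r2 ^ (0 : ℤ)) y.1) = (r1 ^ (0 : ℤ)) ((r2 ^ ((m : ℤ) - m')) y.1) := by
      simp only [zpow_zero, Equiv.Perm.coe_one, id_eq]
      rw [← e3, ← e4]
    have h2 := (S.inj y.2.1 h).1
    apply Subtype.ext
    rw [e3, h2]
    simp
  have hfin : Finite (bad r1 r2 R1 R2 W0) := by
    have f1 := S.near1.to_subtype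
    have f2 := S.near2.to_subtype
    refine Finite.of_injective (β := {y | R1 y ≠ r1 y} × {y | R2 y ≠ r2 y})
      (fun y => (⟨(g y).1, hg1 y⟩, ⟨(g y).2, hg2 y⟩)) ?_
    intro y y' h
    simp only [Prod.mk.injEq, Subtype.mk.injEq] at h
    exact hinj (Prod.ext h.1 h.2)
  exact Set.toFinite _

lemma pow_eq_of_good {R r : Equiv.Perm Y} {y : Y} (h : ∀ n : ℕ, R ((r ^ n) y) = r ((r ^ n) y)) :
    ∀ n : ℕ, (R ^ n) y = (r ^ n) y := by
  intro n
  induction n with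
  | zero => rfl
  | succ n ih => rw [pow_succ', pow_succ', Equiv.Perm.mul_apply, Equiv.Perm.mul_apply, ih, h n]

lemma Setup.lim_eq_self (S : Setup r1 r2 R1 R2 W0) {y : Y} (hy : y ∉ per R1) (hy0 : y ∉ W0)
    (hb : y ∉ bad r1 r2 R1 R2 W0) : lim r1 R1 y = y := by
  by_cases h1 : ∀ n : ℕ, R1 ((r1 ^ n) y) = r1 ((r1 ^ n) y)
  · apply S.lim_eq hy
    exact Filter.Eventually.frequently (Filter.Eventually.of_forall fun n => (pow_eq_of_good h1 n).symm)
  · have h2 : ∀ n : ℕ, R2 ((r2 ^ n) y) = r2 ((r2 ^ n) y) := by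
      by_contra h2
      push Not at h1 h2
      exact hb ⟨hy0, h1, h2⟩
    have h3 := pow_eq_of_good h2
    -- some point of the `r2` ray is good for `r1`
    have h4 : ∃ m : ℕ, ∀ n : ℕ, R1 ((r1 ^ n) ((r2 ^ m) y)) = r1 ((r1 ^ n) ((r2 ^ m) y)) := by
      by_contra h4
      push Not at h4
      choose n hn using h4
      have hinj : Function.Injective (fun m : ℕ => (r1 ^ (n m)) ((r2 ^ m) y)) := by
        intro m m' hm
        have h5 : (r1 ^ ((n m : ℕ) : ℤ)) ((r2 ^ (m : ℤ)) y) = (r1 ^ ((n m' : ℕ) : ℤ)) ((r2 ^ (m' : ℤ)) y) := by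
          simpa only [zpow_natCast] using hm
        have := (S.inj hy0 h5).2
        omega
      have h6 : (Set.range (fun m : ℕ => (r1 ^ (n m)) ((r2 ^ m) y))) ⊆ {y | R1 y ≠ r1 y} := by
        rintro _ ⟨m, rfl⟩
        exact hn m
      exact (infinite_range_of_injective hinj) (S.near1.subset h6)
    obtain ⟨m, hm⟩ := h4
    have hper : ∀ m : ℕ, (R2 ^ m) y ∉ per R1 := by
      intro m
      induction m with
      | zero => simpa using hy
      | succ m ih => rw [pow_succ', Equiv.Perm.mul_apply]; exact fun h => ih ((per_apply S.Comm).1 h)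
    have h7 : ∀ m : ℕ, lim r1 R1 ((R2 ^ m) y) = (r2 ^ m) (lim r1 R1 y) := by
      intro m
      induction m with
      | zero => rfl
      | succ m ih =>
        rw [pow_succ', pow_succ', Equiv.Perm.mul_apply, Equiv.Perm.mul_apply, S.lim_R2 (hper m), ih]
    have h8 : lim r1 R1 ((R2 ^ m) y) = (R2 ^ m) y := by
      apply S.lim_eq (hper m)
      rw [h3 m]
      exact Filter.Eventually.frequently (Filter.Eventually.of_forall fun n => (pow_eq_of_good hm n).symm)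
    rw [h7 m, h3 m] at h8
    exact (r2 ^ m).injective h8

lemma per_invariant {R1 : Equiv.Perm Y} {y : Y} (n : ℤ) : (R1 ^ n) y ∈ per R1 ↔ y ∈ per R1 :=
  zpow_mem_iff (fun _ => per_apply rfl) n y

lemma Setup.per_finite (S : Setup r1 r2 R1 R2 W0) : (per R1).Finite := by
  -- every point of `per R1` outside `W0` has its cycle through the exceptional set
  have hsub : per R1 ⊆ W0 ∪ ⋃ e ∈ ({y | R1 y ≠ r1 y} ∩ per R1), {z | ∃ n : ℕ, (R1 ^ n) e = z} := by
    intro y hy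
    by_cases hy0 : y ∈ W0
    · exact Or.inl hy0
    right
    obtain ⟨n, hn, h⟩ := hy
    have h1 : ∃ k : ℕ, R1 ((R1 ^ k) y) ≠ r1 ((R1 ^ k) y) := by
      by_contra h1
      push Not at h1
      have h2 : ∀ k : ℕ, (R1 ^ k) y = (r1 ^ k) y := by
        intro k
        induction k with
        | zero => rfl
        | succ k ih => rw [pow_succ', pow_succ', Equiv.Perm.mul_apply, Equiv.Perm.mul_apply, h1, ih]
      have h3 : (r1 ^ (n : ℤ)) ((r2 ^ (0 : ℤ)) y) = y := by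
        rw [zpow_natCast, zpow_zero, Equiv.Perm.coe_one, id_eq, ← h2, h]
      have := (S.free y hy0 _ _ h3).1
      omega
    obtain ⟨k, hk⟩ := h1
    simp only [mem_iUnion]
    refine ⟨(R1 ^ k) y, ⟨hk, ?_⟩, ?_⟩
    · have := (per_invariant (R1 := R1) (y := y) k).2 ⟨n, hn, h⟩
      rwa [zpow_natCast] at this
    · -- come back
      refine ⟨n * k - k + 0, ?_⟩
      have h4 : ∀ j : ℕ, (R1 ^ (n * j)) y = y := by
        intro j
        induction j with
        | zero => simp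
        | succ j ih => rw [Nat.mul_succ, pow_add, Equiv.Perm.mul_apply, h, ih]
      rw [← Equiv.Perm.mul_apply, ← pow_add, add_zero, Nat.sub_add_cancel (Nat.le_mul_of_pos_left k hn), h4]
  refine Set.Finite.subset (S.fin.union ?_) hsub
  refine Set.Finite.biUnion (S.near1.inter_of_left _) ?_
  rintro e ⟨-, n, hn, h⟩
  refine ((Set.finite_lt_nat n).image (fun k => (R1 ^ k) e)).subset ?_
  rintro z ⟨k, rfl⟩
  refine ⟨k % n, Nat.mod_lt _ hn, ?_⟩
  have h4 : ∀ j : ℕ, (R1 ^ (n * j)) e = e := by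
    intro j
    induction j with
    | zero => simp
    | succ j ih => rw [Nat.mul_succ, pow_add, Equiv.Perm.mul_apply, h, ih]
  have h5 : R1 ^ k = R1 ^ (k % n) * R1 ^ (n * (k / n)) := by
    rw [← pow_add, Nat.mod_add_div]
  show (R1 ^ (k % n)) e = (R1 ^ k) e
  rw [h5, Equiv.Perm.mul_apply, h4]

lemma Setup.lim_injOn (S : Setup r1 r2 R1 R2 W0) : InjOn (lim r1 R1) (per R1)ᶜ := by
  intro y hy z hz h
  obtain ⟨n, h1, h2⟩ := ((S.lim_spec hy).and (S.lim_spec hz)).exists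
  rw [h] at h1
  exact (R1 ^ n).injective (h1.symm.trans h2)

lemma Setup.lim_surj (S : Setup r1 r2 R1 R2 W0) {z : Y} (hz : z ∉ W0) :
    ∃ y, y ∉ per R1 ∧ lim r1 R1 y = z := by
  have hfin : (per R1 ∪ bad r1 r2 R1 R2 W0).Finite := S.per_finite.union S.bad_finite
  obtain ⟨n, hn⟩ := (evt_notMem hfin (S.inj1 hz)).exists
  have hn1 : (r1 ^ n) z ∉ per R1 := fun h => hn (Or.inl h)
  have hn2 : (r1 ^ n) z ∉ bad r1 r2 R1 R2 W0 := fun h => hn (Or.inr h)
  have hn3 : (r1 ^ n) z ∉ W0 := fun h => hz ((pow_mem_iff S.inv1 n z).1 h)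
  have h1 := S.lim_eq_self hn1 hn3 hn2
  refine ⟨(R1 ^ (-(n : ℤ))) ((r1 ^ n) z), fun h => hn1 ((per_invariant _).1 h), ?_⟩
  have h2 : ∀ k : ℕ, ∀ y, y ∉ per R1 → lim r1 R1 ((R1 ^ k) y) = (r1 ^ k) (lim r1 R1 y) := by
    intro k
    induction k with
    | zero => intro y _; rfl
    | succ k ih =>
      intro y hy
      rw [pow_succ', pow_succ', Equiv.Perm.mul_apply, Equiv.Perm.mul_apply, S.lim_R1, ih y hy]
      intro h
      have := (per_invariant (R1 := R1) (y := y) k).1 (by rwa [zpow_natCast])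
      exact hy this
  have h3 := h2 n ((R1 ^ (-(n : ℤ))) ((r1 ^ n) z)) (fun h => hn1 ((per_invariant _).1 h))
  have h4 : (R1 ^ n) ((R1 ^ (-(n : ℤ))) ((r1 ^ n) z)) = (r1 ^ n) z := by
    rw [zpow_neg, zpow_natCast, app_inv]
  rw [h4, h1] at h3
  exact ((r1 ^ n).injective h3).symm

/-- **Rigidity.** -/
theorem Setup.rigid (S : Setup r1 r2 R1 R2 W0) : ∃ Φ : Equiv.Perm Y, Near Φ 1 ∧
    (∀ y, y ∉ W0 → (Φ * R1 * Φ⁻¹) y = r1 y) ∧ (∀ y, y ∉ W0 → (Φ * R2 * Φ⁻¹) y = r2 y) := by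
  classical
  -- counting
  have hbij : BijOn (lim r1 R1) (per R1)ᶜ W0ᶜ :=
    ⟨fun y hy => S.lim_notMem hy, S.lim_injOn, fun z hz => by
      obtain ⟨y, hy, h⟩ := S.lim_surj hz
      exact ⟨y, hy, h⟩⟩
  let T : Set Y := per R1 ∪ W0 ∪ bad r1 r2 R1 R2 W0
  have hT : T.Finite := (S.per_finite.union S.fin).union S.bad_finite
  have hid : ∀ y, y ∉ T → lim r1 R1 y = y := fun y hy =>
    S.lim_eq_self (fun h => hy (Or.inl (Or.inl h))) (fun h => hy (Or.inl (Or.inr h))) (fun h => hy (Or.inr h))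
  have hbijT : BijOn (lim r1 R1) (T \ per R1) (T \ W0) := by
    refine ⟨?_, S.lim_injOn.mono (fun y hy => hy.2), ?_⟩
    · intro y hy
      refine ⟨?_, S.lim_notMem hy.2⟩
      by_contra h
      have h1 := hid _ h
      have h2 : lim r1 R1 (lim r1 R1 y) = lim r1 R1 y := h1
      have h3 : lim r1 R1 y ∉ per R1 := fun h' => h (Or.inl (Or.inl h'))
      have h4 := S.lim_injOn h3 hy.2 h2
      rw [h4] at h
      exact h hy.1
    · intro z hz
      obtain ⟨y, hy, h⟩ := S.lim_surj hz.2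
      refine ⟨y, ⟨?_, hy⟩, h⟩
      by_contra hyT
      rw [hid y hyT] at h
      exact hyT (h ▸ hz.1)
  have hcard : (per R1).ncard = W0.ncard := by
    have h1 : (T \ per R1).ncard = (T \ W0).ncard := by
      rw [← hbijT.image_eq, hbijT.injOn.ncard_image]
    have h2 := Set.ncard_sdiff_add_ncard_of_subset (s := per R1) (t := T)
      (fun y hy => Or.inl (Or.inl hy)) hT
    have h3 := Set.ncard_sdiff_add_ncard_of_subset (s := W0) (t := T)
      (fun y hy => Or.inl (Or.inr hy)) hT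
    omega
  obtain ⟨e⟩ : Nonempty (per R1 ≃ W0) := by
    have f1 := S.per_finite.to_subtype
    have f2 := S.fin.to_subtype
    exact Finite.card_eq.1 (by rw [Nat.card_coe_set_eq, Nat.card_coe_set_eq]; exact hcard)
  let F : Y → Y := fun y => if h : y ∈ per R1 then (e ⟨y, h⟩ : Y) else lim r1 R1 y
  have hF1 : ∀ y (h : y ∈ per R1), F y = (e ⟨y, h⟩ : Y) := fun y h => dif_pos h
  have hF2 : ∀ y, y ∉ per R1 → F y = lim r1 R1 y := fun y h => dif_neg h
  have hFb : Function.Bijective F := by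
    constructor
    · intro y z h
      by_cases hy : y ∈ per R1 <;> by_cases hz : z ∈ per R1
      · rw [hF1 y hy, hF1 z hz] at h
        have := e.injective (Subtype.ext h)
        exact congrArg Subtype.val this
      · rw [hF1 y hy, hF2 z hz] at h
        exact absurd (h ▸ (e ⟨y, hy⟩).2) (S.lim_notMem hz)
      · rw [hF2 y hy, hF1 z hz] at h
        exact absurd (h ▸ (e ⟨z, hz⟩).2) (S.lim_notMem hy)
      · rw [hF2 y hy, hF2 z hz] at h
        exact S.lim_injOn hy hz h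
    · intro z
      by_cases hz : z ∈ W0
      · refine ⟨(e.symm ⟨z, hz⟩ : Y), ?_⟩
        rw [hF1 _ (e.symm ⟨z, hz⟩).2]
        simp
      · obtain ⟨y, hy, h⟩ := S.lim_surj hz
        exact ⟨y, by rw [hF2 y hy, h]⟩
  let Φ : Equiv.Perm Y := Equiv.ofBijective F hFb
  have hΦ : ∀ y, Φ y = F y := fun y => rfl
  have hkey : ∀ z, z ∉ W0 → ∃ y, y ∉ per R1 ∧ Φ y = z ∧ Φ⁻¹ z = y := by
    intro z hz
    obtain ⟨y, hy, h⟩ := S.lim_surj hz
    have h1 : Φ y = z := by rw [hΦ, hF2 y hy, h]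
    exact ⟨y, hy, h1, by rw [← h1, inv_app]⟩
  refine ⟨Φ, ?_, ?_, ?_⟩
  · refine Set.Finite.subset hT fun y hy => ?_
    by_contra hyT
    apply hy
    rw [hΦ, hF2 y (fun h => hyT (Or.inl (Or.inl h))), hid y hyT]
    rfl
  · intro z hz
    obtain ⟨y, hy, h1, h2⟩ := hkey z hz
    rw [Equiv.Perm.mul_apply, Equiv.Perm.mul_apply, h2, hΦ,
      hF2 _ (fun h => hy ((per_apply rfl).1 h)), S.lim_R1 hy, ← h1, hΦ, hF2 y hy]
  · intro z hz
    obtain ⟨y, hy, h1, h2⟩ := hkey z hz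
    rw [Equiv.Perm.mul_apply, Equiv.Perm.mul_apply, h2, hΦ,
      hF2 _ (fun h => hy ((per_apply S.Comm).1 h)), S.lim_R2 hy, ← h1, hΦ, hF2 y hy]

end rigid

end Pool.Agent.R291
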