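import Pool.Agent.R291.SCObs

/-!
# The spaces of actions are Polish
-/

namespace Pool.Agent.R291.SC

open Filter Topology

variable {G : Type} [Group G]

theorem Act.ev_norm (α : Act G) (g : G) (f : CK) : ‖α.ev g f‖ = ‖f‖ :=
  LinearIsometryEquiv.norm_map _ f

theorem Act.ev_sub (α : Act G) (g : G) (f h : CK) : α.ev g (f - h) = α.ev g f - α.ev g h :=
  map_sub ((show G →* (CK ≃ₗᵢ[ℝ] CK) from α) g) f h

theorem Act.ev_add (α : Act G) (g : G) (f h : CK) : α.ev g (f + h) = α.ev g f + α.ev g h :=
  map_add ((show G →* (CK ≃ₗᵢ[ℝ] CK) from α) g) f h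

theorem Act.ev_smul (α : Act G) (g : G) (c : ℝ) (f : CK) : α.ev g (c • f) = c • α.ev g f :=
  map_smul ((show G →* (CK ≃ₗᵢ[ℝ] CK) from α) g) c f

theorem Act.ev_mul (α : Act G) (g h : G) (f : CK) : α.ev (g * h) f = α.ev g (α.ev h f) := by
  unfold Act.ev
  rw [map_mul]
  rfl

theorem Act.ev_one (α : Act G) (f : CK) : α.ev 1 f = f := by
  unfold Act.ev
  rw [map_one]
  rfl

theorem Act.ext' {α β : Act G} (h : ∀ g f, α.ev g f = β.ev g f) : α = β := by
  refine MonoidHom.ext fun g => LinearIsometryEquiv.ext fun f => h g f

theorem Act.dist_ev (α : Act G) (g : G) (f h : CK) : dist (α.ev g f) (α.ev g h) = dist f h := by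
  rw [dist_eq_norm, ← α.ev_sub, α.ev_norm, dist_eq_norm]

theorem Act.continuous_ev (g : G) (f : CK) : Continuous fun α : Act G => α.ev g f := by
  have h : Continuous fun (α : Act G) (g : G) (f : CK) => α.ev g f := continuous_induced_dom
  exact (continuous_apply f).comp ((continuous_apply g).comp h)

/-- An action from its evaluations. -/
noncomputable def Act.mk (T : G → CK → CK) (hadd : ∀ g f h, T g (f + h) = T g f + T g h)
    (hsmul : ∀ g (c : ℝ) f, T g (c • f) = c • T g f) (hnorm : ∀ g f, ‖T g f‖ = ‖f‖)
    (hmul : ∀ g h f, T (g * h) f = T g (T h f)) (hone : ∀ f, T 1 f = f) : Act G :=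
  show G →* (CK ≃ₗᵢ[ℝ] CK) from
  { toFun := fun g =>
      { toLinearEquiv :=
          { toFun := T g
            map_add' := hadd g
            map_smul' := hsmul g
            invFun := T g⁻¹
            left_inv := fun f => by rw [← hmul, inv_mul_cancel, hone]
            right_inv := fun f => by rw [← hmul, mul_inv_cancel, hone] }
        norm_map' := hnorm g }
    map_one' := LinearIsometryEquiv.ext hone
    map_mul' := fun g h => LinearIsometryEquiv.ext (hmul g h) }

theorem Act.mk_ev (T : G → CK → CK) (hadd) (hsmul) (hnorm) (hmul) (hone) (g : G) (f : CK) :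
    (Act.mk T hadd hsmul hnorm hmul hone).ev g f = T g f := rfl

/-- The embedding of the space of actions into a countable product. -/
noncomputable def Phi (α : Act G) (p : G × ℕ) : CK :=
  α.ev p.1 (TopologicalSpace.denseSeq CK p.2)

theorem exists_dense_near (f : CK) {ε : ℝ} (hε : 0 < ε) :
    ∃ n, dist f (TopologicalSpace.denseSeq CK n) < ε := by
  have := (TopologicalSpace.denseRange_denseSeq CK).exists_dist_lt f hε
  exact this

theorem Phi_continuous : Continuous (Phi (G := G)) :=
  continuous_pi fun p => Act.continuous_ev p.1 _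

theorem Phi_inducing : IsInducing (Phi (G := G)) := by
  refine ⟨le_antisymm (continuous_iff_le_induced.1 Phi_continuous) ?_⟩
  have h : @Continuous (Act G) (G → CK → CK)
      (TopologicalSpace.induced (Phi (G := G)) Pi.topologicalSpace) _
      (fun (α : Act G) (g : G) (f : CK) => α.ev g f) := by
    let _ : TopologicalSpace (Act G) := TopologicalSpace.induced (Phi (G := G)) Pi.topologicalSpace
    have h0 : Continuous (Phi (G := G)) := continuous_induced_dom
    refine continuous_pi fun g => continuous_pi fun f => ?_
    refine continuous_of_uniform_approx_of_continuous fun u hu => ?_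
    obtain ⟨ε, hε, hεu⟩ := Metric.mem_uniformity_dist.1 hu
    obtain ⟨n, hn⟩ := exists_dense_near f hε
    refine ⟨fun α => Phi α (g, n), (continuous_apply (g, n)).comp h0, fun α => hεu ?_⟩
    change dist (α.ev g f) (α.ev g (TopologicalSpace.denseSeq CK n)) < ε
    rw [Act.dist_ev]
    exact hn
  exact continuous_iff_le_induced.1 h

theorem Phi_injective : Function.Injective (Phi (G := G)) := by
  intro α β hαβ
  refine Act.ext' fun g f => ?_
  by_contra hne
  have hd : 0 < dist (α.ev g f) (β.ev g f) := dist_pos.2 hne
  obtain ⟨n, hn⟩ := exists_dense_near f (half_pos hd)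
  have h1 : α.ev g (TopologicalSpace.denseSeq CK n) = β.ev g (TopologicalSpace.denseSeq CK n) :=
    congrFun hαβ (g, n)
  have h2 := dist_triangle (α.ev g f) (α.ev g (TopologicalSpace.denseSeq CK n)) (β.ev g f)
  have h3 : dist (α.ev g (TopologicalSpace.denseSeq CK n)) (β.ev g f) =
      dist (TopologicalSpace.denseSeq CK n) f := by rw [h1, Act.dist_ev]
  rw [h3, Act.dist_ev, dist_comm _ f] at h2
  linarith

theorem Phi_closed [Countable G] : IsClosed (Set.range (Phi (G := G))) := by
  refine IsSeqClosed.isClosed ?_
  intro y F hy hF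
  choose α hα using hy
  rw [tendsto_pi_nhds] at hF
  have hconv : ∀ g n, Tendsto (fun i => (α i).ev g (TopologicalSpace.denseSeq CK n)) atTop
      (𝓝 (F (g, n))) := by
    intro g n
    have := hF (g, n)
    simp only [← hα] at this
    exact this
  have hcauchy : ∀ g f, CauchySeq fun i => (α i).ev g f := by
    intro g f
    rw [Metric.cauchySeq_iff]
    intro ε hε
    obtain ⟨n, hn⟩ := exists_dense_near f (ε := ε / 3) (by linarith)
    obtain ⟨N, hN⟩ := Metric.cauchySeq_iff.1 (hconv g n).cauchySeq (ε / 3) (by linarith)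
    refine ⟨N, fun i hi j hj => ?_⟩
    have h1 := hN i hi j hj
    have h2 : dist ((α i).ev g f) ((α i).ev g (TopologicalSpace.denseSeq CK n)) < ε / 3 := by
      rw [Act.dist_ev]
      exact hn
    have h3 : dist ((α j).ev g (TopologicalSpace.denseSeq CK n)) ((α j).ev g f) < ε / 3 := by
      rw [Act.dist_ev, dist_comm]
      exact hn
    have h4 := dist_triangle4 ((α i).ev g f) ((α i).ev g (TopologicalSpace.denseSeq CK n))
      ((α j).ev g (TopologicalSpace.denseSeq CK n)) ((α j).ev g f)
    linarith
  choose T hT using fun g f => cauchySeq_tendsto_of_complete (hcauchy g f)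
  have hadd : ∀ g f h, T g (f + h) = T g f + T g h := by
    intro g f h
    refine tendsto_nhds_unique (hT g (f + h)) ?_
    simp only [Act.ev_add]
    exact (hT g f).add (hT g h)
  have hsmul : ∀ g (c : ℝ) f, T g (c • f) = c • T g f := by
    intro g c f
    refine tendsto_nhds_unique (hT g (c • f)) ?_
    simp only [Act.ev_smul]
    exact (hT g f).const_smul c
  have hnorm : ∀ g f, ‖T g f‖ = ‖f‖ := by
    intro g f
    have h1 := (hT g f).norm
    simp only [Act.ev_norm] at h1
    exact (tendsto_nhds_unique h1 tendsto_const_nhds)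
  have hone : ∀ f, T 1 f = f := by
    intro f
    have h1 := hT 1 f
    simp only [Act.ev_one] at h1
    exact (tendsto_nhds_unique h1 tendsto_const_nhds)
  have hmul : ∀ g h f, T (g * h) f = T g (T h f) := by
    intro g h f
    refine tendsto_nhds_unique (hT (g * h) f) ?_
    simp only [Act.ev_mul]
    have h1 : Tendsto (fun i => dist ((α i).ev g ((α i).ev h f)) ((α i).ev g (T h f))) atTop
        (𝓝 0) := by
      simp only [Act.dist_ev]
      exact tendsto_iff_dist_tendsto_zero.1 (hT h f)
    exact (tendsto_iff_of_dist h1).2 (hT g (T h f))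
  refine ⟨Act.mk T hadd hsmul hnorm hmul hone, ?_⟩
  funext p
  exact tendsto_nhds_unique (hT p.1 _) (hconv p.1 p.2)

instance piPolish [Countable G] : PolishSpace (G × ℕ → CK) where
  toSecondCountableTopology := inferInstance
  toIsCompletelyMetrizableSpace := inferInstance

instance actPolish [Countable G] : PolishSpace (Act G) :=
  (IsClosedEmbedding.mk (IsEmbedding.mk Phi_inducing Phi_injective) Phi_closed).polishSpace

theorem actPos_closed : IsClosed {α : Act G | ∀ (g : G) (f : CK), 0 ≤ f → 0 ≤ α.ev g f} := by
  have : {α : Act G | ∀ (g : G) (f : CK), 0 ≤ f → 0 ≤ α.ev g f} =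
      ⋂ g : G, ⋂ f : CK, ⋂ _ : 0 ≤ f, ⋂ x : ℕ → Bool, {α : Act G | 0 ≤ α.ev g f x} := by
    ext α
    simp only [Set.mem_iInter]
    constructor
    · intro h g f hf x
      exact h g f hf x
    · intro h g f hf
      exact le_of_pt fun x => h g f hf x
  rw [this]
  refine isClosed_iInter fun g => isClosed_iInter fun f => isClosed_iInter fun _ =>
    isClosed_iInter fun x => ?_
  exact isClosed_le continuous_const
    ((ContinuousEvalConst.continuous_eval_const x).comp (Act.continuous_ev g f))

instance actPosPolish [Countable G] : PolishSpace (ActPos G) :=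
  actPos_closed.polishSpace

example [Countable G] : BaireSpace (Act G) := inferInstance
example [Countable G] : BaireSpace (ActPos G) := inferInstance

end Pool.Agent.R291.SC
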