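import Mathlib

/-!
# Actions by linear isometries on `C(2^ℕ)` and invariant strictly convex renormings: definitions
-/

namespace Pool.Agent.R291.SC

noncomputable section

/-- The Banach space of continuous real functions on the Cantor space. -/
abbrev CK : Type := C(ℕ → Bool, ℝ)

/-- The actions of `G` on `C(2^ℕ)` by surjective linear isometries. -/
def Act (G : Type) [Group G] : Type := G →* (CK ≃ₗᵢ[ℝ] CK)

/-- The evaluation `g ↦ f ↦ α(g) f`. -/
def Act.ev {G : Type} [Group G] (α : Act G) (g : G) (f : CK) : CK :=
  (show G →* (CK ≃ₗᵢ[ℝ] CK) from α) g f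

/-- The topology of `Iso(X)^G` restricted to the actions, where the isometry group carries the
strong operator topology: the topology of pointwise norm convergence of `g ↦ f ↦ α(g) f`. -/
instance (G : Type) [Group G] : TopologicalSpace (Act G) :=
  TopologicalSpace.induced (fun (α : Act G) (g : G) (f : CK) => α.ev g f) Pi.topologicalSpace

/-- The actions of `G` on `C(2^ℕ)` by positive surjective linear isometries, with the subspace
topology. -/
def ActPos (G : Type) [Group G] : Type :=
  {α : Act G // ∀ (g : G) (f : CK), 0 ≤ f → 0 ≤ α.ev g f}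

instance (G : Type) [Group G] : TopologicalSpace (ActPos G) :=
  TopologicalSpace.induced Subtype.val inferInstance

/-- `N` is a norm on `C(2^ℕ)` that is equivalent to the supremum norm. -/
structure IsEquivNorm (N : CK → ℝ) : Prop where
  add_le : ∀ x y, N (x + y) ≤ N x + N y
  smul : ∀ (c : ℝ) (x : CK), N (c • x) = |c| * N x
  eq_zero : ∀ x, N x = 0 → x = 0
  equiv : ∃ c C : ℝ, 0 < c ∧ 0 < C ∧ ∀ x : CK, c * ‖x‖ ≤ N x ∧ N x ≤ C * ‖x‖

/-- `N` is strictly convex. -/
def StrictlyConvex (N : CK → ℝ) : Prop :=
  ∀ x y : CK, x ≠ y → N x = N y → N ((1 / 2 : ℝ) • (x + y)) < N x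

/-- The action `α` admits a `G`-invariant strictly convex renorming. -/
def Renormable {G : Type} [Group G] (α : Act G) : Prop :=
  ∃ N : CK → ℝ, IsEquivNorm N ∧ StrictlyConvex N ∧ ∀ (g : G) (x : CK), N (α.ev g x) = N x

/-- Amenability of the discrete group `G`: there is a finitely additive probability measure on all
subsets of `G` which is invariant under left translations. -/
def Amenable (G : Type) [Group G] : Prop :=
  ∃ m : Set G → ℝ, (∀ A, 0 ≤ m A) ∧ m Set.univ = 1 ∧
    (∀ A B, Disjoint A B → m (A ∪ B) = m A + m B) ∧ ∀ (g : G) (A : Set G), m ((g * ·) '' A) = m A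

end

end Pool.Agent.R291.SC
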