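import Pool.Agent.Helper240.Amen.HB
import Pool.Agent.H812R3.CantorChar
import Pool.Agent.R291.SCBaire

/-!
# The group of increasing affine maps of `ℚ` and its action on the space of cuts
-/

namespace Pool.Agent.R291.SC

open Filter Topology

/-- The group of increasing affine bijections of `ℚ`. -/
def Aff : Subgroup (ℚ ≃o ℚ) where
  carrier := {f | ∃ p q : ℚ, 0 < p ∧ ∀ x, f x = p * x + q}
  mul_mem' := by
    rintro f g ⟨p, q, hp, hf⟩ ⟨p', q', hp', hg⟩
    refine ⟨p * p', p * q' + q, mul_pos hp hp', fun x => ?_⟩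
    change f (g x) = _
    rw [hg, hf]
    ring
  one_mem' := ⟨1, 0, one_pos, fun x => by
    change x = _
    ring⟩
  inv_mem' := by
    rintro f ⟨p, q, hp, hf⟩
    refine ⟨p⁻¹, -(p⁻¹ * q), inv_pos.2 hp, fun x => ?_⟩
    have h1 : f (f⁻¹ x) = x := RelIso.apply_inv_self f x
    have h2 := hf (f⁻¹ x)
    rw [h1] at h2
    have hp' : p ≠ 0 := hp.ne'
    have h3 : p * (f⁻¹ x) = x - q := by linarith
    have h4 : f⁻¹ x = p⁻¹ * (x - q) := by
      rw [← h3, ← mul_assoc, inv_mul_cancel₀ hp', one_mul]
    rw [h4]
    ring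

instance : Countable Aff := by
  refine Function.Injective.countable (f := fun g : Aff => (g.1 0, g.1 1)) ?_
  rintro ⟨f, p, q, hp, hf⟩ ⟨g, p', q', hp', hg⟩ h
  have h0 : f 0 = g 0 := congrArg Prod.fst h
  have h1 : f 1 = g 1 := congrArg Prod.snd h
  rw [hf, hg] at h0 h1
  have hq : q = q' := by linarith
  have hpp : p = p' := by linarith
  refine Subtype.ext (RelIso.ext fun x => ?_)
  change f x = g x
  rw [hf, hg, hq, hpp]

theorem slope_pos (f : Aff) : 0 < f.1 1 - f.1 0 := by
  obtain ⟨f, p, q, hp, hf⟩ := f
  change 0 < f 1 - f 0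
  rw [hf, hf]
  linarith

/-- The slope. -/
def slope : Aff →* ℚˣ where
  toFun f := Units.mk0 (f.1 1 - f.1 0) (slope_pos f).ne'
  map_one' := by
    ext
    change (1 : ℚ) - 0 = 1
    norm_num
  map_mul' := by
    rintro ⟨f, p, q, hp, hf⟩ ⟨g, p', q', hp', hg⟩
    ext
    change f (g 1) - f (g 0) = (f 1 - f 0) * (g 1 - g 0)
    rw [hf, hf, hf, hf, hg, hg]
    ring

theorem ker_comm (f g : slope.ker) : f * g = g * f := by
  obtain ⟨⟨f, p, q, hp, hf⟩, hf1⟩ := f
  obtain ⟨⟨g, p', q', hp', hg⟩, hg1⟩ := g
  have h1 : f 1 - f 0 = 1 := congrArg Units.val (MonoidHom.mem_ker.1 hf1)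
  have h2 : g 1 - g 0 = 1 := congrArg Units.val (MonoidHom.mem_ker.1 hg1)
  rw [hf, hf] at h1
  rw [hg, hg] at h2
  have hpp : p = 1 := by linarith
  have hpp' : p' = 1 := by linarith
  refine Subtype.ext (Subtype.ext (RelIso.ext fun x => ?_))
  change f (g x) = g (f x)
  rw [hf, hg, hg, hf, hpp, hpp']
  ring

theorem aff_solvable : Group.IsSolvable Aff := by
  have h1 : Group.IsSolvable slope.ker := Group.isSolvable_of_comm ker_comm
  exact Group.isSolvable_of_ker_le_range slope.ker.subtype slope (by rw [Subgroup.range_subtype])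

theorem aff_amenable : Amenable Aff :=
  Pool.Agent.Helper240.Amen.amenable_of_solvable Aff aff_solvable

/-- `x ↦ 4 x`. -/
def ga : Aff := ⟨{ toFun := fun x => 4 * x, invFun := fun x => x / 4,
                   left_inv := fun x => by ring, right_inv := fun x => by ring,
                   map_rel_iff' := by
                     intro a b
                     constructor <;> intro h
                     · change (4 : ℚ) * a ≤ 4 * b at h
                       linarith
                     · change (4 : ℚ) * a ≤ 4 * b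
                       linarith }, 4, 0, by norm_num, fun x => by
                     change 4 * x = _
                     ring⟩

/-- `x ↦ 4 x - 3`. -/
def gb : Aff := ⟨{ toFun := fun x => 4 * x - 3, invFun := fun x => (x + 3) / 4,
                   left_inv := fun x => by ring, right_inv := fun x => by ring,
                   map_rel_iff' := by
                     intro a b
                     constructor <;> intro h
                     · change (4 : ℚ) * a - 3 ≤ 4 * b - 3 at h
                       linarith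
                     · change (4 : ℚ) * a - 3 ≤ 4 * b - 3
                       linarith }, 4, -3, by norm_num, fun x => by
                     change 4 * x - 3 = _
                     ring⟩

theorem ga_inv_apply (x : ℚ) : (ga⁻¹ : Aff).1 x = x / 4 := rfl

theorem gb_inv_apply (x : ℚ) : (gb⁻¹ : Aff).1 x = (x + 3) / 4 := rfl

/-- The space of cuts of `ℚ`. -/
def Cuts : Type := {L : ℚ → Bool // ∀ x y, x ≤ y → L y = true → L x = true}

instance : TopologicalSpace Cuts := inferInstanceAs (TopologicalSpace (Subtype _))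

instance : T2Space Cuts := inferInstanceAs (T2Space (Subtype _))

instance : CompactSpace Cuts := by
  have h : IsClosed {L : ℚ → Bool | ∀ x y, x ≤ y → L y = true → L x = true} := by
    have : {L : ℚ → Bool | ∀ x y, x ≤ y → L y = true → L x = true} =
        ⋂ x : ℚ, ⋂ y : ℚ, ⋂ _ : x ≤ y, {L : ℚ → Bool | L y = true → L x = true} := by
      ext L
      simp
    rw [this]
    refine isClosed_iInter fun x => isClosed_iInter fun y => isClosed_iInter fun _ => ?_
    have hc : Continuous fun L : ℚ → Bool => (L y, L x) :=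
      (continuous_apply y).prodMk (continuous_apply x)
    exact (isClosed_discrete {p : Bool × Bool | p.1 = true → p.2 = true}).preimage hc
  exact isCompact_iff_compactSpace.1 h.isCompact

theorem Cuts.continuous_eval (q : ℚ) : Continuous fun L : Cuts => L.1 q :=
  (continuous_apply q).comp continuous_subtype_val

/-- The cut below `c`. -/
def cut (c : ℚ) : Cuts := ⟨fun x => decide (x < c), by
  intro x y hxy hy
  simp only [decide_eq_true_eq] at hy ⊢
  exact lt_of_le_of_lt hxy hy⟩

theorem cut_apply (c x : ℚ) : (cut c).1 x = decide (x < c) := rfl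

instance : MulAction Aff Cuts where
  smul g L := ⟨fun x => L.1 ((g⁻¹ : Aff).1 x), fun x y hxy hy =>
    L.2 _ _ ((g⁻¹ : Aff).1.monotone hxy) hy⟩
  one_smul L := rfl
  mul_smul g h L := by
    refine Subtype.ext ?_
    funext x
    change L.1 (((g * h)⁻¹ : Aff).1 x) = L.1 ((h⁻¹ : Aff).1 ((g⁻¹ : Aff).1 x))
    rw [mul_inv_rev]
    rfl

theorem smul_cut (g : Aff) (L : Cuts) (x : ℚ) : (g • L).1 x = L.1 ((g⁻¹ : Aff).1 x) := rfl

theorem continuous_smul_cuts (g : Aff) : Continuous fun L : Cuts => g • L := by
  refine Continuous.subtype_mk ?_ _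
  exact continuous_pi fun x => Cuts.continuous_eval _

theorem cuts_perfect (L : Cuts) (U : Set Cuts) (hU : IsOpen U) (hL : L ∈ U) :
    ∃ M ∈ U, M ≠ L := by
  classical
  obtain ⟨V, hV, rfl⟩ := isOpen_induced_iff.1 hU
  obtain ⟨I, u, hu, hsub⟩ := isOpen_pi_iff.1 hV L.1 hL
  have hlt : ∀ x ∈ I.filter (fun x => L.1 x = true), ∀ y ∈ I.filter (fun x => L.1 x = false),
      x < y := by
    intro x hx y hy
    rw [Finset.mem_filter] at hx hy
    by_contra hcon
    have := L.2 y x (not_lt.1 hcon) hx.2
    rw [hy.2] at this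
    exact absurd this (by decide)
  obtain ⟨c, hc1, hc2⟩ := Order.exists_between_finsets _ _ hlt
  have hlt' : ∀ x ∈ insert c (I.filter (fun x => L.1 x = true)),
      ∀ y ∈ I.filter (fun x => L.1 x = false), x < y := by
    intro x hx y hy
    rcases Finset.mem_insert.1 hx with rfl | hx
    · exact hc2 y hy
    · exact hlt x hx y hy
  obtain ⟨d, hd1, hd2⟩ := Order.exists_between_finsets _ _ hlt'
  have hcd : c < d := hd1 c (Finset.mem_insert_self _ _)
  have hmem : ∀ e : ℚ, c ≤ e → e ≤ d → cut e ∈ Subtype.val ⁻¹' V := by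
    intro e hce hed
    refine hsub fun x hx => ?_
    have hx' : (cut e).1 x = L.1 x := by
      rw [cut_apply]
      rcases hLx : L.1 x with _ | _
      · have := hd2 x (Finset.mem_filter.2 ⟨hx, hLx⟩)
        simp only [decide_eq_false_iff_not, not_lt]
        exact hed.trans this.le
      · have := hc1 x (Finset.mem_filter.2 ⟨hx, hLx⟩)
        simp only [decide_eq_true_eq]
        exact this.trans_le hce
    rw [hx']
    exact (hu x hx).2
  by_cases h : cut c = L
  · refine ⟨cut d, hmem d hcd.le le_rfl, fun h' => ?_⟩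
    have h1 : (cut d).1 c = (cut c).1 c := by rw [h', h]
    rw [cut_apply, cut_apply, decide_eq_true hcd, decide_eq_false (lt_irrefl c)] at h1
    exact absurd h1 (by decide)
  · exact ⟨cut c, hmem c le_rfl hcd.le, h⟩

theorem exists_homeo : Nonempty (Cuts ≃ₜ (ℕ → Bool)) := by
  have : Nonempty Cuts := ⟨cut 0⟩
  obtain ⟨e, he⟩ := exists_surjective_nat ℚ
  refine Pool.Agent.H812R3.CantorChar.cantor_char (fun (L : Cuts) (n : ℕ) => L.1 (e n))
    (continuous_pi fun n => Cuts.continuous_eval _) ?_ cuts_perfect
  intro L M h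
  refine Subtype.ext (funext fun x => ?_)
  obtain ⟨n, rfl⟩ := he x
  exact congrFun h n

end Pool.Agent.R291.SC
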