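import Pool.Agent.R291.SCGroup

namespace Pool.Agent.R291.SC

open Filter Topology

noncomputable section

/-- A homeomorphism of the space of cuts with the Cantor space. -/
def hm : Cuts ≃ₜ (ℕ → Bool) := exists_homeo.some

/-- The composition operators of the action on cuts. -/
def baseT (g : Aff) (f : CK) : CK :=
  ⟨fun x => f (hm (g⁻¹ • hm.symm x)),
    f.continuous.comp (hm.continuous.comp ((continuous_smul_cuts g⁻¹).comp hm.symm.continuous))⟩

theorem baseT_apply (g : Aff) (f : CK) (x : ℕ → Bool) :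
    baseT g f x = f (hm (g⁻¹ • hm.symm x)) := rfl

theorem baseT_norm_le (g : Aff) (f : CK) : ‖baseT g f‖ ≤ ‖f‖ :=
  norm_le_of_abs (norm_nonneg _) fun _ => abs_apply_le f _

theorem baseT_mul (g h : Aff) (f : CK) : baseT (g * h) f = baseT g (baseT h f) := by
  ext x
  rw [baseT_apply, baseT_apply, baseT_apply, mul_inv_rev, mul_smul, Homeomorph.symm_apply_apply]

theorem baseT_one (f : CK) : baseT 1 f = f := by
  ext x
  rw [baseT_apply, inv_one, one_smul, Homeomorph.apply_symm_apply]

/-- The action on `C(2^ℕ)` given by the action on cuts. -/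
def base : Act Aff :=
  Act.mk baseT (fun _ _ _ => rfl) (fun _ _ _ => rfl)
    (fun g f => le_antisymm (baseT_norm_le g f) (by
      have h1 := baseT_norm_le g⁻¹ (baseT g f)
      rwa [← baseT_mul, inv_mul_cancel, baseT_one] at h1)) baseT_mul baseT_one

theorem base_ev (g : Aff) (f : CK) : base.ev g f = baseT g f := rfl

/-- The indicator function of the cuts `L` with `L q = b`. -/
def ei (q : ℚ) (b : Bool) : CK :=
  ⟨fun x => if (hm.symm x).1 q = b then 1 else 0, by
    have h1 : Continuous fun c : Bool => (if c = b then 1 else 0 : ℝ) :=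
      continuous_of_discreteTopology
    exact h1.comp ((Cuts.continuous_eval q).comp hm.symm.continuous)⟩

theorem ei_apply (q : ℚ) (b : Bool) (x : ℕ → Bool) :
    ei q b x = if (hm.symm x).1 q = b then 1 else 0 := rfl

theorem ei_zo (q : ℚ) (b : Bool) : ZO (ei q b) := by
  intro x
  rw [ei_apply]
  split_ifs
  · exact Or.inr rfl
  · exact Or.inl rfl

theorem baseT_ei (g : Aff) (q : ℚ) (b : Bool) : baseT g (ei q b) = ei (g.1 q) b := by
  ext x
  rw [baseT_apply, ei_apply, ei_apply, Homeomorph.symm_apply_apply, smul_cut, inv_inv]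

theorem baseT_ga (q : ℚ) (b : Bool) : baseT ga⁻¹ (ei q b) = ei (q / 4) b := by
  rw [baseT_ei, ga_inv_apply]

theorem baseT_gb (q : ℚ) (b : Bool) : baseT gb⁻¹ (ei q b) = ei ((q + 3) / 4) b := by
  rw [baseT_ei, gb_inv_apply]

theorem ei_true_mono {p q : ℚ} (h : p ≤ q) : ei q true ≤ ei p true := by
  refine le_of_pt fun x => ?_
  rw [ei_apply, ei_apply]
  by_cases h1 : (hm.symm x).1 q = true
  · rw [if_pos h1, if_pos ((hm.symm x).2 p q h h1)]
  · rw [if_neg h1]
    split_ifs <;> norm_num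

theorem ei_false_mono {p q : ℚ} (h : p ≤ q) : ei p false ≤ ei q false := by
  refine le_of_pt fun x => ?_
  rw [ei_apply, ei_apply]
  by_cases h1 : (hm.symm x).1 p = false
  · have h2 : (hm.symm x).1 q = false := by
      by_contra hcon
      have := (hm.symm x).2 p q h (by simpa using hcon)
      rw [h1] at this
      exact absurd this (by decide)
    rw [if_pos h1, if_pos h2]
  · rw [if_neg h1]
    split_ifs <;> norm_num

/-- The absorbing sets: cuts below `0` and cuts above `1`. -/
def e1 : CK := ei 0 false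

/-- The absorbing sets: cuts below `0` and cuts above `1`. -/
def e2 : CK := ei 1 true

/-- The open set of actions near the base action. -/
def V : Set (Act Aff) :=
  {α | (‖α.ev ga⁻¹ 1 - 1‖ < 1 ∧ ‖α.ev gb⁻¹ 1 - 1‖ < 1) ∧
    (‖α.ev ga⁻¹ e1 - base.ev ga⁻¹ e1‖ < 1 ∧ ‖α.ev gb⁻¹ e1 - base.ev gb⁻¹ e1‖ < 1) ∧
    (‖α.ev ga⁻¹ e2 - base.ev ga⁻¹ e2‖ < 1 ∧ ‖α.ev gb⁻¹ e2 - base.ev gb⁻¹ e2‖ < 1)}

theorem V_open : IsOpen V := by
  have h : ∀ (g : Aff) (f c : CK), IsOpen {α : Act Aff | ‖α.ev g f - c‖ < 1} := fun g f c =>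
    isOpen_lt ((Act.continuous_ev g f).sub continuous_const).norm continuous_const
  exact ((h _ _ _).inter (h _ _ _)).inter
    (((h _ _ _).inter (h _ _ _)).inter ((h _ _ _).inter (h _ _ _)))

theorem base_one (g : Aff) : base.ev g 1 = 1 := by
  ext x
  rfl

theorem base_mem : base ∈ V := by
  refine ⟨⟨?_, ?_⟩, ⟨?_, ?_⟩, ⟨?_, ?_⟩⟩
  · rw [base_one, sub_self, norm_zero]; exact one_pos
  · rw [base_one, sub_self, norm_zero]; exact one_pos
  · rw [sub_self, norm_zero]; exact one_pos
  · rw [sub_self, norm_zero]; exact one_pos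
  · rw [sub_self, norm_zero]; exact one_pos
  · rw [sub_self, norm_zero]; exact one_pos

theorem config_of_mem {α : Act Aff} (hα : α ∈ V) :
    Config ((show Aff →* (CK ≃ₗᵢ[ℝ] CK) from α) ga⁻¹) ((show Aff →* (CK ≃ₗᵢ[ℝ] CK) from α) gb⁻¹)
      e1 e2 := by
  set A : CK ≃ₗᵢ[ℝ] CK := (show Aff →* (CK ≃ₗᵢ[ℝ] CK) from α) ga⁻¹ with hA
  set B : CK ≃ₗᵢ[ℝ] CK := (show Aff →* (CK ≃ₗᵢ[ℝ] CK) from α) gb⁻¹ with hB
  obtain ⟨⟨hA1, hB1⟩, ⟨hAe1, hBe1⟩, ⟨hAe2, hBe2⟩⟩ := hα
  have a1 : A 1 = 1 := map_one_of_near A hA1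
  have b1 : B 1 = 1 := map_one_of_near B hB1
  have z1 : ZO e1 := ei_zo _ _
  have z2 : ZO e2 := ei_zo _ _
  have ae1 : A e1 = ei 0 false := by
    have : A e1 = base.ev ga⁻¹ e1 := eq_of_near (map_ZO a1 z1) (by
      rw [base_ev, e1, baseT_ei]
      exact ei_zo _ _) hAe1
    rw [this, base_ev, e1, baseT_ga]
    norm_num
  have be1 : B e1 = ei (3 / 4) false := by
    have : B e1 = base.ev gb⁻¹ e1 := eq_of_near (map_ZO b1 z1) (by
      rw [base_ev, e1, baseT_ei]
      exact ei_zo _ _) hBe1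
    rw [this, base_ev, e1, baseT_gb]
    norm_num
  have ae2 : A e2 = ei (1 / 4) true := by
    have : A e2 = base.ev ga⁻¹ e2 := eq_of_near (map_ZO a1 z2) (by
      rw [base_ev, e2, baseT_ei]
      exact ei_zo _ _) hAe2
    rw [this, base_ev, e2, baseT_ga]
  have be2 : B e2 = ei 1 true := by
    have : B e2 = base.ev gb⁻¹ e2 := eq_of_near (map_ZO b1 z2) (by
      rw [base_ev, e2, baseT_ei]
      exact ei_zo _ _) hBe2
    rw [this, base_ev, e2, baseT_gb]
    norm_num
  refine ⟨a1, b1, z1, z2, ?_, ?_, ?_, ?_, ?_, ?_, ?_⟩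
  · rw [ae1]
    exact le_rfl
  · rw [be1]
    exact ei_false_mono (by norm_num)
  · rw [ae2]
    exact ei_true_mono (by norm_num)
  · rw [be2]
    exact le_rfl
  · refine le_of_pt fun x => ?_
    rw [ContinuousMap.add_apply, ContinuousMap.one_apply, e1, e2, ei_apply, ei_apply]
    by_cases h1 : (hm.symm x).1 0 = false
    · have h2 : ¬ (hm.symm x).1 1 = true := by
        intro h
        have := (hm.symm x).2 0 1 (by norm_num) h
        rw [h1] at this
        exact absurd this (by decide)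
      rw [if_pos h1, if_neg h2]
      norm_num
    · rw [if_neg h1]
      split_ifs <;> norm_num
  · refine le_of_pt fun x => ?_
    rw [ae2, be1]
    simp only [ContinuousMap.add_apply, ContinuousMap.one_apply, e1, e2, ei_apply]
    by_cases h1 : (hm.symm x).1 (1 / 4) = true
    · rw [if_pos h1]
      have h2 : ∀ p : Prop, ∀ [Decidable p], (0 : ℝ) ≤ if p then 1 else 0 := by
        intro p _
        split_ifs <;> norm_num
      have := h2 ((hm.symm x).1 0 = false)
      have := h2 ((hm.symm x).1 1 = true)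
      have := h2 ((hm.symm x).1 (3 / 4) = false)
      linarith
    · have h3 : (hm.symm x).1 (3 / 4) = false := by
        by_contra hcon
        exact h1 ((hm.symm x).2 (1 / 4) (3 / 4) (by norm_num) (by simpa using hcon))
      rw [if_pos h3]
      have h2 : ∀ p : Prop, ∀ [Decidable p], (0 : ℝ) ≤ if p then 1 else 0 := by
        intro p _
        split_ifs <;> norm_num
      have := h2 ((hm.symm x).1 0 = false)
      have := h2 ((hm.symm x).1 1 = true)
      have := h2 ((hm.symm x).1 (1 / 4) = true)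
      linarith
  · refine ⟨hm (cut (1 / 2)), ?_, ?_⟩
    · rw [ae2, ei_apply, Homeomorph.symm_apply_apply, cut_apply, if_pos]
      simp only [decide_eq_true_eq]
      norm_num
    · rw [be1, ei_apply, Homeomorph.symm_apply_apply, cut_apply, if_pos]
      simp only [decide_eq_false_iff_not]
      norm_num

theorem not_renormable {α : Act Aff} (hα : α ∈ V) : ¬ Renormable α := by
  rintro ⟨N, -, hN, hinv⟩
  exact (config_of_mem hα).no_norm N hN (fun f => hinv ga⁻¹ f) (fun f => hinv gb⁻¹ f)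

theorem base_pos (g : Aff) (f : CK) (hf : 0 ≤ f) : 0 ≤ base.ev g f :=
  le_of_pt fun x => by
    have h : (0 : ℝ) ≤ f (hm (g⁻¹ • hm.symm x)) := hf _
    exact h

theorem main_act : ¬ {α : Act Aff | Renormable α} ∈ residual (Act Aff) := by
  intro h
  have hd := dense_of_mem_residual h
  obtain ⟨α, hα1, hα2⟩ := hd.inter_open_nonempty V V_open ⟨base, base_mem⟩
  exact not_renormable hα1 hα2

theorem main_pos : ¬ {α : ActPos Aff | Renormable α.1} ∈ residual (ActPos Aff) := by
  intro h
  have hd := dense_of_mem_residual h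
  have hVo : IsOpen (Subtype.val ⁻¹' V : Set (ActPos Aff)) := V_open.preimage continuous_induced_dom
  obtain ⟨α, hα1, hα2⟩ := hd.inter_open_nonempty _ hVo ⟨⟨base, base_pos⟩, base_mem⟩
  exact not_renormable hα1 hα2

end

end Pool.Agent.R291.SC
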