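import Pool.Agent.R291.SCDefs

/-!
# Harmonic functions obstruct invariant strictly convex norms
-/

namespace Pool.Agent.R291.SC

open Filter Topology

/-- `e` takes only the values `0` and `1`. -/
def ZO (e : CK) : Prop := ∀ x, e x = 0 ∨ e x = 1

section Isometry

variable (T : CK ≃ₗᵢ[ℝ] CK)

theorem abs_apply_le (f : CK) (x : ℕ → Bool) : |f x| ≤ ‖f‖ := by
  have := f.norm_coe_le_norm x
  rwa [Real.norm_eq_abs] at this

theorem le_of_pt {f g : CK} (h : ∀ x, f x ≤ g x) : f ≤ g := h

theorem norm_le_of_abs {f : CK} {c : ℝ} (hc : 0 ≤ c) (h : ∀ x, |f x| ≤ c) : ‖f‖ ≤ c := by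
  rw [ContinuousMap.norm_le _ hc]
  intro x
  rw [Real.norm_eq_abs]
  exact h x

/-- An isometry maps `1` to a function with values `1` and `-1`. -/
theorem abs_map_one (x : ℕ → Bool) : |T 1 x| = 1 := by
  set u : CK := T 1 with hu
  have hun : ‖u‖ ≤ 1 := by
    rw [hu, T.norm_map]
    exact norm_le_of_abs zero_le_one fun x => by simp
  have hu1 : ∀ y, |u y| ≤ 1 := fun y => (abs_apply_le u y).trans hun
  set h : CK := 1 - |u| with hh
  have hhy : ∀ y, h y = 1 - |u y| := fun y => rfl
  have h1 : ‖u + h‖ ≤ 1 := norm_le_of_abs zero_le_one fun y => by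
    rw [ContinuousMap.add_apply, hhy]
    refine (abs_add_le _ _).trans ?_
    rw [abs_of_nonneg (sub_nonneg.2 (hu1 y))]
    linarith
  have h2 : ‖u - h‖ ≤ 1 := norm_le_of_abs zero_le_one fun y => by
    rw [ContinuousMap.sub_apply, hhy]
    refine (abs_sub _ _).trans ?_
    rw [abs_of_nonneg (sub_nonneg.2 (hu1 y))]
    linarith
  have hs : T.symm u = 1 := by rw [hu, T.symm_apply_apply]
  have h3 : ‖1 + T.symm h‖ ≤ 1 := by
    rw [← hs, ← map_add, T.symm.norm_map]
    exact h1
  have h4 : ‖1 - T.symm h‖ ≤ 1 := by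
    rw [← hs, ← map_sub, T.symm.norm_map]
    exact h2
  have h5 : T.symm h = 0 := by
    ext y
    have h6 := (abs_apply_le _ y).trans h3
    have h7 := (abs_apply_le _ y).trans h4
    rw [ContinuousMap.add_apply, ContinuousMap.one_apply, abs_le] at h6
    rw [ContinuousMap.sub_apply, ContinuousMap.one_apply, abs_le] at h7
    rw [ContinuousMap.zero_apply]
    linarith [h6.2, h7.2]
  have h8 : h = 0 := by
    have := congrArg T h5
    rwa [T.apply_symm_apply, map_zero] at this
  have h9 := hhy x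
  rw [h8, ContinuousMap.zero_apply] at h9
  linarith

theorem map_one_of_near (h : ‖T 1 - 1‖ < 1) : T 1 = 1 := by
  ext x
  have h1 := abs_map_one T x
  have h2 := (abs_apply_le (T 1 - 1) x).trans_lt h
  rw [ContinuousMap.sub_apply, ContinuousMap.one_apply, abs_lt] at h2
  rw [ContinuousMap.one_apply]
  rcases (abs_eq zero_le_one).1 h1 with h3 | h3
  · exact h3
  · linarith [h2.1]

variable {T}

/-- A unital isometry is positive. -/
theorem map_nonneg (h1 : T 1 = 1) {f : CK} (hf : 0 ≤ f) : 0 ≤ T f := by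
  have hf' : ∀ x, 0 ≤ f x := fun x => hf x
  have h2 : ‖(‖f‖ • (1 : CK) - f : CK)‖ ≤ ‖f‖ := norm_le_of_abs (norm_nonneg _) fun x => by
    have := abs_apply_le f x
    rw [abs_of_nonneg (hf' x)] at this
    rw [ContinuousMap.sub_apply, ContinuousMap.smul_apply, ContinuousMap.one_apply, smul_eq_mul,
      mul_one, abs_of_nonneg (sub_nonneg.2 this)]
    linarith [hf' x]
  have h3 : ‖(‖f‖ • (1 : CK) - T f : CK)‖ ≤ ‖f‖ := by
    have : ‖f‖ • (1 : CK) - T f = T (‖f‖ • (1 : CK) - f) := by
      rw [map_sub, map_smul, h1]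
    rw [this, T.norm_map]
    exact h2
  refine le_of_pt fun x => ?_
  have h4 := (abs_apply_le _ x).trans h3
  rw [ContinuousMap.sub_apply, ContinuousMap.smul_apply, ContinuousMap.one_apply, smul_eq_mul,
    mul_one, abs_le] at h4
  rw [ContinuousMap.zero_apply]
  linarith [h4.2]

theorem map_mono (h1 : T 1 = 1) {f g : CK} (hfg : f ≤ g) : T f ≤ T g := by
  have : 0 ≤ T (g - f) := map_nonneg h1 (sub_nonneg.2 hfg)
  rw [map_sub] at this
  exact sub_nonneg.1 this

theorem symm_map_one (h1 : T 1 = 1) : T.symm 1 = 1 := by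
  conv_lhs => rw [← h1]
  exact T.symm_apply_apply 1

/-- A unital isometry maps indicator functions to indicator functions. -/
theorem map_ZO (h1 : T 1 = 1) {e : CK} (he : ZO e) : ZO (T e) := by
  have h1' := symm_map_one h1
  have he0 : (0 : CK) ≤ e := le_of_pt fun x => by
    rcases he x with h | h <;> rw [h] <;> simp
  have he1 : e ≤ 1 := le_of_pt fun x => by
    rcases he x with h | h <;> rw [h] <;> simp
  set w : CK := T e ⊓ (1 - T e) with hw
  have hTe0 : 0 ≤ T e := map_nonneg h1 he0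
  have hTe1 : T e ≤ 1 := by
    rw [← h1]
    exact map_mono h1 he1
  have hw0 : 0 ≤ w := le_inf hTe0 (sub_nonneg.2 hTe1)
  have h2 : T.symm w ≤ e := by
    have := map_mono h1' (inf_le_left : w ≤ T e)
    rwa [T.symm_apply_apply] at this
  have h3 : T.symm w ≤ 1 - e := by
    have := map_mono h1' (inf_le_right : w ≤ 1 - T e)
    rwa [map_sub, h1', T.symm_apply_apply] at this
  have h4 : 0 ≤ T.symm w := map_nonneg h1' hw0
  have h5 : T.symm w = 0 := by
    ext x
    have a1 : T.symm w x ≤ e x := h2 x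
    have a2 : T.symm w x ≤ 1 - e x := h3 x
    have a3 : 0 ≤ T.symm w x := h4 x
    rw [ContinuousMap.zero_apply]
    rcases he x with h | h <;> rw [h] at a1 a2 <;> linarith
  have h6 : w = 0 := by
    have := congrArg T h5
    rwa [T.apply_symm_apply, map_zero] at this
  intro x
  have h7 : min (T e x) (1 - T e x) = 0 := by
    have : w x = min (T e x) (1 - T e x) := rfl
    rw [← this, h6]
    rfl
  rcases min_choice (T e x) (1 - T e x) with h | h
  · left
    rw [← h, h7]
  · right
    rw [h] at h7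
    linarith

theorem eq_of_near {e f : CK} (he : ZO e) (hf : ZO f) (h : ‖e - f‖ < 1) : e = f := by
  ext x
  have h1 := (abs_apply_le _ x).trans_lt h
  rw [ContinuousMap.sub_apply, abs_lt] at h1
  rcases he x with h2 | h2 <;> rcases hf x with h3 | h3 <;> rw [h2, h3] at h1 ⊢ <;> linarith [h1.1, h1.2]

end Isometry

/-- The configuration of two absorbing sets with indicator functions `e₁`, `e₂` for two unital
isometries `A`, `B`. -/
structure Config (A B : CK ≃ₗᵢ[ℝ] CK) (e₁ e₂ : CK) : Prop where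
  A_one : A 1 = 1
  B_one : B 1 = 1
  zo₁ : ZO e₁
  zo₂ : ZO e₂
  le_A₁ : e₁ ≤ A e₁
  le_B₁ : e₁ ≤ B e₁
  le_A₂ : e₂ ≤ A e₂
  le_B₂ : e₂ ≤ B e₂
  disj : e₁ + e₂ ≤ 1
  exit : 1 ≤ e₁ + e₂ + A e₂ + B e₁
  both : ∃ x, A e₂ x = 1 ∧ B e₁ x = 1

variable {A B : CK ≃ₗᵢ[ℝ] CK} {e₁ e₂ : CK}

/-- The averaging operator. -/
noncomputable def avg (A B : CK ≃ₗᵢ[ℝ] CK) (f : CK) : CK := (1 / 2 : ℝ) • (A f + B f)

theorem avg_apply (f : CK) (x : ℕ → Bool) : avg A B f x = (A f x + B f x) / 2 := by
  rw [avg, ContinuousMap.smul_apply, ContinuousMap.add_apply, smul_eq_mul]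
  ring

theorem avg_sub (f g : CK) : avg A B (f - g) = avg A B f - avg A B g := by
  ext x
  simp only [avg_apply, ContinuousMap.sub_apply, map_sub]
  ring

theorem avg_smul (c : ℝ) (f : CK) : avg A B (c • f) = c • avg A B f := by
  ext x
  simp only [avg_apply, ContinuousMap.smul_apply, map_smul, smul_eq_mul]
  ring

theorem avg_cont : Continuous (avg A B) := by
  unfold avg
  exact (A.continuous.add B.continuous).const_smul (1 / 2 : ℝ)

theorem Config.avg_mono (h : Config A B e₁ e₂) {f g : CK} (hfg : f ≤ g) :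
    avg A B f ≤ avg A B g := by
  refine le_of_pt fun x => ?_
  have h1 : A f x ≤ A g x := map_mono h.A_one hfg x
  have h2 : B f x ≤ B g x := map_mono h.B_one hfg x
  rw [avg_apply, avg_apply]
  linarith

theorem Config.avg_one (h : Config A B e₁ e₂) : avg A B 1 = 1 := by
  ext x
  rw [avg_apply, h.A_one, h.B_one, ContinuousMap.one_apply]
  ring

/-- There is a harmonic function that is not invariant. -/
theorem Config.exists_harmonic (h : Config A B e₁ e₂) :
    ∃ m : CK, avg A B m = m ∧ A m ≠ B m := by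
  set P : CK → CK := avg A B with hP
  set r : CK := 1 - e₁ - e₂ with hr
  have hPe1 : e₁ ≤ P e₁ := by
    refine le_of_pt fun x => ?_
    have h1 : e₁ x ≤ A e₁ x := h.le_A₁ x
    have h2 : e₁ x ≤ B e₁ x := h.le_B₁ x
    rw [hP, avg_apply]
    linarith
  have hPe2 : e₂ ≤ P e₂ := by
    refine le_of_pt fun x => ?_
    have h1 : e₂ x ≤ A e₂ x := h.le_A₂ x
    have h2 : e₂ x ≤ B e₂ x := h.le_B₂ x
    rw [hP, avg_apply]
    linarith
  have hP1e2 : P (1 - e₂) ≤ 1 - e₂ := by
    refine le_of_pt fun x => ?_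
    have h1 : e₂ x ≤ P e₂ x := hPe2 x
    rw [hP] at h1
    rw [hP, avg_sub, h.avg_one, ContinuousMap.sub_apply, ContinuousMap.sub_apply]
    linarith
  have hr0 : 0 ≤ r := by
    refine le_of_pt fun x => ?_
    have h1 : e₁ x + e₂ x ≤ 1 := h.disj x
    rw [hr, ContinuousMap.sub_apply, ContinuousMap.sub_apply, ContinuousMap.one_apply,
      ContinuousMap.zero_apply]
    linarith
  have hPr : P r ≤ (1 / 2 : ℝ) • r := by
    refine le_of_pt fun x => ?_
    have hA0 : (0 : ℝ) ≤ A e₁ x := by
      refine (?_ : (0 : CK) ≤ A e₁) x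
      exact map_nonneg h.A_one <| le_of_pt fun y => by rcases h.zo₁ y with h' | h' <;> rw [h'] <;> simp
    have hB0 : (0 : ℝ) ≤ B e₂ x := by
      refine (?_ : (0 : CK) ≤ B e₂) x
      exact map_nonneg h.B_one <| le_of_pt fun y => by rcases h.zo₂ y with h' | h' <;> rw [h'] <;> simp
    have h1 : e₁ x ≤ A e₁ x := h.le_A₁ x
    have h2 : e₁ x ≤ B e₁ x := h.le_B₁ x
    have h3 : e₂ x ≤ A e₂ x := h.le_A₂ x
    have h4 : e₂ x ≤ B e₂ x := h.le_B₂ x
    have h5 : e₁ x + e₂ x ≤ 1 := h.disj x
    have h6 : 1 ≤ e₁ x + e₂ x + A e₂ x + B e₁ x := h.exit x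
    rw [hP, avg_apply, hr]
    simp only [map_sub, h.A_one, h.B_one, ContinuousMap.sub_apply, ContinuousMap.one_apply,
      ContinuousMap.smul_apply, smul_eq_mul]
    rcases h.zo₁ x with a1 | a1 <;> rcases h.zo₂ x with a2 | a2 <;>
      rw [a1] at h1 h2 <;> rw [a2] at h3 h4 <;> rw [a1, a2] at h5 h6 ⊢ <;> linarith
  have hPpos : ∀ f : CK, 0 ≤ f → 0 ≤ P f := by
    intro f hf
    have := h.avg_mono hf
    have h0 : avg A B 0 = 0 := by
      ext x
      rw [avg_apply, map_zero, map_zero]
      simp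
    rwa [h0] at this
  have hiter : ∀ n : ℕ, P^[n] r ≤ ((1 / 2 : ℝ) ^ n) • r ∧ 0 ≤ P^[n] r := by
    intro n
    induction n with
    | zero => exact ⟨by simp, hr0⟩
    | succ n ih =>
      rw [Function.iterate_succ_apply']
      refine ⟨?_, hPpos _ ih.2⟩
      have h1 : P (P^[n] r) ≤ P (((1 / 2 : ℝ) ^ n) • r) := h.avg_mono ih.1
      have h2 : P (((1 / 2 : ℝ) ^ n) • r) = ((1 / 2 : ℝ) ^ n) • P r := avg_smul _ _
      refine h1.trans ?_
      rw [h2]
      refine le_of_pt fun x => ?_
      have h3 : P r x ≤ (1 / 2 : ℝ) * r x := hPr x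
      rw [ContinuousMap.smul_apply, ContinuousMap.smul_apply, smul_eq_mul, smul_eq_mul, pow_succ,
        mul_assoc]
      exact mul_le_mul_of_nonneg_left h3 (by positivity)
  set d : CK := P e₁ - e₁ with hd
  have hd0 : 0 ≤ d := sub_nonneg.2 hPe1
  have hdr : d ≤ r := by
    refine le_of_pt fun x => ?_
    have h1 : P e₁ x ≤ P (1 - e₂) x := by
      refine h.avg_mono (le_of_pt fun y => ?_) x
      have : e₁ y + e₂ y ≤ 1 := h.disj y
      rw [ContinuousMap.sub_apply, ContinuousMap.one_apply]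
      linarith
    have h2 : P (1 - e₂) x ≤ (1 - e₂) x := hP1e2 x
    rw [ContinuousMap.sub_apply, ContinuousMap.one_apply] at h2
    rw [hd, hr, ContinuousMap.sub_apply, ContinuousMap.sub_apply, ContinuousMap.sub_apply,
      ContinuousMap.one_apply]
    linarith
  have hmonoit : ∀ n : ℕ, ∀ f g : CK, f ≤ g → P^[n] f ≤ P^[n] g := by
    intro n
    induction n with
    | zero => exact fun f g hfg => hfg
    | succ n ih =>
      intro f g hfg
      rw [Function.iterate_succ_apply', Function.iterate_succ_apply']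
      exact h.avg_mono (ih f g hfg)
  have hsubit : ∀ n : ℕ, ∀ f g : CK, P^[n] (f - g) = P^[n] f - P^[n] g := by
    intro n
    induction n with
    | zero => exact fun f g => rfl
    | succ n ih =>
      intro f g
      rw [Function.iterate_succ_apply', ih, Function.iterate_succ_apply',
        Function.iterate_succ_apply']
      exact avg_sub _ _
  set u : ℕ → CK := fun n => P^[n] e₁ with hu
  have hstep : ∀ n, dist (u n) (u (n + 1)) ≤ ‖r‖ * (1 / 2) ^ n := by
    intro n
    rw [dist_comm, dist_eq_norm]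
    have h1 : u (n + 1) - u n = P^[n] d := by
      rw [hd, hsubit n]
      rfl
    rw [h1]
    refine norm_le_of_abs (by positivity) fun x => ?_
    have h2 : (0 : CK) ≤ P^[n] d := by
      have h0 : P^[n] 0 = 0 := by
        have := hsubit n 0 0
        rw [sub_self, sub_self] at this
        exact this
      have := hmonoit n 0 d hd0
      rwa [h0] at this
    have h3 : P^[n] d ≤ P^[n] r := hmonoit n d r hdr
    have h4 : P^[n] d x ≤ ((1 / 2 : ℝ) ^ n) * r x := (h3.trans (hiter n).1) x
    have h5 : (0 : ℝ) ≤ P^[n] d x := h2 x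
    rw [abs_of_nonneg h5]
    have h6 : r x ≤ ‖r‖ := (le_abs_self _).trans (abs_apply_le r x)
    calc P^[n] d x ≤ ((1 / 2 : ℝ) ^ n) * r x := h4
      _ ≤ ((1 / 2 : ℝ) ^ n) * ‖r‖ := mul_le_mul_of_nonneg_left h6 (by positivity)
      _ = ‖r‖ * (1 / 2) ^ n := by ring
  have hc : CauchySeq u := cauchySeq_of_le_geometric (1 / 2) ‖r‖ (by norm_num) hstep
  obtain ⟨m, hm⟩ := cauchySeq_tendsto_of_complete hc
  have hPm : P m = m := by
    have h1 : Tendsto (fun n => P (u n)) atTop (𝓝 (P m)) := (avg_cont.tendsto m).comp hm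
    have h2 : (fun n => P (u n)) = fun n => u (n + 1) := by
      funext n
      rw [hu]
      simp only
      rw [Function.iterate_succ_apply']
    rw [h2] at h1
    exact tendsto_nhds_unique h1 (hm.comp (tendsto_add_atTop_nat 1))
  have hev : ∀ x, Tendsto (fun n => u n x) atTop (𝓝 (m x)) := fun x =>
    ((ContinuousEvalConst.continuous_eval_const x).tendsto m).comp hm
  have hlow : ∀ n, e₁ ≤ u n := by
    intro n
    induction n with
    | zero => exact le_rfl
    | succ n ih =>
      rw [hu]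
      simp only
      rw [Function.iterate_succ_apply']
      exact hPe1.trans (h.avg_mono ih)
  have hupp : ∀ n, u n ≤ 1 - e₂ := by
    intro n
    induction n with
    | zero =>
      refine le_of_pt fun x => ?_
      have : e₁ x + e₂ x ≤ 1 := h.disj x
      rw [ContinuousMap.sub_apply, ContinuousMap.one_apply]
      change e₁ x ≤ 1 - e₂ x
      linarith
    | succ n ih =>
      rw [hu]
      simp only
      rw [Function.iterate_succ_apply']
      exact (h.avg_mono ih).trans hP1e2
  have hm1 : e₁ ≤ m := fun x => ge_of_tendsto' (hev x) fun n => hlow n x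
  have hm2 : m ≤ 1 - e₂ := fun x => le_of_tendsto' (hev x) fun n => hupp n x
  refine ⟨m, hPm, fun hAB => ?_⟩
  obtain ⟨x, hx1, hx2⟩ := h.both
  have h1 : A m x = m x := by
    have h2 : avg A B m x = m x := by
      have := congrArg (fun f : CK => f x) hPm
      exact this
    rw [avg_apply, ← hAB] at h2
    linarith
  have h3 : A m x ≤ A (1 - e₂) x := map_mono h.A_one hm2 x
  rw [map_sub, h.A_one, ContinuousMap.sub_apply, ContinuousMap.one_apply, hx1] at h3
  have h4 : B e₁ x ≤ B m x := map_mono h.B_one hm1 x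
  rw [hx2, ← hAB] at h4
  linarith

/-- No strictly convex norm is invariant under both isometries of a configuration. -/
theorem Config.no_norm (h : Config A B e₁ e₂) (N : CK → ℝ) (hN : StrictlyConvex N)
    (hA : ∀ f, N (A f) = N f) (hB : ∀ f, N (B f) = N f) : False := by
  obtain ⟨m, hm, hne⟩ := h.exists_harmonic
  have h1 := hN (A m) (B m) hne (by rw [hA, hB])
  have h2 : (1 / 2 : ℝ) • (A m + B m) = m := hm
  rw [h2, hA] at h1
  exact lt_irrefl _ h1

end Pool.Agent.R291.SC
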