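import Pool.Agent.R291.ScaleTB

/-!
Bi-invariant totally bounded pseudometrics.
-/

open MeasureTheory Filter

set_option linter.unusedSectionVars false

namespace Pool.Agent.R291.Scale

variable {G : Type} [Group G]

/-- Right-invariant totally bounded pseudometrics bounded by one. -/
structure RTB (D : G → G → ℝ) : Prop where
  nonneg : ∀ g g', 0 ≤ D g g'
  le_one : ∀ g g', D g g' ≤ 1
  self : ∀ g, D g g = 0
  comm : ∀ g g', D g g' = D g' g
  tri : ∀ g g' g'', D g g'' ≤ D g g' + D g' g''
  right : ∀ g g' k, D (g * k) (g' * k) = D g g'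
  tb : ∀ δ > 0, ∃ T : Finset G, ∀ g, ∃ t ∈ T, D t g < δ

/-- The left-invariant ones among them. -/
structure BTB (D : G → G → ℝ) : Prop extends RTB D where
  left : ∀ k g g', D (k * g) (k * g') = D g g'

lemma finite_rep {α : Type} (c : G → α) (h : (Set.range c).Finite) :
    ∃ T : Finset G, ∀ g, ∃ t ∈ T, c t = c g := by
  classical
  have h1 : ∀ y : Set.range c, ∃ g, c g = y := fun y => y.2
  choose φ hφ using h1
  have := h.fintype
  refine ⟨Finset.univ.image φ, fun g => ⟨φ ⟨c g, g, rfl⟩, Finset.mem_image_of_mem _ (Finset.mem_univ _), ?_⟩⟩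
  exact hφ _

/-- The supremum over left translates. -/
noncomputable def supD (D : G → G → ℝ) (g g' : G) : ℝ := ⨆ k : G, D (k * g) (k * g')

lemma RTB.le_sup {D : G → G → ℝ} (h : RTB D) (k g g' : G) : D (k * g) (k * g') ≤ supD D g g' :=
  le_ciSup (f := fun k : G => D (k * g) (k * g')) ⟨1, by rintro _ ⟨k, rfl⟩; exact h.le_one _ _⟩ k

lemma RTB.sup_le {D : G → G → ℝ} {g g' : G} {C : ℝ} (hC : ∀ k, D (k * g) (k * g') ≤ C) :
    supD D g g' ≤ C := ciSup_le hC

theorem RTB.sup {D : G → G → ℝ} (h : RTB D) : BTB (supD D) := by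
  classical
  refine ⟨⟨fun g g' => ?_, fun g g' => RTB.sup_le fun k => h.le_one _ _, fun g => ?_, fun g g' => ?_,
    fun g g' g'' => ?_, fun g g' k => ?_, fun δ hδ => ?_⟩, fun k g g' => ?_⟩
  · exact (h.nonneg (1 * g) (1 * g')).trans (h.le_sup 1 g g')
  · apply le_antisymm
    · exact RTB.sup_le fun k => (h.self _).le
    · exact (h.nonneg (1 * g) (1 * g)).trans (h.le_sup 1 g g)
  · unfold supD
    congr 1
    funext k
    exact h.comm _ _
  · exact RTB.sup_le fun k => (h.tri _ (k * g') _).trans (add_le_add (h.le_sup k g g') (h.le_sup k g' g''))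
  · unfold supD
    congr 1
    funext l
    rw [← mul_assoc, ← mul_assoc, h.right]
  · obtain ⟨T0, hT0⟩ := h.tb (δ / 8) (by positivity)
    choose net hnet1 hnet2 using hT0
    obtain ⟨T, hT⟩ := finite_rep (fun g : G => fun k : T0 => (⟨net (k * g), hnet1 _⟩ : T0)) (Set.toFinite _)
    refine ⟨T, fun g => ?_⟩
    obtain ⟨t, ht, hc⟩ := hT g
    refine ⟨t, ht, lt_of_le_of_lt (b := δ / 2) ?_ (by linarith)⟩
    apply RTB.sup_le
    intro k
    have h1 := hnet2 k
    set k1 := net k with hk1
    have hk1m : k1 ∈ T0 := hnet1 k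
    have h2 : net (k1 * t) = net (k1 * g) := by
      have := congrFun hc ⟨k1, hk1m⟩
      exact congrArg Subtype.val this
    have h3 := hnet2 (k1 * t)
    have h4 := hnet2 (k1 * g)
    rw [h2] at h3
    have h5 : D (k1 * t) (k1 * g) < δ / 4 := by
      have := h.tri (k1 * t) (net (k1 * g)) (k1 * g)
      rw [h.comm (k1 * t) (net (k1 * g))] at this
      linarith
    have h6 : D (k * t) (k1 * t) < δ / 8 := by rw [h.right, h.comm]; exact h1
    have h7 : D (k1 * g) (k * g) < δ / 8 := by rw [h.right]; exact h1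
    have h8 := h.tri (k * t) (k1 * t) (k * g)
    have h9 := h.tri (k1 * t) (k1 * g) (k * g)
    linarith
  · apply le_antisymm
    · apply RTB.sup_le
      intro l
      rw [← mul_assoc, ← mul_assoc]
      exact h.le_sup (l * k) g g'
    · apply RTB.sup_le
      intro l
      have := h.le_sup (l * k⁻¹) (k * g) (k * g')
      have e : ∀ g, l * k⁻¹ * (k * g) = l * g := fun g => by group
      rwa [e, e] at this

/-- Weighted sums. -/
noncomputable def sumD (D : ℕ → G → G → ℝ) (g g' : G) : ℝ := ∑' i, (1 / 2) ^ (i + 1) * D i g g'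

lemma summable_half : Summable fun i : ℕ => ((1 : ℝ) / 2) ^ (i + 1) := by
  simp_rw [pow_succ]
  exact summable_geometric_two.mul_right _

lemma tsum_half : ∑' i : ℕ, ((1 : ℝ) / 2) ^ (i + 1) = 1 := by
  simp_rw [pow_succ]
  rw [tsum_mul_right, tsum_geometric_two]; norm_num

section sum

variable {D : ℕ → G → G → ℝ} (hD : ∀ i, BTB (D i))

include hD

lemma sum_summable (g g' : G) : Summable fun i => (1 / 2 : ℝ) ^ (i + 1) * D i g g' := by
  refine Summable.of_nonneg_of_le (fun i => mul_nonneg (by positivity) ((hD i).nonneg _ _)) (fun i => ?_) summable_half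
  have h1 := (hD i).le_one g g'
  have h2 : (0 : ℝ) < (1 / 2) ^ (i + 1) := by positivity
  nlinarith

lemma term_le_sum (i : ℕ) (g g' : G) : (1 / 2 : ℝ) ^ (i + 1) * D i g g' ≤ sumD D g g' :=
  (sum_summable hD g g').le_tsum i fun j _ => mul_nonneg (by positivity) ((hD j).nonneg _ _)

theorem sum_BTB : BTB (sumD D) := by
  classical
  have hs := sum_summable hD
  refine ⟨⟨fun g g' => ?_, fun g g' => ?_, fun g => ?_, fun g g' => ?_,
    fun g g' g'' => ?_, fun g g' k => ?_, fun δ hδ => ?_⟩, fun k g g' => ?_⟩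
  · exact tsum_nonneg fun i => mul_nonneg (by positivity) ((hD i).nonneg _ _)
  · rw [← tsum_half]
    refine (hs g g').tsum_le_tsum (fun i => ?_) summable_half
    have h1 := (hD i).le_one g g'
    have h2 : (0 : ℝ) < (1 / 2) ^ (i + 1) := by positivity
    nlinarith
  · unfold sumD
    simp [(hD _).self]
  · unfold sumD
    congr 1
    funext i
    rw [(hD i).comm]
  · unfold sumD
    rw [← (hs g g').tsum_add (hs g' g'')]
    refine (hs g g'').tsum_le_tsum (fun i => ?_) ((hs g g').add (hs g' g''))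
    have h1 := (hD i).tri g g' g''
    have h2 : (0 : ℝ) < (1 / 2) ^ (i + 1) := by positivity
    nlinarith
  · unfold sumD
    congr 1
    funext i
    rw [(hD i).right]
  · -- total boundedness
    obtain ⟨N, hN⟩ := exists_pow_lt_of_lt_one (show (0 : ℝ) < δ / 4 by positivity) (show (1 / 2 : ℝ) < 1 by norm_num)
    have hnets : ∀ i, ∃ T : Finset G, ∀ g, ∃ t ∈ T, D i t g < δ / 8 := fun i => (hD i).tb _ (by positivity)
    choose T0 hT0 using hnets
    choose net hnet1 hnet2 using hT0
    obtain ⟨T, hT⟩ := finite_rep (fun g : G => fun i : Fin N => (⟨net i g, hnet1 _ _⟩ : T0 i)) (Set.toFinite _)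
    refine ⟨T, fun g => ?_⟩
    obtain ⟨t, ht, hc⟩ := hT g
    refine ⟨t, ht, ?_⟩
    have hterm : ∀ i, (1 / 2 : ℝ) ^ (i + 1) * D i t g ≤ (1 / 2) ^ (i + 1) * (δ / 4) + if N ≤ i then (1 / 2 : ℝ) ^ (i + 1) else 0 := by
      intro i
      have h2 : (0 : ℝ) < (1 / 2) ^ (i + 1) := by positivity
      by_cases hi : N ≤ i
      · rw [if_pos hi]
        have h1 := (hD i).le_one t g
        have : 0 ≤ (1 / 2 : ℝ) ^ (i + 1) * (δ / 4) := by positivity
        nlinarith
      · rw [if_neg hi, add_zero]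
        have h3 : net i t = net i g := by
          have := congrFun hc ⟨i, not_le.1 hi⟩
          exact congrArg Subtype.val this
        have h4 := hnet2 i t
        have h5 := hnet2 i g
        rw [h3] at h4
        have h6 := (hD i).tri t (net i g) g
        rw [(hD i).comm t (net i g)] at h6
        have h7 : D i t g ≤ δ / 4 := by linarith
        exact mul_le_mul_of_nonneg_left h7 h2.le
    have hs2 : Summable fun i : ℕ => if N ≤ i then (1 / 2 : ℝ) ^ (i + 1) else 0 := by
      refine Summable.of_nonneg_of_le (fun i => ?_) (fun i => ?_) summable_half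
      · split_ifs <;> positivity
      · split_ifs
        · exact le_rfl
        · positivity
    have htail : ∑' i : ℕ, (if N ≤ i then (1 / 2 : ℝ) ^ (i + 1) else 0) = (1 / 2) ^ N := by
      rw [← hs2.sum_add_tsum_nat_add N]
      rw [Finset.sum_eq_zero fun i hi => if_neg (not_le.2 (Finset.mem_range.1 hi)), zero_add]
      have : ∀ i : ℕ, (if N ≤ i + N then (1 / 2 : ℝ) ^ (i + N + 1) else 0) = (1 / 2) ^ N * (1 / 2) ^ (i + 1) := by
        intro i
        rw [if_pos (Nat.le_add_left _ _), ← pow_add]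
        congr 1; ring
      simp_rw [this]
      rw [tsum_mul_left, tsum_half, mul_one]
    have h8 : sumD D t g ≤ δ / 4 + (1 / 2) ^ N := by
      unfold sumD
      refine ((hs t g).tsum_le_tsum hterm ((summable_half.mul_right _).add hs2)).trans ?_
      rw [(summable_half.mul_right (δ / 4)).tsum_add hs2, tsum_mul_right, tsum_half, htail, one_mul]
    linarith
  · unfold sumD
    congr 1
    funext i
    rw [(hD i).left]

end sum

/-- If no element is detected by pattern counting, then there is a bi-invariant totally bounded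
metric. -/
theorem exists_metric [Countable G] {F : ℕ → Finset G} (hF : IsFolner F)
    (h : ∀ g0 : G, g0 ≠ 1 → ¬ PP G g0) : ∃ D : G → G → ℝ, BTB D ∧ ∀ g g', D g g' = 0 → g = g' := by
  classical
  obtain ⟨m, hm⟩ := exists_mean hF
  have h1 : ∀ g0 : G, ∃ D : G → G → ℝ, BTB D ∧ (g0 ≠ 1 → 0 < D g0 1) := by
    intro g0
    by_cases hg : g0 = 1
    · refine ⟨fun _ _ => 0, ⟨⟨fun _ _ => le_rfl, fun _ _ => zero_le_one, fun _ => rfl, fun _ _ => rfl,
        fun _ _ _ => by simp, fun _ _ _ => rfl, fun δ hδ => ⟨{1}, fun g => ⟨1, by simp, hδ⟩⟩⟩,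
        fun _ _ _ => rfl⟩, fun h => absurd hg h⟩
    · obtain ⟨c, r, M, K, hK, hr, hrc, hc, hsep⟩ := exists_kernel (h g0 hg)
      have hR : RTB (dm m K) := ⟨dm_nonneg hm hK, dm_le_one hm hK, dm_self hm hK, dm_comm hm hK,
        dm_tri hm hK, dm_right hm hK, fun δ hδ => dm_TB hm hK δ hδ⟩
      refine ⟨supD (dm m K), hR.sup, fun _ => ?_⟩
      have h2 := dm_pos hm hK hr hrc hc hsep
      have h3 := hR.le_sup 1 g0 1
      rw [one_mul, one_mul] at h3
      exact h2.trans_le h3
  choose D hD hpos using h1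
  obtain ⟨e, he⟩ := exists_surjective_nat G
  have hB := sum_BTB (D := fun i => D (e i)) fun i => hD (e i)
  refine ⟨_, hB, fun g g' h0 => ?_⟩
  by_contra hne
  have h2 : g * g'⁻¹ ≠ 1 := fun h => hne (mul_inv_eq_one.1 h)
  obtain ⟨i, hi⟩ := he (g * g'⁻¹)
  have h3 : sumD (fun i => D (e i)) (g * g'⁻¹) 1 = 0 := by
    rw [← h0, ← hB.right (g * g'⁻¹) 1 g', inv_mul_cancel_right, one_mul]
  have h4 := term_le_sum (D := fun i => D (e i)) (fun i => hD (e i)) i (g * g'⁻¹) 1
  rw [h3, hi] at h4
  have h5 := hpos _ h2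
  have h6 : (0 : ℝ) < (1 / 2) ^ (i + 1) := by positivity
  have := mul_pos h6 h5
  linarith

end Pool.Agent.R291.Scale
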