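import Pool.Agent.R291.ScaleGap

/-!
Commutators of elements one of which has infinitely many conjugates commuting with the other.
-/

open MeasureTheory Filter
open scoped ENNReal

set_option linter.unusedSectionVars false

namespace Pool.Agent.R291.Scale

variable {G : Type} [Group G]

/-- Pigeonhole on the powers of `t`. -/
lemma exists_period {X : Type} [MeasurableSpace X] [MulAction G X] [MeasurableConstSMul G X]
    {μ : Measure X} [IsProbabilityMeasure μ] [SMulInvariantMeasure G X μ] {f : X → ℝ} (hf : UI f)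
    {F : Finset G} (hF : F.Nonempty) {ε : ℝ} (hε : 0 < ε) {k : ℕ}
    (hc : Covers μ (avgM F (fun x y => |f x - f y|)) ε k) {L : ℕ} (hL : 0 < L) (hLε : 1 / (L : ℝ) ≤ ε)
    (cc : Fin 4 → G) (t : G) {J : ℕ} (hJ : 2 * ((L + 1) ^ k) ^ 4 < J)
    (hs : ∀ (i : Fin 4) (j : Fin J), Inv1 F ε (cc i * t ^ (j : ℕ))) :
    ∃ p : ℤ, p ≠ 0 ∧ ∀ i, Df μ f (cc i) (cc i * t ^ p) ≤ 49 * ε := by
  classical
  obtain ⟨e, c, he0, hesum, hcd⟩ := patterns hf hF hc (ι := Fin 4 × Fin J)
    (fun ij => cc ij.1 * t ^ (ij.2 : ℕ)) (fun ij => hs ij.1 ij.2) hL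
  let E : Fin J → ℝ := fun j => ∑ i : Fin 4, e (i, j)
  have hE0 : ∀ j, 0 ≤ E j := fun j => Finset.sum_nonneg fun i _ => he0 _
  have hEsum : ∑ j, E j ≤ 12 * ε * J := by
    have h1 : ∑ j, E j = ∑ ij : Fin 4 × Fin J, e ij := by
      rw [Fintype.sum_prod_type, Finset.sum_comm]
    rw [h1]
    refine hesum.trans ?_
    rw [Fintype.card_prod, Fintype.card_fin, Fintype.card_fin]
    push_cast
    nlinarith
  let bad : Finset (Fin J) := Finset.univ.filter fun j => 24 * ε < E j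
  let good : Finset (Fin J) := Finset.univ.filter fun j => ¬ 24 * ε < E j
  have hcard : bad.card + good.card = J := by
    have := Finset.card_filter_add_card_filter_not (s := (Finset.univ : Finset (Fin J))) (fun j => 24 * ε < E j)
    rw [Finset.card_univ, Fintype.card_fin] at this
    exact this
  have hbad : (bad.card : ℝ) * (24 * ε) ≤ 12 * ε * J := by
    refine le_trans ?_ hEsum
    have h1 : (bad.card : ℝ) * (24 * ε) ≤ ∑ j ∈ bad, E j := by
      have := Finset.card_nsmul_le_sum bad E (24 * ε) fun j hj => (Finset.mem_filter.1 hj).2.le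
      simpa using this
    exact h1.trans (Finset.sum_le_sum_of_subset_of_nonneg (Finset.subset_univ _) fun j _ _ => hE0 j)
  have hbad2 : 2 * bad.card ≤ J := by
    have : (2 * bad.card : ℝ) ≤ J := by
      have h1 : (12 * ε) * (2 * bad.card) ≤ (12 * ε) * J := by nlinarith
      exact le_of_mul_le_mul_left h1 (by positivity)
    exact_mod_cast this
  have hgood : ((L + 1) ^ k) ^ 4 < good.card := by omega
  have hpig : ∃ x ∈ good, ∃ y ∈ good, x ≠ y ∧
      (fun i : Fin 4 => c (i, x)) = (fun i : Fin 4 => c (i, y)) := by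
    apply Finset.exists_ne_map_eq_of_card_lt_of_maps_to (t := (Finset.univ : Finset (Fin 4 → Fin k → Fin (L + 1))))
    · rw [Finset.card_univ]
      simp only [Fintype.card_fun, Fintype.card_fin]
      exact hgood
    · intro x _
      exact Finset.mem_univ _
  obtain ⟨x, hx, y, hy, hxy, hpat⟩ := hpig
  refine ⟨(y : ℤ) - x, ?_, fun i => ?_⟩
  · intro h
    apply hxy
    apply Fin.ext
    have h' : ((y : ℕ) : ℤ) = ((x : ℕ) : ℤ) := by linarith
    exact_mod_cast h'.symm
  · have h1 := hcd (i, x) (i, y) (congrFun hpat i)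
    have h2 : e (i, x) ≤ 24 * ε := by
      have := (Finset.mem_filter.1 hx).2
      have h3 : e (i, x) ≤ E x := Finset.single_le_sum (f := fun i => e (i, x)) (fun i _ => he0 _) (Finset.mem_univ i)
      linarith [not_lt.1 this]
    have h3 : e (i, y) ≤ 24 * ε := by
      have := (Finset.mem_filter.1 hy).2
      have h3 : e (i, y) ≤ E y := Finset.single_le_sum (f := fun i => e (i, y)) (fun i _ => he0 _) (Finset.mem_univ i)
      linarith [not_lt.1 this]
    have h4 : Df μ f (cc i) (cc i * t ^ ((y : ℤ) - x)) = Df μ f (cc i * t ^ (x : ℕ)) (cc i * t ^ (y : ℕ)) := by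
      rw [← Df_right f (cc i) (cc i * t ^ ((y : ℤ) - x)) (t ^ (x : ℕ))]
      congr 1
      rw [mul_assoc, ← zpow_natCast, ← zpow_add, sub_add_cancel, zpow_natCast]
    rw [h4]
    linarith

/-- **Theorem B.** -/
theorem PP_of_comm {a b t : G} (h : ∀ p : ℤ, p ≠ 0 → (t ^ (-p) * a * t ^ p) * b = b * (t ^ (-p) * a * t ^ p)) :
    PP G (a * b * (b * a)⁻¹) := by
  classical
  intro h0 c hc
  refine ⟨c / 200, by positivity, fun k => ?_⟩
  set ε := c / 200 with hε
  have hε0 : 0 < ε := by positivity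
  obtain ⟨L0, hL0⟩ := exists_nat_gt (1 / ε)
  have hLr : (0 : ℝ) < L0 := lt_trans (by positivity) hL0
  have hL : 0 < L0 := by exact_mod_cast hLr
  have hLε : 1 / (L0 : ℝ) ≤ ε := by
    rw [div_le_iff₀ hLr]
    rw [div_lt_iff₀ hε0] at hL0
    linarith
  let J : ℕ := 2 * ((L0 + 1) ^ k) ^ 4 + 1
  let cc : Fin 4 → G := ![h0, h0 * a, h0 * b, h0 * (b * a)]
  refine ⟨(Finset.univ : Finset (Fin 4 × Fin J)).image (fun ij => cc ij.1 * t ^ (ij.2 : ℕ)), ε, hε0, ?_⟩
  intro F hF hinv X _ _ _ μ _ _ f hf hdis hcov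
  obtain ⟨p, hp, hper⟩ := exists_period hf hF hε0 hcov hL hLε cc t (J := J) (Nat.lt_succ_self _)
    (fun i j => hinv _ (Finset.mem_image.2 ⟨(i, j), Finset.mem_univ _, rfl⟩))
  have p0 : Df μ f h0 (h0 * t ^ p) ≤ 49 * ε := hper 0
  have p1 : Df μ f (h0 * a) (h0 * a * t ^ p) ≤ 49 * ε := hper 1
  have p2 : Df μ f (h0 * b) (h0 * b * t ^ p) ≤ 49 * ε := hper 2
  have p3 : Df μ f (h0 * (b * a)) (h0 * (b * a) * t ^ p) ≤ 49 * ε := hper 3
  -- the negative power
  have neg : ∀ g, Df μ f (g * t ^ (-p)) g = Df μ f g (g * t ^ p) := by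
    intro g
    rw [← Df_right f (g * t ^ (-p)) g (t ^ p)]
    congr 1
    rw [mul_assoc, ← zpow_add, neg_add_cancel, zpow_zero, mul_one]
  -- `h b (t^{-p} a t^p)` is close to `h b a`
  have q1 : Df μ f (h0 * (b * (t ^ (-p) * a * t ^ p))) (h0 * (b * a)) ≤ 98 * ε := by
    have h1 := Df_tri (μ := μ) hf (h0 * (b * (t ^ (-p) * a * t ^ p))) (h0 * (b * a) * t ^ p) (h0 * (b * a))
    have h2 : Df μ f (h0 * (b * (t ^ (-p) * a * t ^ p))) (h0 * (b * a) * t ^ p) =
        Df μ f (h0 * b * t ^ (-p)) (h0 * b) := by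
      rw [← Df_right f (h0 * b * t ^ (-p)) (h0 * b) (a * t ^ p)]
      congr 1 <;> group
    have h3 := neg (h0 * b)
    have h4 := Df_comm (μ := μ) f (h0 * (b * a) * t ^ p) (h0 * (b * a))
    linarith
  have q2 : Df μ f (h0 * ((t ^ (-p) * a * t ^ p) * b)) (h0 * (a * b)) ≤ 98 * ε := by
    have h1 := Df_tri (μ := μ) hf (h0 * ((t ^ (-p) * a * t ^ p) * b)) (h0 * a * t ^ p * b) (h0 * (a * b))
    have h2 : Df μ f (h0 * ((t ^ (-p) * a * t ^ p) * b)) (h0 * a * t ^ p * b) =
        Df μ f (h0 * t ^ (-p)) h0 := by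
      rw [← Df_right f (h0 * t ^ (-p)) h0 (a * t ^ p * b)]
      congr 1 <;> group
    have h3 := neg h0
    have h4 : Df μ f (h0 * a * t ^ p * b) (h0 * (a * b)) = Df μ f (h0 * a * t ^ p) (h0 * a) := by
      rw [← Df_right f (h0 * a * t ^ p) (h0 * a) b]
      congr 1
      rw [mul_assoc]
    have h5 := Df_comm (μ := μ) f (h0 * a * t ^ p) (h0 * a)
    linarith
  rw [h p hp] at q2
  have q3 := Df_tri (μ := μ) hf (h0 * (a * b)) (h0 * (b * (t ^ (-p) * a * t ^ p))) (h0 * (b * a))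
  have q4 := Df_comm (μ := μ) f (h0 * (a * b)) (h0 * (b * (t ^ (-p) * a * t ^ p)))
  have q5 : Df μ f (h0 * (a * b * (b * a)⁻¹)) h0 = Df μ f (h0 * (a * b)) (h0 * (b * a)) := by
    rw [← Df_right f (h0 * (a * b * (b * a)⁻¹)) h0 (b * a)]
    congr 1
    group
  have : c = 200 * ε := by rw [hε]; ring
  linarith

end Pool.Agent.R291.Scale
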