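import Pool.Agent.R291.ScaleBi

/-!
A countable amenable group with a bi-invariant totally bounded metric has a free compact action.
-/

open MeasureTheory Filter UniformSpace
open scoped ENNReal Topology

set_option linter.unusedSectionVars false

namespace Pool.Agent.R291.Scale

/-- The orbit of every square integrable function under the Koopman representation is totally
bounded in `L²`. -/
def CompactAction (G : Type) [Group G] {X : Type} [MeasurableSpace X] [MulAction G X]
    (μ : Measure X) : Prop :=
  ∀ f : X → ℂ, MemLp f 2 μ → ∀ ε : ℝ≥0∞, ε ≠ 0 → ∃ T : Finset G, ∀ g : G, ∃ t ∈ T,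
    eLpNorm (fun x => f (g • x) - f (t • x)) 2 μ ≤ ε

/-- The group has an essentially free compact action by measure preserving transformations of a
standard probability space. -/
def HasFreeCompactAction (G : Type) [Group G] : Prop :=
  ∃ (X : Type) (_ : MeasurableSpace X) (_ : StandardBorelSpace X) (_ : MulAction G X)
    (_ : MeasurableConstSMul G X) (μ : Measure X) (_ : IsProbabilityMeasure μ)
    (_ : SMulInvariantMeasure G X μ), EssFree G μ ∧ CompactAction G μ

lemma avg_shift {G : Type} [Group G] {F : Finset G} (hF : F.Nonempty) (ψ : G → ℝ) {C : ℝ}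
    (hC : ∀ s, |ψ s| ≤ C) (k : G) :
    |(F.card : ℝ)⁻¹ * ∑ s ∈ F, ψ (k * s) - (F.card : ℝ)⁻¹ * ∑ s ∈ F, ψ s| ≤
      C * (((symmDiff ((fun x => k * x) '' (F : Set G)) (F : Set G)).ncard : ℝ) / F.card) := by
  classical
  have hFc : (0 : ℝ) < F.card := by exact_mod_cast hF.card_pos
  have e1 : ∑ s ∈ F, ψ (k * s) = ∑ s ∈ F.image (fun x => k * x), ψ s := by
    rw [Finset.sum_image fun x _ y _ h => mul_left_cancel h]
  rw [e1, ← mul_sub]
  have e2 : ∑ s ∈ F.image (fun x => k * x), ψ s - ∑ s ∈ F, ψ s =
      ∑ s ∈ F.image (fun x => k * x) \ F, ψ s - ∑ s ∈ F \ F.image (fun x => k * x), ψ s := by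
    have a1 := Finset.sum_inter_add_sum_sdiff (F.image (fun x => k * x)) F (fun s => ψ s)
    have a2 := Finset.sum_inter_add_sum_sdiff F (F.image (fun x => k * x)) (fun s => ψ s)
    rw [Finset.inter_comm] at a2
    linarith
  rw [e2, abs_mul, abs_of_pos (inv_pos.2 hFc)]
  have a3 : |∑ s ∈ F.image (fun x => k * x) \ F, ψ s - ∑ s ∈ F \ F.image (fun x => k * x), ψ s| ≤
      (F.image (fun x => k * x) \ F).card * C + (F \ F.image (fun x => k * x)).card * C := by
    refine (abs_sub _ _).trans (add_le_add ?_ ?_)
    · refine (Finset.abs_sum_le_sum_abs _ _).trans ?_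
      have := Finset.sum_le_card_nsmul (F.image (fun x => k * x) \ F) (fun s => |ψ s|) C fun s _ => hC _
      simpa using this
    · refine (Finset.abs_sum_le_sum_abs _ _).trans ?_
      have := Finset.sum_le_card_nsmul (F \ F.image (fun x => k * x)) (fun s => |ψ s|) C fun s _ => hC _
      simpa using this
  have a4 : (symmDiff ((fun x => k * x) '' (F : Set G)) (F : Set G)).ncard =
      (F.image (fun x => k * x) \ F).card + (F \ F.image (fun x => k * x)).card := by
    have : symmDiff ((fun x => k * x) '' (F : Set G)) (F : Set G) =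
        ((F.image (fun x => k * x) \ F) ∪ (F \ F.image (fun x => k * x)) : Finset G) := by
      ext x
      simp [Set.mem_symmDiff]
    rw [this, Set.ncard_coe_finset, Finset.card_union_of_disjoint]
    exact Finset.disjoint_left.2 fun x hx hx' => (Finset.mem_sdiff.1 hx).2 (Finset.mem_sdiff.1 hx').1
  rw [a4, inv_mul_le_iff₀ hFc]
  push_cast
  refine a3.trans (le_of_eq ?_)
  field_simp

section compl

variable {G : Type} [Group G] [MetricSpace G]

/-- Left-invariance as an instance. -/
lemma isom_of_left (hl : ∀ k g g' : G, dist (k * g) (k * g') = dist g g') : IsIsometricSMul G G :=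
  ⟨fun c => Isometry.of_dist_eq fun x y => hl c x y⟩

theorem free_compact_of_metric [Countable G] {F : ℕ → Finset G} (hF : IsFolner F)
    (hl : ∀ k g g' : G, dist (k * g) (k * g') = dist g g')
    (hr : ∀ g g' k : G, dist (g * k) (g' * k) = dist g g')
    (tb : ∀ δ > 0, ∃ T : Finset G, ∀ g, ∃ t ∈ T, dist t g < δ) : HasFreeCompactAction G := by
  classical
  have hiso := isom_of_left hl
  have hucs : UniformContinuousConstSMul G G :=
    ⟨fun c => (Isometry.of_dist_eq (f := fun x : G => c • x) fun x y => hl c x y).uniformContinuous⟩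
  let Y : Type := Completion G
  -- isometry of the action
  have hsm : ∀ (g : G) (x y : Y), dist (g • x) (g • y) = dist x y := by
    intro g x y
    refine Completion.induction_on₂ x y ?_ fun a b => ?_
    · apply isClosed_eq
      · exact Completion.continuous_dist ((uniformContinuous_const_smul g).continuous.comp continuous_fst)
          ((uniformContinuous_const_smul g).continuous.comp continuous_snd)
      · exact Completion.continuous_dist continuous_fst continuous_snd
    · rw [← Completion.coe_smul, ← Completion.coe_smul, Completion.dist_eq, Completion.dist_eq]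
      exact hl g a b
  have hdisp : ∀ (g h : G) (y : Y), dist (g • y) (h • y) = dist g h := by
    intro g h y
    refine Completion.induction_on y ?_ fun a => ?_
    · apply isClosed_eq
      · exact Completion.continuous_dist (uniformContinuous_const_smul g).continuous
          (uniformContinuous_const_smul h).continuous
      · exact continuous_const
    · rw [← Completion.coe_smul, ← Completion.coe_smul, Completion.dist_eq]
      exact hr g h a
  -- compactness
  have htbG : TotallyBounded (Set.univ : Set G) := by
    rw [Metric.totallyBounded_iff]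
    intro ε hε
    obtain ⟨T, hT⟩ := tb ε hε
    refine ⟨T, T.finite_toSet, fun g _ => ?_⟩
    obtain ⟨t, ht, htg⟩ := hT g
    rw [Set.mem_iUnion₂]
    exact ⟨t, ht, by rw [Metric.mem_ball, dist_comm]; exact htg⟩
  have hcompact : CompactSpace Y := by
    have h1 : TotallyBounded (Set.range ((↑) : G → Completion G)) := by
      rw [← Set.image_univ]
      exact htbG.image (Completion.uniformContinuous_coe G)
    have h2 := h1.closure
    rw [Completion.denseRange_coe.closure_range] at h2
    exact ⟨isCompact_iff_totallyBounded_isComplete.2 ⟨h2, isComplete_univ⟩⟩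
  let mY : MeasurableSpace Y := borel Y
  have bY : BorelSpace Y := ⟨rfl⟩
  have hsecond : SecondCountableTopology Y := inferInstance
  have hpolish : PolishSpace Y := inferInstance
  have hstd : StandardBorelSpace Y := inferInstance
  have hcont : ∀ g : G, Continuous fun y : Y => g • y := fun g => (uniformContinuous_const_smul g).continuous
  have hmeas : MeasurableConstSMul G Y := ⟨fun g => (hcont g).measurable⟩
  -- the averages
  have hFc : ∀ n, (0 : ℝ) < (F n).card := fun n => by exact_mod_cast (hF.1 n).card_pos
  let P : ℕ → ProbabilityMeasure Y := fun n =>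
    ⟨((F n).card : ℝ≥0∞)⁻¹ • ∑ g ∈ F n, Measure.dirac ((g : G) : Y), by
      constructor
      rw [Measure.smul_apply, Measure.finsetSum_apply]
      simp only [measure_univ, Finset.sum_const, nsmul_eq_mul, mul_one, smul_eq_mul]
      refine ENNReal.inv_mul_cancel ?_ (ENNReal.natCast_ne_top _)
      have := hFc n
      intro h
      rw [Nat.cast_eq_zero] at h
      rw [h] at this
      simp at this⟩
  have hPint : ∀ n (φ : Y → ℝ), Continuous φ → ∫ y, φ y ∂(P n : Measure Y) = ((F n).card : ℝ)⁻¹ * ∑ g ∈ F n, φ (g : Y) := by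
    intro n φ hφ
    show ∫ y, φ y ∂(((F n).card : ℝ≥0∞)⁻¹ • ∑ g ∈ F n, Measure.dirac ((g : G) : Y)) = _
    rw [integral_smul_measure, integral_finsetSum_measure]
    · simp only [integral_dirac, smul_eq_mul, ENNReal.toReal_inv, ENNReal.toReal_natCast]
    · intro i _
      exact integrable_dirac (by simp)
  obtain ⟨ν, _, hν⟩ := (isCompact_univ (X := ProbabilityMeasure Y)).ultrafilter_le_nhds
    ((hyperfilter ℕ).map P) (by simp)
  have hνt : Tendsto P (hyperfilter ℕ : Filter ℕ) (𝓝 ν) := hν
  rw [ProbabilityMeasure.tendsto_iff_forall_integral_tendsto] at hνt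
  -- invariance
  have hinv : ∀ h : G, (ν : Measure Y).map (fun y => h • y) = ν := by
    intro h
    have : IsProbabilityMeasure ((ν : Measure Y).map (fun y => h • y)) :=
      Measure.isProbabilityMeasure_map (hcont h).measurable.aemeasurable
    refine ext_of_forall_integral_eq_of_IsFiniteMeasure fun φ => ?_
    rw [integral_map (hcont h).measurable.aemeasurable φ.continuous.aestronglyMeasurable]
    have t1 := hνt φ
    have t2 := hνt (φ.compContinuous ⟨fun y => h • y, hcont h⟩)
    have t3 : Tendsto (fun n => ∫ y, φ (h • y) ∂(P n : Measure Y) - ∫ y, φ y ∂(P n : Measure Y))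
        (hyperfilter ℕ : Filter ℕ) (𝓝 0) := by
      have hb : ∀ n, |∫ y, φ (h • y) ∂(P n : Measure Y) - ∫ y, φ y ∂(P n : Measure Y)| ≤
          ‖φ‖ * (((symmDiff ((fun x => h * x) '' (F n : Set G)) (F n : Set G)).ncard : ℝ) / (F n).card) := by
        intro n
        rw [hPint n (fun y => φ (h • y)) (φ.continuous.comp (hcont h)), hPint n φ φ.continuous]
        have := avg_shift (hF.1 n) (fun g => φ ((g : G) : Y)) (C := ‖φ‖) (fun s => φ.norm_coe_le_norm _) h
        have e : ∀ s : G, h • ((s : G) : Y) = ((h * s : G) : Y) := fun s => (Completion.coe_smul h s).symm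
        simp only [e]
        exact this
      have h2 := ((hF.2 h).const_mul ‖φ‖).mono_left Nat.hyperfilter_le_atTop
      rw [mul_zero] at h2
      exact squeeze_zero_norm (fun n => by rw [Real.norm_eq_abs]; exact hb n) h2
    have t4 := t3.add t1
    rw [zero_add] at t4
    refine tendsto_nhds_unique t2 (t4.congr fun n => ?_)
    show ∫ y, φ (h • y) ∂(P n : Measure Y) - ∫ y, φ y ∂(P n : Measure Y) + ∫ y, φ y ∂(P n : Measure Y) =
      ∫ y, φ (h • y) ∂(P n : Measure Y)
    ring
  have hsmul : SMulInvariantMeasure G Y (ν : Measure Y) := by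
    refine ⟨fun g s hs => ?_⟩
    have h1 : ((ν : Measure Y).map (fun y => g • y)) s = (ν : Measure Y) s := by rw [hinv g]
    rw [Measure.map_apply (hcont g).measurable hs] at h1
    exact h1
  refine ⟨Y, mY, hstd, inferInstance, hmeas, ν, inferInstance, hsmul, ?_, ?_⟩
  · refine Filter.Eventually.of_forall fun y g hg => ?_
    have h1 := hdisp g 1 y
    rw [hg, one_smul, dist_self] at h1
    exact dist_eq_zero.1 h1.symm
  · intro f hf ε hε
    by_cases htop : ε = ⊤
    · exact ⟨{1}, fun g => ⟨1, by simp, by rw [htop]; exact le_top⟩⟩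
    have hε3 : ε / 3 ≠ 0 := by
      rw [Ne, ENNReal.div_eq_zero_iff, not_or]
      exact ⟨hε, by simp⟩
    obtain ⟨φ, hφ, hφm⟩ := hf.exists_boundedContinuous_eLpNorm_sub_le (by simp) hε3
    have huc : UniformContinuous φ := CompactSpace.uniformContinuous_of_continuous φ.continuous
    have hr0 : 0 < (ε / 3).toReal := ENNReal.toReal_pos hε3 (by
      intro h
      exact (ENNReal.div_lt_top htop (by norm_num)).ne h)
    obtain ⟨δ, hδ, hδφ⟩ := Metric.uniformContinuous_iff.1 huc _ hr0
    obtain ⟨T, hT⟩ := tb δ hδ
    refine ⟨T, fun g => ?_⟩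
    obtain ⟨t, ht, htg⟩ := hT g
    refine ⟨t, ht, ?_⟩
    have mg : ∀ g : G, MeasurePreserving (fun y : Y => g • y) (ν : Measure Y) ν := fun g =>
      ⟨(hcont g).measurable, hinv g⟩
    have n1 : ∀ g : G, eLpNorm (fun x => f (g • x) - φ (g • x)) 2 (ν : Measure Y) ≤ ε / 3 := by
      intro g
      have h1 : eLpNorm (fun x => f (g • x) - φ (g • x)) 2 (ν : Measure Y) =
          eLpNorm (fun x => f x - φ x) 2 (ν : Measure Y) :=
        eLpNorm_comp_measurePreserving (g := fun x => f x - φ x) (hf.1.sub hφm.1) (mg g)
      rw [h1]; exact hφ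
    have n2 : eLpNorm (fun x => φ (g • x) - φ (t • x)) 2 (ν : Measure Y) ≤ ε / 3 := by
      have h1 : ∀ x : Y, ‖φ (g • x) - φ (t • x)‖ ≤ (ε / 3).toReal := by
        intro x
        rw [← dist_eq_norm]
        apply (hδφ _).le
        rw [hdisp, dist_comm]
        exact htg
      have h2 := eLpNorm_le_of_ae_bound (p := 2) (μ := (ν : Measure Y)) (Filter.Eventually.of_forall h1)
      simp only [measure_univ, ENNReal.one_rpow, one_mul] at h2
      rwa [ENNReal.ofReal_toReal (ENNReal.div_lt_top htop (by norm_num)).ne] at h2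
    have am : ∀ g : G, AEStronglyMeasurable (fun x => f (g • x)) (ν : Measure Y) := fun g =>
      hf.1.comp_measurePreserving (mg g)
    have aφ : ∀ g : G, AEStronglyMeasurable (fun x => φ (g • x)) (ν : Measure Y) := fun g =>
      (φ.continuous.comp (hcont g)).aestronglyMeasurable
    have e : (fun x => f (g • x) - f (t • x)) = (fun x => f (g • x) - φ (g • x)) +
        ((fun x => φ (g • x) - φ (t • x)) - fun x => f (t • x) - φ (t • x)) := by
      funext x
      simp only [Pi.add_apply, Pi.sub_apply]
      ring
    rw [e]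
    refine (eLpNorm_add_le ((am g).sub (aφ g)) (((aφ g).sub (aφ t)).sub ((am t).sub (aφ t))) (by norm_num)).trans ?_
    have h3 := eLpNorm_sub_le ((aφ g).sub (aφ t)) ((am t).sub (aφ t)) (p := 2) (by norm_num)
    calc _ ≤ ε / 3 + (ε / 3 + ε / 3) := add_le_add (n1 g) (h3.trans (add_le_add n2 (n1 t)))
      _ = ε := by rw [← add_assoc]; exact ENNReal.add_thirds ε

end compl

/-- **Main theorem.** -/
theorem growthGap_of_no_free_compact (G : Type) [Group G] [Countable G] (hF : ∃ F : ℕ → Finset G, IsFolner F)
    (h : ¬ HasFreeCompactAction G) : GrowthGap G := by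
  refine ⟨hF, fun F hFol => ?_⟩
  by_contra hgap
  have h1 : ∀ g0 : G, g0 ≠ 1 → ¬ PP G g0 := fun g0 hg0 hP => hgap (gap_of_PP hg0 hP hFol)
  obtain ⟨D, hD, hsep⟩ := exists_metric hFol h1
  let inst : MetricSpace G :=
    { dist := D
      dist_self := hD.self
      dist_comm := hD.comm
      dist_triangle := hD.tri
      eq_of_dist_eq_zero := fun {g g'} h => hsep g g' h }
  exact h (free_compact_of_metric (G := G) hFol hD.left hD.right hD.tb)

end Pool.Agent.R291.Scale
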