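import Mathlib

/-!
Scaling entropy of measure preserving actions of amenable groups and the growth gap
(definitions).
-/

open MeasureTheory Filter
open scoped ENNReal

namespace Pool.Agent.R291.Scale

/-- Measurable semimetrics. -/
structure IsSemimetric {X : Type} [MeasurableSpace X] (ρ : X → X → ℝ) : Prop where
  meas : Measurable (Function.uncurry ρ)
  nonneg : ∀ x y, 0 ≤ ρ x y
  symm : ∀ x y, ρ x y = ρ y x
  tri : ∀ x y z, ρ x z ≤ ρ x y + ρ y z

/-- The space is the union of a set of measure less than `ε` and `k` sets of diameter less than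
`ε`. -/
def Covers {X : Type} [MeasurableSpace X] (μ : Measure X) (ρ : X → X → ℝ) (ε : ℝ) (k : ℕ) : Prop :=
  ∃ (X0 : Set X) (P : Fin k → Set X), MeasurableSet X0 ∧ (∀ i, MeasurableSet (P i)) ∧
    (X0 ∪ ⋃ i, P i) = Set.univ ∧ μ X0 < ENNReal.ofReal ε ∧
    ∀ i, ∃ r < ε, ∀ x ∈ P i, ∀ y ∈ P i, ρ x y ≤ r

/-- The epsilon entropy: the logarithm to base two of the least positive `k` with `Covers μ ρ ε k`,
infinite if there is none. -/
noncomputable def Hent {X : Type} [MeasurableSpace X] (μ : Measure X) (ρ : X → X → ℝ) (ε : ℝ) : ℝ≥0∞ :=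
  ⨅ (k : ℕ) (_ : 0 < k ∧ Covers μ ρ ε k), ENNReal.ofReal (Real.logb 2 k)

/-- All epsilon entropies are finite. -/
def Admissible {X : Type} [MeasurableSpace X] (μ : Measure X) (ρ : X → X → ℝ) : Prop :=
  ∀ ε > 0, Hent μ ρ ε < ⊤

/-- The translates of `ρ` separate the points of a set of full measure. -/
def Generating (G : Type) [Group G] {X : Type} [MeasurableSpace X] [MulAction G X] (μ : Measure X)
    (ρ : X → X → ℝ) : Prop :=
  ∃ X' : Set X, μ X'ᶜ = 0 ∧ ∀ x ∈ X', ∀ y ∈ X', x ≠ y → ∃ g : G, 0 < ρ (g • x) (g • y)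

/-- The average of the translates of `ρ` over a finite set. -/
noncomputable def avgM {G : Type} [Group G] {X : Type} [MulAction G X] (F : Finset G)
    (ρ : X → X → ℝ) : X → X → ℝ :=
  fun x y => (F.card : ℝ)⁻¹ * ∑ g ∈ F, ρ (g • x) (g • y)

/-- The function `Φ_ρ`. -/
noncomputable def Phi {G : Type} [Group G] {X : Type} [MeasurableSpace X] [MulAction G X]
    (μ : Measure X) (F : ℕ → Finset G) (ρ : X → X → ℝ) (n : ℕ) (ε : ℝ) : ℝ≥0∞ :=
  Hent μ (avgM (F n) ρ) ε

/-- The relation `Φ ≾ Ψ`. -/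
def Prec (Φ Ψ : ℕ → ℝ → ℝ≥0∞) : Prop :=
  ∀ ε > 0, ∃ δ > 0, limsup (fun n => Φ n ε / Ψ n δ) atTop < ⊤

/-- (Left) Folner sequences. -/
def IsFolner {G : Type} [Group G] (F : ℕ → Finset G) : Prop :=
  (∀ n, (F n).Nonempty) ∧
    ∀ g : G, Tendsto (fun n => ((symmDiff ((fun x => g * x) '' (F n : Set G)) (F n : Set G)).ncard : ℝ) /
      (F n).card) atTop (nhds 0)

/-- Almost every point has trivial stabilizer. -/
def EssFree (G : Type) [Group G] {X : Type} [MeasurableSpace X] [MulAction G X] (μ : Measure X) : Prop :=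
  ∀ᵐ x ∂μ, ∀ g : G, g • x = x → g = 1

/-- For the Folner sequence `F` some unbounded function bounds from below the scaling entropy of
all essentially free probability measure preserving actions on standard probability spaces. -/
def GapFor (G : Type) [Group G] (F : ℕ → Finset G) : Prop :=
  ∃ φ : ℕ → ℝ, (∀ n, 0 ≤ φ n) ∧ (∀ C : ℝ, ∃ n, C < φ n) ∧
    ∀ (X : Type) [MeasurableSpace X] [StandardBorelSpace X] [MulAction G X] [MeasurableConstSMul G X]
      (μ : Measure X) [IsProbabilityMeasure μ] [SMulInvariantMeasure G X μ], EssFree G μ →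
      ∀ ρ : X → X → ℝ, IsSemimetric ρ → Integrable (Function.uncurry ρ) (μ.prod μ) →
        Admissible μ ρ → Generating G μ ρ → Prec (fun n _ => ENNReal.ofReal (φ n)) (Phi μ F ρ)

/-- The scaling entropy growth gap: Folner sequences exist, and every one of them has an unbounded
lower bound as in `GapFor`. -/
def GrowthGap (G : Type) [Group G] : Prop :=
  (∃ F : ℕ → Finset G, IsFolner F) ∧ ∀ F : ℕ → Finset G, IsFolner F → GapFor G F

end Pool.Agent.R291.Scale
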