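import Pool.Agent.R291.ScalePigeon

/-!
From pattern counting to the growth gap.
-/

open MeasureTheory Filter
open scoped ENNReal

set_option linter.unusedSectionVars false

namespace Pool.Agent.R291.Scale

variable {G : Type} [Group G]

/-- Functions displaced by `g0` (along `h`) have many patterns along almost invariant sets. -/
def PP (G : Type) [Group G] (g0 : G) : Prop :=
  ∀ (h : G) (c : ℝ), 0 < c → ∃ ε > 0, ∀ k : ℕ, ∃ (S : Finset G) (η : ℝ), 0 < η ∧
    ∀ (F : Finset G), F.Nonempty → (∀ s ∈ S, Inv1 F η s) →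
      ∀ (X : Type) [MeasurableSpace X] [MulAction G X] [MeasurableConstSMul G X] (μ : Measure X)
        [IsProbabilityMeasure μ] [SMulInvariantMeasure G X μ] (f : X → ℝ), UI f →
        c ≤ Df μ f (h * g0) h → ¬ Covers μ (avgM F fun x y => |f x - f y|) ε k

section

variable {X : Type} [MeasurableSpace X] [MulAction G X]

lemma Covers.mono {μ : Measure X} {ρ ρ' : X → X → ℝ} (h : ∀ x y, ρ' x y ≤ ρ x y) {ε : ℝ} {k : ℕ}
    (hc : Covers μ ρ ε k) : Covers μ ρ' ε k := by
  obtain ⟨X0, P, h1, h2, h3, h4, h5⟩ := hc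
  refine ⟨X0, P, h1, h2, h3, h4, fun i => ?_⟩
  obtain ⟨r, hr, hd⟩ := h5 i
  exact ⟨r, hr, fun x hx y hy => (h x y).trans (hd x hx y hy)⟩

lemma avgM_mono {ρ ρ' : X → X → ℝ} (h : ∀ x y, ρ' x y ≤ ρ x y) (F : Finset G) (x y : X) :
    avgM F ρ' x y ≤ avgM F ρ x y := by
  unfold avgM
  exact mul_le_mul_of_nonneg_left (Finset.sum_le_sum fun g _ => h _ _) (by positivity)

lemma dist_fun_le {ρ : X → X → ℝ} (hρ : IsSemimetric ρ) (x0 x y : X) :
    |min (ρ x0 x) 1 - min (ρ x0 y) 1| ≤ ρ x y := by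
  refine (abs_min_sub_min_le_max _ _ _ _).trans ?_
  rw [sub_self, abs_zero, max_le_iff]
  refine ⟨?_, hρ.nonneg _ _⟩
  have h1 := hρ.tri x0 x y
  have h2 := hρ.tri x0 y x
  rw [hρ.symm y x] at h2
  rw [abs_le]
  constructor <;> linarith

lemma dist_fun_UI {ρ : X → X → ℝ} (hρ : IsSemimetric ρ) (x0 : X) : UI (fun x => min (ρ x0 x) 1) := by
  refine ⟨?_, fun x => le_min (hρ.nonneg _ _) zero_le_one, fun x => min_le_right _ _⟩
  exact (hρ.meas.comp (measurable_const.prodMk measurable_id)).min measurable_const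

/-- Some distance function is displaced. -/
lemma exists_fun [Countable G] [MeasurableConstSMul G X] {μ : Measure X} [IsProbabilityMeasure μ]
    [SMulInvariantMeasure G X μ] (hfree : EssFree G μ) {ρ : X → X → ℝ} (hρ : IsSemimetric ρ)
    (hadm : Admissible μ ρ) (hgen : Generating G μ ρ) {g0 : G} (hg0 : g0 ≠ 1) :
    ∃ (h : G) (x0 : X), 0 < Df μ (fun x => min (ρ x0 x) 1) (h * g0) h := by
  obtain ⟨X', hX', hsep⟩ := hgen
  have hae : ∀ᵐ x ∂μ, ∃ h : G, 0 < ρ (h • x) (h • (g0 • x)) := by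
    have h1 : ∀ᵐ x ∂μ, x ∈ X' := hX'
    have h2 : ∀ᵐ x ∂μ, g0 • x ∈ X' := (measurePreserving_smul g0 μ).quasiMeasurePreserving.ae h1
    filter_upwards [hfree, h1, h2] with x hx hx1 hx2
    exact hsep x hx1 _ hx2 fun h => hg0 (hx g0 h.symm)
  have hex : ∃ h : G, ∃ n : ℕ, μ {x | 3 * (1 / ((n : ℝ) + 2)) < ρ (h • x) (h • (g0 • x))} ≠ 0 := by
    by_contra hcon
    push Not at hcon
    have h1 : ∀ᵐ x ∂μ, ∀ h : G, ∀ n : ℕ, ¬ 3 * (1 / ((n : ℝ) + 2)) < ρ (h • x) (h • (g0 • x)) := by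
      rw [ae_all_iff]
      intro h
      rw [ae_all_iff]
      intro n
      rw [ae_iff]
      simpa using hcon h n
    have h2 : ∀ᵐ x ∂μ, False := by
      filter_upwards [hae, h1] with x hx hx1
      obtain ⟨h, hh⟩ := hx
      obtain ⟨n, hn⟩ := exists_nat_gt (3 / ρ (h • x) (h • (g0 • x)))
      apply hx1 h n
      have hn2 : (0 : ℝ) < (n : ℝ) + 2 := by positivity
      rw [div_lt_iff₀ hh] at hn
      rw [mul_one_div, div_lt_iff₀ hn2]
      nlinarith
    rw [ae_iff] at h2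
    simp only [not_false_eq_true, Set.ofPred_true, measure_univ, one_ne_zero] at h2
  obtain ⟨h, n, hB⟩ := hex
  set r : ℝ := 1 / ((n : ℝ) + 2) with hr
  have hr0 : 0 < r := by positivity
  have hr1 : r ≤ 1 / 2 := by
    rw [hr]
    apply one_div_le_one_div_of_le (by norm_num)
    linarith [Nat.cast_nonneg (α := ℝ) n]
  set B : Set X := {x | 3 * r < ρ (h • x) (h • (g0 • x))} with hBdef
  have hBm : MeasurableSet B := by
    have h1 : Measurable fun x : X => ρ (h • x) (h • (g0 • x)) :=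
      hρ.meas.comp ((measurable_const_smul h).prodMk ((measurable_const_smul h).comp (measurable_const_smul g0)))
    exact measurableSet_lt measurable_const h1
  have hBpos : 0 < μ.real B := by
    rw [Measure.real]
    exact ENNReal.toReal_pos hB (measure_ne_top _ _)
  -- covering
  have hlt := hadm (min r (μ.real B)) (lt_min hr0 hBpos)
  unfold Hent at hlt
  rw [iInf_lt_iff] at hlt
  obtain ⟨k, hk⟩ := hlt
  rw [iInf_lt_iff] at hk
  obtain ⟨⟨_, X0, P, hX0, hP, hcov, hμ0, hdiam⟩, _⟩ := hk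
  -- the translate of `B`
  have hB' : μ ((fun x => h⁻¹ • x) ⁻¹' B) = μ B :=
    (measurePreserving_smul h⁻¹ μ).measure_preimage hBm.nullMeasurableSet
  have hi : ∃ i, μ ((fun x => h⁻¹ • x) ⁻¹' B ∩ P i) ≠ 0 := by
    by_contra hcon
    push Not at hcon
    have h1 : (fun x => h⁻¹ • x) ⁻¹' B ⊆ X0 ∪ ⋃ i, ((fun x => h⁻¹ • x) ⁻¹' B ∩ P i) := by
      intro x hx
      have : x ∈ X0 ∪ ⋃ i, P i := by rw [hcov]; trivial
      rcases this with h2 | h2
      · exact Or.inl h2
      · obtain ⟨i, hi⟩ := Set.mem_iUnion.1 h2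
        exact Or.inr (Set.mem_iUnion.2 ⟨i, hx, hi⟩)
    have h2 : μ ((fun x => h⁻¹ • x) ⁻¹' B) ≤ μ X0 := by
      refine (measure_mono h1).trans ((measure_union_le _ _).trans ?_)
      rw [measure_iUnion_null hcon, add_zero]
    rw [hB'] at h2
    have h3 : μ X0 < μ B := by
      refine hμ0.trans_le ?_
      refine (ENNReal.ofReal_le_ofReal (min_le_right _ _)).trans ?_
      rw [Measure.real, ENNReal.ofReal_toReal (measure_ne_top _ _)]
    exact absurd h3 (not_lt.2 h2)
  obtain ⟨i, hi⟩ := hi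
  have hne : (P i).Nonempty := by
    by_contra hcon
    rw [Set.not_nonempty_iff_eq_empty] at hcon
    apply hi
    rw [hcon, Set.inter_empty, measure_empty]
  obtain ⟨x0, hx0⟩ := hne
  refine ⟨h, x0, ?_⟩
  have hUI := dist_fun_UI hρ x0
  unfold Df
  rw [integral_pos_iff_support_of_nonneg (fun x => abs_nonneg _) (hUI.int (h * g0) h)]
  have hC : μ ((fun x => h • x) ⁻¹' ((fun x => h⁻¹ • x) ⁻¹' B ∩ P i)) ≠ 0 := by
    rw [(measurePreserving_smul h μ).measure_preimage
      (((measurable_const_smul h⁻¹) hBm).inter (hP i)).nullMeasurableSet]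
    exact hi
  refine lt_of_lt_of_le (pos_iff_ne_zero.2 hC) (measure_mono fun x hx => ?_)
  obtain ⟨hx1, hx2⟩ := hx
  have hx1' : x ∈ B := by
    have : h⁻¹ • (h • x) ∈ B := hx1
    rwa [inv_smul_smul] at this
  have hx3 : 3 * r < ρ (h • x) (h • (g0 • x)) := hx1'
  obtain ⟨r', hr', hd⟩ := hdiam i
  have h4 : ρ x0 (h • x) < r := (hd x0 hx0 _ hx2).trans_lt (hr'.trans_le (min_le_left _ _))
  have h5 := hρ.tri (h • x) x0 (h • (g0 • x))
  rw [hρ.symm (h • x) x0] at h5
  rw [Function.mem_support, abs_ne_zero, sub_ne_zero]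
  intro heq
  have h6 : min (ρ x0 ((h * g0) • x)) 1 = min (ρ x0 (h • x)) 1 := heq
  rw [mul_smul] at h6
  have h7 : min (ρ x0 (h • x)) 1 < r := lt_of_le_of_lt (min_le_left _ _) h4
  have h8 : r < min (ρ x0 (h • (g0 • x))) 1 := lt_min (by linarith) (by linarith)
  rw [h6] at h8
  linarith

end

lemma inv1_of_symmDiff {F : Finset G} {η : ℝ} {g : G} (hF : F.Nonempty)
    (h : ((symmDiff ((fun x => g * x) '' (F : Set G)) (F : Set G)).ncard : ℝ) / F.card ≤ η) :
    Inv1 F η g := by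
  have hFc : (0 : ℝ) < F.card := by exact_mod_cast hF.card_pos
  rw [div_le_iff₀ hFc] at h
  refine le_trans ?_ h
  have hfin : (symmDiff ((fun x => g * x) '' (F : Set G)) (F : Set G)).Finite :=
    ((F.finite_toSet.image _).symmDiff F.finite_toSet)
  have h1 : ((fun x => g * x) '' {x ∈ (F : Set G) | g * x ∉ F}) ⊆
      symmDiff ((fun x => g * x) '' (F : Set G)) (F : Set G) := by
    rintro _ ⟨x, hx, rfl⟩
    exact Or.inl ⟨⟨x, hx.1, rfl⟩, hx.2⟩
  have h2 := Set.ncard_le_ncard h1 hfin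
  rw [Set.ncard_image_of_injective _ (mul_right_injective g)] at h2
  exact_mod_cast h2

/-- **Theorem A.** -/
theorem gap_of_PP [Countable G] {g0 : G} (hg0 : g0 ≠ 1) (hP : PP G g0) {F : ℕ → Finset G}
    (hF : IsFolner F) : GapFor G F := by
  classical
  obtain ⟨e, he⟩ := exists_surjective_nat G
  have hm : ∀ m : ℕ, (0 : ℝ) < 1 / ((m : ℝ) + 1) := fun m => by positivity
  choose! ε hε S η hη hbad using fun (i m : ℕ) => hP (e i) _ (hm m)
  let Good : ℕ → ℕ → Prop := fun K n => ∀ i ≤ K, ∀ m ≤ K, ∀ k ≤ K, ∀ s ∈ S i m k, Inv1 (F n) (η i m k) s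
  have hev : ∀ K, ∀ᶠ n in atTop, Good K n := by
    intro K
    have h1 : ∀ i ≤ K, ∀ᶠ n in atTop, ∀ m ≤ K, ∀ k ≤ K, ∀ s ∈ S i m k, Inv1 (F n) (η i m k) s := by
      intro i _
      have h2 : ∀ m ≤ K, ∀ᶠ n in atTop, ∀ k ≤ K, ∀ s ∈ S i m k, Inv1 (F n) (η i m k) s := by
        intro m _
        have h3 : ∀ k ≤ K, ∀ᶠ n in atTop, ∀ s ∈ S i m k, Inv1 (F n) (η i m k) s := by
          intro k _
          rw [Filter.eventually_all_finset]
          intro s _
          have h4 := (hF.2 s).eventually (gt_mem_nhds (hη i m k))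
          filter_upwards [h4] with n hn
          exact inv1_of_symmDiff (hF.1 n) hn.le
        exact (Filter.eventually_all_finite (Set.finite_le_nat K)).2 h3
      exact (Filter.eventually_all_finite (Set.finite_le_nat K)).2 h2
    exact (Filter.eventually_all_finite (Set.finite_le_nat K)).2 h1
  let κ : ℕ → ℕ := fun n => Nat.findGreatest (fun K => Good K n) n
  have hκ : ∀ K, ∀ᶠ n in atTop, K ≤ κ n ∧ Good (κ n) n := by
    intro K
    filter_upwards [hev K, eventually_ge_atTop K] with n hn hKn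
    exact ⟨Nat.le_findGreatest hKn hn, Nat.findGreatest_spec (P := fun K => Good K n) hKn hn⟩
  refine ⟨fun n => Real.logb 2 (κ n + 1), fun n => ?_, fun C => ?_, ?_⟩
  · apply Real.logb_nonneg one_lt_two
    linarith [Nat.cast_nonneg (α := ℝ) (κ n)]
  · obtain ⟨K, hK⟩ := exists_nat_gt ((2 : ℝ) ^ C)
    obtain ⟨n, hn, _⟩ := (hκ K).exists
    refine ⟨n, ?_⟩
    rw [Real.lt_logb_iff_rpow_lt one_lt_two (by positivity)]
    have : (K : ℝ) ≤ κ n := by exact_mod_cast hn
    linarith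
  · intro X _ _ _ _ μ _ _ hfree ρ hρ _ hadm hgen
    obtain ⟨h, x0, hpos⟩ := exists_fun hfree hρ hadm hgen hg0
    obtain ⟨i, rfl⟩ := he h
    obtain ⟨m, hmlt⟩ := exists_nat_one_div_lt hpos
    intro _ _
    refine ⟨ε i m, hε i m, ?_⟩
    have hle : ∀ᶠ n in atTop, ENNReal.ofReal (Real.logb 2 (κ n + 1)) ≤ Phi μ F ρ n (ε i m) := by
      filter_upwards [hκ (max i m)] with n hn
      obtain ⟨hn1, hn2⟩ := hn
      unfold Phi Hent
      refine le_iInf fun k => le_iInf fun hk => ?_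
      apply ENNReal.ofReal_le_ofReal
      have hcov := hk.2
      by_cases hkκ : k ≤ κ n
      · exfalso
        have h1 : Covers μ (avgM (F n) fun x y => |min (ρ x0 x) 1 - min (ρ x0 y) 1|) (ε i m) k :=
          hcov.mono (avgM_mono (fun x y => dist_fun_le hρ x0 x y) (F n))
        exact hbad i m k (F n) (hF.1 n)
          (hn2 i ((le_max_left _ _).trans hn1) m ((le_max_right _ _).trans hn1) k hkκ) X μ _
          (dist_fun_UI hρ x0) hmlt.le h1
      · have h2 : κ n + 1 ≤ k := by omega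
        apply Real.logb_le_logb_of_le one_lt_two (by positivity)
        exact_mod_cast h2
    refine lt_of_le_of_lt (b := 1) ?_ ENNReal.one_lt_top
    refine limsup_le_of_le (h := ?_)
    filter_upwards [hle] with n hn
    refine ENNReal.div_le_of_le_mul ?_
    rw [one_mul]
    exact hn

end Pool.Agent.R291.Scale
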