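import Pool.Agent.R291.ScaleGap

/-!
If functions displaced by `g0` do not have many patterns, then there is a limit kernel.
-/

open MeasureTheory Filter
open scoped ENNReal RealInnerProductSpace

set_option linter.unusedSectionVars false

namespace Pool.Agent.R291.Scale

variable {G : Type} [Group G]

/-- The squared distance attached to a kernel. -/
def dK (K : G → G → ℝ) (g g' : G) : ℝ := K g g + K g' g' - 2 * K g g'

/-- Right-invariant Gram kernels with values in the unit interval (the properties used). -/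
structure KProp (K : G → G → ℝ) : Prop where
  nonneg : ∀ g s, 0 ≤ K g s
  le_one : ∀ g s, K g s ≤ 1
  symm : ∀ g s, K g s = K s g
  right : ∀ g s k, K (g * k) (s * k) = K g s
  csk : ∀ (m : ℕ) (p q : Fin m → G) (s : G) (R : ℝ), 0 ≤ R →
    (∀ a, ∑ b, |K (p a) (p b) - K (p a) (q b) - K (q a) (p b) + K (q a) (q b)| ≤ R) →
    ∑ a, (K (p a) s - K (q a) s) ^ 2 ≤ R
  cs2 : ∀ g g' s s', (K g s - K g' s - K g s' + K g' s') ^ 2 ≤ dK K g g' * dK K s s'

section gram

variable {H : Type} [NormedAddCommGroup H] [InnerProductSpace ℝ H]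

/-- A Bessel type inequality. -/
lemma bessel {m : ℕ} (w : Fin m → H) (x : H) {R : ℝ} (hR : 0 ≤ R) (h : ∀ a, ∑ b, |⟪w a, w b⟫| ≤ R) :
    ∑ a, ⟪w a, x⟫ ^ 2 ≤ R * ‖x‖ ^ 2 := by
  set S := ∑ a, ⟪w a, x⟫ ^ 2 with hS
  have hS0 : 0 ≤ S := Finset.sum_nonneg fun a _ => sq_nonneg _
  set y : H := ∑ a, ⟪w a, x⟫ • w a with hy
  have h1 : ⟪y, x⟫ = S := by
    rw [hy, sum_inner]
    refine Finset.sum_congr rfl fun a _ => ?_
    rw [real_inner_smul_left, sq]
  have h2 : ‖y‖ ^ 2 ≤ R * S := by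
    rw [← real_inner_self_eq_norm_sq, hy, sum_inner]
    have e1 : ∀ a, ⟪⟪w a, x⟫ • w a, ∑ b, ⟪w b, x⟫ • w b⟫ = ∑ b, ⟪w a, x⟫ * ⟪w b, x⟫ * ⟪w a, w b⟫ := by
      intro a
      rw [inner_sum]
      refine Finset.sum_congr rfl fun b _ => ?_
      rw [real_inner_smul_left, real_inner_smul_right]; ring
    rw [Finset.sum_congr rfl fun a _ => e1 a]
    have e2 : ∀ a b, ⟪w a, x⟫ * ⟪w b, x⟫ * ⟪w a, w b⟫ ≤
        (⟪w a, x⟫ ^ 2 * |⟪w a, w b⟫|) / 2 + (⟪w b, x⟫ ^ 2 * |⟪w a, w b⟫|) / 2 := by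
      intro a b
      have f1 : |⟪w a, x⟫ * ⟪w b, x⟫ * ⟪w a, w b⟫| = |⟪w a, x⟫ * ⟪w b, x⟫| * |⟪w a, w b⟫| := abs_mul _ _
      have f2 : |⟪w a, x⟫ * ⟪w b, x⟫| ≤ (⟪w a, x⟫ ^ 2 + ⟪w b, x⟫ ^ 2) / 2 := by
        rw [abs_le]
        constructor <;> nlinarith [sq_nonneg (⟪w a, x⟫ + ⟪w b, x⟫), sq_nonneg (⟪w a, x⟫ - ⟪w b, x⟫)]
      have f3 := le_abs_self (⟪w a, x⟫ * ⟪w b, x⟫ * ⟪w a, w b⟫)
      have f4 := mul_le_mul_of_nonneg_right f2 (abs_nonneg ⟪w a, w b⟫)
      rw [f1] at f3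
      linarith
    have e3 : ∑ a, ∑ b, ⟪w a, x⟫ * ⟪w b, x⟫ * ⟪w a, w b⟫ ≤
        ∑ a, ∑ b, ((⟪w a, x⟫ ^ 2 * |⟪w a, w b⟫|) / 2 + (⟪w b, x⟫ ^ 2 * |⟪w a, w b⟫|) / 2) :=
      Finset.sum_le_sum fun a _ => Finset.sum_le_sum fun b _ => e2 a b
    refine e3.trans ?_
    simp only [Finset.sum_add_distrib]
    have e4 : ∑ a, ∑ b, (⟪w a, x⟫ ^ 2 * |⟪w a, w b⟫|) / 2 ≤ R * S / 2 := by
      have : ∀ a, ∑ b, (⟪w a, x⟫ ^ 2 * |⟪w a, w b⟫|) / 2 ≤ ⟪w a, x⟫ ^ 2 * R / 2 := by
        intro a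
        rw [← Finset.sum_div, ← Finset.mul_sum]
        have := mul_le_mul_of_nonneg_left (h a) (sq_nonneg ⟪w a, x⟫)
        linarith
      refine (Finset.sum_le_sum fun a _ => this a).trans ?_
      rw [← Finset.sum_div, ← Finset.sum_mul, mul_comm]
    have e5 : ∑ a, ∑ b, (⟪w b, x⟫ ^ 2 * |⟪w a, w b⟫|) / 2 ≤ R * S / 2 := by
      rw [Finset.sum_comm]
      have e6 : ∀ a b, (⟪w b, x⟫ ^ 2 * |⟪w a, w b⟫|) / 2 = (⟪w b, x⟫ ^ 2 * |⟪w b, w a⟫|) / 2 := by
        intro a b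
        rw [real_inner_comm (w a) (w b)]
      have e7 : ∑ b, ∑ a, (⟪w b, x⟫ ^ 2 * |⟪w a, w b⟫|) / 2 = ∑ b, ∑ a, (⟪w b, x⟫ ^ 2 * |⟪w b, w a⟫|) / 2 :=
        Finset.sum_congr rfl fun b _ => Finset.sum_congr rfl fun a _ => e6 a b
      rw [e7]
      exact e4
    linarith
  have h3 : S ^ 2 ≤ R * S * ‖x‖ ^ 2 := by
    have h4 := real_inner_mul_inner_self_le y x
    rw [h1, real_inner_self_eq_norm_sq, real_inner_self_eq_norm_sq] at h4
    have h5 := mul_le_mul_of_nonneg_right h2 (sq_nonneg ‖x‖)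
    nlinarith
  rcases hS0.eq_or_lt with h0 | h0
  · rw [← h0]; positivity
  · have h6 : S * S ≤ S * (R * ‖x‖ ^ 2) := by nlinarith
    exact le_of_mul_le_mul_left h6 h0

lemma dK_gram (ξ : G → H) (g g' : G) : dK (fun g s => ⟪ξ g, ξ s⟫) g g' = ‖ξ g - ξ g'‖ ^ 2 := by
  show ⟪ξ g, ξ g⟫ + ⟪ξ g', ξ g'⟫ - 2 * ⟪ξ g, ξ g'⟫ = _
  rw [norm_sub_sq_real, real_inner_self_eq_norm_sq, real_inner_self_eq_norm_sq]; ring

lemma gram_KProp (ξ : G → H) (h0 : ∀ g s, 0 ≤ ⟪ξ g, ξ s⟫) (h1 : ∀ g, ‖ξ g‖ ≤ 1)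
    (hr : ∀ g s k, ⟪ξ (g * k), ξ (s * k)⟫ = ⟪ξ g, ξ s⟫) : KProp (fun g s => ⟪ξ g, ξ s⟫) := by
  refine ⟨h0, fun g s => ?_, fun g s => real_inner_comm _ _, hr, ?_, ?_⟩
  · have := real_inner_le_norm (ξ g) (ξ s)
    have h2 := h1 g
    have h3 := h1 s
    have h4 := norm_nonneg (ξ g)
    have h5 := norm_nonneg (ξ s)
    nlinarith
  · intro m p q s R hR hab
    have h2 := bessel (fun a => ξ (p a) - ξ (q a)) (ξ s) hR (by
      intro a
      refine le_trans (le_of_eq ?_) (hab a)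
      refine Finset.sum_congr rfl fun b _ => ?_
      rw [inner_sub_left, inner_sub_right, inner_sub_right]
      congr 1; ring)
    have h3 : R * ‖ξ s‖ ^ 2 ≤ R := by
      have h4 : ‖ξ s‖ ^ 2 ≤ 1 := pow_le_one₀ (norm_nonneg _) (h1 s)
      nlinarith
    refine le_trans (le_of_eq ?_) (h2.trans h3)
    refine Finset.sum_congr rfl fun a _ => ?_
    rw [inner_sub_left]
  · intro g g' s s'
    rw [dK_gram, dK_gram]
    have h2 := real_inner_mul_inner_self_le (ξ g - ξ g') (ξ s - ξ s')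
    rw [real_inner_self_eq_norm_sq, real_inner_self_eq_norm_sq] at h2
    refine le_trans (le_of_eq ?_) h2
    rw [inner_sub_left, inner_sub_right, inner_sub_right]
    ring

end gram

/-- Kernels pass to limits. -/
lemma KProp.limit {Kn : ℕ → G → G → ℝ} (hK : ∀ n, KProp (Kn n)) {l : Filter ℕ} [l.NeBot]
    {K : G → G → ℝ} (hlim : ∀ g s, Tendsto (fun n => Kn n g s) l (nhds (K g s))) : KProp K := by
  have hd : ∀ g g', Tendsto (fun n => dK (Kn n) g g') l (nhds (dK K g g')) := fun g g' =>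
    ((hlim g g).add (hlim g' g')).sub ((hlim g g').const_mul 2)
  refine ⟨fun g s => ge_of_tendsto' (hlim g s) fun n => (hK n).nonneg g s,
    fun g s => le_of_tendsto' (hlim g s) fun n => (hK n).le_one g s,
    fun g s => ?_, fun g s k => ?_, ?_, ?_⟩
  · refine tendsto_nhds_unique (hlim g s) ((hlim s g).congr fun n => ?_)
    exact (hK n).symm s g
  · refine tendsto_nhds_unique (hlim (g * k) (s * k)) ((hlim g s).congr fun n => ?_)
    exact ((hK n).right g s k).symm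
  · intro m p q s R hR hab
    apply le_of_forall_pos_le_add
    intro δ hδ
    have h1 : ∀ᶠ n in l, ∀ a, ∑ b, |Kn n (p a) (p b) - Kn n (p a) (q b) - Kn n (q a) (p b) + Kn n (q a) (q b)| ≤ R + δ := by
      rw [eventually_all]
      intro a
      have h2 : Tendsto (fun n => ∑ b, |Kn n (p a) (p b) - Kn n (p a) (q b) - Kn n (q a) (p b) + Kn n (q a) (q b)|) l
          (nhds (∑ b, |K (p a) (p b) - K (p a) (q b) - K (q a) (p b) + K (q a) (q b)|)) :=
        tendsto_finsetSum _ fun b _ =>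
          ((((hlim _ _).sub (hlim _ _)).sub (hlim _ _)).add (hlim _ _)).abs
      have h3 := h2.eventually (gt_mem_nhds (lt_of_le_of_lt (hab a) (lt_add_of_pos_right R hδ)))
      filter_upwards [h3] with n hn
      exact hn.le
    have h4 : Tendsto (fun n => ∑ a, (Kn n (p a) s - Kn n (q a) s) ^ 2) l
        (nhds (∑ a, (K (p a) s - K (q a) s) ^ 2)) :=
      tendsto_finsetSum _ fun a _ => ((hlim _ _).sub (hlim _ _)).pow 2
    refine le_of_tendsto h4 ?_
    filter_upwards [h1] with n hn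
    exact (hK n).csk m p q s (R + δ) (by linarith) hn
  · intro g g' s s'
    have h4 : Tendsto (fun n => (Kn n g s - Kn n g' s - Kn n g s' + Kn n g' s') ^ 2) l
        (nhds ((K g s - K g' s - K g s' + K g' s') ^ 2)) :=
      ((((hlim _ _).sub (hlim _ _)).sub (hlim _ _)).add (hlim _ _)).pow 2
    exact le_of_tendsto_of_tendsto' h4 ((hd g g').mul (hd s s')) fun n => (hK n).cs2 g g' s s'

section fromAction

variable {X : Type} [MeasurableSpace X] [MulAction G X] [MeasurableConstSMul G X]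
  {μ : Measure X} [IsProbabilityMeasure μ] [SMulInvariantMeasure G X μ]

lemma UI.memLp {f : X → ℝ} (hf : UI f) (g : G) : MemLp (fun x => f (g • x)) 2 μ :=
  MemLp.of_bound (hf.meas_smul g).aestronglyMeasurable 1 (Filter.Eventually.of_forall fun x => by
    rw [Real.norm_eq_abs, abs_of_nonneg (hf.nonneg _)]
    exact hf.le_one _)

/-- The kernel of a function on a system. -/
noncomputable def KX (μ : Measure X) (f : X → ℝ) (h : G) (g s : G) : ℝ :=
  ∫ x, f ((h * g) • x) * f ((h * s) • x) ∂μ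

lemma KX_inner {f : X → ℝ} (hf : UI f) (h g s : G) :
    KX μ f h g s = ⟪(hf.memLp (μ := μ) (h * g)).toLp, (hf.memLp (μ := μ) (h * s)).toLp⟫ := by
  rw [L2.inner_def]
  unfold KX
  apply integral_congr_ae
  filter_upwards [(hf.memLp (μ := μ) (h * g)).coeFn_toLp, (hf.memLp (μ := μ) (h * s)).coeFn_toLp] with x h1 h2
  rw [h1, h2]
  simp only [RCLike.inner_apply, conj_trivial]
  ring

lemma KX_KProp {f : X → ℝ} (hf : UI f) (h : G) : KProp (KX μ f h) := by
  have h1 : KX μ f h = fun g s => ⟪(hf.memLp (μ := μ) (h * g)).toLp, (hf.memLp (μ := μ) (h * s)).toLp⟫ := by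
    funext g s
    exact KX_inner hf h g s
  rw [h1]
  apply gram_KProp (fun g => (hf.memLp (μ := μ) (h * g)).toLp)
  · intro g s
    rw [← KX_inner hf]
    exact integral_nonneg fun x => mul_nonneg (hf.nonneg _) (hf.nonneg _)
  · intro g
    have h2 : ‖(hf.memLp (μ := μ) (h * g)).toLp‖ ^ 2 ≤ 1 := by
      rw [← real_inner_self_eq_norm_sq, ← KX_inner hf]
      unfold KX
      have h3 : ∀ x, f ((h * g) • x) * f ((h * g) • x) ≤ 1 := fun x => by
        have := hf.le_one ((h * g) • x)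
        have := hf.nonneg ((h * g) • x)
        nlinarith
      have h4 : Integrable (fun x => f ((h * g) • x) * f ((h * g) • x)) μ := by
        refine integrable_of_bdd (C := 1) ((hf.meas_smul _).mul (hf.meas_smul _)) fun x => ?_
        rw [abs_of_nonneg (mul_nonneg (hf.nonneg _) (hf.nonneg _))]
        exact h3 x
      have := integral_mono h4 (integrable_const (1 : ℝ)) h3
      simpa using this
    nlinarith [norm_nonneg (hf.memLp (μ := μ) (h * g)).toLp]
  · intro g s k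
    rw [← KX_inner hf, ← KX_inner hf]
    unfold KX
    have h2 := (measurePreserving_smul k μ).integral_comp
      (measurableEmbedding_const_smul k) (fun x => f ((h * g) • x) * f ((h * s) • x))
    rw [← h2]
    congr 1
    ext x
    rw [← mul_assoc, ← mul_assoc, mul_smul, mul_smul (h * s)]

lemma dK_KX {f : X → ℝ} (hf : UI f) (h g s : G) :
    dK (KX μ f h) g s = ∫ x, (f ((h * g) • x) - f ((h * s) • x)) ^ 2 ∂μ := by
  have hi : ∀ g s : G, Integrable (fun x => f ((h * g) • x) * f ((h * s) • x)) μ := fun g s => by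
    refine integrable_of_bdd (C := 1) ((hf.meas_smul _).mul (hf.meas_smul _)) fun x => ?_
    rw [abs_of_nonneg (mul_nonneg (hf.nonneg _) (hf.nonneg _))]
    have h1 := hf.le_one ((h * g) • x)
    have h2 := hf.nonneg ((h * g) • x)
    have h3 := hf.le_one ((h * s) • x)
    have h4 := hf.nonneg ((h * s) • x)
    nlinarith
  unfold dK KX
  have h1 : Integrable (fun x => f ((h * g) • x) * f ((h * g) • x) + f ((h * s) • x) * f ((h * s) • x)) μ :=
    (hi g g).add (hi s s)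
  rw [← integral_add (hi g g) (hi s s), ← integral_const_mul, ← integral_sub h1 ((hi g s).const_mul 2)]
  congr 1
  ext x
  ring

lemma dK_le_Df {f : X → ℝ} (hf : UI f) (h g s : G) : dK (KX μ f h) g s ≤ Df μ f (h * g) (h * s) := by
  rw [dK_KX hf]
  unfold Df
  have h0 : ∀ x, (f ((h * g) • x) - f ((h * s) • x)) ^ 2 ≤ |f ((h * g) • x) - f ((h * s) • x)| := by
    intro x
    have h1 := abs_sub_le_one (hf.nonneg ((h * g) • x)) (hf.le_one ((h * g) • x))
      (hf.nonneg ((h * s) • x)) (hf.le_one ((h * s) • x))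
    rw [← sq_abs]
    nlinarith [abs_nonneg (f ((h * g) • x) - f ((h * s) • x))]
  refine integral_mono ?_ (hf.int _ _) h0
  refine integrable_of_bdd (C := 1) (((hf.meas_smul _).sub (hf.meas_smul _)).pow_const 2) fun x => ?_
  rw [abs_of_nonneg (sq_nonneg _)]
  exact (h0 x).trans (abs_sub_le_one (hf.nonneg _) (hf.le_one _) (hf.nonneg _) (hf.le_one _))

lemma Df_le_dK {f : X → ℝ} (hf : UI f) (h g s : G) {c : ℝ} (hc : 0 < c) (hD : c ≤ Df μ f (h * g) (h * s)) :
    c ^ 2 ≤ dK (KX μ f h) g s := by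
  rw [dK_KX hf]
  have hi : Integrable (fun x => (f ((h * g) • x) - f ((h * s) • x)) ^ 2) μ := by
    refine integrable_of_bdd (C := 1) (((hf.meas_smul _).sub (hf.meas_smul _)).pow_const 2) fun x => ?_
    rw [abs_of_nonneg (sq_nonneg _), ← sq_abs]
    exact pow_le_one₀ (abs_nonneg _) (abs_sub_le_one (hf.nonneg _) (hf.le_one _) (hf.nonneg _) (hf.le_one _))
  have h1 : ∀ x, |f ((h * g) • x) - f ((h * s) • x)| ≤
      (1 / (2 * c)) * (f ((h * g) • x) - f ((h * s) • x)) ^ 2 + c / 2 := by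
    intro x
    have h2 : 2 * c * |f ((h * g) • x) - f ((h * s) • x)| ≤ (f ((h * g) • x) - f ((h * s) • x)) ^ 2 + c ^ 2 := by
      rw [← sq_abs (f ((h * g) • x) - f ((h * s) • x))]
      nlinarith [sq_nonneg (|f ((h * g) • x) - f ((h * s) • x)| - c)]
    have h3 : |f ((h * g) • x) - f ((h * s) • x)| ≤ ((f ((h * g) • x) - f ((h * s) • x)) ^ 2 + c ^ 2) / (2 * c) := by
      rw [le_div_iff₀ (by positivity)]; linarith
    refine h3.trans (le_of_eq ?_)
    field_simp
  have h2 := integral_mono (hf.int (μ := μ) (h * g) (h * s)) ((hi.const_mul (1 / (2 * c))).add (integrable_const (c / 2))) h1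
  simp only [Pi.add_apply] at h2
  rw [integral_add (hi.const_mul _) (integrable_const _), integral_const_mul] at h2
  simp only [integral_const, smul_eq_mul, probReal_univ, one_mul] at h2
  unfold Df at hD
  have h3 : c / 2 ≤ 1 / (2 * c) * ∫ x, (f ((h * g) • x) - f ((h * s) • x)) ^ 2 ∂μ := by linarith
  rw [one_div, inv_mul_eq_div, le_div_iff₀ (by positivity)] at h3
  nlinarith

end fromAction

end Pool.Agent.R291.Scale
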