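import Pool.Agent.R291.ScaleComm

/-!
The restricted wreath product of a group with the integers.
-/

open MeasureTheory Filter
open scoped ENNReal

namespace Pool.Agent.R291.Scale

/-- The restricted wreath product `A ≀ ℤ`: pairs of a finitely supported function `ℤ → A` and an
integer. -/
@[ext] structure Lamp (A : Type) [Group A] where
  /-- the configuration -/
  f : ℤ → A
  /-- the position -/
  n : ℤ
  fin : (Function.mulSupport f).Finite

namespace Lamp

variable {A : Type} [Group A]

lemma shift_fin {f : ℤ → A} (hf : (Function.mulSupport f).Finite) (n : ℤ) :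
    (Function.mulSupport fun x => f (x - n)).Finite :=
  hf.preimage (sub_left_injective.injOn (s := (fun x => x - n) ⁻¹' Function.mulSupport f))

/-- `(f, n) (g, m) = (f · (g shifted by n), n + m)`. -/
instance : Mul (Lamp A) :=
  ⟨fun a b => ⟨fun x => a.f x * b.f (x - a.n), a.n + b.n,
    (a.fin.union (shift_fin b.fin a.n)).subset (Function.mulSupport_mul _ _)⟩⟩

instance : One (Lamp A) := ⟨⟨fun _ => 1, 0, by simp⟩⟩

instance : Inv (Lamp A) :=
  ⟨fun a => ⟨fun x => (a.f (x - -a.n))⁻¹, -a.n, by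
    have : (Function.mulSupport fun x => (a.f (x - -a.n))⁻¹) = Function.mulSupport fun x => a.f (x - -a.n) := by
      ext x; simp
    rw [this]
    exact shift_fin a.fin _⟩⟩

@[simp] lemma mul_f (a b : Lamp A) (x : ℤ) : (a * b).f x = a.f x * b.f (x - a.n) := rfl
@[simp] lemma mul_n (a b : Lamp A) : (a * b).n = a.n + b.n := rfl
@[simp] lemma one_f (x : ℤ) : (1 : Lamp A).f x = 1 := rfl
@[simp] lemma one_n : (1 : Lamp A).n = 0 := rfl
@[simp] lemma inv_f (a : Lamp A) (x : ℤ) : (a⁻¹).f x = (a.f (x - -a.n))⁻¹ := rfl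
@[simp] lemma inv_n (a : Lamp A) : (a⁻¹).n = -a.n := rfl

instance : Group (Lamp A) where
  mul_assoc a b c := by
    ext x
    · simp only [mul_f, mul_n, mul_assoc, sub_sub]
    · simp only [mul_n, add_assoc]
  one_mul a := by
    ext x
    · simp
    · simp
  mul_one a := by
    ext x
    · simp
    · simp
  inv_mul_cancel a := by
    ext x
    · simp
    · simp

instance [Countable A] : Countable (Lamp A) := by
  classical
  let φ : Lamp A → (ℤ →₀ Additive A) × ℤ := fun a =>
    (Finsupp.ofSupportFinite (fun x => Additive.ofMul (a.f x)) a.fin, a.n)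
  have : Countable (Additive A) := inferInstanceAs (Countable A)
  refine Function.Injective.countable (f := φ) ?_
  intro a b h
  simp only [φ, Prod.mk.injEq] at h
  ext x
  · have h2 : Additive.ofMul (a.f x) = Additive.ofMul (b.f x) := DFunLike.congr_fun h.1 x
    exact h2
  · exact h.2

/-- The lamp at the origin. -/
def lamp [DecidableEq ℤ] (a : A) : Lamp A :=
  ⟨fun x => if x = 0 then a else 1, 0, (Set.finite_singleton (0 : ℤ)).subset fun x hx => by
    by_contra h
    apply hx
    simp only [Set.mem_singleton_iff] at h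
    simp [h]⟩

/-- The translation. -/
def tr : Lamp A := ⟨fun _ => 1, 1, by simp⟩

lemma tr_zpow (p : ℤ) : (tr : Lamp A) ^ p = ⟨fun _ => 1, p, by simp⟩ := by
  induction p using Int.induction_on with
  | zero => ext x <;> simp
  | succ n ih =>
    rw [zpow_add, ih, zpow_one]
    ext x <;> simp [tr]
  | pred n ih =>
    rw [zpow_sub, ih, zpow_one]
    ext x <;> simp [tr]; ring

lemma conj_lamp (a : A) (p : ℤ) (x : ℤ) : ((tr : Lamp A) ^ (-p) * lamp a * tr ^ p).f x = if x = -p then a else 1 := by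
  rw [tr_zpow, tr_zpow]
  simp only [mul_f, lamp, one_mul, mul_one]
  congr 1
  apply propext
  constructor <;> intro h <;> linarith

lemma conj_n (a : A) (p : ℤ) : ((tr : Lamp A) ^ (-p) * lamp a * tr ^ p).n = 0 := by
  rw [tr_zpow, tr_zpow]
  simp [lamp]

lemma lamp_comm (a b : A) (p : ℤ) (hp : p ≠ 0) :
    ((tr : Lamp A) ^ (-p) * lamp a * tr ^ p) * lamp b = lamp b * (tr ^ (-p) * lamp a * tr ^ p) := by
  have key : ∀ u : Lamp A, u.n = 0 → (∀ x, u.f x = if x = -p then a else 1) → u * lamp b = lamp b * u := by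
    intro u h0 hu
    have hb : (lamp b : Lamp A).n = 0 := rfl
    ext x
    · rw [mul_f, mul_f, h0, hb, sub_zero, hu]
      show (if x = -p then a else 1) * (if x = 0 then b else 1) = (if x = 0 then b else 1) * (if x = -p then a else 1)
      by_cases h1 : x = 0
      · have h2 : x ≠ -p := by
          intro h; apply hp; linarith
        rw [if_neg h2, one_mul, mul_one]
      · rw [if_neg h1, one_mul, mul_one]
    · rw [mul_n, mul_n, h0, hb]
  exact key _ (conj_n a p) (conj_lamp a p)

lemma lamp_ne (a b : A) (h : a * b ≠ b * a) : (lamp a * lamp b * (lamp b * lamp a)⁻¹ : Lamp A) ≠ 1 := by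
  intro h1
  rw [mul_inv_eq_one] at h1
  apply h
  have := congrArg (fun u : Lamp A => u.f 0) h1
  simpa [lamp] using this

section folner

open Classical

/-- The window of radius `2 n`. -/
noncomputable abbrev W (n : ℕ) : Finset ℤ := Finset.Icc (-(2 * n : ℤ)) (2 * n)

/-- Parametrization of the Folner sets. -/
noncomputable def par (n : ℕ) (q : ℤ × (W n → A)) : Lamp A :=
  ⟨fun x => if h : x - q.1 ∈ W n then q.2 ⟨x - q.1, h⟩ else 1, q.1, by
    have h1 : (Set.Finite ((fun x : ℤ => x - q.1) ⁻¹' (W n : Set ℤ))) :=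
      (W n).finite_toSet.preimage sub_left_injective.injOn
    refine h1.subset fun x hx => ?_
    by_contra h
    apply hx
    have h' : x - q.1 ∉ W n := h
    show (if h : x - q.1 ∈ W n then q.2 ⟨x - q.1, h⟩ else 1) = 1
    rw [dif_neg h']⟩

lemma par_inj (n : ℕ) : Function.Injective (par (A := A) n) := by
  rintro ⟨m, g⟩ ⟨m', g'⟩ h
  have h1 : m = m' := congrArg Lamp.n h
  subst h1
  have h2 : g = g' := by
    funext y
    have h3 := congrArg (fun u : Lamp A => u.f (y.1 + m)) h
    simp only [par, add_sub_cancel_right] at h3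
    rw [dif_pos y.2, dif_pos y.2] at h3
    exact h3
  rw [h2]

variable [Fintype A]

/-- The Folner sets: position in `[-n, n]`, configuration supported within distance `2 n` of the
position. -/
noncomputable def Fol (n : ℕ) : Finset (Lamp A) :=
  ((Finset.Icc (-(n : ℤ)) n) ×ˢ (Finset.univ : Finset (W n → A))).image (par n)

lemma mem_Fol (n : ℕ) (y : Lamp A) : y ∈ Fol n ↔ (-(n : ℤ) ≤ y.n ∧ y.n ≤ n) ∧
    ∀ x, x - y.n ∉ W n → y.f x = 1 := by
  unfold Fol
  rw [Finset.mem_image]
  constructor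
  · rintro ⟨⟨m, g⟩, hm, rfl⟩
    rw [Finset.mem_product, Finset.mem_Icc] at hm
    refine ⟨hm.1, fun x hx => ?_⟩
    have hx' : x - m ∉ W n := hx
    show (if h : x - m ∈ W n then g ⟨x - m, h⟩ else 1) = 1
    rw [dif_neg hx']
  · rintro ⟨h1, h2⟩
    refine ⟨(y.n, fun z => y.f (z.1 + y.n)), ?_, ?_⟩
    · rw [Finset.mem_product, Finset.mem_Icc]
      exact ⟨h1, Finset.mem_univ _⟩
    · ext x
      · show (if h : x - y.n ∈ W n then y.f (x - y.n + y.n) else 1) = y.f x
        split_ifs with h
        · rw [sub_add_cancel]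
        · exact (h2 x h).symm
      · rfl

lemma card_Fol (n : ℕ) : (Fol (A := A) n).card = (2 * n + 1) * Fintype.card (W n → A) := by
  unfold Fol
  rw [Finset.card_image_of_injective _ (par_inj n), Finset.card_product, Finset.card_univ, Int.card_Icc]
  congr 1
  omega

lemma exit_bound (s : Lamp A) : ∀ᶠ n : ℕ in atTop,
    ({y ∈ ((Fol n : Finset (Lamp A)) : Set (Lamp A)) | s * y ∉ (Fol n : Finset (Lamp A))}).ncard ≤ s.n.natAbs * Fintype.card (W n → A) := by
  -- the radius of the support
  obtain ⟨R, hR⟩ : ∃ R : ℕ, ∀ x, s.f x ≠ 1 → x.natAbs ≤ R := by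
    obtain ⟨R, hR⟩ := (s.fin.image Int.natAbs).bddAbove
    exact ⟨R, fun x hx => hR ⟨x, hx, rfl⟩⟩
  filter_upwards [eventually_ge_atTop (R + s.n.natAbs)] with n hn
  let M : Finset ℤ := (Finset.Icc (-(n : ℤ)) n).filter fun m => ¬ (-(n : ℤ) ≤ s.n + m ∧ s.n + m ≤ n)
  have hM : M.card ≤ s.n.natAbs := by
    have hsub : M ⊆ if 0 ≤ s.n then Finset.Ioc ((n : ℤ) - s.n) n else Finset.Ico (-(n : ℤ)) (-(n : ℤ) - s.n) := by
      intro m hm
      rw [Finset.mem_filter, Finset.mem_Icc] at hm
      split_ifs with h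
      · rw [Finset.mem_Ioc]; omega
      · rw [Finset.mem_Ico]; omega
    refine (Finset.card_le_card hsub).trans ?_
    split_ifs with h
    · rw [Int.card_Ioc]; omega
    · rw [Int.card_Ico]; omega
  have hsub : {y ∈ ((Fol n : Finset (Lamp A)) : Set (Lamp A)) | s * y ∉ (Fol n : Finset (Lamp A))} ⊆
      ((M ×ˢ (Finset.univ : Finset (W n → A))).image (par n) : Finset (Lamp A)) := by
    rintro y ⟨hy, hsy⟩
    rw [Finset.mem_coe] at hy
    obtain ⟨⟨m, g⟩, hm, rfl⟩ := Finset.mem_image.1 hy
    rw [Finset.mem_product] at hm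
    rw [Finset.mem_coe, Finset.mem_image]
    refine ⟨(m, g), ?_, rfl⟩
    rw [Finset.mem_product]
    refine ⟨?_, Finset.mem_univ _⟩
    rw [Finset.mem_filter]
    refine ⟨hm.1, fun hcon => hsy ?_⟩
    rw [mem_Fol]
    refine ⟨hcon, fun x hx => ?_⟩
    have hx' : x - (s.n + m) ∉ W n := hx
    rw [mul_f]
    have hm' := Finset.mem_Icc.1 hm.1
    have e1 : s.f x = 1 := by
      by_contra hne
      have := hR x hne
      apply hx'
      rw [Finset.mem_Icc]
      have h1 : m = (m, g).1 := rfl
      rw [← h1] at hm'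
      omega
    have e2 : (par n (m, g) : Lamp A).f (x - s.n) = 1 := by
      have h3 : x - s.n - m ∉ W n := by
        rw [sub_sub]; exact hx'
      show (if h : x - s.n - m ∈ W n then g ⟨x - s.n - m, h⟩ else 1) = 1
      rw [dif_neg h3]
    rw [e1, e2, one_mul]
  refine (Set.ncard_le_ncard hsub (Finset.finite_toSet _)).trans ?_
  rw [Set.ncard_coe_finset, Finset.card_image_of_injective _ (par_inj n), Finset.card_product, Finset.card_univ]
  exact Nat.mul_le_mul_right _ hM

theorem folner : IsFolner (Fol (A := A)) := by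
  have hcardpos : ∀ n, 0 < (Fol (A := A) n).card := by
    intro n
    rw [card_Fol]
    have : 0 < Fintype.card (W n → A) := Fintype.card_pos
    positivity
  refine ⟨fun n => Finset.card_pos.1 (hcardpos n), fun s => ?_⟩
  have hbound : ∀ᶠ n : ℕ in atTop,
      ((symmDiff ((fun x => s * x) '' ((Fol n : Finset (Lamp A)) : Set (Lamp A))) ((Fol n : Finset (Lamp A)) : Set (Lamp A))).ncard : ℝ) /
        (Fol (A := A) n).card ≤ (2 * s.n.natAbs : ℝ) / ((2 * n + 1 : ℝ)) := by
    filter_upwards [exit_bound s, exit_bound s⁻¹] with n h1 h2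
    rw [inv_n, Int.natAbs_neg] at h2
    have hfin := (Fol (A := A) n).finite_toSet
    have e1 : symmDiff ((fun x => s * x) '' ((Fol n : Finset (Lamp A)) : Set (Lamp A))) ((Fol n : Finset (Lamp A)) : Set (Lamp A)) ⊆
        ((fun x => s * x) '' {y ∈ ((Fol n : Finset (Lamp A)) : Set (Lamp A)) | s * y ∉ (Fol n : Finset (Lamp A))}) ∪
          {y ∈ ((Fol n : Finset (Lamp A)) : Set (Lamp A)) | s⁻¹ * y ∉ (Fol n : Finset (Lamp A))} := by
      rintro y (⟨⟨x, hx, rfl⟩, hy⟩ | ⟨hy, hy2⟩)
      · exact Or.inl ⟨x, ⟨hx, hy⟩, rfl⟩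
      · refine Or.inr ⟨hy, fun h => hy2 ⟨s⁻¹ * y, h, ?_⟩⟩
        simp
    have f1 : {y ∈ ((Fol n : Finset (Lamp A)) : Set (Lamp A)) | s * y ∉ (Fol n : Finset (Lamp A))}.Finite := hfin.subset fun y hy => hy.1
    have f2 : {y ∈ ((Fol n : Finset (Lamp A)) : Set (Lamp A)) | s⁻¹ * y ∉ (Fol n : Finset (Lamp A))}.Finite := hfin.subset fun y hy => hy.1
    have e2 := Set.ncard_le_ncard e1 ((f1.image _).union f2)
    have e3 := Set.ncard_union_le ((fun x => s * x) '' {y ∈ ((Fol n : Finset (Lamp A)) : Set (Lamp A)) | s * y ∉ (Fol n : Finset (Lamp A))})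
      {y ∈ ((Fol n : Finset (Lamp A)) : Set (Lamp A)) | s⁻¹ * y ∉ (Fol n : Finset (Lamp A))}
    rw [Set.ncard_image_of_injective _ (mul_right_injective s)] at e3
    have e4 : (symmDiff ((fun x => s * x) '' ((Fol n : Finset (Lamp A)) : Set (Lamp A))) ((Fol n : Finset (Lamp A)) : Set (Lamp A))).ncard ≤
        2 * (s.n.natAbs * Fintype.card (W n → A)) := by omega
    have hpos : (0 : ℝ) < (Fol (A := A) n).card := by exact_mod_cast hcardpos n
    have hc : (0 : ℝ) < Fintype.card (W n → A) := by exact_mod_cast Fintype.card_pos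
    rw [div_le_div_iff₀ hpos (by positivity), card_Fol]
    have e5 : ((symmDiff ((fun x => s * x) '' ((Fol n : Finset (Lamp A)) : Set (Lamp A))) ((Fol n : Finset (Lamp A)) : Set (Lamp A))).ncard : ℝ) ≤
        2 * (s.n.natAbs * Fintype.card (W n → A)) := by exact_mod_cast e4
    push_cast
    have e6 : (0 : ℝ) ≤ 2 * n + 1 := by positivity
    calc _ ≤ (2 * ((s.n.natAbs : ℝ) * Fintype.card (W n → A))) * (2 * n + 1) :=
          mul_le_mul_of_nonneg_right e5 e6
      _ = _ := by ring
  have hlim : Tendsto (fun n : ℕ => (2 * s.n.natAbs : ℝ) / ((2 * n + 1 : ℝ))) atTop (nhds 0) := by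
    apply Tendsto.div_atTop tendsto_const_nhds
    apply Filter.tendsto_atTop_add_const_right
    exact (tendsto_natCast_atTop_atTop).const_mul_atTop (by norm_num)
  refine tendsto_of_tendsto_of_tendsto_of_le_of_le' tendsto_const_nhds hlim ?_ hbound
  exact Filter.Eventually.of_forall fun n => by positivity

end folner

/-- The growth gap for lamplighter groups with non-abelian lamps. -/
theorem growthGap {A : Type} [Group A] [Finite A] (hA : ∃ a b : A, a * b ≠ b * a) : GrowthGap (Lamp A) := by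
  classical
  obtain ⟨a, b, hab⟩ := hA
  have := Fintype.ofFinite A
  refine ⟨⟨Fol, folner⟩, fun F hF => ?_⟩
  exact gap_of_PP (lamp_ne a b hab) (PP_of_comm (t := tr) fun p hp => lamp_comm a b p hp) hF

end Lamp

end Pool.Agent.R291.Scale
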