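import Pool.Agent.R291.ScaleKernel

/-!
The limit kernel of an element which is not detected by pattern counting.
-/

open MeasureTheory Filter
open scoped ENNReal RealInnerProductSpace

set_option linter.unusedSectionVars false

namespace Pool.Agent.R291.Scale

variable {G : Type} [Group G]

lemma separated {X : Type} [MeasurableSpace X] [MulAction G X] [MeasurableConstSMul G X]
    {μ : Measure X} [IsProbabilityMeasure μ] [SMulInvariantMeasure G X μ] {f : X → ℝ} (hf : UI f)
    {F : Finset G} (hF : F.Nonempty) {ε : ℝ} (hε : 0 < ε) {k : ℕ}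
    (hc : Covers μ (avgM F (fun x y => |f x - f y|)) ε k) {L : ℕ} (hL : 0 < L) (hLε : 1 / (L : ℝ) ≤ ε)
    {M : ℕ} (hM : 2 * (L + 1) ^ k < M) (h : G) (u : Fin M → G) (hs : ∀ i, Inv1 F ε (h * u i)) :
    ∃ i j, i ≠ j ∧ dK (KX μ f h) (u i) (u j) ≤ 13 * ε := by
  classical
  obtain ⟨e, c, he0, hesum, hcd⟩ := patterns hf hF hc (ι := Fin M) (fun i => h * u i) hs hL
  rw [Fintype.card_fin] at hesum
  let bad : Finset (Fin M) := Finset.univ.filter fun j => 6 * ε < e j
  let good : Finset (Fin M) := Finset.univ.filter fun j => ¬ 6 * ε < e j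
  have hcard : bad.card + good.card = M := by
    have := Finset.card_filter_add_card_filter_not (s := (Finset.univ : Finset (Fin M))) (fun j => 6 * ε < e j)
    rw [Finset.card_univ, Fintype.card_fin] at this
    exact this
  have hbad : (bad.card : ℝ) * (6 * ε) ≤ 3 * ε * M := by
    have h1 : (bad.card : ℝ) * (6 * ε) ≤ ∑ j ∈ bad, e j := by
      have := Finset.card_nsmul_le_sum bad e (6 * ε) fun j hj => (Finset.mem_filter.1 hj).2.le
      simpa using this
    have h2 := Finset.sum_le_sum_of_subset_of_nonneg (Finset.subset_univ bad) fun j _ _ => he0 j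
    nlinarith
  have hbad2 : 2 * bad.card ≤ M := by
    have : (2 * bad.card : ℝ) ≤ M := by
      have h1 : (3 * ε) * (2 * bad.card) ≤ (3 * ε) * M := by nlinarith
      exact le_of_mul_le_mul_left h1 (by positivity)
    exact_mod_cast this
  have hgood : (L + 1) ^ k < good.card := by omega
  have hpig : ∃ x ∈ good, ∃ y ∈ good, x ≠ y ∧ c x = c y := by
    apply Finset.exists_ne_map_eq_of_card_lt_of_maps_to (t := (Finset.univ : Finset (Fin k → Fin (L + 1))))
    · rw [Finset.card_univ]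
      simp only [Fintype.card_fun, Fintype.card_fin]
      exact hgood
    · intro x _
      exact Finset.mem_univ _
  obtain ⟨x, hx, y, hy, hxy, hpat⟩ := hpig
  refine ⟨x, y, hxy, (dK_le_Df hf h _ _).trans ?_⟩
  have h1 := hcd x y hpat
  have h2 := not_lt.1 (Finset.mem_filter.1 hx).2
  have h3 := not_lt.1 (Finset.mem_filter.1 hy).2
  linarith

/-- **The limit kernel.** -/
theorem exists_kernel [Countable G] {g0 : G} (hnot : ¬ PP G g0) :
    ∃ (c r : ℝ) (M : ℕ) (K : G → G → ℝ), KProp K ∧ 0 < r ∧ 4 * r < c ∧ c ≤ dK K g0 1 ∧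
      ∀ u : Fin M → G, ∃ i j, i ≠ j ∧ dK K (u i) (u j) ≤ r := by
  classical
  unfold PP at hnot
  push Not at hnot
  obtain ⟨h, c, hc, hP⟩ := hnot
  set ε := c ^ 2 / 60 with hε
  have hε0 : 0 < ε := by positivity
  obtain ⟨k, hk⟩ := hP ε hε0
  obtain ⟨L0, hL0⟩ := exists_nat_gt (1 / ε)
  have hLr : (0 : ℝ) < L0 := lt_trans (by positivity) hL0
  have hL : 0 < L0 := by exact_mod_cast hLr
  have hLε : 1 / (L0 : ℝ) ≤ ε := by
    rw [div_le_iff₀ hLr]
    rw [div_lt_iff₀ hε0] at hL0
    linarith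
  let M : ℕ := 2 * (L0 + 1) ^ k + 1
  obtain ⟨e, he⟩ := exists_surjective_nat G
  have hstep : ∀ n : ℕ, ∃ Kn : G → G → ℝ, KProp Kn ∧ c ^ 2 ≤ dK Kn g0 1 ∧
      ∀ u : Fin M → G, (∀ i, ∃ j ≤ n, u i = e j) → ∃ i j, i ≠ j ∧ dK Kn (u i) (u j) ≤ 13 * ε := by
    intro n
    obtain ⟨F, hF, hinv, X, i1, i2, i3, μ, i4, i5, f, hf, hdis, hcov⟩ :=
      hk ((Finset.range (n + 1)).image fun i => h * e i) ε hε0
    refine ⟨KX μ f h, KX_KProp hf h, ?_, ?_⟩
    · apply Df_le_dK hf h g0 1 hc
      rw [mul_one]; exact hdis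
    · intro u hu
      refine separated hf hF hε0 hcov hL hLε (Nat.lt_succ_self _) h u fun i => ?_
      obtain ⟨j, hj, hju⟩ := hu i
      apply hinv
      rw [hju]
      exact Finset.mem_image.2 ⟨j, Finset.mem_range.2 (by omega), rfl⟩
  choose Kn hKn hdis hsep using hstep
  -- the limit
  have hlimex : ∀ g s, ∃ l : ℝ, Tendsto (fun n => Kn n g s) (hyperfilter ℕ : Filter ℕ) (nhds l) := by
    intro g s
    have h1 : ∀ n, Kn n g s ∈ Set.Icc (0 : ℝ) 1 := fun n => ⟨(hKn n).nonneg g s, (hKn n).le_one g s⟩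
    obtain ⟨l, _, hl⟩ := (isCompact_Icc (a := (0 : ℝ)) (b := 1)).ultrafilter_le_nhds
      ((hyperfilter ℕ).map fun n => Kn n g s) (by
        rw [le_principal_iff, Ultrafilter.coe_map]
        exact Filter.mem_map.2 (Filter.univ_mem' h1))
    exact ⟨l, hl⟩
  choose K hK using hlimex
  have hd : ∀ g g', Tendsto (fun n => dK (Kn n) g g') (hyperfilter ℕ : Filter ℕ) (nhds (dK K g g')) := fun g g' =>
    ((hK g g).add (hK g' g')).sub ((hK g g').const_mul 2)
  refine ⟨c ^ 2, 13 * ε, M, K, KProp.limit hKn hK, by positivity, ?_, ?_, ?_⟩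
  · rw [hε]; nlinarith [pow_pos hc 2]
  · exact ge_of_tendsto' (hd g0 1) hdis
  · intro u
    by_contra hcon
    push Not at hcon
    have h1 : ∀ᶠ n in (hyperfilter ℕ : Filter ℕ), ∀ i j, i ≠ j → 13 * ε < dK (Kn n) (u i) (u j) := by
      rw [eventually_all]
      intro i
      rw [eventually_all]
      intro j
      by_cases hij : i = j
      · exact Filter.Eventually.of_forall fun n h => absurd hij h
      · have := (hd (u i) (u j)).eventually (lt_mem_nhds (hcon i j hij))
        filter_upwards [this] with n hn _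
        exact hn
    have h2 : ∀ᶠ n in (hyperfilter ℕ : Filter ℕ), ∀ i, ∃ j ≤ n, u i = e j := by
      have h3 : ∀ i, ∃ j, u i = e j := fun i => by
        obtain ⟨j, hj⟩ := he (u i)
        exact ⟨j, hj.symm⟩
      choose j hj using h3
      have h4 : ∀ᶠ n in (hyperfilter ℕ : Filter ℕ), ∀ i, j i ≤ n := by
        rw [eventually_all]
        intro i
        have : ∀ᶠ n in (atTop : Filter ℕ), j i ≤ n := eventually_ge_atTop (j i)
        exact Nat.hyperfilter_le_atTop this
      filter_upwards [h4] with n hn i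
      exact ⟨j i, hn i, hj i⟩
    obtain ⟨n, hn1, hn2⟩ := (h1.and h2).exists
    obtain ⟨i, j, hij, hle⟩ := hsep n u hn2
    exact absurd (hn1 i j hij) (not_lt.2 hle)

end Pool.Agent.R291.Scale
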