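import Pool.Agent.R291.ScaleLimit

/-!
Right-invariant means and the averaged pseudometric of a kernel.
-/

open MeasureTheory Filter
open scoped ENNReal RealInnerProductSpace

set_option linter.unusedSectionVars false

namespace Pool.Agent.R291.Scale

variable {G : Type} [Group G]

/-- Bounded functions. -/
def Bdd (φ : G → ℝ) : Prop := ∃ C, ∀ s, |φ s| ≤ C

/-- Right-invariant means. -/
structure IsMean (m : (G → ℝ) → ℝ) : Prop where
  add : ∀ φ ψ, Bdd φ → Bdd ψ → m (fun s => φ s + ψ s) = m φ + m ψ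
  smul : ∀ (c : ℝ) φ, Bdd φ → m (fun s => c * φ s) = c * m φ
  mono : ∀ φ ψ, Bdd φ → Bdd ψ → (∀ s, φ s ≤ ψ s) → m φ ≤ m ψ
  one : m (fun _ => 1) = 1
  right : ∀ φ k, Bdd φ → m (fun s => φ (s * k)) = m φ

/-- Averages over the inverse of a finite set. -/
noncomputable def av (F : Finset G) (φ : G → ℝ) : ℝ := (F.card : ℝ)⁻¹ * ∑ s ∈ F, φ s⁻¹

lemma av_bound {F : Finset G} {φ : G → ℝ} {C : ℝ} (hC : ∀ s, |φ s| ≤ C) : |av F φ| ≤ C := by
  have hC0 : 0 ≤ C := (abs_nonneg _).trans (hC 1)
  unfold av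
  rcases F.eq_empty_or_nonempty with rfl | hF
  · simpa using hC0
  have hFc : (0 : ℝ) < F.card := by exact_mod_cast hF.card_pos
  rw [abs_mul, abs_of_pos (inv_pos.2 hFc), inv_mul_le_iff₀ hFc]
  refine (Finset.abs_sum_le_sum_abs _ _).trans ?_
  have := Finset.sum_le_card_nsmul F (fun s => |φ s⁻¹|) C fun s _ => hC _
  simpa using this

theorem exists_mean {F : ℕ → Finset G} (hF : IsFolner F) : ∃ m : (G → ℝ) → ℝ, IsMean m := by
  classical
  have hex : ∀ φ : G → ℝ, ∃ l : ℝ, Bdd φ → Tendsto (fun n => av (F n) φ) (hyperfilter ℕ : Filter ℕ) (nhds l) := by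
    intro φ
    by_cases hφ : Bdd φ
    · obtain ⟨C, hC⟩ := hφ
      have h1 : ∀ n, av (F n) φ ∈ Set.Icc (-C) C := fun n => abs_le.1 (av_bound hC)
      obtain ⟨l, _, hl⟩ := (isCompact_Icc (a := -C) (b := C)).ultrafilter_le_nhds
        ((hyperfilter ℕ).map fun n => av (F n) φ) (by
          rw [le_principal_iff, Ultrafilter.coe_map]
          exact Filter.mem_map.2 (Filter.univ_mem' h1))
      exact ⟨l, fun _ => hl⟩
    · exact ⟨0, fun h => absurd h hφ⟩
  choose m hm using hex
  have badd : ∀ φ ψ : G → ℝ, Bdd φ → Bdd ψ → Bdd (fun s => φ s + ψ s) := by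
    rintro φ ψ ⟨C, hC⟩ ⟨D, hD⟩
    exact ⟨C + D, fun s => (abs_add_le _ _).trans (add_le_add (hC s) (hD s))⟩
  have bsmul : ∀ (c : ℝ) (φ : G → ℝ), Bdd φ → Bdd (fun s => c * φ s) := by
    rintro c φ ⟨C, hC⟩
    refine ⟨|c| * C, fun s => ?_⟩
    rw [abs_mul]
    exact mul_le_mul_of_nonneg_left (hC s) (abs_nonneg c)
  refine ⟨m, ⟨?_, ?_, ?_, ?_, ?_⟩⟩
  · intro φ ψ hφ hψ
    refine tendsto_nhds_unique (hm _ (badd _ _ hφ hψ)) (((hm φ hφ).add (hm ψ hψ)).congr fun n => ?_)
    unfold av
    rw [Finset.sum_add_distrib, mul_add]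
  · intro c φ hφ
    refine tendsto_nhds_unique (hm _ (bsmul c _ hφ)) (((hm φ hφ).const_mul c).congr fun n => ?_)
    unfold av
    rw [← Finset.mul_sum]; ring
  · intro φ ψ hφ hψ h
    refine le_of_tendsto_of_tendsto' (hm φ hφ) (hm ψ hψ) fun n => ?_
    unfold av
    exact mul_le_mul_of_nonneg_left (Finset.sum_le_sum fun s _ => h _) (by positivity)
  · have b1 : Bdd (fun _ : G => (1 : ℝ)) := ⟨1, fun _ => by simp⟩
    refine tendsto_nhds_unique (hm _ b1) (tendsto_const_nhds.congr fun n => ?_)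
    have hFc : (0 : ℝ) < (F n).card := by exact_mod_cast (hF.1 n).card_pos
    unfold av
    rw [Finset.sum_const, nsmul_eq_mul, mul_one, inv_mul_cancel₀ hFc.ne']
  · intro φ k hφ
    have hφk : Bdd (fun s => φ (s * k)) := by
      obtain ⟨C, hC⟩ := hφ
      exact ⟨C, fun s => hC _⟩
    obtain ⟨C, hC⟩ := hφ
    have hC0 : 0 ≤ C := (abs_nonneg _).trans (hC 1)
    have hdiff : Tendsto (fun n => av (F n) (fun s => φ (s * k)) - av (F n) φ) (hyperfilter ℕ : Filter ℕ) (nhds 0) := by
      have h1 : ∀ n, |av (F n) (fun s => φ (s * k)) - av (F n) φ| ≤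
          C * (((symmDiff ((fun x => k⁻¹ * x) '' (F n : Set G)) (F n : Set G)).ncard : ℝ) / (F n).card) := by
        intro n
        have hFc : (0 : ℝ) < (F n).card := by exact_mod_cast (hF.1 n).card_pos
        unfold av
        have e1 : ∑ s ∈ F n, φ (s⁻¹ * k) = ∑ s ∈ (F n).image (fun x => k⁻¹ * x), φ s⁻¹ := by
          rw [Finset.sum_image fun x _ y _ h => mul_left_cancel h]
          refine Finset.sum_congr rfl fun s _ => ?_
          congr 1
          group
        rw [e1, ← mul_sub]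
        have e2 : ∑ s ∈ (F n).image (fun x => k⁻¹ * x), φ s⁻¹ - ∑ s ∈ F n, φ s⁻¹ =
            ∑ s ∈ (F n).image (fun x => k⁻¹ * x) \ F n, φ s⁻¹ - ∑ s ∈ F n \ (F n).image (fun x => k⁻¹ * x), φ s⁻¹ := by
          have a1 := Finset.sum_inter_add_sum_sdiff ((F n).image (fun x => k⁻¹ * x)) (F n) (fun s => φ s⁻¹)
          have a2 := Finset.sum_inter_add_sum_sdiff (F n) ((F n).image (fun x => k⁻¹ * x)) (fun s => φ s⁻¹)
          rw [Finset.inter_comm] at a2
          linarith
        rw [e2, abs_mul, abs_of_pos (inv_pos.2 hFc)]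
        have a3 : |∑ s ∈ (F n).image (fun x => k⁻¹ * x) \ F n, φ s⁻¹ -
            ∑ s ∈ F n \ (F n).image (fun x => k⁻¹ * x), φ s⁻¹| ≤
            ((F n).image (fun x => k⁻¹ * x) \ F n).card * C + (F n \ (F n).image (fun x => k⁻¹ * x)).card * C := by
          refine (abs_sub _ _).trans (add_le_add ?_ ?_)
          · refine (Finset.abs_sum_le_sum_abs _ _).trans ?_
            have := Finset.sum_le_card_nsmul ((F n).image (fun x => k⁻¹ * x) \ F n) (fun s => |φ s⁻¹|) C fun s _ => hC _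
            simpa using this
          · refine (Finset.abs_sum_le_sum_abs _ _).trans ?_
            have := Finset.sum_le_card_nsmul (F n \ (F n).image (fun x => k⁻¹ * x)) (fun s => |φ s⁻¹|) C fun s _ => hC _
            simpa using this
        have a4 : (symmDiff ((fun x => k⁻¹ * x) '' (F n : Set G)) (F n : Set G)).ncard =
            ((F n).image (fun x => k⁻¹ * x) \ F n).card + (F n \ (F n).image (fun x => k⁻¹ * x)).card := by
          have : symmDiff ((fun x => k⁻¹ * x) '' (F n : Set G)) (F n : Set G) =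
              (((F n).image (fun x => k⁻¹ * x) \ F n) ∪ (F n \ (F n).image (fun x => k⁻¹ * x)) : Finset G) := by
            ext x
            simp [Set.mem_symmDiff]
          rw [this, Set.ncard_coe_finset, Finset.card_union_of_disjoint]
          exact Finset.disjoint_left.2 fun x hx hx' => (Finset.mem_sdiff.1 hx).2 (Finset.mem_sdiff.1 hx').1
        rw [a4, inv_mul_le_iff₀ hFc]
        push_cast
        refine a3.trans (le_of_eq ?_)
        field_simp
      have h2 := ((hF.2 k⁻¹).const_mul C).mono_left Nat.hyperfilter_le_atTop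
      rw [mul_zero] at h2
      exact squeeze_zero_norm (fun n => by rw [Real.norm_eq_abs]; exact h1 n) h2
    have h3 := hdiff.add (hm φ ⟨C, hC⟩)
    rw [zero_add] at h3
    refine tendsto_nhds_unique (hm _ hφk) (h3.congr fun n => ?_)
    ring

end Pool.Agent.R291.Scale
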