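import Pool.Agent.R291.ScaleDefs

/-!
Pigeonhole for bounded functions with few patterns along a finite set.
-/

open MeasureTheory Filter
open scoped ENNReal

set_option linter.unusedSectionVars false

namespace Pool.Agent.R291.Scale

variable {G : Type} [Group G] {X : Type} [MeasurableSpace X] [MulAction G X]

/-- Measurable functions with values in the unit interval. -/
structure UI (f : X → ℝ) : Prop where
  meas : Measurable f
  nonneg : ∀ x, 0 ≤ f x
  le_one : ∀ x, f x ≤ 1

/-- The distance of two group elements seen by a function. -/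
noncomputable def Df (μ : Measure X) (f : X → ℝ) (g h : G) : ℝ := ∫ x, |f (g • x) - f (h • x)| ∂μ

lemma abs_sub_le_one {a b : ℝ} (ha : 0 ≤ a) (ha1 : a ≤ 1) (hb : 0 ≤ b) (hb1 : b ≤ 1) : |a - b| ≤ 1 := by
  rw [abs_le]; constructor <;> linarith

section

variable [MeasurableConstSMul G X] {μ : Measure X} [IsProbabilityMeasure μ]

lemma UI.meas_smul {f : X → ℝ} (hf : UI f) (g : G) : Measurable fun x => f (g • x) :=
  hf.meas.comp (measurable_const_smul g)

lemma integrable_of_bdd {u : X → ℝ} (hu : Measurable u) {C : ℝ} (hC : ∀ x, |u x| ≤ C) :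
    Integrable u μ :=
  Integrable.of_bound hu.aestronglyMeasurable C (Filter.Eventually.of_forall hC)

lemma UI.int {f : X → ℝ} (hf : UI f) (g h : G) : Integrable (fun x => |f (g • x) - f (h • x)|) μ := by
  refine integrable_of_bdd (C := 1) ?_ ?_
  · exact ((hf.meas_smul g).sub (hf.meas_smul h)).abs
  · intro x
    rw [abs_abs]
    exact abs_sub_le_one (hf.nonneg _) (hf.le_one _) (hf.nonneg _) (hf.le_one _)

lemma Df_nonneg (f : X → ℝ) (g h : G) : 0 ≤ Df μ f g h :=
  integral_nonneg fun _ => abs_nonneg _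

lemma Df_self (f : X → ℝ) (g : G) : Df μ f g g = 0 := by simp [Df]

lemma Df_comm (f : X → ℝ) (g h : G) : Df μ f g h = Df μ f h g := by
  unfold Df
  congr 1
  ext x
  rw [abs_sub_comm]

lemma Df_tri {f : X → ℝ} (hf : UI f) (g h k : G) : Df μ f g k ≤ Df μ f g h + Df μ f h k := by
  unfold Df
  rw [← integral_add (hf.int g h) (hf.int h k)]
  exact integral_mono (hf.int g k) ((hf.int g h).add (hf.int h k)) fun x => abs_sub_le _ _ _

lemma Df_right [SMulInvariantMeasure G X μ] (f : X → ℝ) (g h k : G) :
    Df μ f (g * k) (h * k) = Df μ f g h := by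
  unfold Df
  have h1 := (measurePreserving_smul k μ).integral_comp
    (measurableEmbedding_const_smul k) (fun x => |f (g • x) - f (h • x)|)
  rw [← h1]
  congr 1
  ext x
  rw [mul_smul, mul_smul]

end

/-- `F` is almost invariant under `s`. -/
def Inv1 (F : Finset G) (η : ℝ) (s : G) : Prop :=
  (({g ∈ (F : Set G) | s * g ∉ F}).ncard : ℝ) ≤ η * F.card

section

variable [MeasurableConstSMul G X] {μ : Measure X} [IsProbabilityMeasure μ] [SMulInvariantMeasure G X μ]

/-- **Few patterns.** -/
theorem patterns {f : X → ℝ} (hf : UI f) {F : Finset G} (hF : F.Nonempty) {ε η : ℝ}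
    {k : ℕ} (hc : Covers μ (avgM F (fun x y => |f x - f y|)) ε k)
    {ι : Type} [Fintype ι] (s : ι → G) (hs : ∀ i, Inv1 F η (s i)) {L : ℕ} (hL : 0 < L) :
    ∃ (e : ι → ℝ) (c : ι → (Fin k → Fin (L + 1))), (∀ i, 0 ≤ e i) ∧
      (∑ i, e i ≤ Fintype.card ι * (2 * ε + η)) ∧
      ∀ i j, c i = c j → Df μ f (s i) (s j) ≤ e i + e j + 1 / L := by
  classical
  obtain ⟨X0, P, hX0, hP, hcov, hμ, hdiam⟩ := hc
  -- some point
  have hne : Nonempty X := by
    by_contra h
    rw [not_nonempty_iff] at h
    have h1 : μ Set.univ = 0 := by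
      rw [Set.univ_eq_empty_iff.2 h]; exact measure_empty
    rw [measure_univ] at h1
    exact one_ne_zero h1
  obtain ⟨p0⟩ := hne
  have hε : 0 < ε := by
    by_contra h
    rw [ENNReal.ofReal_eq_zero.2 (not_lt.1 h)] at hμ
    exact absurd hμ (by simp)
  have hμr : μ.real X0 ≤ ε := by
    rw [Measure.real]
    exact ENNReal.toReal_le_of_le_ofReal hε.le hμ.le
  -- base points
  let b : Fin k → X := fun i => if h : (P i).Nonempty then h.some else p0
  have hb : ∀ i x, x ∈ P i → b i ∈ P i := by
    intro i x hx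
    have h : (P i).Nonempty := ⟨x, hx⟩
    show (if h : (P i).Nonempty then h.some else p0) ∈ P i
    rw [dif_pos h]
    exact h.some_mem
  -- disjoint pieces
  let D : Fin k → Set X := fun i => P i \ ⋃ (j : Fin k) (_ : j < i), P j
  have hDm : ∀ i, MeasurableSet (D i) := fun i =>
    (hP i).diff (MeasurableSet.iUnion fun j => MeasurableSet.iUnion fun _ => hP j)
  have hDP : ∀ i x, x ∈ D i → x ∈ P i := fun i x hx => hx.1
  have hDcov : ∀ x, x ∉ X0 → ∃ i, x ∈ D i := by
    intro x hx
    have h1 : ∃ i, x ∈ P i := by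
      have : x ∈ X0 ∪ ⋃ i, P i := by rw [hcov]; trivial
      rcases this with h | h
      · exact absurd h hx
      · exact Set.mem_iUnion.1 h
    obtain ⟨i, hi, hmin⟩ := WellFounded.has_min (wellFounded_lt (α := Fin k)) {i | x ∈ P i} h1
    refine ⟨i, hi, fun h2 => ?_⟩
    simp only [Set.mem_iUnion] at h2
    obtain ⟨j, hj, hxj⟩ := h2
    exact hmin j hxj hj
  have hDdis : ∀ i j x, x ∈ D i → x ∈ D j → i = j := by
    intro i j x hi hj
    by_contra hne
    rcases lt_or_gt_of_ne hne with h | h
    · exact hj.2 (Set.mem_iUnion.2 ⟨i, Set.mem_iUnion.2 ⟨h, hi.1⟩⟩)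
    · exact hi.2 (Set.mem_iUnion.2 ⟨j, Set.mem_iUnion.2 ⟨h, hj.1⟩⟩)
  -- the step functions
  let q : G → X → ℝ := fun u x => ∑ i, (D i).indicator (fun _ => f (u • b i)) x
  have hqm : ∀ u, Measurable (q u) := fun u =>
    Finset.measurable_sum _ fun i _ => measurable_const.indicator (hDm i)
  have hqD : ∀ u i x, x ∈ D i → q u x = f (u • b i) := by
    intro u i x hx
    show ∑ j, (D j).indicator (fun _ => f (u • b j)) x = _
    rw [Finset.sum_eq_single i]
    · rw [Set.indicator_of_mem hx]
    · intro j _ hj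
      rw [Set.indicator_of_notMem]
      intro h
      exact hj (hDdis j i x h hx)
    · intro h; exact absurd (Finset.mem_univ i) h
  have hqO : ∀ u x, (∀ i, x ∉ D i) → q u x = 0 := by
    intro u x hx
    show ∑ j, (D j).indicator (fun _ => f (u • b j)) x = _
    exact Finset.sum_eq_zero fun j _ => Set.indicator_of_notMem (hx j) _
  have hq01 : ∀ u x, 0 ≤ q u x ∧ q u x ≤ 1 := by
    intro u x
    by_cases h : ∃ i, x ∈ D i
    · obtain ⟨i, hi⟩ := h
      rw [hqD u i x hi]
      exact ⟨hf.nonneg _, hf.le_one _⟩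
    · push Not at h
      rw [hqO u x h]
      exact ⟨le_rfl, zero_le_one⟩
  let A : G → X → ℝ := fun u x => |f (u • x) - q u x|
  have hAm : ∀ u, Measurable (A u) := fun u => ((hf.meas_smul u).sub (hqm u)).abs
  have hA0 : ∀ u x, 0 ≤ A u x := fun u x => abs_nonneg _
  have hA1 : ∀ u x, A u x ≤ 1 := fun u x =>
    abs_sub_le_one (hf.nonneg _) (hf.le_one _) (hq01 u x).1 (hq01 u x).2
  have hAi : ∀ u, Integrable (A u) μ := fun u => integrable_of_bdd (hAm u) (C := 1) fun x => by
    rw [abs_of_nonneg (hA0 u x)]; exact hA1 u x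
  let a : G → ℝ := fun u => ∫ x, A u x ∂μ
  have ha0 : ∀ u, 0 ≤ a u := fun u => integral_nonneg (hA0 u)
  have ha1 : ∀ u, a u ≤ 1 := by
    intro u
    have := integral_mono (hAi u) (integrable_const (1 : ℝ)) (hA1 u)
    simpa using this
  have hFc : (0 : ℝ) < F.card := by exact_mod_cast hF.card_pos
  -- the sum over `F`
  have hsumF : ∑ g ∈ F, a g ≤ F.card * (2 * ε) := by
    have h1 : ∑ g ∈ F, a g = ∫ x, ∑ g ∈ F, A g x ∂μ := (integral_finsetSum F fun g _ => hAi g).symm
    rw [h1]
    have h2 : ∀ x, ∑ g ∈ F, A g x ≤ F.card * ε + X0.indicator (fun _ => (F.card : ℝ)) x := by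
      intro x
      by_cases h : ∃ i, x ∈ D i
      · obtain ⟨i, hi⟩ := h
        obtain ⟨r, hr, hd⟩ := hdiam i
        have h3 := hd x (hDP i x hi) (b i) (hb i x (hDP i x hi))
        have h4 : ∑ g ∈ F, A g x = ∑ g ∈ F, |f (g • x) - f (g • b i)| := by
          refine Finset.sum_congr rfl fun g _ => ?_
          show |f (g • x) - q g x| = _
          rw [hqD g i x hi]
        rw [h4]
        have h5 : (F.card : ℝ)⁻¹ * ∑ g ∈ F, |f (g • x) - f (g • b i)| ≤ ε := h3.trans hr.le
        have h6 : ∑ g ∈ F, |f (g • x) - f (g • b i)| ≤ F.card * ε := by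
          rw [inv_mul_le_iff₀ hFc] at h5
          exact h5
        have h7 : 0 ≤ X0.indicator (fun _ => (F.card : ℝ)) x := Set.indicator_nonneg (fun _ _ => hFc.le) _
        linarith
      · have hx : x ∈ X0 := by
          by_contra hx
          exact h (hDcov x hx)
        rw [Set.indicator_of_mem hx]
        have h3 : ∑ g ∈ F, A g x ≤ F.card := by
          have := Finset.sum_le_card_nsmul F (fun g => A g x) 1 fun g _ => hA1 g x
          simpa using this
        have : 0 ≤ F.card * ε := by positivity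
        linarith
    have hind : Integrable (X0.indicator (fun _ => (F.card : ℝ))) μ :=
      (integrable_const _).indicator hX0
    have h3 := integral_mono (integrable_finsetSum F fun g _ => hAi g)
      ((integrable_const (F.card * ε)).add hind) h2
    refine h3.trans ?_
    simp only [Pi.add_apply]
    rw [integral_add (integrable_const _) hind, integral_indicator hX0]
    simp only [integral_const, smul_eq_mul, probReal_univ, one_mul, measureReal_restrict_apply MeasurableSet.univ,
      Set.univ_inter]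
    nlinarith
  -- shifting
  have hshift : ∀ i, ∑ g ∈ F, a (s i * g) ≤ F.card * (2 * ε + η) := by
    intro i
    have h1 : ∑ g ∈ F, a (s i * g) = ∑ g ∈ F with s i * g ∈ F, a (s i * g) +
        ∑ g ∈ F with ¬ s i * g ∈ F, a (s i * g) := (Finset.sum_filter_add_sum_filter_not _ _ _).symm
    have h2 : ∑ g ∈ F with s i * g ∈ F, a (s i * g) ≤ ∑ g ∈ F, a g := by
      rw [← Finset.sum_image (s := F.filter fun g => s i * g ∈ F) (g := fun g => s i * g) (f := a)
        (fun x _ y _ h => mul_left_cancel h)]
      refine Finset.sum_le_sum_of_subset_of_nonneg ?_ fun g _ _ => ha0 g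
      intro y hy
      obtain ⟨g, hg, rfl⟩ := Finset.mem_image.1 hy
      exact (Finset.mem_filter.1 hg).2
    have h3 : ∑ g ∈ F with ¬ s i * g ∈ F, a (s i * g) ≤ η * F.card := by
      have h4 : ∑ g ∈ F with ¬ s i * g ∈ F, a (s i * g) ≤ ((F.filter fun g => ¬ s i * g ∈ F).card : ℝ) := by
        have := Finset.sum_le_card_nsmul (F.filter fun g => ¬ s i * g ∈ F) (fun g => a (s i * g)) 1
          fun g _ => ha1 _
        simpa using this
      refine h4.trans ?_
      have h5 := hs i
      unfold Inv1 at h5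
      have h6 : {g ∈ (F : Set G) | s i * g ∉ F} = ((F.filter fun g => ¬ s i * g ∈ F : Finset G) : Set G) := by
        ext g; simp
      rw [h6, Set.ncard_coe_finset] at h5
      exact h5
    rw [h1]
    nlinarith
  -- choose the shift
  have hex : ∃ g ∈ F, ∑ i, a (s i * g) ≤ Fintype.card ι * (2 * ε + η) := by
    apply Finset.exists_le_of_sum_le hF
    rw [Finset.sum_comm]
    have h1 : ∑ i, ∑ g ∈ F, a (s i * g) ≤ ∑ _i : ι, F.card * (2 * ε + η) :=
      Finset.sum_le_sum fun i _ => hshift i
    refine h1.trans ?_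
    rw [Finset.sum_const, Finset.sum_const, Finset.card_univ, nsmul_eq_mul, nsmul_eq_mul]
    apply le_of_eq; ring
  obtain ⟨g, hg, hgs⟩ := hex
  have hLr : (0 : ℝ) < L := by exact_mod_cast hL
  refine ⟨fun i => a (s i * g), fun i j => ⟨⌊L * f ((s i * g) • b j)⌋₊, ?_⟩, fun i => ha0 _, hgs, ?_⟩
  · have h1 : L * f ((s i * g) • b j) ≤ L := by nlinarith [hf.le_one ((s i * g) • b j)]
    have h2 := Nat.floor_le_floor h1
    rw [Nat.floor_natCast] at h2
    omega
  · intro i j hij
    have hq : ∀ x, |q (s i * g) x - q (s j * g) x| ≤ 1 / L := by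
      intro x
      by_cases h : ∃ l, x ∈ D l
      · obtain ⟨l, hl⟩ := h
        rw [hqD _ l x hl, hqD _ l x hl]
        have h1 := congrFun hij l
        simp only [Fin.mk.injEq] at h1
        have n1 : 0 ≤ L * f ((s i * g) • b l) := mul_nonneg hLr.le (hf.nonneg _)
        have n2 : 0 ≤ L * f ((s j * g) • b l) := mul_nonneg hLr.le (hf.nonneg _)
        have u1 := Nat.floor_le n1
        have u2 := Nat.floor_le n2
        have v1 := Nat.lt_floor_add_one (L * f ((s i * g) • b l))
        have v2 := Nat.lt_floor_add_one (L * f ((s j * g) • b l))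
        rw [h1] at u1 v1
        rw [abs_le, le_div_iff₀ hLr, ← neg_div, div_le_iff₀ hLr]
        constructor <;> linarith
      · push Not at h
        rw [hqO _ x h, hqO _ x h, sub_zero, abs_zero]
        positivity
    have h1 : Df μ f (s i) (s j) = ∫ x, |f ((s i * g) • x) - f ((s j * g) • x)| ∂μ :=
      (Df_right f (s i) (s j) g).symm
    rw [h1]
    have h2 : ∀ x, |f ((s i * g) • x) - f ((s j * g) • x)| ≤ A (s i * g) x + A (s j * g) x + 1 / L := by
      intro x
      have e : f ((s i * g) • x) - f ((s j * g) • x) = (f ((s i * g) • x) - q (s i * g) x) -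
        (f ((s j * g) • x) - q (s j * g) x) + (q (s i * g) x - q (s j * g) x) := by ring
      rw [e]
      refine (abs_add_le _ _).trans ?_
      have := hq x
      have h3 := abs_sub (f ((s i * g) • x) - q (s i * g) x) (f ((s j * g) • x) - q (s j * g) x)
      show _ ≤ |f ((s i * g) • x) - q (s i * g) x| + |f ((s j * g) • x) - q (s j * g) x| + 1 / L
      linarith
    have h3 := integral_mono (hf.int (μ := μ) (s i * g) (s j * g))
      (((hAi (s i * g)).add (hAi (s j * g))).add (integrable_const (1 / (L : ℝ)))) h2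
    refine h3.trans ?_
    have h4 : Integrable (fun x => A (s i * g) x + A (s j * g) x) μ := (hAi _).add (hAi _)
    simp only [Pi.add_apply]
    rw [integral_add h4 (integrable_const _), integral_add (hAi _) (hAi _)]
    simp only [integral_const, smul_eq_mul, probReal_univ, one_mul]
    exact le_rfl

end

end Pool.Agent.R291.Scale
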