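import Pool.Agent.R291.ScaleMean

/-!
The averaged pseudometric is totally bounded and detects the element.
-/

open MeasureTheory Filter
open scoped ENNReal RealInnerProductSpace

set_option linter.unusedSectionVars false

namespace Pool.Agent.R291.Scale

variable {G : Type} [Group G]

lemma Bdd.of01 {φ : G → ℝ} (h0 : ∀ s, 0 ≤ φ s) {C : ℝ} (h1 : ∀ s, φ s ≤ C) : Bdd φ :=
  ⟨C, fun s => by rw [abs_of_nonneg (h0 s)]; exact h1 s⟩

lemma Bdd.add {φ ψ : G → ℝ} (h : Bdd φ) (h' : Bdd ψ) : Bdd (fun s => φ s + ψ s) := by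
  obtain ⟨C, hC⟩ := h
  obtain ⟨D, hD⟩ := h'
  exact ⟨C + D, fun s => (abs_add_le _ _).trans (add_le_add (hC s) (hD s))⟩

lemma Bdd.smul {φ : G → ℝ} (c : ℝ) (h : Bdd φ) : Bdd (fun s => c * φ s) := by
  obtain ⟨C, hC⟩ := h
  refine ⟨|c| * C, fun s => ?_⟩
  rw [abs_mul]
  exact mul_le_mul_of_nonneg_left (hC s) (abs_nonneg c)

lemma bdd_const (c : ℝ) : Bdd (fun _ : G => c) := ⟨|c|, fun _ => le_rfl⟩

section mean

variable {m : (G → ℝ) → ℝ} (hm : IsMean m)

include hm

lemma IsMean.const (c : ℝ) : m (fun _ => c) = c := by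
  have := hm.smul c (fun _ => 1) (bdd_const 1)
  simpa [hm.one] using this

lemma IsMean.nonneg {φ : G → ℝ} (hφ : Bdd φ) (h : ∀ s, 0 ≤ φ s) : 0 ≤ m φ := by
  have := hm.mono (fun _ => 0) φ (bdd_const 0) hφ h
  rwa [hm.const] at this

lemma IsMean.sum {ι : Type} (A : Finset ι) (φ : ι → G → ℝ) (hφ : ∀ i, Bdd (φ i)) :
    Bdd (fun s => ∑ i ∈ A, φ i s) ∧ m (fun s => ∑ i ∈ A, φ i s) = ∑ i ∈ A, m (φ i) := by
  classical
  induction A using Finset.induction_on with
  | empty =>
    simp only [Finset.sum_empty]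
    exact ⟨bdd_const 0, hm.const 0⟩
  | insert i A hi ih =>
    simp only [Finset.sum_insert hi]
    refine ⟨(hφ i).add ih.1, ?_⟩
    rw [hm.add _ _ (hφ i) ih.1, ih.2]

end mean

section dm

variable {m : (G → ℝ) → ℝ} (hm : IsMean m) {K : G → G → ℝ} (hK : KProp K)

/-- The averaged pseudometric. -/
def dm (m : (G → ℝ) → ℝ) (K : G → G → ℝ) (g g' : G) : ℝ := m (fun s => |K g s - K g' s|)

include hK

lemma KProp.bd (g g' : G) : Bdd (fun s => |K g s - K g' s|) :=
  Bdd.of01 (fun _ => abs_nonneg _) (C := 1) fun s =>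
    abs_sub_le_one (hK.nonneg _ _) (hK.le_one _ _) (hK.nonneg _ _) (hK.le_one _ _)

include hm

lemma dm_nonneg (g g' : G) : 0 ≤ dm m K g g' := hm.nonneg (hK.bd g g') fun _ => abs_nonneg _

lemma dm_self (g : G) : dm m K g g = 0 := by
  unfold dm
  simp only [sub_self, abs_zero]
  exact hm.const 0

lemma dm_comm (g g' : G) : dm m K g g' = dm m K g' g := by
  unfold dm
  congr 1
  funext s
  rw [abs_sub_comm]

lemma dm_tri (g g' g'' : G) : dm m K g g'' ≤ dm m K g g' + dm m K g' g'' := by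
  unfold dm
  rw [← hm.add _ _ (hK.bd g g') (hK.bd g' g'')]
  exact hm.mono _ _ (hK.bd g g'') ((hK.bd g g').add (hK.bd g' g'')) fun s => abs_sub_le _ _ _

lemma dm_le_one (g g' : G) : dm m K g g' ≤ 1 := by
  have := hm.mono _ (fun _ => 1) (hK.bd g g') (bdd_const 1) fun s =>
    abs_sub_le_one (hK.nonneg _ _) (hK.le_one _ _) (hK.nonneg _ _) (hK.le_one _ _)
  rwa [hm.one] at this

lemma dm_right (g g' k : G) : dm m K (g * k) (g' * k) = dm m K g g' := by
  unfold dm
  have h1 : (fun s => |K (g * k) s - K (g' * k) s|) = fun s => (fun t => |K g t - K g' t|) (s * k⁻¹) := by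
    funext s
    have e : ∀ g, K (g * k) s = K g (s * k⁻¹) := fun g => by
      have := hK.right g (s * k⁻¹) k
      rwa [inv_mul_cancel_right] at this
    simp only [e]
  rw [h1, hm.right _ _ (hK.bd g g')]

/-- Total boundedness. -/
theorem dm_TB (δ : ℝ) (hδ : 0 < δ) : ∃ T : Finset G, ∀ g, ∃ t ∈ T, dm m K t g < δ := by
  classical
  by_contra hcon
  push Not at hcon
  obtain ⟨f, _, hf⟩ := exists_seq_of_forall_finset_exists (α := G) (fun _ => True)
    (fun x y => δ ≤ dm m K x y) (fun s _ => by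
      obtain ⟨g, hg⟩ := hcon s
      exact ⟨g, trivial, hg⟩)
  have hf' : ∀ i j, i ≠ j → δ ≤ dm m K (f i) (f j) := by
    intro i j hij
    rcases lt_or_gt_of_ne hij with h | h
    · exact hf i j h
    · rw [dm_comm hm hK]; exact hf j i h
  -- the limits
  let V : Filter ℕ := (hyperfilter ℕ : Filter ℕ)
  have hl1 : ∀ i, ∃ l : ℝ, Tendsto (fun j => K (f i) (f j)) V (nhds l) := by
    intro i
    obtain ⟨l, _, hl⟩ := (isCompact_Icc (a := (0 : ℝ)) (b := 1)).ultrafilter_le_nhds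
      ((hyperfilter ℕ).map fun j => K (f i) (f j)) (by
        rw [le_principal_iff, Ultrafilter.coe_map]
        exact Filter.mem_map.2 (Filter.univ_mem' fun j => ⟨hK.nonneg _ _, hK.le_one _ _⟩))
    exact ⟨l, hl⟩
  choose ρ hρ using hl1
  have hρ01 : ∀ i, ρ i ∈ Set.Icc (0 : ℝ) 1 := fun i =>
    ⟨ge_of_tendsto' (hρ i) fun j => hK.nonneg _ _, le_of_tendsto' (hρ i) fun j => hK.le_one _ _⟩
  obtain ⟨σ, hσ⟩ : ∃ l : ℝ, Tendsto ρ V (nhds l) := by
    obtain ⟨l, _, hl⟩ := (isCompact_Icc (a := (0 : ℝ)) (b := 1)).ultrafilter_le_nhds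
      ((hyperfilter ℕ).map ρ) (by
        rw [le_principal_iff, Ultrafilter.coe_map]
        exact Filter.mem_map.2 (Filter.univ_mem' hρ01))
    exact ⟨l, hl⟩
  set τ : ℝ := δ ^ 2 / 16 with hτ
  have hτ0 : 0 < τ := by positivity
  have hσev : ∀ᶠ i in V, |ρ i - σ| < τ := by
    have := (Metric.tendsto_nhds.1 hσ) τ hτ0
    simpa [Real.dist_eq] using this
  obtain ⟨x, hx1, hx2⟩ := exists_seq_of_forall_finset_exists (α := ℕ) (fun i => |ρ i - σ| < τ)
    (fun i j => i < j ∧ |K (f i) (f j) - ρ i| < τ) (fun s _ => by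
      have h1 : ∀ᶠ j in V, ∀ i ∈ s, |K (f i) (f j) - ρ i| < τ := by
        rw [Filter.eventually_all_finset]
        intro i _
        have := (Metric.tendsto_nhds.1 (hρ i)) τ hτ0
        simpa [Real.dist_eq] using this
      have h2 : ∀ᶠ j in V, ∀ i ∈ s, i < j := by
        rw [Filter.eventually_all_finset]
        intro i _
        exact Nat.hyperfilter_le_atTop (eventually_gt_atTop i)
      obtain ⟨j, hj1, hj2, hj3⟩ := (hσev.and (h1.and h2)).exists
      exact ⟨j, hj1, fun i hi => ⟨hj3 i hi, hj2 i hi⟩⟩)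
  have hxlt : ∀ a b, a < b → x a < x b := fun a b h => (hx2 a b h).1
  have hclose : ∀ a b, a ≠ b → |K (f (x a)) (f (x b)) - σ| ≤ 2 * τ := by
    have key : ∀ a b, a < b → |K (f (x a)) (f (x b)) - σ| ≤ 2 * τ := by
      intro a b h
      have h1 := (hx2 a b h).2
      have h2 := hx1 a
      have h3 : K (f (x a)) (f (x b)) - σ = (K (f (x a)) (f (x b)) - ρ (x a)) + (ρ (x a) - σ) := by ring
      rw [h3]
      refine (abs_add_le _ _).trans ?_
      linarith
    intro a b hab
    rcases lt_or_gt_of_ne hab with h | h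
    · exact key a b h
    · rw [hK.symm]; exact key b a h
  -- the differences
  obtain ⟨N, hN⟩ := exists_nat_gt (4 / δ ^ 2)
  have hNδ : 4 < N * δ ^ 2 := by
    rw [div_lt_iff₀ (by positivity)] at hN
    exact hN
  have hNpos : (0 : ℝ) < N := by
    by_contra h
    have : (N : ℝ) = 0 := le_antisymm (not_lt.1 h) (Nat.cast_nonneg _)
    rw [this, zero_mul] at hNδ
    linarith
  let p : Fin N → G := fun a => f (x (2 * (a : ℕ)))
  let q : Fin N → G := fun a => f (x (2 * (a : ℕ) + 1))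
  have hR : ∀ a, ∑ b, |K (p a) (p b) - K (p a) (q b) - K (q a) (p b) + K (q a) (q b)| ≤ 2 + 8 * τ * N := by
    intro a
    have h1 : ∀ b, |K (p a) (p b) - K (p a) (q b) - K (q a) (p b) + K (q a) (q b)| ≤
        (if b = a then 2 else 0) + 8 * τ := by
      intro b
      by_cases hab : b = a
      · subst hab
        rw [if_pos rfl]
        have e1 := hK.le_one (p b) (p b)
        have e2 := hK.nonneg (p b) (p b)
        have e3 := hK.le_one (q b) (q b)
        have e4 := hK.nonneg (q b) (q b)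
        have e5 := hK.le_one (p b) (q b)
        have e6 := hK.nonneg (p b) (q b)
        have e7 := hK.le_one (q b) (p b)
        have e8 := hK.nonneg (q b) (p b)
        rw [abs_le]
        constructor <;> linarith
      · rw [if_neg hab, zero_add]
        have hne : (a : ℕ) ≠ b := fun h => hab (Fin.ext h.symm)
        have e1 := hclose (2 * (a : ℕ)) (2 * (b : ℕ)) (by omega)
        have e2 := hclose (2 * (a : ℕ)) (2 * (b : ℕ) + 1) (by omega)
        have e3 := hclose (2 * (a : ℕ) + 1) (2 * (b : ℕ)) (by omega)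
        have e4 := hclose (2 * (a : ℕ) + 1) (2 * (b : ℕ) + 1) (by omega)
        show |K (f (x (2 * (a : ℕ)))) (f (x (2 * (b : ℕ)))) - K (f (x (2 * (a : ℕ)))) (f (x (2 * (b : ℕ) + 1))) -
          K (f (x (2 * (a : ℕ) + 1))) (f (x (2 * (b : ℕ)))) + K (f (x (2 * (a : ℕ) + 1))) (f (x (2 * (b : ℕ) + 1)))| ≤ 8 * τ
        rw [abs_le] at e1 e2 e3 e4 ⊢
        constructor <;> linarith [e1.1, e1.2, e2.1, e2.2, e3.1, e3.2, e4.1, e4.2]
    refine (Finset.sum_le_sum fun b _ => h1 b).trans ?_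
    rw [Finset.sum_add_distrib, Finset.sum_ite_eq' Finset.univ a, if_pos (Finset.mem_univ a), Finset.sum_const,
      Finset.card_univ, Fintype.card_fin, nsmul_eq_mul]
    linarith
  have hbess : ∀ s, ∑ a, (K (p a) s - K (q a) s) ^ 2 ≤ 2 + 8 * τ * N := fun s =>
    hK.csk N p q s _ (by positivity) hR
  -- averages
  have hb2 : ∀ a : Fin N, Bdd (fun s => (K (p a) s - K (q a) s) ^ 2) := fun a =>
    Bdd.of01 (fun _ => sq_nonneg _) (C := 1) fun s => by
      rw [← sq_abs]
      exact pow_le_one₀ (abs_nonneg _) (abs_sub_le_one (hK.nonneg _ _) (hK.le_one _ _) (hK.nonneg _ _) (hK.le_one _ _))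
  have h3 : ∑ a, m (fun s => (K (p a) s - K (q a) s) ^ 2) ≤ 2 + 8 * τ * N := by
    have h4 := hm.sum (Finset.univ : Finset (Fin N)) (fun a s => (K (p a) s - K (q a) s) ^ 2) hb2
    rw [← h4.2]
    have h5 := hm.mono _ (fun _ => 2 + 8 * τ * N) h4.1 (bdd_const _) hbess
    rwa [hm.const] at h5
  have h4 : ∀ a : Fin N, δ ^ 2 ≤ m (fun s => (K (p a) s - K (q a) s) ^ 2) := by
    intro a
    have h5 : δ ≤ dm m K (p a) (q a) := hf' _ _ (fun h => by
      have := hxlt (2 * (a : ℕ)) (2 * (a : ℕ) + 1) (by omega)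
      omega)
    have h6 : ∀ s, |K (p a) s - K (q a) s| ≤ (1 / (2 * δ)) * (K (p a) s - K (q a) s) ^ 2 + δ / 2 := by
      intro s
      have h2 : 2 * δ * |K (p a) s - K (q a) s| ≤ (K (p a) s - K (q a) s) ^ 2 + δ ^ 2 := by
        rw [← sq_abs (K (p a) s - K (q a) s)]
        nlinarith [sq_nonneg (|K (p a) s - K (q a) s| - δ)]
      have h3 : |K (p a) s - K (q a) s| ≤ ((K (p a) s - K (q a) s) ^ 2 + δ ^ 2) / (2 * δ) := by
        rw [le_div_iff₀ (by positivity)]; linarith
      refine h3.trans (le_of_eq ?_)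
      field_simp
    have h7 := hm.mono _ _ (hK.bd (p a) (q a)) (((hb2 a).smul (1 / (2 * δ))).add (bdd_const (δ / 2))) h6
    rw [hm.add _ _ ((hb2 a).smul _) (bdd_const _), hm.smul _ _ (hb2 a), hm.const] at h7
    unfold dm at h5
    have h8 : δ / 2 ≤ 1 / (2 * δ) * m (fun s => (K (p a) s - K (q a) s) ^ 2) := by linarith
    rw [one_div, inv_mul_eq_div, le_div_iff₀ (by positivity)] at h8
    nlinarith
  have h5 : N * δ ^ 2 ≤ 2 + 8 * τ * N := by
    refine le_trans ?_ h3
    have := Finset.card_nsmul_le_sum (Finset.univ : Finset (Fin N)) (fun a => m (fun s => (K (p a) s - K (q a) s) ^ 2))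
      (δ ^ 2) fun a _ => h4 a
    simpa using this
  rw [hτ] at h5
  nlinarith

/-- The element is detected. -/
theorem dm_pos {g0 : G} {c r : ℝ} {M : ℕ} (hr : 0 < r) (hrc : 4 * r < c) (hc : c ≤ dK K g0 1)
    (hsep : ∀ u : Fin M → G, ∃ i j, i ≠ j ∧ dK K (u i) (u j) ≤ r) : 0 < dm m K g0 1 := by
  classical
  have hd0 : ∀ g, dK K g g = 0 := fun g => by unfold dK; ring
  have hdcomm : ∀ g g', dK K g g' = dK K g' g := fun g g' => by
    unfold dK; rw [hK.symm g g']; ring
  have hdright : ∀ g g' k, dK K (g * k) (g' * k) = dK K g g' := fun g g' k => by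
    unfold dK; rw [hK.right, hK.right, hK.right]
  -- a finite net
  have hnet : ∃ T : Finset G, ∀ g, ∃ t ∈ T, dK K t g ≤ r := by
    by_contra hcon
    push Not at hcon
    obtain ⟨f, _, hf⟩ := exists_seq_of_forall_finset_exists (α := G) (fun _ => True)
      (fun x y => r < dK K x y) (fun s _ => by
        obtain ⟨g, hg⟩ := hcon s
        exact ⟨g, trivial, hg⟩)
    obtain ⟨i, j, hij, hle⟩ := hsep (fun i => f i)
    have hne : (i : ℕ) ≠ j := fun h => hij (Fin.ext h)
    rcases lt_or_gt_of_ne hne with h | h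
    · exact absurd (hf i j h) (not_lt.2 hle)
    · rw [hdcomm] at hle
      exact absurd (hf j i h) (not_lt.2 hle)
  obtain ⟨T, hT⟩ := hnet
  -- the balls
  let χ : G → G → ℝ := fun t s => if dK K t s ≤ r then 1 else 0
  have hχ0 : ∀ t s, 0 ≤ χ t s := fun t s => by
    show 0 ≤ (if dK K t s ≤ r then (1 : ℝ) else 0)
    split_ifs <;> norm_num
  have hχ1 : ∀ t s, χ t s ≤ 1 := fun t s => by
    show (if dK K t s ≤ r then (1 : ℝ) else 0) ≤ 1
    split_ifs <;> norm_num
  have hχb : ∀ t, Bdd (χ t) := fun t => Bdd.of01 (hχ0 t) (hχ1 t)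
  have hex : ∃ t ∈ T, 0 < m (χ t) := by
    by_contra hcon
    push Not at hcon
    have h1 := hm.sum T χ hχb
    have h2 : 1 ≤ m (fun s => ∑ t ∈ T, χ t s) := by
      have h3 := hm.mono (fun _ => 1) _ (bdd_const 1) h1.1 fun s => by
        obtain ⟨t, ht, hts⟩ := hT s
        have h4 : χ t s ≤ ∑ t ∈ T, χ t s := Finset.single_le_sum (f := fun t => χ t s) (fun t _ => hχ0 t s) ht
        have h5 : χ t s = 1 := if_pos hts
        linarith
      rwa [hm.one] at h3
    rw [h1.2] at h2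
    have h6 : ∑ t ∈ T, m (χ t) ≤ 0 := Finset.sum_nonpos hcon
    linarith
  obtain ⟨t0, _, ht0⟩ := hex
  have hball : ∀ g, m (χ g) = m (χ t0) := by
    intro g
    have h1 : χ g = fun s => χ t0 (s * (g⁻¹ * t0)) := by
      funext s
      have : dK K t0 (s * (g⁻¹ * t0)) = dK K g s := by
        rw [← hdright g s (g⁻¹ * t0)]
        congr 1
        group
      show (if dK K g s ≤ r then (1 : ℝ) else 0) = if dK K t0 (s * (g⁻¹ * t0)) ≤ r then 1 else 0
      rw [this]
    rw [h1, hm.right _ _ (hχb t0)]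
  set Δ := dK K g0 1 with hΔ
  have hΔ0 : 0 < Δ := by linarith
  by_contra hneg
  have hzero : dm m K g0 1 = 0 := le_antisymm (not_lt.1 hneg) (dm_nonneg hm hK _ _)
  -- the difference at a point
  have hpt : ∀ g, (K g0 g - K 1 g) ^ 2 ≤ Δ * r := by
    intro g
    by_contra hcon
    rw [not_le] at hcon
    have h1 : √(Δ * r) < |K g0 g - K 1 g| := by
      rw [Real.sqrt_lt (by positivity) (abs_nonneg _), sq_abs]
      exact hcon
    set θ := |K g0 g - K 1 g| - √(Δ * r) with hθ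
    have hθ0 : 0 < θ := by linarith
    have h2 : ∀ s, θ * χ g s ≤ |K g0 s - K 1 s| := by
      intro s
      by_cases hs : dK K g s ≤ r
      · have h3 : χ g s = 1 := if_pos hs
        rw [h3, mul_one]
        have h4 := hK.cs2 g0 1 g s
        have h5 : (K g0 g - K 1 g - K g0 s + K 1 s) ^ 2 ≤ Δ * r :=
          h4.trans (mul_le_mul_of_nonneg_left hs hΔ0.le)
        have h6 : |K g0 g - K 1 g - K g0 s + K 1 s| ≤ √(Δ * r) := Real.abs_le_sqrt h5
        have h7 : |K g0 g - K 1 g| ≤ |K g0 g - K 1 g - K g0 s + K 1 s| + |K g0 s - K 1 s| := by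
          have : K g0 g - K 1 g = (K g0 g - K 1 g - K g0 s + K 1 s) + (K g0 s - K 1 s) := by ring
          calc |K g0 g - K 1 g| = |(K g0 g - K 1 g - K g0 s + K 1 s) + (K g0 s - K 1 s)| := by rw [← this]
            _ ≤ _ := abs_add_le _ _
        rw [hθ]; linarith
      · have h3 : χ g s = 0 := if_neg hs
        rw [h3, mul_zero]
        exact abs_nonneg _
    have h3 := hm.mono _ _ ((hχb g).smul θ) (hK.bd g0 1) h2
    rw [hm.smul _ _ (hχb g), hball g] at h3
    unfold dm at hzero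
    rw [hzero] at h3
    have := mul_pos hθ0 ht0
    linarith
  have h1 := hpt g0
  have h2 := hpt 1
  have h3 : Δ = (K g0 g0 - K 1 g0) - (K g0 1 - K 1 1) := by
    rw [hΔ]
    unfold dK
    rw [hK.symm 1 g0]; ring
  have h4 : Δ ^ 2 ≤ 4 * (Δ * r) := by
    rw [h3] at h1 h2 ⊢
    nlinarith [sq_nonneg ((K g0 g0 - K 1 g0) + (K g0 1 - K 1 1))]
  have h5 : Δ * Δ ≤ Δ * (4 * r) := by nlinarith
  have h6 := le_of_mul_le_mul_left h5 hΔ0
  linarith

end dm

end Pool.Agent.R291.Scale
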