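import Pool.Agent.R291.PCDefs
import Pool.Agent.R291.Rigid

/-!
The core of the non-realizability argument: two rotations, a reflection and two interval swaps.
-/

open Set

namespace Pool.Agent.R291

instance fact01 : Fact ((0 : ℝ) < 1) := ⟨zero_lt_one⟩

/-- Fractional part of a point of the circle. -/
noncomputable def fr (y : S1) : ℝ := (AddCircle.equivIco 1 0 y : ℝ)

lemma fr_nonneg (y : S1) : 0 ≤ fr y := (AddCircle.equivIco 1 0 y).2.1

lemma fr_lt_one (y : S1) : fr y < 1 := by
  have := (AddCircle.equivIco 1 0 y).2.2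
  simpa [fr] using this

lemma coe_fr (y : S1) : ((fr y : ℝ) : S1) = y := (AddCircle.equivIco 1 0).symm_apply_apply y

lemma fr_coe (t : ℝ) (h0 : 0 ≤ t) (h1 : t < 1) : fr (t : S1) = t := by
  unfold fr
  rw [AddCircle.coe_equivIco_mk_apply]
  simp [Int.fract_eq_self.2 ⟨h0, h1⟩]

lemma coe_one : ((1 : ℝ) : S1) = 0 := AddCircle.coe_period 1

lemma fr_add (y : S1) (a : ℝ) (ha0 : 0 ≤ a) (ha1 : a < 1) :
    fr (y + (a : S1)) = if fr y + a < 1 then fr y + a else fr y + a - 1 := by
  have h1 : y + (a : S1) = ((fr y + a : ℝ) : S1) := by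
    rw [AddCircle.coe_add, coe_fr]
  have h0 := fr_nonneg y
  have h2 := fr_lt_one y
  split_ifs with h
  · rw [h1, fr_coe _ (by linarith) h]
  · have h3 : ((fr y + a : ℝ) : S1) = ((fr y + a - 1 : ℝ) : S1) := by
      rw [AddCircle.coe_sub, coe_one, sub_zero]
    rw [h1, h3, fr_coe _ (by linarith [not_lt.1 h]) (by linarith)]

lemma fr_sub (y : S1) (a : ℝ) (ha0 : 0 ≤ a) (ha1 : a < 1) :
    fr (y - (a : S1)) = if a ≤ fr y then fr y - a else fr y - a + 1 := by
  have h1 : y - (a : S1) = ((fr y - a : ℝ) : S1) := by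
    rw [AddCircle.coe_sub, coe_fr]
  have h0 := fr_nonneg y
  have h2 := fr_lt_one y
  split_ifs with h
  · rw [h1, fr_coe _ (by linarith) (by linarith)]
  · have h3 : ((fr y - a : ℝ) : S1) = ((fr y - a + 1 : ℝ) : S1) := by
      rw [AddCircle.coe_add, coe_one, add_zero]
    rw [h1, h3, fr_coe _ (by linarith [not_le.1 h]) (by linarith [not_le.1 h])]

lemma fr_neg (y : S1) : fr (-y) = if fr y = 0 then 0 else 1 - fr y := by
  have h0 := fr_nonneg y
  have h2 := fr_lt_one y
  split_ifs with h
  · have : y = 0 := by rw [← coe_fr y, h]; rfl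
    rw [this, neg_zero, ← AddCircle.coe_zero, fr_coe 0 le_rfl one_pos]
  · have h1 : -y = ((1 - fr y : ℝ) : S1) := by
      rw [AddCircle.coe_sub, coe_one, zero_sub, coe_fr]
    rw [h1, fr_coe _ (by linarith) (by have := lt_of_le_of_ne h0 (Ne.symm h); linarith)]

/-- The point `1/2`. -/
noncomputable def half : S1 := ((1 / 2 : ℝ) : S1)

lemma half_add_half : half + half = 0 := by
  unfold half
  rw [← AddCircle.coe_add, ← coe_one]; norm_num

lemma half_ne_zero : half ≠ 0 := by
  intro h
  have h1 := fr_coe (1 / 2) (by norm_num) (by norm_num)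
  have h2 : ((1 / 2 : ℝ) : S1) = ((0 : ℝ) : S1) := h
  rw [h2, fr_coe 0 le_rfl one_pos] at h1
  norm_num at h1

lemma neg_half : -half = half := neg_eq_of_add_eq_zero_left half_add_half

lemma eq_of_add_self {x y : S1} (h : x + x = y + y) : x = y ∨ x = y + half := by
  have h1 : (x - y) + (x - y) = 0 := by
    have : (x - y) + (x - y) = (x + x) - (y + y) := by abel
    rw [this, h, sub_self]
  have key : ∀ z : S1, z + z = 0 → z = 0 ∨ z = half := by
    intro z hz
    have h0 := fr_nonneg z
    have h2 := fr_lt_one z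
    have h3 : ((fr z + fr z : ℝ) : S1) = 0 := by rw [AddCircle.coe_add, coe_fr, hz]
    by_cases h4 : fr z < 1 / 2
    · left
      have h5 := fr_coe (fr z + fr z) (by linarith) (by linarith)
      rw [h3, ← AddCircle.coe_zero, fr_coe 0 le_rfl one_pos] at h5
      rw [← coe_fr z, show fr z = 0 by linarith]; rfl
    · right
      have h5 := fr_coe (fr z + fr z - 1) (by linarith [not_lt.1 h4]) (by linarith)
      rw [AddCircle.coe_sub, coe_one, sub_zero, h3, ← AddCircle.coe_zero, fr_coe 0 le_rfl one_pos] at h5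
      rw [← coe_fr z, show fr z = 1 / 2 by linarith]; rfl
  rcases key _ h1 with h | h
  · left; exact sub_eq_zero.1 h
  · right; rw [← h]; abel

/-- The indicator `1_{[0,a)}` on the circle, with values in `ZMod 2`. -/
noncomputable def ind (a : ℝ) (y : S1) : ZMod 2 := if fr y < a then 1 else 0

/-- `0 ↦ 0`, `1 ↦ 1/2`. -/
noncomputable def hf (e : ZMod 2) : S1 := if e = 0 then 0 else half

lemma zmod2_cases (e : ZMod 2) : e = 0 ∨ e = 1 := by
  fin_cases e
  · left; rfl
  · right; rfl

lemma hf_zero : hf 0 = 0 := if_pos rfl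
lemma hf_one : hf 1 = half := if_neg (by decide)

lemma hf_add (e f : ZMod 2) : hf (e + f) = hf e + hf f := by
  rcases zmod2_cases e with rfl | rfl <;> rcases zmod2_cases f with rfl | rfl
  · rw [add_zero, hf_zero, add_zero]
  · rw [zero_add, hf_zero, zero_add]
  · rw [add_zero, hf_zero, add_zero]
  · rw [show (1 : ZMod 2) + 1 = 0 by decide, hf_zero, hf_one, half_add_half]

lemma hf_inj {e f : ZMod 2} (h : hf e = hf f) : e = f := by
  rcases zmod2_cases e with rfl | rfl <;> rcases zmod2_cases f with rfl | rfl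
  · rfl
  · rw [hf_zero, hf_one] at h; exact absurd h.symm half_ne_zero
  · rw [hf_zero, hf_one] at h; exact absurd h half_ne_zero
  · rfl

lemma hf_add_self (e : ZMod 2) : hf e + hf e = 0 := by
  rw [← hf_add]
  rcases zmod2_cases e with rfl | rfl
  · exact hf_zero
  · rw [show (1 : ZMod 2) + 1 = 0 by decide, hf_zero]

lemma neg_hf (e : ZMod 2) : -hf e = hf e := neg_eq_of_add_eq_zero_left (hf_add_self e)

lemma double_add_hf (x : S1) (e : ZMod 2) : (x + hf e) + (x + hf e) = x + x := by
  have : (x + hf e) + (x + hf e) = x + x + (hf e + hf e) := by abel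
  rw [this, hf_add_self, add_zero]

/-- The swap `x ↦ x + 1/2` on `{x : 2x ∈ [0,a)}`. -/
noncomputable def sw (a : ℝ) : Equiv.Perm S1 where
  toFun x := x + hf (ind a (x + x))
  invFun x := x + hf (ind a (x + x))
  left_inv x := by
    show (x + hf (ind a (x + x))) + hf (ind a ((x + hf (ind a (x + x))) + (x + hf (ind a (x + x))))) = x
    rw [double_add_hf, add_assoc, hf_add_self, add_zero]
  right_inv x := by
    show (x + hf (ind a (x + x))) + hf (ind a ((x + hf (ind a (x + x))) + (x + hf (ind a (x + x))))) = x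
    rw [double_add_hf, add_assoc, hf_add_self, add_zero]

lemma sw_apply (a : ℝ) (x : S1) : sw a x = x + hf (ind a (x + x)) := rfl

/-- The rotation by `t`. -/
noncomputable def rot (t : ℝ) : Equiv.Perm S1 := Equiv.addRight (t : S1)

lemma rot_apply (t : ℝ) (x : S1) : rot t x = x + t := rfl

lemma rot_inv_apply (t : ℝ) (x : S1) : (rot t)⁻¹ x = x - t := by
  rw [Equiv.Perm.inv_eq_iff_eq, rot_apply, sub_add_cancel]

lemma rot_zpow_apply (t : ℝ) (n : ℤ) (x : S1) : (rot t ^ n) x = x + n • (t : S1) := by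
  induction n using Int.induction_on with
  | zero => simp
  | succ n ih =>
    rw [add_comm, zpow_add, zpow_one, Equiv.Perm.mul_apply, ih, rot_apply, add_zsmul, one_zsmul]
    abel
  | pred n ih =>
    rw [show (-(n : ℤ) - 1) = -1 + -n by ring, zpow_add, Equiv.Perm.mul_apply, ih, zpow_neg_one,
      rot_inv_apply, add_zsmul, neg_one_zsmul]
    abel

/-- The reflection `x ↦ -x`. -/
noncomputable def refl0 : Equiv.Perm S1 := Equiv.neg S1

lemma refl0_apply (x : S1) : refl0 x = -x := rfl

/-- `α` and `β` are positive, small, and independent together with `1` over the rationals. -/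
structure Indep (α β : ℝ) : Prop where
  pos1 : 0 < α
  pos2 : 0 < β
  lt : α + β < 1 / 2
  ind : ∀ m n : ℤ, m • (α : S1) + n • (β : S1) = 0 → m = 0 ∧ n = 0

/-- The four-term relation between the indicators. -/
lemma ind_rel {a b : ℝ} (ha : 0 < a) (hb : 0 < b) (hab : a + b < 1) (y : S1) :
    ind a y + ind a (y - (b : S1)) = ind b y + ind b (y - (a : S1)) := by
  have h0 := fr_nonneg y
  have h1 := fr_lt_one y
  unfold ind
  rw [fr_sub y b hb.le (by linarith), fr_sub y a ha.le (by linarith)]
  by_cases c1 : b ≤ fr y <;> by_cases c2 : a ≤ fr y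
  · rw [if_pos c1, if_pos c2, if_neg (not_lt.2 c2), if_neg (not_lt.2 c1)]
    by_cases c3 : fr y < a + b
    · rw [if_pos (by linarith), if_pos (by linarith)]
    · rw [if_neg (by linarith), if_neg (by linarith)]
  · rw [if_pos c1, if_neg c2, if_pos (not_le.1 c2), if_neg (not_lt.2 c1)]
    have := not_le.1 c2
    rw [if_pos (by linarith), if_neg (by linarith)]
    decide
  · rw [if_neg c1, if_pos c2, if_neg (not_lt.2 c2), if_pos (not_le.1 c1)]
    have := not_le.1 c1
    rw [if_neg (by linarith), if_pos (by linarith)]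
    decide
  · rw [if_neg c1, if_neg c2, if_pos (not_le.1 c2), if_pos (not_le.1 c1)]
    have := not_le.1 c1
    have := not_le.1 c2
    rw [if_neg (by linarith), if_neg (by linarith)]

/-- The reflection relation holds up to the two end points. -/
lemma ind_refl {a : ℝ} (ha : 0 < a) (ha1 : a < 1) (y : S1) :
    ind a (-y) + ind a (y + (a : S1)) = if y = 0 ∨ y = -(a : S1) then 1 else 0 := by
  have h0 := fr_nonneg y
  have h1 := fr_lt_one y
  unfold ind
  rw [fr_add y a ha.le ha1, fr_neg]
  by_cases c1 : fr y = 0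
  · have hy : y = 0 := by rw [← coe_fr y, c1]; rfl
    rw [if_pos c1, if_pos ha, c1, zero_add, if_pos ha1, if_neg (lt_irrefl _), if_pos (Or.inl hy), add_zero]
  · have hy : y ≠ 0 := by
      rintro rfl
      apply c1
      rw [← AddCircle.coe_zero, fr_coe 0 le_rfl one_pos]
    have hpos := lt_of_le_of_ne h0 (Ne.symm c1)
    rw [if_neg c1]
    by_cases c2 : y = -(a : S1)
    · have h3 : fr y = 1 - a := by
        have : y = ((1 - a : ℝ) : S1) := by rw [c2, AddCircle.coe_sub, coe_one, zero_sub]
        rw [this, fr_coe _ (by linarith) (by linarith)]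
      have e1 : ¬ (1 - fr y < a) := by linarith
      have e2 : ¬ (fr y + a < 1) := by linarith
      have e3 : fr y + a - 1 < a := by linarith
      rw [if_pos (Or.inr c2), if_neg e1, if_neg e2, if_pos e3, zero_add]
    · have h3 : fr y ≠ 1 - a := by
        intro h3
        apply c2
        rw [← coe_fr y, h3, AddCircle.coe_sub, coe_one, zero_sub]
      rw [if_neg (not_or.2 ⟨hy, c2⟩)]
      rcases lt_or_gt_of_ne h3 with h4 | h4
      · have e1 : ¬ (1 - fr y < a) := by linarith
        have e2 : fr y + a < 1 := by linarith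
        have e3 : ¬ (fr y + a < a) := by linarith
        rw [if_neg e1, if_pos e2, if_neg e3, add_zero]
      · have e1 : 1 - fr y < a := by linarith
        have e2 : ¬ (fr y + a < 1) := by linarith
        have e3 : fr y + a - 1 < a := by linarith
        rw [if_pos e1, if_neg e2, if_pos e3]
        decide

section core

variable {α β : ℝ}

lemma Indep.zsmul_inj1 (h : Indep α β) {m n : ℤ} (hmn : m • (α : S1) = n • (α : S1)) : m = n := by
  have h1 : (m - n) • (α : S1) + (0 : ℤ) • (β : S1) = 0 := by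
    rw [sub_zsmul, hmn, add_neg_cancel, zero_zsmul, add_zero]
  have := (h.ind _ _ h1).1
  omega

/-- A permutation which anticommutes with the rotation by `α` and is near the reflection is the
reflection. -/
lemma eq_refl0 (h : Indep α β) {s : Equiv.Perm S1} (hs : Near s refl0)
    (hc : s * rot α * s⁻¹ = (rot α)⁻¹) (x : S1) : s x = -x := by
  have h1 : s * rot α = (rot α)⁻¹ * s := by rw [← hc]; group
  have h2 : ∀ n : ℕ, s (x + n • (α : S1)) = s x - n • (α : S1) := by
    intro n
    induction n with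
    | zero => simp
    | succ n ih =>
      have h3 := congrArg (fun f : Equiv.Perm S1 => f (x + n • (α : S1))) h1
      simp only [Equiv.Perm.mul_apply, rot_apply, rot_inv_apply] at h3
      rw [succ_nsmul, ← add_assoc, h3, ih]
      abel
  have hinj : Function.Injective (fun n : ℕ => x + n • (α : S1)) := by
    intro m n hmn
    have h4 : m • (α : S1) = n • (α : S1) := add_left_cancel hmn
    have h5 : ((m : ℤ)) • (α : S1) = ((n : ℤ)) • (α : S1) := by
      rw [natCast_zsmul, natCast_zsmul, h4]
    exact_mod_cast h.zsmul_inj1 h5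
  obtain ⟨n, hn⟩ := (evt_notMem hs hinj).exists
  simp only [mem_ofPred_eq, not_not, refl0_apply] at hn
  rw [h2 n] at hn
  have h6 : s x = -(x + n • (α : S1)) + n • (α : S1) := by rw [← hn]; abel
  rw [h6]; abel

/-- Points of the `α`-line separating `y` from `w` by the arc `[0, 2α)`. -/
lemma exists_separating (h : Indep α β) {y w : S1} (hyw : y ≠ w) {B : Set ℤ} (hB : B.Finite) :
    ∃ n : ℤ, n ∉ B ∧ ¬ (fr (y - n • ((2 * α : ℝ) : S1)) < 2 * α) ∧
      fr (w - n • ((2 * α : ℝ) : S1)) < 2 * α := by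
  set a : ℝ := 2 * α with ha
  have ha0 : 0 < a := by have := h.pos1; linarith
  have ha1 : a < 1 := by have := h.lt; have := h.pos2; linarith
  have hainj : ∀ m n : ℤ, m • (a : S1) = n • (a : S1) → m = n := by
    intro m n hmn
    have h1 : (a : S1) = (2 : ℤ) • (α : S1) := by
      rw [ha, ← AddCircle.coe_zsmul]; simp
    rw [h1, ← mul_zsmul, ← mul_zsmul] at hmn
    have := h.zsmul_inj1 hmn
    omega
  have hirr : Irrational (a / 1) := by
    rw [div_one]
    rintro ⟨q, hq⟩
    have h2 : (q.den : ℤ) • (a : S1) = (0 : ℤ) • (a : S1) := by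
      rw [zero_zsmul, ← AddCircle.coe_zsmul, zsmul_eq_mul, ← hq]
      have h3 : ((q.den : ℤ) : ℝ) * (q : ℝ) = ((q.num : ℤ) : ℝ) := by
        have := Rat.den_mul_eq_num q
        exact_mod_cast this
      rw [h3]
      have h4 : ((q.num : ℤ) : ℝ) = q.num • (1 : ℝ) := by simp
      rw [h4, AddCircle.coe_zsmul, coe_one, zsmul_zero]
    have := hainj _ _ h2
    have := q.den_pos
    omega
  have hdense : Dense (Set.range (fun n : ℤ => y - n • (a : S1))) := by
    have h1 := (AddCircle.denseRange_zsmul_coe_iff (a := a) (p := 1)).2 hirr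
    have h2 : DenseRange (fun n : ℤ => y - n • (a : S1)) := by
      have h3 : Function.Surjective (fun z : S1 => y - z) := fun z => ⟨y - z, by simp⟩
      exact h3.denseRange.comp h1 (by fun_prop)
    exact h2
  -- the open set
  set d : ℝ := fr (w - y) with hd
  have hd0 : 0 < d := by
    rcases lt_or_eq_of_le (fr_nonneg (w - y)) with h1 | h1
    · exact h1
    · exfalso
      apply hyw
      have h2 : w - y = 0 := by rw [← coe_fr (w - y), ← h1]; rfl
      exact (sub_eq_zero.1 h2).symm
  have hd1 : d < 1 := fr_lt_one _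
  let I : Set ℝ := Ioo (max a (1 - d)) (min 1 (1 - d + a))
  have hIne : I.Nonempty := by
    apply nonempty_Ioo.2
    rw [max_lt_iff, lt_min_iff, lt_min_iff]
    refine ⟨⟨ha1, by linarith⟩, ⟨by linarith, by linarith⟩⟩
  let U : Set S1 := (fun t : ℝ => (t : S1)) '' I
  have hUo : IsOpen U := QuotientAddGroup.isOpenMap_coe _ isOpen_Ioo
  have hUne : U.Nonempty := hIne.image _
  have hT : ((fun n : ℤ => y - n • (a : S1)) '' B).Finite := hB.image _
  have : Nontrivial S1 := ⟨⟨half, 0, half_ne_zero⟩⟩
  have hperf : ∀ x : S1, (nhdsWithin x {x}ᶜ).NeBot := by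
    intro x
    infer_instance
  have hdense2 := hdense.sdiff_finite hT
  obtain ⟨u, hu1, ⟨⟨n, rfl⟩, hu2⟩⟩ := hdense2.inter_open_nonempty U hUo hUne
  obtain ⟨t, ⟨ht1, ht2⟩, hty⟩ := hu1
  rw [max_lt_iff] at ht1
  rw [lt_min_iff] at ht2
  have hty' : (t : S1) = y - n • (a : S1) := hty
  refine ⟨n, fun hn => hu2 ⟨n, hn, rfl⟩, ?_, ?_⟩
  · rw [← hty', fr_coe t (by linarith) (by linarith)]
    linarith
  · have h5 : w - n • (a : S1) = ((t + d - 1 : ℝ) : S1) := by
      rw [AddCircle.coe_sub, AddCircle.coe_add, coe_one, sub_zero, hty', hd, coe_fr]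
      abel
    rw [h5, fr_coe _ (by linarith) (by linarith)]
    linarith

/-- A permutation near a swap which commutes with the far translates of a permutation near
`sw (2α)` preserves the fibres `{x, x + 1/2}`. -/
lemma fiberwise (h : Indep α β) {F1 F : Equiv.Perm S1} (h1 : Near F1 (sw (2 * α)))
    (hc : ∀ n : ℤ, F * (rot α ^ n * F1 * (rot α ^ n)⁻¹) = (rot α ^ n * F1 * (rot α ^ n)⁻¹) * F)
    (x : S1) : F x = x ∨ F x = x + half := by
  by_contra hcon
  set z := F x with hz
  have hne : x + x ≠ z + z := by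
    intro h2
    rcases eq_of_add_self h2.symm with h3 | h3
    · exact hcon (Or.inl h3)
    · exact hcon (Or.inr h3)
  -- bad exponents
  have hB : {n : ℤ | F1 (x - n • (α : S1)) ≠ sw (2 * α) (x - n • (α : S1)) ∨
      F1 (z - n • (α : S1)) ≠ sw (2 * α) (z - n • (α : S1))}.Finite := by
    have hinj : ∀ x : S1, Function.Injective (fun n : ℤ => x - n • (α : S1)) := by
      intro x m n hmn
      exact h.zsmul_inj1 (sub_right_injective hmn)
    exact (h1.preimage (hinj x).injOn).union (h1.preimage (hinj z).injOn)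
  obtain ⟨n, hn, hn1, hn2⟩ := exists_separating h hne hB
  have hnx : F1 (x - n • (α : S1)) = sw (2 * α) (x - n • (α : S1)) := by
    by_contra h5; exact hn (Or.inl h5)
  have hnz : F1 (z - n • (α : S1)) = sw (2 * α) (z - n • (α : S1)) := by
    by_contra h5; exact hn (Or.inr h5)
  have h2a : ((2 * α : ℝ) : S1) = (α : S1) + (α : S1) := by
    rw [← AddCircle.coe_add]; congr 1; ring
  have hdx : ∀ x : S1, (x - n • (α : S1)) + (x - n • (α : S1)) = (x + x) - n • ((2 * α : ℝ) : S1) := by
    intro x
    rw [h2a, zsmul_add]; abel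
  have hT : ∀ x : S1, (rot α ^ n * F1 * (rot α ^ n)⁻¹) x = F1 (x - n • (α : S1)) + n • (α : S1) := by
    intro x
    rw [Equiv.Perm.mul_apply, Equiv.Perm.mul_apply, rot_zpow_apply, ← zpow_neg, rot_zpow_apply,
      neg_zsmul, ← sub_eq_add_neg]
  have hhx : (rot α ^ n * F1 * (rot α ^ n)⁻¹) x = x := by
    rw [hT, hnx, sw_apply, hdx]
    unfold ind
    rw [if_neg hn1, hf_zero, add_zero, sub_add_cancel]
  have hhz : (rot α ^ n * F1 * (rot α ^ n)⁻¹) z = z + half := by
    rw [hT, hnz, sw_apply, hdx]
    unfold ind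
    rw [if_pos hn2, hf_one]; abel
  have h6 : F ((rot α ^ n * F1 * (rot α ^ n)⁻¹) x) = (rot α ^ n * F1 * (rot α ^ n)⁻¹) (F x) := by
    rw [← Equiv.Perm.mul_apply, hc n, Equiv.Perm.mul_apply]
  rw [hhx, ← hz, hhz] at h6
  exact half_ne_zero (left_eq_add.1 h6)

end core

end Pool.Agent.R291
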