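import Pool.Agent.R291.SolvCore

/-!
The parity contradiction.
-/

open Set

namespace Pool.Agent.R291

variable {α β : ℝ}

/-- `ZMod 2`-valued exponent of a fibrewise permutation. -/
lemma exists_exponent {F : Equiv.Perm S1} (hF : ∀ x, F x = x ∨ F x = x + half) :
    ∃ a : S1 → ZMod 2, (∀ x, F x = x + hf (a x)) ∧ ∀ x, a (x + half) = a x := by
  classical
  have h1 : ∀ x, ∃ e : ZMod 2, F x = x + hf e := by
    intro x
    rcases hF x with h | h
    · exact ⟨0, by rw [h, hf_zero, add_zero]⟩
    · exact ⟨1, by rw [h, hf_one]⟩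
  choose a ha using h1
  refine ⟨a, ha, fun x => ?_⟩
  have e1 := ha x
  have e2 := ha (x + half)
  have hne : F x ≠ F (x + half) := by
    intro h
    have := F.injective h
    exact half_ne_zero (left_eq_add.1 this)
  rcases zmod2_cases (a x) with h | h <;> rcases zmod2_cases (a (x + half)) with h' | h'
  · rw [h, h']
  · exfalso
    apply hne
    rw [e1, e2, h, h', hf_zero, hf_one, add_zero, add_assoc, half_add_half, add_zero]
  · exfalso
    apply hne
    rw [e1, e2, h, h', hf_zero, hf_one, add_zero]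
  · rw [h, h']

lemma sw_ne_iff {F : Equiv.Perm S1} {a : S1 → ZMod 2} (ha : ∀ x, F x = x + hf (a x)) (t : ℝ) (x : S1) :
    a x + ind t (x + x) ≠ 0 → F x ≠ sw t x := by
  intro h h2
  rw [ha, sw_apply] at h2
  have := hf_inj (add_left_cancel h2)
  apply h
  rw [this]
  rcases zmod2_cases (ind t (x + x)) with h | h
  · rw [h, add_zero]
  · rw [h]; decide

lemma double_coe (t : ℝ) : ((2 * t : ℝ) : S1) = (t : S1) + (t : S1) := by
  rw [← AddCircle.coe_add]; congr 1; ring

lemma zmod2_cancel {a b c d a' b' c' d' : ZMod 2} (h1 : a + b = c + d) (h2 : a' + b' = c' + d') :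
    (a + a') + (b + b') = (c + c') + (d + d') := by
  have : (a + a') + (b + b') = (a + b) + (a' + b') := by ring
  rw [this, h1, h2]; ring

/-- The core contradiction. -/
theorem core_contradiction (h : Indep α β) {F1 F2 : Equiv.Perm S1}
    (n1 : Near F1 (sw (2 * α))) (n2 : Near F2 (sw (2 * β)))
    (f1 : ∀ x, F1 x = x ∨ F1 x = x + half) (f2 : ∀ x, F2 x = x ∨ F2 x = x + half)
    (hA : F1 * (rot β * F1 * (rot β)⁻¹) = F2 * (rot α * F2 * (rot α)⁻¹))
    (hB : ∀ x, -F1 (-x) = F1 (x + α) - α) : False := by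
  classical
  obtain ⟨a1, ha1, hs1⟩ := exists_exponent f1
  obtain ⟨a2, ha2, hs2⟩ := exists_exponent f2
  have hs1' : ∀ x e, a1 (x + hf e) = a1 x := by
    intro x e
    rcases zmod2_cases e with rfl | rfl
    · rw [hf_zero, add_zero]
    · rw [hf_one, hs1]
  have hs2' : ∀ x e, a2 (x + hf e) = a2 x := by
    intro x e
    rcases zmod2_cases e with rfl | rfl
    · rw [hf_zero, add_zero]
    · rw [hf_one, hs2]
  -- the additive relation
  have hA' : ∀ x, a1 x + a1 (x - β) = a2 x + a2 (x - α) := by
    intro x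
    have h1 := congrArg (fun f : Equiv.Perm S1 => f x) hA
    simp only [Equiv.Perm.mul_apply, rot_apply, rot_inv_apply] at h1
    have e1 : F1 (x - β) + β = x + hf (a1 (x - β)) := by rw [ha1]; abel
    have e2 : F2 (x - α) + α = x + hf (a2 (x - α)) := by rw [ha2]; abel
    rw [e1, e2, ha1, ha2, hs1', hs2', add_assoc, add_assoc, ← hf_add, ← hf_add] at h1
    have := hf_inj (add_left_cancel h1)
    rw [add_comm, this, add_comm]
  have hB' : ∀ x, a1 (-x) = a1 (x + α) := by
    intro x
    have h1 := hB x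
    have e1 : -F1 (-x) = x + hf (a1 (-x)) := by rw [ha1, neg_add, neg_neg, neg_hf]
    have e2 : F1 (x + α) - α = x + hf (a1 (x + α)) := by rw [ha1]; abel
    rw [e1, e2] at h1
    exact hf_inj (add_left_cancel h1)
  -- the finitely supported functions
  let c1 : S1 → ZMod 2 := fun x => a1 x + ind (2 * α) (x + x)
  let c2 : S1 → ZMod 2 := fun x => a2 x + ind (2 * β) (x + x)
  have fc1 : {x | c1 x ≠ 0}.Finite := n1.subset fun x hx => sw_ne_iff ha1 _ x hx
  have fc2 : {x | c2 x ≠ 0}.Finite := n2.subset fun x hx => sw_ne_iff ha2 _ x hx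
  have hα := h.pos1
  have hβ := h.pos2
  have hlt := h.lt
  have rel1 : ∀ x, c1 x + c1 (x - β) = c2 x + c2 (x - α) := by
    intro x
    have h2 := ind_rel (a := 2 * α) (b := 2 * β) (by linarith) (by linarith) (by linarith) (x + x)
    have e1 : (x - (β : S1)) + (x - (β : S1)) = (x + x) - ((2 * β : ℝ) : S1) := by
      rw [double_coe]; abel
    have e2 : (x - (α : S1)) + (x - (α : S1)) = (x + x) - ((2 * α : ℝ) : S1) := by
      rw [double_coe]; abel
    show (a1 x + ind (2 * α) (x + x)) + (a1 (x - β) + ind (2 * α) ((x - β) + (x - β))) =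
      (a2 x + ind (2 * β) (x + x)) + (a2 (x - α) + ind (2 * β) ((x - α) + (x - α)))
    rw [e1, e2]
    exact zmod2_cancel (hA' x) h2
  have rel2 : ∀ x, c1 (-x) + c1 (x + α) = if x + x = 0 ∨ x + x = -((2 * α : ℝ) : S1) then 1 else 0 := by
    intro x
    have h2 := ind_refl (a := 2 * α) (by linarith) (by linarith) (x + x)
    have e1 : -x + -x = -(x + x) := by abel
    have e2 : (x + (α : S1)) + (x + (α : S1)) = (x + x) + ((2 * α : ℝ) : S1) := by
      rw [double_coe]; abel
    show (a1 (-x) + ind (2 * α) (-x + -x)) + (a1 (x + α) + ind (2 * α) ((x + α) + (x + α))) = _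
    rw [e1, e2, ← h2, hB']
    have h3 : ∀ u v w : ZMod 2, (u + v) + (u + w) = v + w := by decide
    exact h3 _ _ _
  -- line sums
  have hinjline : ∀ m : ℤ, Function.Injective (fun k : ℤ => k • (α : S1) + m • (β : S1)) := by
    intro m k k' hk
    exact h.zsmul_inj1 (add_right_cancel hk)
  have hline : ∀ (c : S1 → ZMod 2), {x | c x ≠ 0}.Finite → ∀ (m : ℤ) (w : S1),
      (Function.support (fun k : ℤ => c (k • (α : S1) + m • (β : S1) + w))).Finite := by
    intro c hc m w
    have : Function.Injective (fun k : ℤ => k • (α : S1) + m • (β : S1) + w) := by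
      intro k k' hk
      exact hinjline m (add_right_cancel hk)
    exact hc.preimage this.injOn
  let T : ℤ → ZMod 2 := fun m => ∑ᶠ k : ℤ, c1 (k • (α : S1) + m • (β : S1) + 0)
  have hT : ∀ m : ℤ, T (m - 1) = T m := by
    intro m
    have e0 : T (m - 1) = ∑ᶠ k : ℤ, c1 (k • (α : S1) + m • (β : S1) + (-β)) := by
      apply finsum_congr
      intro k
      congr 1
      rw [sub_zsmul, one_zsmul]; abel
    have e1 : T m + T (m - 1) = ∑ᶠ k : ℤ, (c2 (k • (α : S1) + m • (β : S1) + 0) + c2 (k • (α : S1) + m • (β : S1) + (-α))) := by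
      rw [e0, ← finsum_add_distrib (hline c1 fc1 m 0) (hline c1 fc1 m (-β))]
      apply finsum_congr
      intro k
      have := rel1 (k • (α : S1) + m • (β : S1))
      rw [add_zero, ← sub_eq_add_neg, ← sub_eq_add_neg]
      exact this
    have e2 : ∑ᶠ k : ℤ, c2 (k • (α : S1) + m • (β : S1) + (-α)) = ∑ᶠ k : ℤ, c2 (k • (α : S1) + m • (β : S1) + 0) := by
      rw [← finsum_comp_equiv (Equiv.subRight (1 : ℤ))
        (f := fun k : ℤ => c2 (k • (α : S1) + m • (β : S1) + 0))]
      apply finsum_congr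
      intro k
      congr 1
      show _ = (k - 1) • (α : S1) + m • (β : S1) + 0
      rw [sub_zsmul, one_zsmul]; abel
    rw [finsum_add_distrib (hline c2 fc2 m 0) (hline c2 fc2 m (-α)), e2] at e1
    have h3 : ∀ u v w : ZMod 2, u + v = w + w → v = u := by decide
    exact h3 _ _ _ e1
  have hT' : ∀ n : ℕ, T n = T 0 := by
    intro n
    induction n with
    | zero => rfl
    | succ n ih =>
      rw [← ih]
      have := hT ((n + 1 : ℕ) : ℤ)
      rw [← this]; congr 1; push_cast; ring
  -- vanishing far away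
  have hT0 : T 0 = 0 := by
    have hfin : {n : ℕ | ∃ k : ℤ, c1 (k • (α : S1) + (n : ℤ) • (β : S1) + 0) ≠ 0}.Finite := by
      have hf1 := fc1.to_subtype
      choose! k hk using (fun n : ℕ => fun (hn : n ∈ {n : ℕ | ∃ k : ℤ, c1 (k • (α : S1) + (n : ℤ) • (β : S1) + 0) ≠ 0}) => hn)
      have hinj : InjOn (fun n : ℕ => k n • (α : S1) + (n : ℤ) • (β : S1) + 0)
          {n : ℕ | ∃ k : ℤ, c1 (k • (α : S1) + (n : ℤ) • (β : S1) + 0) ≠ 0} := by
        intro n _ n' _ hnn
        have h1 : (k n - k n') • (α : S1) + ((n : ℤ) - n') • (β : S1) = 0 := by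
          rw [sub_zsmul, sub_zsmul]
          have h2 : k n • (α : S1) + (n : ℤ) • (β : S1) = k n' • (α : S1) + (n' : ℤ) • (β : S1) :=
            add_right_cancel hnn
          have h3 : k n • (α : S1) + -(k n' • (α : S1)) + ((n : ℤ) • (β : S1) + -((n' : ℤ) • (β : S1))) =
            (k n • (α : S1) + (n : ℤ) • (β : S1)) - (k n' • (α : S1) + (n' : ℤ) • (β : S1)) := by abel
          rw [h3, h2, sub_self]
        have := (h.ind _ _ h1).2
        omega
      refine Set.Finite.of_finite_image (fc1.subset ?_) hinj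
      rintro _ ⟨n, hn, rfl⟩
      exact hk n hn
    obtain ⟨n, hn⟩ := hfin.exists_notMem
    rw [← hT' n]
    have : ∀ k : ℤ, c1 (k • (α : S1) + (n : ℤ) • (β : S1) + 0) = 0 := by
      intro k
      by_contra h5
      exact hn ⟨k, h5⟩
    show ∑ᶠ k : ℤ, c1 (k • (α : S1) + (n : ℤ) • (β : S1) + 0) = 0
    rw [finsum_congr this, finsum_zero]
  -- the sum over the line through `0`
  let d : ℤ → ZMod 2 := fun k => c1 (k • (α : S1))
  have hd : (Function.support d).Finite := by
    have : Function.Injective (fun k : ℤ => k • (α : S1)) := fun k k' hk => h.zsmul_inj1 hk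
    exact fc1.preimage this.injOn
  have hTd : T 0 = ∑ᶠ k : ℤ, d k := by
    apply finsum_congr
    intro k
    show _ = c1 (k • (α : S1))
    rw [zero_zsmul, add_zero, add_zero]
  have h2a : ∀ k : ℤ, k • (α : S1) + k • (α : S1) = (2 * k) • (α : S1) := by
    intro k
    rw [two_mul, add_zsmul]
  have hdrel : ∀ j : ℤ, d j + d (1 - j) = if j = 1 ∨ j = 0 then 1 else 0 := by
    intro j
    have h1 := rel2 ((j - 1) • (α : S1))
    have e1 : -((j - 1) • (α : S1)) = (1 - j) • (α : S1) := by rw [← neg_zsmul]; congr 1; ring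
    have e2 : (j - 1) • (α : S1) + α = j • (α : S1) := by rw [sub_zsmul, one_zsmul]; abel
    rw [e1, e2, h2a] at h1
    show c1 (j • (α : S1)) + c1 ((1 - j) • (α : S1)) = _
    rw [add_comm, h1]
    have e3 : (2 * (j - 1)) • (α : S1) = 0 ↔ j = 1 := by
      constructor
      · intro h2
        have h3 : (2 * (j - 1)) • (α : S1) = (0 : ℤ) • (α : S1) := by rw [h2, zero_zsmul]
        have := h.zsmul_inj1 h3
        omega
      · rintro rfl
        simp
    have e4 : (2 * (j - 1)) • (α : S1) = -((2 * α : ℝ) : S1) ↔ j = 0 := by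
      have e5 : -((2 * α : ℝ) : S1) = (-2 : ℤ) • (α : S1) := by
        rw [double_coe, neg_zsmul, two_zsmul]
      rw [e5]
      constructor
      · intro h2
        have := h.zsmul_inj1 h2
        omega
      · rintro rfl
        rfl
    simp only [e3, e4]
  let p : ℤ → ZMod 2 := fun j => if 1 ≤ j then d j else 0
  let q : ℤ → ZMod 2 := fun j => if 1 ≤ j then 0 else d j
  have hp : (Function.support p).Finite := by
    refine hd.subset fun j hj => ?_
    intro h5
    apply hj
    show (if 1 ≤ j then d j else 0) = 0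
    rw [h5]; simp
  have hq : (Function.support q).Finite := by
    refine hd.subset fun j hj => ?_
    intro h5
    apply hj
    show (if 1 ≤ j then 0 else d j) = 0
    rw [h5]; simp
  have hpq : ∑ᶠ k : ℤ, d k = ∑ᶠ k : ℤ, p k + ∑ᶠ k : ℤ, q k := by
    rw [← finsum_add_distrib hp hq]
    apply finsum_congr
    intro k
    show d k = (if 1 ≤ k then d k else 0) + (if 1 ≤ k then 0 else d k)
    split_ifs <;> simp
  have hq' : ∑ᶠ k : ℤ, q k = ∑ᶠ k : ℤ, q (1 - k) :=
    (finsum_comp_equiv (Equiv.subLeft (1 : ℤ)) (f := q)).symm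
  have hq'' : (Function.support (fun k : ℤ => q (1 - k))).Finite := by
    have : Function.Injective (fun k : ℤ => 1 - k) := sub_right_injective
    exact hq.preimage this.injOn
  have hfinal : ∑ᶠ k : ℤ, d k = 1 := by
    rw [hpq, hq', ← finsum_add_distrib hp hq'']
    have : ∀ k : ℤ, p k + q (1 - k) = if k = 1 then 1 else 0 := by
      intro k
      show (if 1 ≤ k then d k else 0) + (if 1 ≤ 1 - k then 0 else d (1 - k)) = _
      by_cases hk : 1 ≤ k
      · rw [if_pos hk, if_neg (by omega), hdrel]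
        by_cases hk1 : k = 1
        · rw [if_pos (Or.inl hk1), if_pos hk1]
        · rw [if_neg (by omega), if_neg hk1]
      · rw [if_neg hk, if_pos (by omega), if_neg (by omega), add_zero]
    rw [finsum_congr this, finsum_eq_single _ (1 : ℤ)]
    · simp
    · intro x hx; rw [if_neg hx]
  rw [hT0, hfinal] at hTd
  exact absurd hTd (by decide)

end Pool.Agent.R291
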