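import Pool.Agent.R291.SolvCore2

/-!
The group generated by two rotations, a reflection and two swaps; it is not realizable.
-/

open Set

namespace Pool.Agent.R291

variable {α β : ℝ}

lemma near_iff {Y : Type} {f g : Equiv.Perm Y} : cls Y f = cls Y g ↔ Near f g := by
  have h1 : cls Y f = cls Y g ↔ f⁻¹ * g ∈ finSupp Y := QuotientGroup.eq
  rw [h1]
  have h2 : {y | (f⁻¹ * g) y ≠ y} = {y | f y ≠ g y} := by
    ext y
    rw [Set.mem_ofPred_eq, Set.mem_ofPred_eq, Equiv.Perm.mul_apply, Ne, Equiv.Perm.inv_eq_iff_eq]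
    constructor
    · exact fun h h' => h h'.symm
    · exact fun h h' => h h'.symm
  show {y | (f⁻¹ * g) y ≠ y}.Finite ↔ _
  rw [h2]
  rfl

/-- The generators in the group of permutations. -/
def gens (α β : ℝ) : Set (Equiv.Perm S1) :=
  {rot α, rot β, refl0, sw (2 * α), sw (2 * β)}

/-- The group. -/
noncomputable def Gam (α β : ℝ) : Subgroup (NearPerm S1) := (Subgroup.closure (gens α β)).map (cls S1)

lemma sw_conj_apply (a t : ℝ) (x : S1) : (rot t * sw a * (rot t)⁻¹) x = x + hf (ind a ((x - t) + (x - t))) := by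
  rw [Equiv.Perm.mul_apply, Equiv.Perm.mul_apply, rot_inv_apply, rot_apply, sw_apply]; abel

lemma sw_conjz_apply (a t : ℝ) (n : ℤ) (x : S1) :
    (rot t ^ n * sw a * (rot t ^ n)⁻¹) x = x + hf (ind a ((x - n • (t : S1)) + (x - n • (t : S1)))) := by
  rw [Equiv.Perm.mul_apply, Equiv.Perm.mul_apply, rot_zpow_apply, ← zpow_neg, rot_zpow_apply,
    neg_zsmul, ← sub_eq_add_neg, sw_apply]
  abel

lemma fib_comm {f g : Equiv.Perm S1} {u v : S1 → ZMod 2} (hf' : ∀ x, f x = x + hf (u (x + x)))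
    (hg : ∀ x, g x = x + hf (v (x + x))) (x : S1) : (f * g) x = x + hf (u (x + x) + v (x + x)) := by
  rw [Equiv.Perm.mul_apply, hf', hg, double_add_hf, hf_add]
  abel

lemma sw_comm (a b t : ℝ) (n : ℤ) :
    sw a * (rot t ^ n * sw b * (rot t ^ n)⁻¹) = (rot t ^ n * sw b * (rot t ^ n)⁻¹) * sw a := by
  have h1 : ∀ x, (rot t ^ n * sw b * (rot t ^ n)⁻¹) x =
      x + hf ((fun y => ind b (y - (n • (t : S1) + n • (t : S1)))) (x + x)) := by
    intro x
    rw [sw_conjz_apply]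
    congr 3
    abel
  ext x
  rw [fib_comm (u := ind a) (v := fun y => ind b (y - (n • (t : S1) + n • (t : S1)))) (fun x => sw_apply a x) h1 x,
    fib_comm (u := fun y => ind b (y - (n • (t : S1) + n • (t : S1)))) (v := ind a) h1 (fun x => sw_apply a x) x]
  rw [add_comm (ind a (x + x))]

lemma sw_rel (h : Indep α β) :
    sw (2 * α) * (rot β * sw (2 * α) * (rot β)⁻¹) = sw (2 * β) * (rot α * sw (2 * β) * (rot α)⁻¹) := by
  have hα := h.pos1
  have hβ := h.pos2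
  have hlt := h.lt
  have h1 : ∀ a t x, (rot t * sw a * (rot t)⁻¹) x =
      x + hf ((fun y => ind a (y - ((2 * t : ℝ) : S1))) (x + x)) := by
    intro a t x
    rw [sw_conj_apply, double_coe]
    congr 3
    abel
  ext x
  rw [fib_comm (u := ind (2 * α)) (v := fun y => ind (2 * α) (y - ((2 * β : ℝ) : S1)))
      (fun x => sw_apply _ x) (h1 _ _) x,
    fib_comm (u := ind (2 * β)) (v := fun y => ind (2 * β) (y - ((2 * α : ℝ) : S1)))
      (fun x => sw_apply _ x) (h1 _ _) x]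
  rw [ind_rel (by linarith) (by linarith) (by linarith)]

lemma sw_refl (h : Indep α β) :
    Near (refl0 * sw (2 * α) * refl0⁻¹) ((rot α)⁻¹ * sw (2 * α) * rot α) := by
  have hα := h.pos1
  have hβ := h.pos2
  have hlt := h.lt
  have hfin : ∀ w : S1, {x : S1 | x + x = w}.Finite := by
    intro w
    by_cases hw : ∃ x0 : S1, x0 + x0 = w
    · obtain ⟨x0, hx0⟩ := hw
      refine (Set.toFinite {x0, x0 + half}).subset fun x hx => ?_
      have hx' : x + x = x0 + x0 := by rw [hx0]; exact hx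
      exact eq_of_add_self hx'
    · rw [show {x : S1 | x + x = w} = ∅ from ?_]
      · exact Set.finite_empty
      · ext x
        simp only [Set.mem_ofPred_eq, Set.mem_empty_iff_false, iff_false]
        exact fun hx => hw ⟨x, hx⟩
  refine ((hfin 0).union (hfin (-((2 * α : ℝ) : S1)))).subset fun x hx => ?_
  by_contra hcon
  apply hx
  have h2 := ind_refl (a := 2 * α) (by linarith) (by linarith) (x + x)
  have hcon' : ¬ (x + x = 0 ∨ x + x = -((2 * α : ℝ) : S1)) := hcon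
  rw [if_neg hcon'] at h2
  have e1 : (refl0 * sw (2 * α) * refl0⁻¹) x = x + hf (ind (2 * α) (-(x + x))) := by
    have : (refl0⁻¹ : Equiv.Perm S1) x = -x := rfl
    rw [Equiv.Perm.mul_apply, Equiv.Perm.mul_apply, this, refl0_apply, sw_apply, neg_add, neg_neg, neg_hf]
    congr 3
    abel
  have e2 : ((rot α)⁻¹ * sw (2 * α) * rot α) x = x + hf (ind (2 * α) ((x + x) + ((2 * α : ℝ) : S1))) := by
    rw [Equiv.Perm.mul_apply, Equiv.Perm.mul_apply, rot_apply, sw_apply, rot_inv_apply, double_coe]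
    rw [show (x + (α : S1)) + (x + (α : S1)) = (x + x) + ((α : S1) + (α : S1)) by abel]
    abel
  rw [e1, e2]
  have h3 : ∀ u v : ZMod 2, u + v = 0 → u = v := by decide
  rw [h3 _ _ h2]

lemma rot_comm (a b : ℝ) : rot a * rot b = rot b * rot a := by
  ext x
  rw [Equiv.Perm.mul_apply, Equiv.Perm.mul_apply, rot_apply, rot_apply, rot_apply, rot_apply]
  abel

lemma refl_rot (a : ℝ) : refl0 * rot a * refl0⁻¹ = (rot a)⁻¹ := by
  ext x
  have : (refl0⁻¹ : Equiv.Perm S1) x = -x := rfl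
  rw [Equiv.Perm.mul_apply, Equiv.Perm.mul_apply, this, rot_apply, refl0_apply, rot_inv_apply]
  abel

/-- **The group is not realizable.** -/
theorem not_realizable (h : Indep α β) {Λ : Subgroup (Equiv.Perm S1)}
    (hΛ : Set.BijOn (cls S1) (Λ : Set (Equiv.Perm S1)) (Gam α β)) : False := by
  have hlift : ∀ g ∈ gens α β, ∃ f ∈ Λ, Near f g := by
    intro g hg
    have h1 : cls S1 g ∈ (Gam α β : Set (NearPerm S1)) :=
      Subgroup.mem_map_of_mem _ (Subgroup.subset_closure hg)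
    obtain ⟨f, hf, hfg⟩ := hΛ.surjOn h1
    exact ⟨f, hf, near_iff.1 hfg⟩
  have heq : ∀ f ∈ Λ, ∀ g ∈ Λ, Near f g → f = g := by
    intro f hf g hg hfg
    exact hΛ.injOn hf hg (near_iff.2 hfg)
  obtain ⟨R1, mR1, nR1⟩ := hlift (rot α) (by simp [gens])
  obtain ⟨R2, mR2, nR2⟩ := hlift (rot β) (by simp [gens])
  obtain ⟨s, ms, ns⟩ := hlift refl0 (by simp [gens])
  obtain ⟨F1, mF1, nF1⟩ := hlift (sw (2 * α)) (by simp [gens])
  obtain ⟨F2, mF2, nF2⟩ := hlift (sw (2 * β)) (by simp [gens])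
  have nzpow : ∀ n : ℤ, Near (R1 ^ n) (rot α ^ n) := by
    intro n
    rw [← near_iff, map_zpow, map_zpow, near_iff.2 nR1]
  -- exact relations
  have c12 : R1 * R2 = R2 * R1 := by
    refine heq _ (Λ.mul_mem mR1 mR2) _ (Λ.mul_mem mR2 mR1) ?_
    refine (nR1.mul nR2).trans ?_
    rw [rot_comm]
    exact (nR2.mul nR1).symm
  have hS : Setup (rot α) (rot β) R1 R2 ∅ := by
    refine ⟨rot_comm _ _, c12, nR1, nR2, Set.finite_empty, by simp, by simp, ?_⟩
    intro y _ m n hmn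
    rw [rot_zpow_apply, rot_zpow_apply] at hmn
    have h2 : m • (α : S1) + n • (β : S1) = 0 := by
      have h3 : y + (m • (α : S1) + n • (β : S1)) = y + 0 := by
        rw [add_zero]
        refine Eq.trans ?_ hmn
        abel
      exact add_left_cancel h3
    exact h.ind m n h2
  have cs : s * R1 * s⁻¹ = R1⁻¹ := by
    refine heq _ (Λ.mul_mem (Λ.mul_mem ms mR1) (Λ.inv_mem ms)) _ (Λ.inv_mem mR1) ?_
    refine ((ns.mul nR1).mul ns.inv).trans ?_
    rw [refl_rot]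
    exact nR1.inv.symm
  have cF : ∀ {F : Equiv.Perm S1}, F ∈ Λ → ∀ {a : ℝ}, Near F (sw a) → ∀ n : ℤ,
      F * (R1 ^ n * F1 * (R1 ^ n)⁻¹) = (R1 ^ n * F1 * (R1 ^ n)⁻¹) * F := by
    intro F mF a nF n
    have mR : R1 ^ n * F1 * (R1 ^ n)⁻¹ ∈ Λ :=
      Λ.mul_mem (Λ.mul_mem (Λ.zpow_mem mR1 n) mF1) (Λ.inv_mem (Λ.zpow_mem mR1 n))
    have nR : Near (R1 ^ n * F1 * (R1 ^ n)⁻¹) (rot α ^ n * sw (2 * α) * (rot α ^ n)⁻¹) :=
      ((nzpow n).mul nF1).mul (nzpow n).inv
    refine heq _ (Λ.mul_mem mF mR) _ (Λ.mul_mem mR mF) ?_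
    refine (nF.mul nR).trans ?_
    rw [sw_comm]
    exact (nR.mul nF).symm
  have cA : F1 * (R2 * F1 * R2⁻¹) = F2 * (R1 * F2 * R1⁻¹) := by
    refine heq _ (Λ.mul_mem mF1 (Λ.mul_mem (Λ.mul_mem mR2 mF1) (Λ.inv_mem mR2))) _
      (Λ.mul_mem mF2 (Λ.mul_mem (Λ.mul_mem mR1 mF2) (Λ.inv_mem mR1))) ?_
    refine (nF1.mul ((nR2.mul nF1).mul nR2.inv)).trans ?_
    rw [sw_rel h]
    exact (nF2.mul ((nR1.mul nF2).mul nR1.inv)).symm
  have cB : s * F1 * s⁻¹ = R1⁻¹ * F1 * R1 := by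
    refine heq _ (Λ.mul_mem (Λ.mul_mem ms mF1) (Λ.inv_mem ms)) _
      (Λ.mul_mem (Λ.mul_mem (Λ.inv_mem mR1) mF1) mR1) ?_
    refine ((ns.mul nF1).mul ns.inv).trans ?_
    refine (sw_refl h).trans ?_
    exact ((nR1.inv.mul nF1).mul nR1).symm
  -- conjugation
  obtain ⟨Φ, nΦ, hΦ1, hΦ2⟩ := hS.rigid
  have e1 : Φ * R1 * Φ⁻¹ = rot α := Equiv.ext fun y => hΦ1 y (by simp)
  have e2 : Φ * R2 * Φ⁻¹ = rot β := Equiv.ext fun y => hΦ2 y (by simp)
  let c : Equiv.Perm S1 →* Equiv.Perm S1 := (MulAut.conj Φ).toMonoidHom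
  have hc : ∀ g, c g = Φ * g * Φ⁻¹ := fun g => rfl
  have hc1 : c R1 = rot α := e1
  have hc2 : c R2 = rot β := e2
  have hnear : ∀ {f g : Equiv.Perm S1}, Near f g → Near (c f) g := by
    intro f g hfg
    have h1 : Near (Φ * f * Φ⁻¹) (1 * g * 1⁻¹) := (nΦ.mul hfg).mul nΦ.inv
    rw [inv_one, one_mul, mul_one] at h1
    exact h1
  have ks := congrArg c cs
  have kA := congrArg c cA
  have kB := congrArg c cB
  simp only [map_mul, map_inv, hc1, hc2] at ks kA kB
  have kF : ∀ {F : Equiv.Perm S1}, F ∈ Λ → ∀ {a : ℝ}, Near F (sw a) → ∀ n : ℤ,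
      c F * (rot α ^ n * c F1 * (rot α ^ n)⁻¹) = (rot α ^ n * c F1 * (rot α ^ n)⁻¹) * c F := by
    intro F mF a nF n
    have := congrArg c (cF mF nF n)
    simp only [map_mul, map_inv, map_zpow, hc1] at this
    exact this
  have hs : ∀ x, c s x = -x := eq_refl0 h (hnear ns) ks
  have f1 := fiberwise h (hnear nF1) (kF mF1 nF1)
  have f2 := fiberwise h (hnear nF1) (kF mF2 nF2)
  refine core_contradiction h (hnear nF1) (hnear nF2) f1 f2 kA ?_
  intro x
  have h1 := congrArg (fun f : Equiv.Perm S1 => f x) kB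
  simp only [Equiv.Perm.mul_apply, rot_apply, rot_inv_apply] at h1
  have h2 : (c s)⁻¹ x = -x := by
    rw [Equiv.Perm.inv_eq_iff_eq, hs, neg_neg]
  rw [h2, hs] at h1
  exact h1

end Pool.Agent.R291
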