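import Pool.Agent.R291.SolvProps

/-!
The elements of the group are piecewise isometric; existence of independent rotation numbers.
-/

open Set

namespace Pool.Agent.R291

variable {α β : ℝ}

lemma IsPC.mul {f g : Equiv.Perm S1} (hf : IsPC f) (hg : IsPC g) : IsPC (f * g) := by
  unfold IsPC at *
  refine (hg.union (hf.preimage g.injective.injOn)).subset fun x hx => ?_
  by_contra hcon
  rw [Set.mem_union, not_or] at hcon
  obtain ⟨h1, h2⟩ := hcon
  simp only [Set.mem_ofPred_eq, not_not, Set.mem_preimage] at h1 h2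
  exact hx (ContinuousAt.comp (g := f) (f := g) h2 h1)

lemma IsIET.mul {f g : Equiv.Perm S1} (hf : IsIET f) (hg : IsIET g) : IsIET (f * g) := by
  obtain ⟨P, hP, hPf⟩ := hf
  obtain ⟨Q, hQ, hQg⟩ := hg
  refine ⟨Q ∪ g ⁻¹' P, hQ.union (hP.preimage g.injective.injOn), fun C hC hpre => ?_⟩
  obtain ⟨c, hc⟩ := hQg C (fun x hx h => hC hx (Or.inl h)) hpre
  have hcont : ContinuousOn g C := by
    rcases hc with hc | hc
    · exact ContinuousOn.congr (f := fun x => x + c) (by fun_prop) (fun x hx => hc x hx)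
    · exact ContinuousOn.congr (f := fun x => -x + c) (by fun_prop) (fun x hx => hc x hx)
  obtain ⟨d, hd⟩ := hPf (g '' C) (by
    rintro _ ⟨x, hx, rfl⟩ h
    exact hC hx (Or.inr h)) (hpre.image _ hcont)
  rcases hc with hc | hc <;> rcases hd with hd | hd
  · refine ⟨c + d, Or.inl fun x hx => ?_⟩
    rw [Equiv.Perm.mul_apply, hd _ ⟨x, hx, rfl⟩, hc x hx]; abel
  · refine ⟨-c + d, Or.inr fun x hx => ?_⟩
    rw [Equiv.Perm.mul_apply, hd _ ⟨x, hx, rfl⟩, hc x hx]; abel
  · refine ⟨c + d, Or.inr fun x hx => ?_⟩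
    rw [Equiv.Perm.mul_apply, hd _ ⟨x, hx, rfl⟩, hc x hx]; abel
  · refine ⟨-c + d, Or.inl fun x hx => ?_⟩
    rw [Equiv.Perm.mul_apply, hd _ ⟨x, hx, rfl⟩, hc x hx]; abel

/-- Permutations which are, together with their inverses, piecewise isometric and piecewise
continuous. -/
def GI : Subgroup (Equiv.Perm S1) where
  carrier := {f | (IsIET f ∧ IsPC f) ∧ (IsIET f⁻¹ ∧ IsPC f⁻¹)}
  mul_mem' := by
    rintro f g ⟨⟨h1, h2⟩, h3, h4⟩ ⟨⟨k1, k2⟩, k3, k4⟩
    refine ⟨⟨h1.mul k1, h2.mul k2⟩, ?_, ?_⟩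
    · rw [mul_inv_rev]; exact k3.mul h3
    · rw [mul_inv_rev]; exact k4.mul h4
  one_mem' := by
    have h1 : IsIET (1 : Equiv.Perm S1) :=
      ⟨∅, Set.finite_empty, fun C _ _ => ⟨0, Or.inl fun x _ => by rw [add_zero]; rfl⟩⟩
    have h2 : IsPC (1 : Equiv.Perm S1) := by
      have : {x : S1 | ¬ ContinuousAt (1 : Equiv.Perm S1) x} = ∅ := by
        ext x
        simp only [Set.mem_ofPred_eq, Set.mem_empty_iff_false, iff_false, not_not]
        exact continuousAt_id
      unfold IsPC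
      rw [this]; exact Set.finite_empty
    refine ⟨⟨h1, h2⟩, ?_⟩
    rw [inv_one]
    exact ⟨h1, h2⟩
  inv_mem' := by
    rintro f ⟨h1, h2⟩
    refine ⟨h2, ?_⟩
    rw [inv_inv]
    exact h1

lemma double_finite (w : S1) : {x : S1 | x + x = w}.Finite := by
  by_cases hw : ∃ x0 : S1, x0 + x0 = w
  · obtain ⟨x0, hx0⟩ := hw
    refine (Set.toFinite {x0, x0 + half}).subset fun x hx => ?_
    have hx' : x + x = x0 + x0 := by rw [hx0]; exact hx
    exact eq_of_add_self hx'
  · rw [show {x : S1 | x + x = w} = ∅ from ?_]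
    · exact Set.finite_empty
    · ext x
      simp only [Set.mem_ofPred_eq, Set.mem_empty_iff_false, iff_false]
      exact fun hx => hw ⟨x, hx⟩

/-- The open arc. -/
def arc (a b : ℝ) : Set S1 := {x | x + x ∈ (fun t : ℝ => (t : S1)) '' Ioo a b}

lemma arc_open (a b : ℝ) : IsOpen (arc a b) := by
  have h1 : IsOpen ((fun t : ℝ => (t : S1)) '' Ioo a b) := QuotientAddGroup.isOpenMap_coe _ isOpen_Ioo
  exact h1.preimage (by fun_prop)

lemma arc_ind1 {a : ℝ} (ha1 : a < 1) {x : S1} (hx : x ∈ arc 0 a) : ind a (x + x) = 1 := by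
  obtain ⟨t, ⟨h1, h2⟩, h3⟩ := hx
  have h3' : (t : S1) = x + x := h3
  unfold ind
  rw [← h3', fr_coe t h1.le (by linarith), if_pos h2]

lemma arc_ind0 {a : ℝ} (ha : 0 < a) {x : S1} (hx : x ∈ arc a 1) : ind a (x + x) = 0 := by
  obtain ⟨t, ⟨h1, h2⟩, h3⟩ := hx
  have h3' : (t : S1) = x + x := h3
  unfold ind
  rw [← h3', fr_coe t (by linarith) h2, if_neg (by linarith)]

lemma arc_cover {a : ℝ} (x : S1) (h0 : x + x ≠ 0) (ha : x + x ≠ (a : S1)) :
    x ∈ arc 0 a ∨ x ∈ arc a 1 := by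
  have h1 := fr_nonneg (x + x)
  have h2 := fr_lt_one (x + x)
  have h3 : fr (x + x) ≠ 0 := by
    intro h
    apply h0
    rw [← coe_fr (x + x), h]; rfl
  have h4 : fr (x + x) ≠ a := by
    intro h
    apply ha
    rw [← coe_fr (x + x), h]
  rcases lt_or_gt_of_ne h4 with h5 | h5
  · exact Or.inl ⟨fr (x + x), ⟨lt_of_le_of_ne h1 (Ne.symm h3), h5⟩, coe_fr _⟩
  · exact Or.inr ⟨fr (x + x), ⟨h5, h2⟩, coe_fr _⟩

lemma sw_inv (a : ℝ) : (sw a)⁻¹ = sw a := rfl

lemma sw_IET {a : ℝ} (ha : 0 < a) (ha1 : a < 1) : IsIET (sw a) := by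
  refine ⟨{x | x + x = 0} ∪ {x | x + x = (a : S1)}, (double_finite _).union (double_finite _),
    fun C hC hpre => ?_⟩
  have hcov : C ⊆ arc 0 a ∪ arc a 1 := by
    intro x hx
    have h1 := hC hx
    exact arc_cover x (fun h => h1 (Or.inl h)) (fun h => h1 (Or.inr h))
  have hdis : C ∩ (arc 0 a ∩ arc a 1) = ∅ := by
    ext x
    simp only [Set.mem_inter_iff, Set.mem_empty_iff_false, iff_false, not_and]
    intro _ h1 h2
    have e1 := arc_ind1 ha1 h1
    rw [arc_ind0 ha h2] at e1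
    exact absurd e1 (by decide)
  rcases (isPreconnected_iff_subset_of_disjoint.1 hpre) _ _ (arc_open 0 a) (arc_open a 1) hcov hdis with h | h
  · exact ⟨half, Or.inl fun x hx => by rw [sw_apply, arc_ind1 ha1 (h hx), hf_one]⟩
  · exact ⟨0, Or.inl fun x hx => by rw [sw_apply, arc_ind0 ha (h hx), hf_zero]⟩

lemma sw_PC {a : ℝ} (ha : 0 < a) (ha1 : a < 1) : IsPC (sw a) := by
  refine ((double_finite 0).union (double_finite (a : S1))).subset fun x hx => ?_
  by_contra hcon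
  rw [Set.mem_union, not_or] at hcon
  apply hx
  rcases arc_cover x hcon.1 hcon.2 with h | h
  · have h1 : ContinuousAt (fun y : S1 => y + half) x := by fun_prop
    refine h1.congr ?_
    filter_upwards [(arc_open 0 a).mem_nhds h] with y hy
    rw [sw_apply, arc_ind1 ha1 hy, hf_one]
  · have h1 : ContinuousAt (fun y : S1 => y) x := continuousAt_id
    refine h1.congr ?_
    filter_upwards [(arc_open a 1).mem_nhds h] with y hy
    rw [sw_apply, arc_ind0 ha hy, hf_zero, add_zero]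

lemma pc_of_continuous {f : Equiv.Perm S1} (h : Continuous f) : IsPC f := by
  have : {x : S1 | ¬ ContinuousAt f x} = ∅ := by
    ext x
    simp only [Set.mem_ofPred_eq, Set.mem_empty_iff_false, iff_false, not_not]
    exact h.continuousAt
  unfold IsPC
  rw [this]; exact Set.finite_empty

lemma rot_mem (t : ℝ) : rot t ∈ GI := by
  refine ⟨⟨⟨∅, Set.finite_empty, fun C _ _ => ⟨(t : S1), Or.inl fun x _ => rot_apply t x⟩⟩, ?_⟩,
    ⟨∅, Set.finite_empty, fun C _ _ => ⟨-(t : S1), Or.inl fun x _ => by rw [rot_inv_apply]; abel⟩⟩, ?_⟩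
  · exact pc_of_continuous (f := rot t) (by
      have : (⇑(rot t) : S1 → S1) = fun x => x + (t : S1) := rfl
      rw [this]; fun_prop)
  · apply pc_of_continuous
    have : (⇑(rot t)⁻¹ : S1 → S1) = fun x => x - (t : S1) := by
      ext x; exact rot_inv_apply t x
    rw [this]; fun_prop

lemma refl0_mem : refl0 ∈ GI := by
  have h1 : IsIET refl0 := ⟨∅, Set.finite_empty, fun C _ _ => ⟨0, Or.inr fun x _ => by
    rw [refl0_apply, add_zero]⟩⟩
  have h2 : IsPC refl0 := by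
    apply pc_of_continuous
    have : (⇑refl0 : S1 → S1) = fun x => -x := rfl
    rw [this]; fun_prop
  have h3 : refl0⁻¹ = refl0 := rfl
  refine ⟨⟨h1, h2⟩, ?_⟩
  rw [h3]
  exact ⟨h1, h2⟩

lemma gens_GI (h : Indep α β) : gens α β ⊆ GI := by
  have hα := h.pos1
  have hβ := h.pos2
  have hlt := h.lt
  rintro g hg
  simp only [gens, Set.mem_insert_iff, Set.mem_singleton_iff] at hg
  have hsw : ∀ a : ℝ, 0 < a → a < 1 → sw a ∈ GI := fun a h0 h1 =>
    ⟨⟨sw_IET h0 h1, sw_PC h0 h1⟩, by rw [sw_inv]; exact ⟨sw_IET h0 h1, sw_PC h0 h1⟩⟩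
  rcases hg with rfl | rfl | rfl | rfl | rfl
  · exact rot_mem _
  · exact rot_mem _
  · exact refl0_mem
  · exact hsw _ (by linarith) (by linarith)
  · exact hsw _ (by linarith) (by linarith)

lemma Gam_rep (h : Indep α β) {γ : NearPerm S1} (hγ : γ ∈ Gam α β) :
    ∃ f : Equiv.Perm S1, (IsIET f ∧ IsPC f) ∧ cls S1 f = γ := by
  obtain ⟨f, hf, rfl⟩ := hγ
  have : f ∈ GI := (Subgroup.closure_le _).2 (gens_GI h) hf
  exact ⟨f, this.1, rfl⟩

/-- Independent rotation numbers exist. -/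
theorem exists_indep : ∃ α β : ℝ, Indep α β := by
  have h2 : (0 : ℝ) < √2 := by positivity
  have h3 : (0 : ℝ) < √3 := by positivity
  have h2s : √2 * √2 = (2 : ℝ) := Real.mul_self_sqrt (by norm_num)
  have h3s : √3 * √3 = (3 : ℝ) := Real.mul_self_sqrt (by norm_num)
  have h2l : √2 < 2 := by nlinarith
  have h3l : √3 < 2 := by nlinarith
  refine ⟨√2 / 8, √3 / 8, by positivity, by positivity, by linarith, ?_⟩
  intro m n hmn
  have h1 : ((m * (√2 / 8) + n * (√3 / 8) : ℝ) : S1) = 0 := by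
    rw [AddCircle.coe_add, ← zsmul_eq_mul, ← zsmul_eq_mul, AddCircle.coe_zsmul, AddCircle.coe_zsmul]
    exact hmn
  rw [AddCircle.coe_eq_zero_iff] at h1
  obtain ⟨k, hk⟩ := h1
  rw [zsmul_eq_mul, mul_one] at hk
  have hk' : (m : ℝ) * √2 + n * √3 = 8 * k := by linarith
  have h6 : Irrational √(6 : ℝ) := by
    have := (irrational_sqrt_natCast_iff (n := 6)).2 (by
      rintro ⟨k, hk⟩
      have : k ≤ 3 := by nlinarith
      interval_cases k <;> omega)
    exact_mod_cast this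
  have h23 : √2 * √3 = √(6 : ℝ) := by
    rw [← Real.sqrt_mul (by norm_num)]; norm_num
  have hsq : 2 * (m : ℝ) * n * √6 = 64 * k ^ 2 - 2 * m ^ 2 - 3 * n ^ 2 := by
    have : ((m : ℝ) * √2 + n * √3) ^ 2 = (8 * k) ^ 2 := by rw [hk']
    have e : ((m : ℝ) * √2 + n * √3) ^ 2 = m ^ 2 * (√2 * √2) + 2 * m * n * (√2 * √3) + n ^ 2 * (√3 * √3) := by ring
    rw [e, h2s, h3s, h23] at this
    linarith
  have hmn0 : m * n = 0 := by
    by_contra hne
    have hne' : (2 * m * n : ℤ) ≠ 0 := by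
      intro h; apply hne; nlinarith
    have h7 : Irrational (((2 * m * n : ℤ) : ℝ) * √6) := h6.intCast_mul hne'
    apply h7
    refine ⟨((64 * k ^ 2 - 2 * m ^ 2 - 3 * n ^ 2 : ℤ) : ℚ), ?_⟩
    push_cast
    linarith
  have i2 : Irrational √(2 : ℝ) := irrational_sqrt_two
  have i3 : Irrational √(3 : ℝ) := by
    have := (irrational_sqrt_natCast_iff (n := 3)).2 (by
      rintro ⟨k, hk⟩
      have : k ≤ 3 := by nlinarith
      interval_cases k <;> omega)
    exact_mod_cast this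
  rcases mul_eq_zero.1 hmn0 with h0 | h0
  · refine ⟨h0, ?_⟩
    by_contra hn
    rw [h0] at hk'
    have h7 := i3.intCast_mul hn
    apply h7
    refine ⟨((8 * k : ℤ) : ℚ), ?_⟩
    push_cast
    push_cast at hk'
    linarith
  · refine ⟨?_, h0⟩
    by_contra hm
    rw [h0] at hk'
    have h7 := i2.intCast_mul hm
    apply h7
    refine ⟨((8 * k : ℤ) : ℚ), ?_⟩
    push_cast
    push_cast at hk'
    linarith

end Pool.Agent.R291
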