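import Pool.Agent.R291.SolvGroup

/-!
The group is solvable, finitely generated, consists of piecewise isometric maps.
-/

open Set
open scoped commutatorElement

namespace Pool.Agent.R291

variable {α β : ℝ}

/-- Permutations which commute with the half turn and descend to isometries of the quotient. -/
def G0 : Subgroup (Equiv.Perm S1) where
  carrier := {g | (∀ x, g (x + half) = g x + half) ∧
    ∃ c : S1, (∀ x, g x + g x = (x + x) + c) ∨ (∀ x, g x + g x = -(x + x) + c)}
  mul_mem' := by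
    rintro f g ⟨hf1, c, hc⟩ ⟨hg1, d, hd⟩
    refine ⟨fun x => ?_, ?_⟩
    · rw [Equiv.Perm.mul_apply, Equiv.Perm.mul_apply, hg1, hf1]
    · rcases hc with hc | hc <;> rcases hd with hd | hd
      · exact ⟨d + c, Or.inl fun x => by rw [Equiv.Perm.mul_apply, hc, hd, add_assoc]⟩
      · exact ⟨d + c, Or.inr fun x => by rw [Equiv.Perm.mul_apply, hc, hd, add_assoc]⟩
      · exact ⟨-d + c, Or.inr fun x => by rw [Equiv.Perm.mul_apply, hc, hd, neg_add, add_assoc]⟩
      · exact ⟨-d + c, Or.inl fun x => by rw [Equiv.Perm.mul_apply, hc, hd, neg_add, neg_neg, add_assoc]⟩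
  one_mem' := ⟨fun x => rfl, 0, Or.inl fun x => by rw [add_zero]; rfl⟩
  inv_mem' := by
    rintro f ⟨hf1, c, hc⟩
    refine ⟨fun x => ?_, ?_⟩
    · rw [Equiv.Perm.inv_eq_iff_eq, hf1, app_inv]
    · rcases hc with hc | hc
      · refine ⟨-c, Or.inl fun x => ?_⟩
        have := hc (f⁻¹ x)
        rw [app_inv] at this
        rw [this]; abel
      · refine ⟨c, Or.inr fun x => ?_⟩
        have := hc (f⁻¹ x)
        rw [app_inv] at this
        rw [this]; abel

/-- The orientation preserving ones. -/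
def G1 : Subgroup (Equiv.Perm S1) where
  carrier := {g | (∀ x, g (x + half) = g x + half) ∧ ∃ c : S1, ∀ x, g x + g x = (x + x) + c}
  mul_mem' := by
    rintro f g ⟨hf1, c, hc⟩ ⟨hg1, d, hd⟩
    refine ⟨fun x => ?_, ?_⟩
    · rw [Equiv.Perm.mul_apply, Equiv.Perm.mul_apply, hg1, hf1]
    · exact ⟨d + c, fun x => by rw [Equiv.Perm.mul_apply, hc, hd, add_assoc]⟩
  one_mem' := ⟨fun x => rfl, 0, fun x => by rw [add_zero]; rfl⟩
  inv_mem' := by
    rintro f ⟨hf1, c, hc⟩
    refine ⟨fun x => ?_, ?_⟩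
    · rw [Equiv.Perm.inv_eq_iff_eq, hf1, app_inv]
    · refine ⟨-c, fun x => ?_⟩
      have := hc (f⁻¹ x)
      rw [app_inv] at this
      rw [this]; abel

/-- The fibrewise ones. -/
def G2 : Subgroup (Equiv.Perm S1) where
  carrier := {g | (∀ x, g (x + half) = g x + half) ∧ ∀ x, g x + g x = x + x}
  mul_mem' := by
    rintro f g ⟨hf1, hc⟩ ⟨hg1, hd⟩
    refine ⟨fun x => ?_, ?_⟩
    · rw [Equiv.Perm.mul_apply, Equiv.Perm.mul_apply, hg1, hf1]
    · exact fun x => by rw [Equiv.Perm.mul_apply, hc, hd]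
  one_mem' := ⟨fun x => rfl, fun x => rfl⟩
  inv_mem' := by
    rintro f ⟨hf1, hc⟩
    refine ⟨fun x => ?_, fun x => ?_⟩
    · rw [Equiv.Perm.inv_eq_iff_eq, hf1, app_inv]
    · have := hc (f⁻¹ x)
      rw [app_inv] at this
      exact this.symm

lemma G1_le : G1 ≤ G0 := fun _ ⟨h1, c, hc⟩ => ⟨h1, c, Or.inl hc⟩

lemma comm0 : ⁅G0, G0⁆ ≤ G1 := by
  rw [Subgroup.commutator_le]
  rintro f hf g hg
  have hfi := G0.inv_mem hf
  have hgi := G0.inv_mem hg
  have hm : ⁅f, g⁆ ∈ G0 := by
    rw [commutatorElement_def]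
    exact G0.mul_mem (G0.mul_mem (G0.mul_mem hf hg) hfi) hgi
  refine ⟨hm.1, ?_⟩
  obtain ⟨hf1, c, hc⟩ := hf
  obtain ⟨hg1, d, hd⟩ := hg
  have kp : ∀ {f : Equiv.Perm S1} {c : S1}, (∀ x, f x + f x = (x + x) + c) →
      ∀ x, f⁻¹ x + f⁻¹ x = (x + x) - c := by
    intro f c hc x
    have := hc (f⁻¹ x)
    rw [app_inv] at this
    exact (eq_sub_of_add_eq this.symm)
  have km : ∀ {f : Equiv.Perm S1} {c : S1}, (∀ x, f x + f x = -(x + x) + c) →
      ∀ x, f⁻¹ x + f⁻¹ x = -(x + x) + c := by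
    intro f c hc x
    have := hc (f⁻¹ x)
    rw [app_inv] at this
    rw [this]; abel
  rcases hc with hc | hc <;> rcases hd with hd | hd
  · refine ⟨0, fun x => ?_⟩
    rw [commutatorElement_def]
    simp only [Equiv.Perm.mul_apply]
    rw [hc, hd, kp hc, kp hd]; abel
  · refine ⟨c + c, fun x => ?_⟩
    rw [commutatorElement_def]
    simp only [Equiv.Perm.mul_apply]
    rw [hc, hd, kp hc, km hd]; abel
  · refine ⟨-(d + d), fun x => ?_⟩
    rw [commutatorElement_def]
    simp only [Equiv.Perm.mul_apply]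
    rw [hc, hd, km hc, kp hd]; abel
  · refine ⟨(c + c) - (d + d), fun x => ?_⟩
    rw [commutatorElement_def]
    simp only [Equiv.Perm.mul_apply]
    rw [hc, hd, km hc, km hd]; abel

lemma comm1 : ⁅G1, G1⁆ ≤ G2 := by
  rw [Subgroup.commutator_le]
  rintro f hf g hg
  have hfi := G1.inv_mem hf
  have hgi := G1.inv_mem hg
  have hm : ⁅f, g⁆ ∈ G1 := by
    rw [commutatorElement_def]
    exact G1.mul_mem (G1.mul_mem (G1.mul_mem hf hg) hfi) hgi
  refine ⟨hm.1, fun x => ?_⟩
  obtain ⟨hf1, c, hc⟩ := hf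
  obtain ⟨hg1, d, hd⟩ := hg
  have hc' : ∀ x, f⁻¹ x + f⁻¹ x = (x + x) - c := fun x => by
    have := hc (f⁻¹ x)
    rw [app_inv] at this
    exact (eq_sub_of_add_eq this.symm)
  have hd' : ∀ x, g⁻¹ x + g⁻¹ x = (x + x) - d := fun x => by
    have := hd (g⁻¹ x)
    rw [app_inv] at this
    exact (eq_sub_of_add_eq this.symm)
  rw [commutatorElement_def]
  simp only [Equiv.Perm.mul_apply]
  rw [hc, hd, hc', hd']; abel

lemma comm2 : ⁅G2, G2⁆ ≤ ⊥ := by
  rw [Subgroup.commutator_le]
  rintro f ⟨hf1, hf2⟩ g ⟨hg1, hg2⟩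
  rw [Subgroup.mem_bot, commutatorElement_eq_one_iff_mul_comm]
  have hF : ∀ x, f x = x ∨ f x = x + half := fun x => eq_of_add_self (hf2 x)
  have hG : ∀ x, g x = x ∨ g x = x + half := fun x => eq_of_add_self (hg2 x)
  have hhh : ∀ x : S1, x + half + half = x := fun x => by rw [add_assoc, half_add_half, add_zero]
  ext x
  rw [Equiv.Perm.mul_apply, Equiv.Perm.mul_apply]
  rcases hF x with h | h <;> rcases hG x with h' | h' <;>
    simp only [h, h', hf1, hg1, hhh]

lemma derived_le (n : ℕ) : (derivedSeries G0 n).map G0.subtype ≤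
    (match n with | 0 => G0 | 1 => G1 | 2 => G2 | _ => ⊥) := by
  have key : ∀ (H H' : Subgroup (Equiv.Perm S1)) (n : ℕ), (derivedSeries G0 n).map G0.subtype ≤ H →
      ⁅H, H⁆ ≤ H' → (derivedSeries G0 (n + 1)).map G0.subtype ≤ H' := by
    intro H H' n h h'
    rw [derivedSeries_succ, Subgroup.map_commutator]
    exact (Subgroup.commutator_mono h h).trans h'
  have h0 : (derivedSeries G0 0).map G0.subtype ≤ G0 := by
    rw [derivedSeries_zero]
    intro x hx
    obtain ⟨y, _, rfl⟩ := hx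
    exact y.2
  have h1 := key _ _ 0 h0 comm0
  have h2 := key _ _ 1 h1 comm1
  have h3 := key _ _ 2 h2 comm2
  have hb : ∀ k : ℕ, (derivedSeries G0 (3 + k)).map G0.subtype ≤ ⊥ := by
    intro k
    induction k with
    | zero => exact h3
    | succ k ih =>
      refine key ⊥ _ _ ih ?_
      rw [Subgroup.commutator_bot_left]
  rcases n with _ | _ | _ | n
  · exact h0
  · exact h1
  · exact h2
  · have := hb n
    rw [add_comm] at this
    exact this

lemma derived_three : derivedSeries G0 3 = ⊥ := by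
  have h0 : (derivedSeries G0 3).map G0.subtype ≤ ⊥ := derived_le 3
  have this := le_bot_iff.1 h0
  exact (Subgroup.map_eq_bot_iff_of_injective _ (Subgroup.subtype_injective _)).1 this

lemma gens_sub : gens α β ⊆ G0 := by
  have hhh : half + half = (0 : S1) := half_add_half
  rintro g hg
  simp only [gens, Set.mem_insert_iff, Set.mem_singleton_iff] at hg
  have hrot : ∀ t : ℝ, rot t ∈ G0 := fun t =>
    ⟨fun x => by rw [rot_apply, rot_apply]; abel, (t : S1) + t, Or.inl fun x => by rw [rot_apply]; abel⟩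
  have hsw : ∀ t : ℝ, sw t ∈ G0 := fun t => by
    refine ⟨fun x => ?_, 0, Or.inl fun x => ?_⟩
    · have e1 : (x + half) + (x + half) = x + x := by
        have : (x + half) + (x + half) = x + x + (half + half) := by abel
        rw [this, hhh, add_zero]
      rw [sw_apply, sw_apply, e1]; abel
    · rw [sw_apply, double_add_hf, add_zero]
  rcases hg with rfl | rfl | rfl | rfl | rfl
  · exact hrot _
  · exact hrot _
  · refine ⟨fun x => ?_, 0, Or.inr fun x => ?_⟩
    · rw [refl0_apply, refl0_apply, neg_add, neg_half]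
    · rw [refl0_apply]; abel
  · exact hsw _
  · exact hsw _

lemma Gam_le : Gam α β ≤ G0.map (cls S1) :=
  Subgroup.map_mono ((Subgroup.closure_le _).2 gens_sub)

theorem Gam_derived : derivedSeries (Gam α β) 3 = ⊥ := by
  -- the derived series of the image
  have h1 : derivedSeries (G0.map (cls S1)) 3 = ⊥ := by
    have hsurj := (cls S1).subgroupMap_surjective G0
    have := map_derivedSeries_eq hsurj 3
    rw [← this, derived_three, Subgroup.map_bot]
  have h2 : (derivedSeries (Gam α β) 3).map (Subgroup.inclusion (Gam_le (α := α) (β := β))) ≤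
      derivedSeries (G0.map (cls S1)) 3 :=
    map_derivedSeries_le_derivedSeries _ 3
  rw [h1, le_bot_iff] at h2
  exact (Subgroup.map_eq_bot_iff_of_injective _ (Subgroup.inclusion_injective _)).1 h2

theorem Gam_solvable : Group.IsSolvable (Gam α β) := ⟨3, Gam_derived⟩

theorem Gam_fg : (Gam α β).FG := by
  unfold Gam
  rw [Subgroup.fg_iff]
  refine ⟨cls S1 '' gens α β, (MonoidHom.map_closure _ _).symm, Set.Finite.image _ ?_⟩
  unfold gens; exact Set.toFinite _

end Pool.Agent.R291
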