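import Pool.Agent.R291.StabGerm
import Pool.Agent.R291.PCDefs

/-!
Transport of piecewise continuous permutations of `ℝ ∪ {∞}` to the circle.
-/

open Set

namespace Pool.Agent.R291

instance fact01' : Fact ((0 : ℝ) < 1) := ⟨zero_lt_one⟩

/-- Representative in `[0, 1)` of a point of the circle. -/
noncomputable def fr' (y : S1) : ℝ := (AddCircle.equivIco 1 0 y : ℝ)

lemma fr'_nonneg (y : S1) : 0 ≤ fr' y := (AddCircle.equivIco 1 0 y).2.1

lemma fr'_lt_one (y : S1) : fr' y < 1 := by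
  have := (AddCircle.equivIco 1 0 y).2.2
  simpa [fr'] using this

lemma coe_fr' (y : S1) : ((fr' y : ℝ) : S1) = y := (AddCircle.equivIco 1 0).symm_apply_apply y

lemma fr'_coe (t : ℝ) (h0 : 0 ≤ t) (h1 : t < 1) : fr' (t : S1) = t := by
  unfold fr'
  rw [AddCircle.coe_equivIco_mk_apply]
  simp [Int.fract_eq_self.2 ⟨h0, h1⟩]

lemma fr'_ne {y : S1} (hy : y ≠ 0) : 0 < fr' y := by
  refine lt_of_le_of_ne (fr'_nonneg y) fun h => hy ?_
  rw [← coe_fr' y, ← h]; rfl

/-- The chart `ℝ → S1`. -/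
noncomputable def uu (x : ℝ) : S1 := ((1 / 2 + Real.arctan x / Real.pi : ℝ) : S1)

/-- Its inverse. -/
noncomputable def vv (y : S1) : ℝ := Real.tan (Real.pi * (fr' y - 1 / 2))

lemma arctan_bd (x : ℝ) : 0 < 1 / 2 + Real.arctan x / Real.pi ∧ 1 / 2 + Real.arctan x / Real.pi < 1 := by
  have h1 := Real.neg_pi_div_two_lt_arctan x
  have h2 := Real.arctan_lt_pi_div_two x
  have hp := Real.pi_pos
  have h3 : -(1 / 2) < Real.arctan x / Real.pi := by
    rw [lt_div_iff₀ hp]; linarith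
  have h4 : Real.arctan x / Real.pi < 1 / 2 := by
    rw [div_lt_iff₀ hp]; linarith
  constructor <;> linarith

lemma fr'_uu (x : ℝ) : fr' (uu x) = 1 / 2 + Real.arctan x / Real.pi :=
  fr'_coe _ (arctan_bd x).1.le (arctan_bd x).2

lemma uu_ne (x : ℝ) : uu x ≠ 0 := by
  intro h
  have h1 := fr'_uu x
  rw [h, ← AddCircle.coe_zero, fr'_coe 0 le_rfl one_pos] at h1
  have := (arctan_bd x).1
  linarith

lemma vv_uu (x : ℝ) : vv (uu x) = x := by
  unfold vv
  rw [fr'_uu]
  have : Real.pi * (1 / 2 + Real.arctan x / Real.pi - 1 / 2) = Real.arctan x := by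
    field_simp
    ring
  rw [this, Real.tan_arctan]

lemma ang_bd {y : S1} (hy : y ≠ 0) : -(Real.pi / 2) < Real.pi * (fr' y - 1 / 2) ∧
    Real.pi * (fr' y - 1 / 2) < Real.pi / 2 := by
  have h1 := fr'_ne hy
  have h2 := fr'_lt_one y
  have hp := Real.pi_pos
  constructor <;> nlinarith

lemma uu_vv {y : S1} (hy : y ≠ 0) : uu (vv y) = y := by
  unfold uu vv
  rw [Real.arctan_tan (ang_bd hy).1 (ang_bd hy).2]
  have : 1 / 2 + Real.pi * (fr' y - 1 / 2) / Real.pi = fr' y := by
    field_simp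
    ring
  rw [this, coe_fr']

lemma continuous_uu : Continuous uu := by
  unfold uu
  have h1 : Continuous (fun x : ℝ => 1 / 2 + Real.arctan x / Real.pi) := by
    have := Real.continuous_arctan
    fun_prop
  exact (AddCircle.continuous_mk' 1).comp h1

lemma continuousAt_vv {y : S1} (hy : y ≠ 0) : ContinuousAt vv y := by
  have h1 : ContinuousAt fr' y := by
    have h2 : ContinuousAt (AddCircle.equivIco (1 : ℝ) 0) y :=
      AddCircle.continuousAt_equivIco 1 0 (by
        intro h; exact hy h)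
    exact continuous_subtype_val.continuousAt.comp h2
  have h3 : ContinuousAt (fun y => Real.pi * (fr' y - 1 / 2)) y :=
    continuousAt_const.mul (h1.sub continuousAt_const)
  have h4 : ContinuousAt Real.tan (Real.pi * (fr' y - 1 / 2)) := by
    rw [Real.continuousAt_tan]
    exact (Real.cos_pos_of_mem_Ioo ⟨(ang_bd hy).1, (ang_bd hy).2⟩).ne'
  exact ContinuousAt.comp (g := Real.tan) h4 h3

open Classical in
/-- The bijection of the line with a point at infinity and the circle. -/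
noncomputable def ee : Option ℝ ≃ S1 where
  toFun z := match z with
    | none => 0
    | some x => uu x
  invFun y := if y = 0 then none else some (vv y)
  left_inv z := by
    rcases z with _ | x
    · simp
    · simp [uu_ne, vv_uu]
  right_inv y := by
    by_cases hy : y = 0
    · simp [hy]
    · simp [hy, uu_vv]

lemma ee_none : ee none = 0 := rfl
lemma ee_some (x : ℝ) : ee (some x) = uu x := rfl
lemma ee_symm {y : S1} (hy : y ≠ 0) : ee.symm y = some (vv y) := by
  show (if y = 0 then none else some (vv y)) = _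
  rw [if_neg hy]

/-- Transport of permutations to the circle. -/
noncomputable def tp (g : Equiv.Perm (Option ℝ)) : Equiv.Perm S1 := ee.permCongr g

lemma tp_apply (g : Equiv.Perm (Option ℝ)) (y : S1) : tp g y = ee (g (ee.symm y)) := rfl

lemma tp_ee (g : Equiv.Perm (Option ℝ)) (z : Option ℝ) : tp g (ee z) = ee (g z) := by
  rw [tp_apply, Equiv.symm_apply_apply]

lemma tp_mul (g h : Equiv.Perm (Option ℝ)) : tp (g * h) = tp g * tp h := by
  ext y
  rw [Equiv.Perm.mul_apply, tp_apply, tp_apply, tp_apply, Equiv.symm_apply_apply]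
  rfl

/-- Criterion for piecewise continuity. -/
lemma tp_PC {g : Equiv.Perm (Option ℝ)} {P : Set ℝ} (hP : P.Finite)
    (h : ∀ x0, x0 ∉ P → ∃ f : ℝ → ℝ, ContinuousAt f x0 ∧ ∀ᶠ x in nhds x0, g (some x) = some (f x)) :
    IsPC (tp g) := by
  refine ((Set.finite_singleton (0 : S1)).union (hP.image uu)).subset fun y hy => ?_
  by_contra hcon
  rw [Set.mem_union, not_or] at hcon
  obtain ⟨h0, h1⟩ := hcon
  have h0' : y ≠ 0 := h0
  apply hy
  have hv : vv y ∉ P := fun h2 => h1 ⟨vv y, h2, uu_vv h0'⟩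
  obtain ⟨f, hf, hev⟩ := h _ hv
  have hvc := continuousAt_vv h0'
  have h2 : ContinuousAt (fun z => uu (f (vv z))) y :=
    continuous_uu.continuousAt.comp (ContinuousAt.comp (g := f) hf hvc)
  refine h2.congr ?_
  have h3 : ∀ᶠ z in nhds y, z ≠ 0 := isOpen_ne.mem_nhds h0'
  filter_upwards [hvc.eventually hev, h3] with z hz hz0
  rw [tp_apply, ee_symm hz0, hz, ee_some]

/-- Translations of the line with its point at infinity. -/
noncomputable def trO (t : ℝ) : Equiv.Perm (Option ℝ) := Equiv.optionCongr (Equiv.addRight t)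

lemma trO_some (t x : ℝ) : trO t (some x) = some (x + t) := rfl
lemma trO_none (t : ℝ) : trO t none = none := rfl

lemma trO_PC (t : ℝ) : IsPC (tp (trO t)) :=
  tp_PC Set.finite_empty fun x0 _ => ⟨fun x => x + t, by fun_prop, Filter.Eventually.of_forall fun x => rfl⟩

open Classical in
/-- A free square root of the reflection. -/
noncomputable def sgF : Option ℝ → Option ℝ
  | none => some 1
  | some x => if x = 0 then some (-1) else if x = 1 then some 0 else if x = -1 then none else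
      if |x| < 1 then some (x⁻¹) else some (-x⁻¹)

lemma sgF_gen {x : ℝ} (h0 : x ≠ 0) (h1 : x ≠ 1) (h2 : x ≠ -1) :
    (|x| < 1 ∧ sgF (some x) = some x⁻¹) ∨ (1 < |x| ∧ sgF (some x) = some (-x⁻¹)) := by
  have hne : |x| ≠ 1 := by
    intro h
    rcases abs_eq (zero_le_one) |>.1 h with h | h
    · exact h1 h
    · exact h2 h
  by_cases h : |x| < 1
  · left
    refine ⟨h, ?_⟩
    simp [sgF, h0, h1, h2, h]
  · right
    refine ⟨lt_of_le_of_ne (not_lt.1 h) (Ne.symm hne), ?_⟩
    simp [sgF, h0, h1, h2, h]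

lemma sgF_zero : sgF (some 0) = some (-1) := by simp [sgF]
lemma sgF_one : sgF (some 1) = some 0 := by simp [sgF]
lemma sgF_neg_one : sgF (some (-1)) = none := by
  have : (-1 : ℝ) ≠ 1 := by norm_num
  simp [sgF, this]
lemma sgF_none : sgF none = some 1 := rfl

/-- Its square. -/
lemma sgF_sq {x : ℝ} (h0 : x ≠ 0) (h1 : x ≠ 1) (h2 : x ≠ -1) : sgF (sgF (some x)) = some (-x) := by
  have hi0 : x⁻¹ ≠ 0 := inv_ne_zero h0
  have hi1 : x⁻¹ ≠ 1 := fun h => h1 (inv_eq_one.1 h)
  have hi2 : x⁻¹ ≠ -1 := by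
    intro h
    apply h2
    rw [← inv_inv x, h]; norm_num
  have hpos : 0 < |x| := abs_pos.2 h0
  rcases sgF_gen h0 h1 h2 with ⟨h, e⟩ | ⟨h, e⟩
  · rw [e]
    rcases sgF_gen hi0 hi1 hi2 with ⟨h', e'⟩ | ⟨h', e'⟩
    · exfalso
      rw [abs_inv] at h'
      have := one_lt_inv_iff₀.2 ⟨hpos, h⟩
      linarith
    · rw [e', inv_inv]
  · rw [e]
    have hj0 : -x⁻¹ ≠ 0 := neg_ne_zero.2 hi0
    have hj1 : -x⁻¹ ≠ 1 := fun h => hi2 (by linarith)
    have hj2 : -x⁻¹ ≠ -1 := fun h => hi1 (by linarith)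
    rcases sgF_gen hj0 hj1 hj2 with ⟨h', e'⟩ | ⟨h', e'⟩
    · rw [e', inv_neg, inv_inv]
    · exfalso
      rw [abs_neg, abs_inv] at h'
      have := inv_lt_one_of_one_lt₀ h
      linarith

lemma sgF_four (z : Option ℝ) : sgF (sgF (sgF (sgF z))) = z ∧ sgF (sgF z) ≠ z := by
  have hne : (1 : ℝ) ≠ -1 := by norm_num
  rcases z with _ | x
  · rw [sgF_none, sgF_one, sgF_zero, sgF_neg_one]
    exact ⟨rfl, by simp⟩
  · by_cases h0 : x = 0
    · subst h0
      rw [sgF_zero, sgF_neg_one, sgF_none, sgF_one]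
      exact ⟨rfl, by simp⟩
    by_cases h1 : x = 1
    · subst h1
      rw [sgF_one, sgF_zero, sgF_neg_one, sgF_none]
      exact ⟨rfl, by simp only [ne_eq, Option.some.injEq]; exact hne.symm⟩
    by_cases h2 : x = -1
    · subst h2
      rw [sgF_neg_one, sgF_none, sgF_one, sgF_zero]
      exact ⟨rfl, by simp only [ne_eq, Option.some.injEq]; exact hne⟩
    have h3 : -x ≠ 0 := neg_ne_zero.2 h0
    have h4 : -x ≠ 1 := fun h => h2 (by linarith)
    have h5 : -x ≠ -1 := fun h => h1 (by linarith)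
    rw [sgF_sq h0 h1 h2, sgF_sq h3 h4 h5, neg_neg]
    refine ⟨rfl, ?_⟩
    simp only [ne_eq, Option.some.injEq]
    intro h
    apply h0
    linarith

/-- The free square root of the reflection as a permutation. -/
noncomputable def sgO : Equiv.Perm (Option ℝ) where
  toFun := sgF
  invFun z := sgF (sgF (sgF z))
  left_inv z := (sgF_four z).1
  right_inv z := (sgF_four z).1

lemma sgO_PC : IsPC (tp sgO) := by
  refine tp_PC (P := {0, 1, -1}) (Set.toFinite _) fun x0 hx0 => ?_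
  simp only [Set.mem_insert_iff, Set.mem_singleton_iff, not_or] at hx0
  obtain ⟨h0, h1, h2⟩ := hx0
  have e1 : ∀ᶠ x in nhds x0, x ≠ (0 : ℝ) := isOpen_ne.mem_nhds h0
  have e2 : ∀ᶠ x in nhds x0, x ≠ (1 : ℝ) := isOpen_ne.mem_nhds h1
  have e3 : ∀ᶠ x in nhds x0, x ≠ (-1 : ℝ) := isOpen_ne.mem_nhds h2
  rcases sgF_gen h0 h1 h2 with ⟨h, _⟩ | ⟨h, _⟩
  · refine ⟨fun x => x⁻¹, continuousAt_inv₀ h0, ?_⟩
    have e4 : ∀ᶠ x in nhds x0, |x| < 1 := (isOpen_lt continuous_abs continuous_const).mem_nhds h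
    filter_upwards [e1, e2, e3, e4] with x g0 g1 g2 g3
    rcases sgF_gen g0 g1 g2 with ⟨_, e⟩ | ⟨g4, _⟩
    · exact e
    · exact absurd g3 (by linarith)
  · refine ⟨fun x => -x⁻¹, (continuousAt_inv₀ h0).neg, ?_⟩
    have e4 : ∀ᶠ x in nhds x0, 1 < |x| := (isOpen_lt continuous_const continuous_abs).mem_nhds h
    filter_upwards [e1, e2, e3, e4] with x g0 g1 g2 g3
    rcases sgF_gen g0 g1 g2 with ⟨g4, _⟩ | ⟨_, e⟩
    · exact absurd g3 (by linarith)
    · exact e

end Pool.Agent.R291
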