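import Pool.Agent.R291.Rigid

/-!
A group of permutations of the line with two points added, generated by two translations and a
square root of the reflection, without nontrivial finitely supported elements.
-/

open Set Polynomial

namespace Pool.Agent.R291

/-- The line with two points added: `some none` is the point at infinity, `none` is the extra
point. -/
abbrev ZZ : Type := Option (Option ℝ)

/-- The inclusion of the line. -/
abbrev io (x : ℝ) : ZZ := some (some x)

/-- Translations. -/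
noncomputable def TT (t : ℝ) : Equiv.Perm ZZ := Equiv.optionCongr (Equiv.optionCongr (Equiv.addRight t))

lemma TT_io (t x : ℝ) : TT t (io x) = io (x + t) := rfl
lemma TT_inf (t : ℝ) : TT t (some none) = some none := rfl
lemma TT_none (t : ℝ) : TT t none = none := rfl

/-- The reflection, exchanging the two added points. -/
def tauF : ZZ → ZZ
  | none => some none
  | some none => none
  | some (some x) => some (some (-x))

lemma tauF_tauF (z : ZZ) : tauF (tauF z) = z := by
  rcases z with _ | _ | x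
  · rfl
  · rfl
  · simp [tauF]

/-- The reflection as a permutation. -/
def tau : Equiv.Perm ZZ := ⟨tauF, tauF, tauF_tauF, tauF_tauF⟩

open Classical in
/-- The square root of the reflection. -/
noncomputable def sigF : ZZ → ZZ
  | none => io (-1)
  | some none => io 1
  | some (some x) => if x = 0 then io 0 else if x = 1 then none else if x = -1 then some none else
      if |x| < 1 then io (x⁻¹) else io (-x⁻¹)

lemma sigF_gen {x : ℝ} (h0 : x ≠ 0) (h1 : x ≠ 1) (h2 : x ≠ -1) :
    (|x| < 1 ∧ sigF (io x) = io x⁻¹) ∨ (1 < |x| ∧ sigF (io x) = io (-x⁻¹)) := by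
  have hne : |x| ≠ 1 := by
    intro h
    rcases abs_eq (zero_le_one) |>.1 h with h | h
    · exact h1 h
    · exact h2 h
  by_cases h : |x| < 1
  · left
    refine ⟨h, ?_⟩
    simp [sigF, h0, h1, h2, h]
  · right
    refine ⟨lt_of_le_of_ne (not_lt.1 h) (Ne.symm hne), ?_⟩
    simp [sigF, h0, h1, h2, h]

lemma sigF_zero : sigF (io 0) = io 0 := by simp [sigF]
lemma sigF_one : sigF (io 1) = none := by simp [sigF]
lemma sigF_neg_one : sigF (io (-1)) = some none := by
  have : (-1 : ℝ) ≠ 1 := by norm_num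
  simp [sigF, this]

lemma sigF_sigF (z : ZZ) : sigF (sigF z) = tauF z := by
  rcases z with _ | _ | x
  · show sigF (io (-1)) = some none
    exact sigF_neg_one
  · show sigF (io 1) = none
    exact sigF_one
  · by_cases h0 : x = 0
    · subst h0
      show sigF (sigF (io 0)) = _
      rw [sigF_zero, sigF_zero]
      show io 0 = io (-0)
      rw [neg_zero]
    by_cases h1 : x = 1
    · subst h1
      show sigF (sigF (io 1)) = io (-1)
      rw [sigF_one]; rfl
    by_cases h2 : x = -1
    · subst h2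
      show sigF (sigF (io (-1))) = io (- -1)
      rw [sigF_neg_one, neg_neg]; rfl
    have hi0 : x⁻¹ ≠ 0 := inv_ne_zero h0
    have hi1 : x⁻¹ ≠ 1 := fun h => h1 (inv_eq_one.1 h)
    have hi2 : x⁻¹ ≠ -1 := by
      intro h
      apply h2
      rw [← inv_inv x, h]; norm_num
    have hpos : 0 < |x| := abs_pos.2 h0
    rcases sigF_gen h0 h1 h2 with ⟨h, e⟩ | ⟨h, e⟩
    · show sigF (sigF (io x)) = io (-x)
      rw [e]
      rcases sigF_gen hi0 hi1 hi2 with ⟨h', e'⟩ | ⟨h', e'⟩
      · exfalso
        rw [abs_inv] at h'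
        have := one_lt_inv_iff₀.2 ⟨hpos, h⟩
        linarith
      · rw [e', inv_inv]
    · show sigF (sigF (io x)) = io (-x)
      rw [e]
      have hj0 : -x⁻¹ ≠ 0 := neg_ne_zero.2 hi0
      have hj1 : -x⁻¹ ≠ 1 := fun h => hi2 (by linarith)
      have hj2 : -x⁻¹ ≠ -1 := fun h => hi1 (by linarith)
      rcases sigF_gen hj0 hj1 hj2 with ⟨h', e'⟩ | ⟨h', e'⟩
      · rw [e', inv_neg, inv_inv]
      · exfalso
        rw [abs_neg, abs_inv] at h'
        have := inv_lt_one_of_one_lt₀ h
        linarith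

/-- The square root of the reflection as a permutation. -/
noncomputable def sig : Equiv.Perm ZZ where
  toFun := sigF
  invFun z := sigF (sigF (sigF z))
  left_inv z := by
    show sigF (sigF (sigF (sigF z))) = z
    rw [sigF_sigF (sigF (sigF z)), sigF_sigF, tauF_tauF]
  right_inv z := by
    show sigF (sigF (sigF (sigF z))) = z
    rw [sigF_sigF (sigF (sigF z)), sigF_sigF, tauF_tauF]

lemma sig_sig : sig * sig = tau := by
  ext z : 1
  exact sigF_sigF z

lemma tau_tau : tau * tau = 1 := by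
  ext z : 1
  exact tauF_tauF z

lemma TT_add (s t : ℝ) : TT s * TT t = TT (s + t) := by
  ext z : 1
  rcases z with _ | _ | x
  · rfl
  · rfl
  · show io (x + t + s) = io (x + (s + t))
    rw [show x + t + s = x + (s + t) by ring]

lemma TT_zero : TT 0 = 1 := by
  ext z : 1
  rcases z with _ | _ | x
  · rfl
  · rfl
  · show io (x + 0) = io x
    rw [add_zero]

lemma TT_inv (t : ℝ) : (TT t)⁻¹ = TT (-t) := by
  rw [inv_eq_iff_mul_eq_one, TT_add, add_neg_cancel, TT_zero]

lemma tau_TT (t : ℝ) : tau * TT t = TT (-t) * tau := by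
  ext z : 1
  rcases z with _ | _ | x
  · rfl
  · rfl
  · show io (-(x + t)) = io (-x + -t)
    rw [neg_add]

lemma sig_inv : sig⁻¹ = tau * sig := by
  rw [inv_eq_iff_mul_eq_one, ← sig_sig]
  have : sig * (sig * sig * sig) = (sig * sig) * (sig * sig) := by group
  rw [this, sig_sig, tau_tau]

section words

variable (L : AddSubgroup ℝ)

/-- Words starting with the square root of the reflection. -/
inductive JT : Equiv.Perm ZZ → Prop
  | base (t : ℝ) (ht : t ∈ L) : JT (sig * TT t)
  | base' (t : ℝ) (ht : t ∈ L) : JT (sig * (TT t * tau))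
  | step (t : ℝ) (ht : t ∈ L) (h0 : t ≠ 0) (g : Equiv.Perm ZZ) (hg : JT g) : JT (sig * (TT t * g))
  | step' (t : ℝ) (ht : t ∈ L) (h0 : t ≠ 0) (g : Equiv.Perm ZZ) (hg : JT g) :
      JT (sig * (TT t * (tau * g)))

/-- Normal forms. -/
def NF (g : Equiv.Perm ZZ) : Prop :=
  (∃ t ∈ L, g = TT t ∨ g = TT t * tau) ∨ ∃ t ∈ L, ∃ g', JT L g' ∧ (g = TT t * g' ∨ g = TT t * (tau * g'))

variable {L}

lemma NF.left {g : Equiv.Perm ZZ} (h : NF L g) {s : ℝ} (hs : s ∈ L) : NF L (TT s * g) := by
  rcases h with ⟨t, ht, rfl | rfl⟩ | ⟨t, ht, g', hg', rfl | rfl⟩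
  · exact Or.inl ⟨s + t, L.add_mem hs ht, Or.inl (TT_add _ _)⟩
  · exact Or.inl ⟨s + t, L.add_mem hs ht, Or.inr (by rw [← TT_add, mul_assoc])⟩
  · exact Or.inr ⟨s + t, L.add_mem hs ht, g', hg', Or.inl (by rw [← TT_add, mul_assoc])⟩
  · exact Or.inr ⟨s + t, L.add_mem hs ht, g', hg', Or.inr (by rw [← TT_add, mul_assoc])⟩

lemma NF.tau_left {g : Equiv.Perm ZZ} (h : NF L g) : NF L (tau * g) := by
  rcases h with ⟨t, ht, rfl | rfl⟩ | ⟨t, ht, g', hg', rfl | rfl⟩
  · exact Or.inl ⟨-t, L.neg_mem ht, Or.inr (tau_TT _)⟩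
  · refine Or.inl ⟨-t, L.neg_mem ht, Or.inl ?_⟩
    rw [← mul_assoc, tau_TT, mul_assoc, tau_tau, mul_one]
  · refine Or.inr ⟨-t, L.neg_mem ht, g', hg', Or.inr ?_⟩
    rw [← mul_assoc, tau_TT, mul_assoc]
  · refine Or.inr ⟨-t, L.neg_mem ht, g', hg', Or.inl ?_⟩
    rw [← mul_assoc, tau_TT, mul_assoc, ← mul_assoc tau tau, tau_tau, one_mul]

lemma JT.tail {g : Equiv.Perm ZZ} (h : JT L g) : ∃ a, g = sig * a ∧ NF L a := by
  cases h with
  | base t ht => exact ⟨_, rfl, Or.inl ⟨t, ht, Or.inl rfl⟩⟩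
  | base' t ht => exact ⟨_, rfl, Or.inl ⟨t, ht, Or.inr rfl⟩⟩
  | step t ht h0 g hg => exact ⟨_, rfl, Or.inr ⟨t, ht, g, hg, Or.inl rfl⟩⟩
  | step' t ht h0 g hg => exact ⟨_, rfl, Or.inr ⟨t, ht, g, hg, Or.inr rfl⟩⟩

lemma NF_of_JT {g : Equiv.Perm ZZ} (h : JT L g) : NF L g :=
  Or.inr ⟨0, L.zero_mem, g, h, Or.inl (by rw [TT_zero, one_mul])⟩

lemma NF.sig_left {g : Equiv.Perm ZZ} (h : NF L g) : NF L (sig * g) := by
  rcases h with ⟨t, ht, rfl | rfl⟩ | ⟨t, ht, g', hg', rfl | rfl⟩
  · exact NF_of_JT (JT.base t ht)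
  · exact NF_of_JT (JT.base' t ht)
  · by_cases h0 : t = 0
    · subst h0
      rw [TT_zero, one_mul]
      obtain ⟨a, rfl, ha⟩ := hg'.tail
      rw [← mul_assoc, sig_sig]
      exact ha.tau_left
    · exact NF_of_JT (JT.step t ht h0 g' hg')
  · by_cases h0 : t = 0
    · subst h0
      rw [TT_zero, one_mul]
      obtain ⟨a, rfl, ha⟩ := hg'.tail
      have : sig * (tau * (sig * a)) = a := by
        rw [← sig_sig]
        have e : sig * (sig * sig * (sig * a)) = (sig * sig) * (sig * sig) * a := by group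
        rw [e, sig_sig, tau_tau, one_mul]
      rw [this]
      exact ha
    · exact NF_of_JT (JT.step' t ht h0 g' hg')

/-- Every element of the group generated by the translations and the square root has a normal
form. -/
theorem NF_of_mem {s : Set (Equiv.Perm ZZ)} (hs : ∀ g ∈ s, (∃ t ∈ L, g = TT t) ∨ g = sig)
    {g : Equiv.Perm ZZ} (hg : g ∈ Subgroup.closure s) : NF L g := by
  induction hg using Subgroup.closure_induction_left with
  | one => exact Or.inl ⟨0, L.zero_mem, Or.inl TT_zero.symm⟩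
  | mul_left x hx y hy ih =>
    rcases hs x hx with ⟨t, ht, rfl⟩ | rfl
    · exact ih.left ht
    · exact ih.sig_left
  | inv_mul_cancel x hx y hy ih =>
    rcases hs x hx with ⟨t, ht, rfl⟩ | rfl
    · rw [TT_inv]; exact ih.left (L.neg_mem ht)
    · rw [sig_inv, mul_assoc]; exact ih.sig_left.tau_left

end words

end Pool.Agent.R291
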