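import Pool.Agent.R291.PCDefs

/-!
Stably realizable subgroups of the group of near permutations of the circle.
-/

namespace Pool.Agent.R291

/-- The bijection `f` of `S1 ⊔ X` moves only finitely many points of `X` and agrees on `S1`,
after discarding finitely many points, with the permutation `g` of `S1`. -/
def Agree {X : Type} (f : Equiv.Perm (S1 ⊕ X)) (g : Equiv.Perm S1) : Prop :=
  {x : S1 | f (Sum.inl x) ≠ Sum.inl (g x)}.Finite ∧ {x : X | f (Sum.inr x) ≠ Sum.inr x}.Finite

/-- `f` belongs to the group of piecewise continuous permutations of `(S1 ⊔ X, S1)`, and its image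
in the group of near permutations of `S1` is `γ`. -/
def Rep {X : Type} (f : Equiv.Perm (S1 ⊕ X)) (γ : NearPerm S1) : Prop :=
  ∃ g : Equiv.Perm S1, IsPC g ∧ cls S1 g = γ ∧ Agree f g

/-- `Γ` is stably realizable: for some set `X` there is a group `Λ` of piecewise continuous
permutations of `(S1 ⊔ X, S1)` sent bijectively onto `Γ`. -/
def StablyRealizable (Γ : Subgroup (NearPerm S1)) : Prop :=
  ∃ (X : Type) (Λ : Subgroup (Equiv.Perm (S1 ⊕ X))),
    (∀ f ∈ Λ, ∃ γ ∈ Γ, Rep f γ) ∧ ∀ γ ∈ Γ, ∃! f, f ∈ Λ ∧ Rep f γ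

end Pool.Agent.R291
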