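import Pool.Agent.R291.StabCore

/-!
Generic points see the elements of the group as homographies with nonzero lower left coefficient.
-/

open Set Polynomial

namespace Pool.Agent.R291

/-- Real polynomials. -/
abbrev RP : Type := Polynomial ℝ

/-- One letter: integers `m n` (translation by `α (m + n √2)`) and two signs. -/
abbrev Letter : Type := ℤ × ℤ × Bool × Bool

/-- The real number `m + n √2`. -/
noncomputable def Letter.s (l : Letter) : ℝ := l.1 + l.2.1 * √2

/-- A sign. -/
def sgn (b : Bool) : ℝ := if b then 1 else -1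

lemma sgn_mul_self (b : Bool) : sgn b * sgn b = 1 := by cases b <;> simp [sgn]

lemma sgn_ne (b : Bool) : sgn b ≠ 0 := by cases b <;> simp [sgn]

/-- The matrix of a word, with polynomial entries. -/
noncomputable def gen : List Letter → RP × RP × RP × RP
  | [] => (1, 0, 0, 1)
  | x :: l => (C (sgn x.2.2.2) * (gen l).2.2.1, C (sgn x.2.2.2) * (gen l).2.2.2,
      C (sgn x.2.2.1) * (gen l).1 + C x.s * X * (gen l).2.2.1,
      C (sgn x.2.2.1) * (gen l).2.1 + C x.s * X * (gen l).2.2.2)

/-- All the letters but the last one are nontrivial, and there is at least one letter. -/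
def Good : List Letter → Prop
  | [] => False
  | [_] => True
  | x :: y :: l => x.s ≠ 0 ∧ Good (y :: l)

lemma good_cons {x : Letter} {l : List Letter} (hx : x.s ≠ 0) (hl : Good l) : Good (x :: l) := by
  cases l with
  | nil => exact absurd hl (by simp [Good])
  | cons y l => exact ⟨hx, hl⟩

lemma gen_ne : ∀ (l : List Letter), Good l →
    (gen l).2.2.1 ≠ 0 ∧ (gen l).1.degree < (gen l).2.2.1.degree := by
  intro l
  induction l with
  | nil => intro h; exact absurd h (by simp [Good])
  | cons x l ih =>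
    intro h
    cases l with
    | nil =>
      have h1 : (gen [x]).2.2.1 = C (sgn x.2.2.1) := by simp [gen]
      have h2 : (gen [x]).1 = 0 := by simp [gen]
      rw [h1, h2]
      refine ⟨C_ne_zero.2 (sgn_ne _), ?_⟩
      rw [degree_zero, degree_C (sgn_ne _)]
      exact WithBot.bot_lt_coe 0
    | cons y l =>
      obtain ⟨h1, h2⟩ := ih h.2
      have hs : x.s ≠ 0 := h.1
      set c := (gen (y :: l)).2.2.1 with hc
      set a := (gen (y :: l)).1 with ha
      have e1 : (gen (x :: y :: l)).2.2.1 = C (sgn x.2.2.1) * a + C x.s * X * c := rfl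
      have e2 : (gen (x :: y :: l)).1 = C (sgn x.2.2.2) * c := rfl
      rw [e1, e2]
      have d1 : (C x.s * X * c).degree = c.degree + 1 := by
        rw [degree_mul, degree_mul, degree_C hs, degree_X, zero_add, add_comm]
      have d2 : (C (sgn x.2.2.1) * a).degree = a.degree := degree_C_mul (sgn_ne _)
      have d3 : (C (sgn x.2.2.2) * c).degree = c.degree := degree_C_mul (sgn_ne _)
      have hlt : c.degree < c.degree + 1 := by
        rw [degree_eq_natDegree h1]
        exact_mod_cast Nat.lt_succ_self _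
      have d4 : (C (sgn x.2.2.1) * a + C x.s * X * c).degree = c.degree + 1 := by
        rw [degree_add_eq_right_of_degree_lt, d1]
        rw [d1, d2]
        exact h2.trans hlt
      refine ⟨?_, ?_⟩
      · intro h0
        rw [h0, degree_zero] at d4
        rw [degree_eq_natDegree h1] at d4
        exact absurd d4 (by exact_mod_cast WithBot.bot_ne_coe)
      · rw [d3, d4]; exact hlt

/-- A scale for which all lower left coefficients are nonzero. -/
theorem exists_scale : ∃ α : ℝ, α ≠ 0 ∧ ∀ l : List Letter, Good l → (gen l).2.2.1.eval α ≠ 0 := by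
  let B : Set ℝ := {0} ∪ ⋃ l : {l : List Letter // Good l}, {x | (gen l.1).2.2.1.IsRoot x}
  have hB : B.Countable := by
    refine (Set.countable_singleton _).union (Set.countable_iUnion fun l => ?_)
    exact (Polynomial.finite_setOf_isRoot (gen_ne l.1 l.2).1).countable
  obtain ⟨α, hα⟩ := (hB.dense_compl ℝ).nonempty
  refine ⟨α, fun h => hα (Or.inl h), fun l hl h => hα (Or.inr ?_)⟩
  exact Set.mem_iUnion.2 ⟨⟨l, hl⟩, h⟩

/-- The group of translations. -/
def Lam (α : ℝ) : AddSubgroup ℝ where
  carrier := {t | ∃ m n : ℤ, t = α * (m + n * √2)}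
  add_mem' := by
    rintro _ _ ⟨m, n, rfl⟩ ⟨m', n', rfl⟩
    exact ⟨m + m', n + n', by push_cast; ring⟩
  zero_mem' := ⟨0, 0, by simp⟩
  neg_mem' := by
    rintro _ ⟨m, n, rfl⟩
    exact ⟨-m, -n, by push_cast; ring⟩

/-- A permutation is generically given by good homographies. -/
def Loc (α : ℝ) (g : Equiv.Perm ZZ) : Prop :=
  ∃ E : Set ℝ, E.Countable ∧ ∀ x, x ∉ E → ∃ l : List Letter, Good l ∧ ∃ y : ℝ, g (io x) = io y ∧
    y * ((gen l).2.2.1.eval α * x + (gen l).2.2.2.eval α) =
      (gen l).1.eval α * x + (gen l).2.1.eval α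

/-- The weak form, allowing the empty word. -/
def Loc' (α : ℝ) (g : Equiv.Perm ZZ) (p : List Letter → Prop) : Prop :=
  ∃ E : Set ℝ, E.Countable ∧ ∀ x, x ∉ E → ∃ l : List Letter, p l ∧ ∃ y : ℝ, g (io x) = io y ∧
    y * ((gen l).2.2.1.eval α * x + (gen l).2.2.2.eval α) =
      (gen l).1.eval α * x + (gen l).2.1.eval α

lemma inj_countable (g : Equiv.Perm ZZ) (s : Set ZZ) (hs : s.Finite) : {x : ℝ | g (io x) ∈ s}.Countable := by
  have h1 : Function.Injective (fun x : ℝ => g (io x)) := by
    intro x y h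
    have := g.injective h
    simpa [io] using this
  exact (hs.preimage h1.injOn).countable

/-- Applying one letter. -/
lemma Loc'.step {α : ℝ} {g : Equiv.Perm ZZ} {p q : List Letter → Prop} (h : Loc' α g p)
    (m n : ℤ) (b : Bool) (hpq : ∀ l, p l → ∀ d, q ((m, n, b, d) :: l))
    {k : Equiv.Perm ZZ} (hk : ∀ y : ℝ, k (io y) = io (sgn b * y + α * (m + n * √2))) :
    Loc' α (sig * (k * g)) q := by
  obtain ⟨E, hE, hx⟩ := h
  refine ⟨E ∪ {x : ℝ | (k * g) (io x) ∈ ({io 0, io 1, io (-1)} : Set ZZ)},
    hE.union (inj_countable _ _ (Set.toFinite _)), fun x hxE => ?_⟩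
  rw [Set.mem_union, not_or] at hxE
  obtain ⟨l, hl, y, hy, hyl⟩ := hx x hxE.1
  have hky : (k * g) (io x) = io (sgn b * y + α * (m + n * √2)) := by
    rw [Equiv.Perm.mul_apply, hy, hk]
  have h2 := hxE.2
  rw [Set.mem_ofPred_eq, hky] at h2
  set w := sgn b * y + α * (m + n * √2) with hw
  simp only [Set.mem_insert_iff, Set.mem_singleton_iff, not_or] at h2
  have h0 : w ≠ 0 := fun h => h2.1 (by rw [h])
  have h1 : w ≠ 1 := fun h => h2.2.1 (by rw [h])
  have h3 : w ≠ -1 := fun h => h2.2.2 (by rw [h])
  have hsg : ∃ d : Bool, sig (io w) = io (sgn d * w⁻¹) := by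
    rcases sigF_gen h0 h1 h3 with ⟨_, e⟩ | ⟨_, e⟩
    · exact ⟨true, by
        show sigF (io w) = _
        rw [e]; simp [sgn]⟩
    · exact ⟨false, by
        show sigF (io w) = _
        rw [e]; simp [sgn]⟩
  obtain ⟨d, hd⟩ := hsg
  refine ⟨(m, n, b, d) :: l, hpq l hl d, sgn d * w⁻¹, ?_, ?_⟩
  · rw [Equiv.Perm.mul_apply, hky, hd]
  · have e1 : (gen ((m, n, b, d) :: l)) = (C (sgn d) * (gen l).2.2.1, C (sgn d) * (gen l).2.2.2,
      C (sgn b) * (gen l).1 + C (m + n * √2) * X * (gen l).2.2.1,
      C (sgn b) * (gen l).2.1 + C (m + n * √2) * X * (gen l).2.2.2) := rfl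
    rw [e1]
    simp only [eval_add, eval_mul, eval_C, eval_X]
    have hw' : w * ((gen l).2.2.1.eval α * x + (gen l).2.2.2.eval α) =
        (sgn b * (gen l).1.eval α + (m + n * √2) * α * (gen l).2.2.1.eval α) * x +
        (sgn b * (gen l).2.1.eval α + (m + n * √2) * α * (gen l).2.2.2.eval α) := by
      rw [hw]
      linear_combination (sgn b) * hyl
    rw [← hw']
    field_simp

lemma aff_plus {α : ℝ} {m n : ℤ} (y : ℝ) : TT (α * (m + n * √2)) (io y) = io (sgn true * y + α * (m + n * √2)) := by
  rw [TT_io]; simp [sgn]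

lemma aff_minus {α : ℝ} {m n : ℤ} (y : ℝ) :
    (TT (α * (m + n * √2)) * tau) (io y) = io (sgn false * y + α * (m + n * √2)) := by
  show TT _ (io (-y)) = _
  rw [TT_io]; simp [sgn]

lemma JT.loc {α : ℝ} {g : Equiv.Perm ZZ} (h : JT (Lam α) g) : Loc' α g Good := by
  have h1 : Loc' α 1 (fun l => l = []) := by
    refine ⟨∅, Set.countable_empty, fun x _ => ⟨[], rfl, x, rfl, ?_⟩⟩
    simp [gen]
  induction h with
  | base t ht =>
    obtain ⟨m, n, rfl⟩ := ht
    have := h1.step (q := Good) m n true (by rintro l rfl d; simp [Good]) aff_plus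
    rwa [mul_one] at this
  | base' t ht =>
    obtain ⟨m, n, rfl⟩ := ht
    have := h1.step (q := Good) m n false (by rintro l rfl d; simp [Good]) aff_minus
    rwa [mul_one] at this
  | step t ht h0 g hg ih =>
    obtain ⟨m, n, rfl⟩ := ht
    refine ih.step m n true (fun l hl d => good_cons ?_ hl) aff_plus
    intro h
    apply h0
    have h' : (m : ℝ) + n * √2 = 0 := h
    rw [h', mul_zero]
  | step' t ht h0 g hg ih =>
    obtain ⟨m, n, rfl⟩ := ht
    have := ih.step (q := Good) m n false (fun l hl d => good_cons (by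
      intro h
      apply h0
      have h' : (m : ℝ) + n * √2 = 0 := h
      rw [h', mul_zero]) hl) aff_minus
    rwa [mul_assoc] at this

lemma quad_finite {a b c : ℝ} (ha : a ≠ 0) : {x : ℝ | a * x ^ 2 + b * x + c = 0}.Finite := by
  have h1 : (C a * X ^ 2 + C b * X + C c : RP) ≠ 0 := by
    intro h
    have := natDegree_quadratic (b := b) (c := c) ha
    rw [h, natDegree_zero] at this
    omega
  refine (Polynomial.finite_setOf_isRoot h1).subset fun x hx => ?_
  show IsRoot _ x
  rw [IsRoot.def]
  simpa using hx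

/-- Elements given by good homographies followed by `x ↦ ± x + t` have countably many fixed points. -/
lemma fixed_countable {α : ℝ} (hα : ∀ l : List Letter, Good l → (gen l).2.2.1.eval α ≠ 0)
    {g k : Equiv.Perm ZZ} (hg : Loc' α g Good) (b : Bool) (t : ℝ)
    (hk : ∀ y : ℝ, k (io y) = io (sgn b * y + t)) : {x : ℝ | (k * g) (io x) = io x}.Countable := by
  obtain ⟨E, hE, hx⟩ := hg
  have hsub : {x : ℝ | (k * g) (io x) = io x} ⊆ E ∪ ⋃ l : {l : List Letter // Good l},
      {x : ℝ | (sgn b * (gen l.1).2.2.1.eval α) * x ^ 2 +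
        (sgn b * (gen l.1).2.2.2.eval α - t * sgn b * (gen l.1).2.2.1.eval α - (gen l.1).1.eval α) * x +
        (-(t * sgn b * (gen l.1).2.2.2.eval α) - (gen l.1).2.1.eval α) = 0} := by
    intro x hxg
    by_cases hxE : x ∈ E
    · exact Or.inl hxE
    right
    obtain ⟨l, hl, y, hy, hyl⟩ := hx x hxE
    refine Set.mem_iUnion.2 ⟨⟨l, hl⟩, ?_⟩
    have h1 : (k * g) (io x) = io x := hxg
    rw [Equiv.Perm.mul_apply, hy, hk] at h1
    have h2 : sgn b * y + t = x := by simpa [io] using h1
    have h3 : y = sgn b * (x - t) := by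
      rw [← h2]
      linear_combination (-y) * sgn_mul_self b
    rw [h3] at hyl
    show _ = _
    linear_combination hyl
  refine Set.Countable.mono hsub (hE.union (Set.countable_iUnion fun l => ?_))
  exact (quad_finite (mul_ne_zero (sgn_ne b) (hα l.1 l.2))).countable

/-- **No nontrivial finitely supported element.** -/
theorem eq_one_of_near {α : ℝ} (hα : ∀ l : List Letter, Good l → (gen l).2.2.1.eval α ≠ 0)
    {g : Equiv.Perm ZZ} (hg : NF (Lam α) g) (hn : Near g 1) : g = 1 := by
  have hinj : Function.Injective io := fun x y h => by simpa [io] using h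
  have hfin : {x : ℝ | g (io x) ≠ io x}.Finite := by
    exact hn.preimage hinj.injOn
  have hunc : ¬ {x : ℝ | g (io x) = io x}.Countable := by
    intro hc
    have : (Set.univ : Set ℝ).Countable := by
      have h1 : (Set.univ : Set ℝ) = {x : ℝ | g (io x) = io x} ∪ {x : ℝ | g (io x) ≠ io x} := by
        ext x
        simp only [Set.mem_univ, Set.mem_union, Set.mem_ofPred_eq, true_iff]
        exact em _
      rw [h1]
      exact hc.union hfin.countable
    exact Cardinal.not_countable_real this
  rcases hg with ⟨t, ht, rfl | rfl⟩ | ⟨t, ht, g', hg', rfl | rfl⟩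
  · obtain ⟨x, hx⟩ := hfin.exists_notMem
    simp only [Set.mem_ofPred_eq, not_not] at hx
    rw [TT_io] at hx
    have h1 := hinj hx
    have h2 : t = 0 := by linarith
    rw [h2, TT_zero]
  · exfalso
    apply hunc
    have : {x : ℝ | (TT t * tau) (io x) = io x} ⊆ {t / 2} := by
      intro x hx
      have h1 : io (-x + t) = io x := hx
      have h2 := hinj h1
      rw [Set.mem_singleton_iff]; linarith
    exact Set.Countable.mono this (Set.countable_singleton _)
  · exact absurd (fixed_countable hα hg'.loc true t (fun y => by rw [TT_io]; simp [sgn])) hunc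
  · refine absurd ?_ hunc
    have := fixed_countable hα hg'.loc false t (k := TT t * tau) (fun y => by
      show TT _ (io (-y)) = _
      rw [TT_io]; simp [sgn])
    rwa [mul_assoc] at this

end Pool.Agent.R291
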