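import Pool.Agent.R291.StabCircle
import Pool.Agent.R291.StabDefs
import Pool.Agent.R291.SolvIET

/-!
Stably realizable and not realizable.
-/

open Set

namespace Pool.Agent.R291

section counting

variable {Y : Type}

/-- A finite set invariant under a free map of order four has cardinality divisible by four. -/
lemma four_dvd_of_free (f : Y → Y) : ∀ (n : ℕ) (A : Set Y), A.Finite → A.ncard = n →
    (∀ y ∈ A, f y ∈ A) → (∀ y ∈ A, f (f (f (f y))) = y) → (∀ y ∈ A, f (f y) ≠ y) → 4 ∣ n := by
  classical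
  intro n
  induction n using Nat.strong_induction_on with
  | _ n ih =>
    intro A hA hn hinv h4 h2
    rcases A.eq_empty_or_nonempty with rfl | ⟨y, hy⟩
    · rw [Set.ncard_empty] at hn
      subst hn
      exact dvd_zero _
    have y1 := hinv y hy
    have y2 := hinv _ y1
    have y3 := hinv _ y2
    have e4 := h4 y hy
    have n02 := h2 y hy
    have n13 := h2 _ y1
    have n01 : f y ≠ y := fun h => n02 (by rw [h, h])
    have n12 : f (f y) ≠ f y := fun h => n13 (by rw [h, h])
    have n23 : f (f (f y)) ≠ f (f y) := by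
      intro h
      have h' : f (f (f (f y))) = f (f (f y)) := congrArg f h
      rw [e4] at h'
      exact n02 (h'.trans h).symm
    have n03 : f (f (f y)) ≠ y := by
      intro h
      have h' : f (f (f (f y))) = f y := congrArg f h
      rw [e4] at h'
      exact n01 h'.symm
    let B : Set Y := {y, f y, f (f y), f (f (f y))}
    have hB : B.ncard = 4 := by
      have e : B = (({y, f y, f (f y), f (f (f y))} : Finset Y) : Set Y) := by
        ext z
        simp [B]
      rw [e, Set.ncard_coe_finset]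
      rw [Finset.card_insert_of_notMem, Finset.card_insert_of_notMem, Finset.card_insert_of_notMem,
        Finset.card_singleton]
      · simpa using n23.symm
      · simp only [Finset.mem_insert, Finset.mem_singleton, not_or]
        exact ⟨n12.symm, n13.symm⟩
      · simp only [Finset.mem_insert, Finset.mem_singleton, not_or]
        exact ⟨n01.symm, n02.symm, n03.symm⟩
    have hBA : B ⊆ A := by
      intro z hz
      simp only [B, Set.mem_insert_iff, Set.mem_singleton_iff] at hz
      rcases hz with rfl | rfl | rfl | rfl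
      · exact hy
      · exact y1
      · exact y2
      · exact y3
    have hcard := Set.ncard_sdiff_add_ncard_of_subset hBA hA
    rw [hB, hn] at hcard
    have hfB : ∀ z, z ∈ A → f z ∈ B → z ∈ B := by
      intro z hz h
      have hz4 := h4 z hz
      have key : ∀ w, w ∈ B → f w ∈ B := by
        intro w hw
        simp only [B, Set.mem_insert_iff, Set.mem_singleton_iff] at hw ⊢
        rcases hw with rfl | rfl | rfl | rfl
        · exact Or.inr (Or.inl rfl)
        · exact Or.inr (Or.inr (Or.inl rfl))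
        · exact Or.inr (Or.inr (Or.inr rfl))
        · exact Or.inl e4
      have := key _ (key _ (key _ h))
      rwa [hz4] at this
    have hlt : (A \ B).ncard < n := by omega
    have := ih _ hlt (A \ B) (hA.subset Set.sdiff_subset) rfl
      (fun z hz => ⟨hinv z hz.1, fun h => hz.2 (hfB z hz.1 h)⟩) (fun z hz => h4 z hz.1)
      (fun z hz => h2 z hz.1)
    omega

/-- Fixed points of the square of a permutation of order four near a free one. -/
lemma four_dvd_fix {s σ : Equiv.Perm Y} (hs : ∀ y, s (s (s (s y))) = y)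
    (hσ : ∀ y, σ (σ (σ (σ y))) = y) (hf : ∀ y, σ (σ y) ≠ y) (hn : Near s σ) :
    4 ∣ {y | s (s y) = y}.ncard := by
  let D : Set Y := {y | s y ≠ σ y}
  let T : Set Y := D ∪ σ '' D ∪ (fun y => σ (σ y)) '' D ∪ (fun y => σ (σ (σ y))) '' D
  have hT : T.Finite := ((Set.Finite.union hn (hn.image _)).union (hn.image _)).union (hn.image _)
  have hinv : ∀ y ∈ T, σ y ∈ T := by
    rintro y (((h | ⟨z, hz, rfl⟩) | ⟨z, hz, rfl⟩) | ⟨z, hz, rfl⟩)
    · exact Or.inl (Or.inl (Or.inr ⟨y, h, rfl⟩))
    · exact Or.inl (Or.inr ⟨z, hz, rfl⟩)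
    · exact Or.inr ⟨z, hz, rfl⟩
    · refine Or.inl (Or.inl (Or.inl ?_))
      show σ (σ (σ (σ z))) ∈ D
      rw [hσ]; exact hz
  have hoff : ∀ y, y ∉ T → s y = σ y ∧ σ y ∉ T := by
    intro y hy
    refine ⟨?_, fun h => hy ?_⟩
    · by_contra h
      exact hy (Or.inl (Or.inl (Or.inl h)))
    · have := hinv _ (hinv _ (hinv _ h))
      rwa [hσ] at this
  have hoff' : ∀ y, y ∉ T → s y ∉ T := fun y hy => by
    rw [(hoff y hy).1]; exact (hoff y hy).2
  have hinvs : ∀ y ∈ T, s y ∈ T := by
    intro y hy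
    by_contra h
    have := hoff' _ (hoff' _ (hoff' _ h))
    rw [hs] at this
    exact this hy
  have h1 : 4 ∣ T.ncard := four_dvd_of_free σ _ T hT rfl hinv (fun y _ => hσ y) (fun y _ => hf y)
  have hFix : {y | s (s y) = y} ⊆ T := by
    intro y hy
    by_contra h
    have e1 := (hoff y h).1
    have e2 := (hoff _ (hoff y h).2).1
    have hy' : s (s y) = y := hy
    rw [e1, e2] at hy'
    exact hf y hy'
  have h2 : 4 ∣ (T \ {y | s (s y) = y}).ncard := by
    refine four_dvd_of_free s _ _ (hT.subset Set.sdiff_subset) rfl ?_ (fun y _ => hs y) (fun y hy => hy.2)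
    rintro y ⟨hy, hy2⟩
    refine ⟨hinvs y hy, fun h => hy2 ?_⟩
    have h' : s (s (s y)) = s y := h
    exact s.injective h'
  have h3 := Set.ncard_sdiff_add_ncard_of_subset hFix hT
  omega

end counting

lemma perm_eq_off_point {Y : Type} {f g : Equiv.Perm Y} {y0 : Y} (h : ∀ y, y ≠ y0 → f y = g y) : f = g := by
  ext y
  by_cases hy : y = y0
  · subst hy
    by_contra hne
    set w := f⁻¹ (g y) with hw
    have h1 : f w = g y := by rw [hw, app_inv]
    by_cases hwy : w = y
    · rw [hwy] at h1; exact hne h1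
    · rw [h w hwy] at h1
      exact hwy (g.injective h1)
  · exact h y hy

/-- The reflection of the line with its point at infinity. -/
noncomputable def reO : Equiv.Perm (Option ℝ) := Equiv.optionCongr (Equiv.neg ℝ)

lemma reO_some (x : ℝ) : reO (some x) = some (-x) := rfl

lemma reO_reO : reO * reO = 1 := by
  ext z : 1
  rcases z with _ | x
  · rfl
  · show some (- -x) = some x
    rw [neg_neg]

lemma trO_mul (s t : ℝ) : trO s * trO t = trO (s + t) := by
  ext z : 1
  rcases z with _ | x
  · rfl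
  · show some (x + t + s) = some (x + (s + t))
    rw [show x + t + s = x + (s + t) by ring]

lemma trO_zero : trO 0 = 1 := by
  ext z : 1
  rcases z with _ | x
  · rfl
  · show some (x + 0) = some x
    rw [add_zero]

lemma trO_inv (t : ℝ) : (trO t)⁻¹ = trO (-t) := by
  rw [inv_eq_iff_mul_eq_one, trO_mul, add_neg_cancel, trO_zero]

lemma reO_trO (t : ℝ) : reO * trO t = (trO t)⁻¹ * reO := by
  rw [trO_inv]
  ext z : 1
  rcases z with _ | x
  · rfl
  · show some (-(x + t)) = some (-x + -t)
    rw [neg_add]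

lemma tp_one : tp 1 = 1 := by
  ext y
  rw [tp_apply]
  show ee (ee.symm y) = y
  rw [Equiv.apply_symm_apply]

lemma tp_inv (g : Equiv.Perm (Option ℝ)) : tp g⁻¹ = (tp g)⁻¹ := by
  rw [eq_comm, inv_eq_iff_mul_eq_one, ← tp_mul, mul_inv_cancel, tp_one]

lemma tp_near {g h : Equiv.Perm (Option ℝ)} (hgh : Near g h) : Near (tp g) (tp h) := by
  refine (Set.Finite.image ee hgh).subset fun y hy => ?_
  refine ⟨ee.symm y, fun h' => hy ?_, Equiv.apply_symm_apply _ _⟩
  rw [tp_apply, tp_apply, h']

lemma sg_near : Near (sgO * sgO) reO := by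
  refine (Set.toFinite ({none, some 0, some 1, some (-1)} : Set (Option ℝ))).subset fun z hz => ?_
  by_contra hcon
  simp only [Set.mem_insert_iff, Set.mem_singleton_iff, not_or] at hcon
  obtain ⟨c0, c1, c2, c3⟩ := hcon
  apply hz
  rcases z with _ | x
  · exact absurd rfl c0
  · have h0 : x ≠ 0 := fun h => c1 (by rw [h])
    have h1 : x ≠ 1 := fun h => c2 (by rw [h])
    have h2 : x ≠ -1 := fun h => c3 (by rw [h])
    show sgF (sgF (some x)) = some (-x)
    exact sgF_sq h0 h1 h2

lemma tp_trO_zpow (t : ℝ) (n : ℤ) (x : ℝ) : (tp (trO t) ^ n) (uu x) = uu (x + n * t) := by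
  induction n using Int.induction_on with
  | zero => simp
  | succ n ih =>
    rw [add_comm, zpow_add, zpow_one, Equiv.Perm.mul_apply, ih, ← ee_some, tp_ee, trO_some, ee_some]
    congr 1; push_cast; ring
  | pred n ih =>
    rw [show (-(n : ℤ) - 1) = -1 + -n by ring, zpow_add, Equiv.Perm.mul_apply, ih, zpow_neg_one,
      ← tp_inv, trO_inv, ← ee_some, tp_ee, trO_some, ee_some]
    congr 1; push_cast; ring

/-- The generators of the group on the circle. -/
noncomputable def bg (α : ℝ) : Set (Equiv.Perm S1) := {tp (trO α), tp (trO (α * √2)), tp sgO}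

/-- The group. -/
noncomputable def GG (α : ℝ) : Subgroup (NearPerm S1) := (Subgroup.closure (bg α)).map (cls S1)

/-- **Not realizable.** -/
theorem GG_not_realizable {α : ℝ} (hα : α ≠ 0) {Λ : Subgroup (Equiv.Perm S1)}
    (hΛ : Set.BijOn (cls S1) (Λ : Set (Equiv.Perm S1)) (GG α)) : False := by
  have hlift : ∀ g ∈ bg α, ∃ f ∈ Λ, Near f g := by
    intro g hg
    have h1 : cls S1 g ∈ (GG α : Set (NearPerm S1)) :=
      Subgroup.mem_map_of_mem _ (Subgroup.subset_closure hg)
    obtain ⟨f, hf, hfg⟩ := hΛ.surjOn h1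
    exact ⟨f, hf, near_iff.1 hfg⟩
  have heq : ∀ f ∈ Λ, ∀ g ∈ Λ, Near f g → f = g := by
    intro f hf g hg hfg
    exact hΛ.injOn hf hg (near_iff.2 hfg)
  obtain ⟨R1, mR1, nR1⟩ := hlift (tp (trO α)) (by simp [bg])
  obtain ⟨R2, mR2, nR2⟩ := hlift (tp (trO (α * √2))) (by simp [bg])
  obtain ⟨s, ms, ns⟩ := hlift (tp sgO) (by simp [bg])
  have hcomm : tp (trO α) * tp (trO (α * √2)) = tp (trO (α * √2)) * tp (trO α) := by
    rw [← tp_mul, ← tp_mul, trO_mul, trO_mul, add_comm]
  have c12 : R1 * R2 = R2 * R1 := by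
    refine heq _ (Λ.mul_mem mR1 mR2) _ (Λ.mul_mem mR2 mR1) ?_
    refine (nR1.mul nR2).trans ?_
    rw [hcomm]
    exact (nR2.mul nR1).symm
  have h0 : ∀ t, tp (trO t) 0 = 0 := by
    intro t
    rw [← ee_none, tp_ee, trO_none]
  have hW : ∀ t y, tp (trO t) y ∈ ({0} : Set S1) ↔ y ∈ ({0} : Set S1) := by
    intro t y
    rw [Set.mem_singleton_iff, Set.mem_singleton_iff]
    constructor
    · intro h
      rw [← h0 t] at h
      exact (tp (trO t)).injective h
    · rintro rfl
      exact h0 t
  have huinj : Function.Injective uu := fun x y h => by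
    rw [← vv_uu x, h, vv_uu]
  have hS : Setup (tp (trO α)) (tp (trO (α * √2))) R1 R2 {0} := by
    refine ⟨hcomm, c12, nR1, nR2, Set.finite_singleton _, hW _, hW _, ?_⟩
    intro y hy m n hmn
    have hy' : y ≠ 0 := hy
    rw [← uu_vv hy', tp_trO_zpow, tp_trO_zpow] at hmn
    have h1 := huinj hmn
    have h2 : α * (m + n * √2) = 0 := by linarith
    have h3 : (m : ℝ) + n * √2 = 0 := by
      rcases mul_eq_zero.1 h2 with h | h
      · exact absurd h hα
      · exact h
    have hn : n = 0 := by
      by_contra hn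
      have h4 := irrational_sqrt_two.intCast_mul hn
      apply h4
      refine ⟨((-m : ℤ) : ℚ), ?_⟩
      push_cast
      linarith
    subst hn
    refine ⟨?_, rfl⟩
    simp only [Int.cast_zero, zero_mul, add_zero, Int.cast_eq_zero] at h3
    exact h3
  have cs4 : s * s * (s * s) = 1 := by
    refine heq _ (Λ.mul_mem (Λ.mul_mem ms ms) (Λ.mul_mem ms ms)) _ Λ.one_mem ?_
    refine ((ns.mul ns).mul (ns.mul ns)).trans ?_
    have : tp sgO * tp sgO * (tp sgO * tp sgO) = 1 := by
      rw [← tp_mul, ← tp_mul, ← tp_one]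
      congr 1
      ext z : 1
      exact (sgF_four z).1
    rw [this]
    exact Near.refl _
  have ns2 : Near (s * s) (tp reO) := by
    refine (ns.mul ns).trans ?_
    rw [← tp_mul]
    exact tp_near sg_near
  have cs : (s * s) * R1 = R1⁻¹ * (s * s) := by
    refine heq _ (Λ.mul_mem (Λ.mul_mem ms ms) mR1) _ (Λ.mul_mem (Λ.inv_mem mR1) (Λ.mul_mem ms ms)) ?_
    refine (ns2.mul nR1).trans ?_
    rw [← tp_mul, reO_trO, tp_mul, tp_inv]
    exact (nR1.inv.mul ns2).symm
  obtain ⟨Φ, nΦ, hΦ1, _⟩ := hS.rigid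
  have e1 : Φ * R1 * Φ⁻¹ = tp (trO α) := perm_eq_off_point (y0 := 0) fun y hy => hΦ1 y hy
  let c : Equiv.Perm S1 →* Equiv.Perm S1 := (MulAut.conj Φ).toMonoidHom
  have hc1 : c R1 = tp (trO α) := e1
  have hnear : ∀ {f g : Equiv.Perm S1}, Near f g → Near (c f) g := by
    intro f g hfg
    have h1 : Near (Φ * f * Φ⁻¹) (1 * g * 1⁻¹) := (nΦ.mul hfg).mul nΦ.inv
    rw [inv_one, one_mul, mul_one] at h1
    exact h1
  have ks := congrArg c cs
  have k4 := congrArg c cs4
  have kn := hnear ns2
  simp only [map_mul, map_inv, hc1, map_one] at ks k4 kn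
  set s' := c s with hs'
  -- the square of `s'` is the reflection
  have hpow : ∀ (U : Equiv.Perm S1), U * tp (trO α) = (tp (trO α))⁻¹ * U → ∀ (n : ℕ) (y : S1),
      U ((tp (trO α) ^ n) y) = ((tp (trO α) ^ n)⁻¹ : Equiv.Perm S1) (U y) := by
    intro U hU n y
    have h1 : U * tp (trO α) ^ n = (tp (trO α) ^ n)⁻¹ * U := by
      have h2 : SemiconjBy U (tp (trO α)) (tp (trO α))⁻¹ := hU
      have h3 := h2.pow_right n
      rw [inv_pow] at h3
      exact h3
    rw [← Equiv.Perm.mul_apply, h1, Equiv.Perm.mul_apply]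
  have kre : tp reO * tp (trO α) = (tp (trO α))⁻¹ * tp reO := by
    rw [← tp_mul, reO_trO, tp_mul, tp_inv]
  have hsq : s' * s' = tp reO := by
    refine perm_eq_off_point (y0 := 0) fun y hy => ?_
    have hy' : y ∉ ({0} : Set S1) := hy
    obtain ⟨n, hn⟩ := (evt_notMem kn (hS.inj1 hy')).exists
    simp only [Set.mem_ofPred_eq, not_not] at hn
    rw [hpow _ ks, hpow _ kre] at hn
    exact ((tp (trO α) ^ n)⁻¹ : Equiv.Perm S1).injective hn
  have hfix : {y | s' (s' y) = y} = {ee none, ee (some 0)} := by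
    ext y
    rw [Set.mem_ofPred_eq, ← Equiv.Perm.mul_apply, hsq, Set.mem_insert_iff, Set.mem_singleton_iff]
    obtain ⟨z, rfl⟩ := ee.surjective y
    rw [tp_ee, ee.apply_eq_iff_eq, ee.apply_eq_iff_eq, ee.apply_eq_iff_eq]
    rcases z with _ | x
    · simp only [true_or, iff_true]; rfl
    · rw [reO_some]
      simp only [Option.some.injEq, reduceCtorEq, false_or]
      constructor
      · intro h; linarith
      · rintro rfl; simp
  have hdvd := four_dvd_fix (s := s') (σ := tp sgO)
    (fun y => by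
      have := congrArg (fun f : Equiv.Perm S1 => f y) k4
      simpa [Equiv.Perm.mul_apply] using this)
    (fun y => by
      obtain ⟨z, rfl⟩ := ee.surjective y
      rw [tp_ee, tp_ee, tp_ee, tp_ee]
      congr 1
      exact (sgF_four z).1)
    (fun y => by
      obtain ⟨z, rfl⟩ := ee.surjective y
      rw [tp_ee, tp_ee]
      intro h
      exact (sgF_four z).2 (ee.injective h))
    (hnear ns)
  rw [hfix, Set.ncard_pair (by
    intro h
    have := ee.injective h
    exact absurd this (by simp))] at hdvd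
  omega

end Pool.Agent.R291
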