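import Pool.Agent.R291.StabMain

/-!
The group is stably realizable.
-/

open Set

namespace Pool.Agent.R291

/-- The identification of the line with two points added with the circle and one extra point. -/
noncomputable def EE : ZZ ≃ S1 ⊕ PUnit.{1} :=
  (Equiv.optionEquivSumPUnit (Option ℝ)).trans (Equiv.sumCongr ee (Equiv.refl _))

lemma EE_none : EE none = Sum.inr PUnit.unit := rfl
lemma EE_some (z : Option ℝ) : EE (some z) = Sum.inl (ee z) := rfl

/-- Transport. -/
noncomputable def TP (g : Equiv.Perm ZZ) : Equiv.Perm (S1 ⊕ PUnit.{1}) := EE.permCongr g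

lemma TP_EE (g : Equiv.Perm ZZ) (z : ZZ) : TP g (EE z) = EE (g z) := by
  show EE (g (EE.symm (EE z))) = _
  rw [Equiv.symm_apply_apply]

lemma TP_mul (g h : Equiv.Perm ZZ) : TP (g * h) = TP g * TP h := by
  ext y : 1
  obtain ⟨z, rfl⟩ := EE.surjective y
  rw [Equiv.Perm.mul_apply, TP_EE, TP_EE, TP_EE]; rfl

lemma TP_one : TP 1 = 1 := by
  ext y : 1
  obtain ⟨z, rfl⟩ := EE.surjective y
  rw [TP_EE]; rfl

/-- Transport as a homomorphism. -/
noncomputable def TPh : Equiv.Perm ZZ →* Equiv.Perm (S1 ⊕ PUnit.{1}) where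
  toFun := TP
  map_one' := TP_one
  map_mul' := TP_mul

/-- Extension by the identity. -/
def JJ {X : Type} : Equiv.Perm S1 →* Equiv.Perm (S1 ⊕ X) where
  toFun g := Equiv.sumCongr g (Equiv.refl X)
  map_one' := by
    ext y : 1
    rcases y with y | y <;> rfl
  map_mul' g h := by
    ext y : 1
    rcases y with y | y <;> rfl

lemma agree_iff {X : Type} {f : Equiv.Perm (S1 ⊕ X)} {g : Equiv.Perm S1} : Agree f g ↔ Near f (JJ g) := by
  constructor
  · rintro ⟨h1, h2⟩
    refine ((h1.image Sum.inl).union (h2.image Sum.inr)).subset fun y hy => ?_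
    rcases y with y | y
    · exact Or.inl ⟨y, hy, rfl⟩
    · exact Or.inr ⟨y, hy, rfl⟩
  · intro h
    exact ⟨h.preimage Sum.inl_injective.injOn, h.preimage Sum.inr_injective.injOn⟩

lemma JJ_near {X : Type} {g h : Equiv.Perm S1} (hgh : Near g h) : Near (JJ (X := X) g) (JJ h) := by
  refine (Set.Finite.image Sum.inl hgh).subset fun y hy => ?_
  rcases y with y | y
  · exact ⟨y, fun h' => hy (congrArg Sum.inl h'), rfl⟩
  · exact absurd rfl hy

/-- Generators on the line. -/
noncomputable def kg (α : ℝ) : Set (Equiv.Perm ZZ) := {TT α, TT (α * √2), sig}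

lemma TT_near (t : ℝ) : Near (TP (TT t)) (JJ (tp (trO t))) := by
  have : TP (TT t) = JJ (tp (trO t)) := by
    ext y : 1
    obtain ⟨z, rfl⟩ := EE.surjective y
    rw [TP_EE]
    rcases z with _ | z
    · rfl
    · show Sum.inl (ee (trO t z)) = Sum.inl (tp (trO t) (ee z))
      rw [tp_ee]
  rw [this]; exact Near.refl _

lemma sig_near : Near (TP sig) (JJ (tp sgO)) := by
  refine (Set.toFinite ({EE none, EE (some none), EE (io 0), EE (io 1), EE (io (-1))} :
    Set (S1 ⊕ PUnit.{1}))).subset fun y hy => ?_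
  obtain ⟨z, rfl⟩ := EE.surjective y
  by_contra hcon
  simp only [Set.mem_insert_iff, Set.mem_singleton_iff, EE.apply_eq_iff_eq, not_or] at hcon
  obtain ⟨c0, c1, c2, c3, c4⟩ := hcon
  apply hy
  rcases z with _ | _ | x
  · exact absurd rfl c0
  · exact absurd rfl c1
  · have h0 : x ≠ 0 := fun h => c2 (by rw [h])
    have h1 : x ≠ 1 := fun h => c3 (by rw [h])
    have h2 : x ≠ -1 := fun h => c4 (by rw [h])
    have e : ∃ w : ℝ, sigF (io x) = io w ∧ sgF (some x) = some w := by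
      rcases sigF_gen h0 h1 h2 with ⟨a1, a2⟩ | ⟨a1, a2⟩ <;>
        rcases sgF_gen h0 h1 h2 with ⟨b1, b2⟩ | ⟨b1, b2⟩
      · exact ⟨_, a2, b2⟩
      · exact absurd a1 (by linarith)
      · exact absurd a1 (by linarith)
      · exact ⟨_, a2, b2⟩
    obtain ⟨w, e1, e2⟩ := e
    rw [TP_EE]
    show EE (sigF (io x)) = Sum.inl (tp sgO (ee (some x)))
    rw [e1, tp_ee]
    show Sum.inl (ee (some w)) = Sum.inl (ee (sgF (some x)))
    rw [e2]

lemma lift1 {α : ℝ} {k : Equiv.Perm ZZ} (hk : k ∈ Subgroup.closure (kg α)) :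
    ∃ g ∈ Subgroup.closure (bg α), Near (TPh k) (JJ g) := by
  induction hk using Subgroup.closure_induction with
  | mem x hx =>
    simp only [kg, Set.mem_insert_iff, Set.mem_singleton_iff] at hx
    rcases hx with rfl | rfl | rfl
    · exact ⟨_, Subgroup.subset_closure (by simp [bg]), TT_near _⟩
    · exact ⟨_, Subgroup.subset_closure (by simp [bg]), TT_near _⟩
    · exact ⟨_, Subgroup.subset_closure (by simp [bg]), sig_near⟩
  | one => exact ⟨1, Subgroup.one_mem _, by rw [map_one, map_one]; exact Near.refl _⟩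
  | mul x y hx hy ihx ihy =>
    obtain ⟨g, hg, h1⟩ := ihx
    obtain ⟨g', hg', h2⟩ := ihy
    exact ⟨g * g', Subgroup.mul_mem _ hg hg', by rw [map_mul, map_mul]; exact h1.mul h2⟩
  | inv x hx ih =>
    obtain ⟨g, hg, h1⟩ := ih
    exact ⟨g⁻¹, Subgroup.inv_mem _ hg, by rw [map_inv, map_inv]; exact h1.inv⟩

lemma lift2 {α : ℝ} {g : Equiv.Perm S1} (hg : g ∈ Subgroup.closure (bg α)) :
    ∃ k ∈ Subgroup.closure (kg α), Near (TPh k) (JJ g) := by
  induction hg using Subgroup.closure_induction with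
  | mem x hx =>
    simp only [bg, Set.mem_insert_iff, Set.mem_singleton_iff] at hx
    rcases hx with rfl | rfl | rfl
    · exact ⟨_, Subgroup.subset_closure (by simp [kg]), TT_near _⟩
    · exact ⟨_, Subgroup.subset_closure (by simp [kg]), TT_near _⟩
    · exact ⟨_, Subgroup.subset_closure (by simp [kg]), sig_near⟩
  | one => exact ⟨1, Subgroup.one_mem _, by rw [map_one, map_one]; exact Near.refl _⟩
  | mul x y hx hy ihx ihy =>
    obtain ⟨g, hg, h1⟩ := ihx
    obtain ⟨g', hg', h2⟩ := ihy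
    exact ⟨g * g', Subgroup.mul_mem _ hg hg', by rw [map_mul, map_mul]; exact h1.mul h2⟩
  | inv x hx ih =>
    obtain ⟨g, hg, h1⟩ := ih
    exact ⟨g⁻¹, Subgroup.inv_mem _ hg, by rw [map_inv, map_inv]; exact h1.inv⟩

/-- Piecewise continuous permutations with piecewise continuous inverse. -/
def GPC : Subgroup (Equiv.Perm S1) where
  carrier := {f | IsPC f ∧ IsPC f⁻¹}
  mul_mem' := by
    rintro f g ⟨h1, h2⟩ ⟨k1, k2⟩
    exact ⟨h1.mul k1, by rw [mul_inv_rev]; exact k2.mul h2⟩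
  one_mem' := by
    have h : IsPC (1 : Equiv.Perm S1) := pc_of_continuous (f := 1) continuous_id
    exact ⟨h, by rw [inv_one]; exact h⟩
  inv_mem' := by
    rintro f ⟨h1, h2⟩
    exact ⟨h2, by rw [inv_inv]; exact h1⟩

lemma bg_PC {α : ℝ} {g : Equiv.Perm S1} (hg : g ∈ Subgroup.closure (bg α)) : IsPC g := by
  have : Subgroup.closure (bg α) ≤ GPC := by
    rw [Subgroup.closure_le]
    intro f hf
    simp only [bg, Set.mem_insert_iff, Set.mem_singleton_iff] at hf
    have ht : ∀ t, tp (trO t) ∈ GPC := fun t => ⟨trO_PC t, by rw [← tp_inv, trO_inv]; exact trO_PC _⟩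
    rcases hf with rfl | rfl | rfl
    · exact ht _
    · exact ht _
    · refine ⟨sgO_PC, ?_⟩
      have e : (tp sgO)⁻¹ = tp sgO * tp sgO * tp sgO := by
        rw [inv_eq_iff_mul_eq_one, ← tp_mul, ← tp_mul, ← tp_mul, ← tp_one]
        congr 1
        ext z : 1
        exact (sgF_four z).1
      rw [e]
      exact (sgO_PC.mul sgO_PC).mul sgO_PC
  exact (this hg).1

theorem GG_stably {α : ℝ} (hα : ∀ l : List Letter, Good l → (gen l).2.2.1.eval α ≠ 0) :
    StablyRealizable (GG α) := by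
  refine ⟨PUnit.{1}, (Subgroup.closure (kg α)).map TPh, ?_, ?_⟩
  · rintro _ ⟨k, hk, rfl⟩
    obtain ⟨g, hg, h1⟩ := lift1 hk
    exact ⟨cls S1 g, Subgroup.mem_map_of_mem _ hg, g, bg_PC hg, rfl, agree_iff.2 h1⟩
  · rintro _ ⟨g, hg, rfl⟩
    obtain ⟨k, hk, h1⟩ := lift2 hg
    refine ⟨TPh k, ⟨Subgroup.mem_map_of_mem _ hk, g, bg_PC hg, rfl, agree_iff.2 h1⟩, ?_⟩
    rintro _ ⟨⟨k', hk', rfl⟩, g', _, hgg', h2⟩
    have n1 : Near g' g := near_iff.1 hgg'
    have n2 : Near (TPh k') (TPh k) := ((agree_iff.1 h2).trans (JJ_near n1)).trans h1.symm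
    have n3 : Near (TPh (k⁻¹ * k')) 1 := by
      have h3 := (Near.refl (TPh k)⁻¹).mul n2
      rw [inv_mul_cancel] at h3
      rw [map_mul, map_inv]
      exact h3
    have n4 : Near (k⁻¹ * k') 1 := by
      refine Set.Finite.subset (n3.preimage EE.injective.injOn) fun z hz h4 => ?_
      have h5 : TP (k⁻¹ * k') (EE z) = EE z := h4
      rw [TP_EE] at h5
      exact hz (EE.injective h5)
    have hmem : k⁻¹ * k' ∈ Subgroup.closure (kg α) :=
      Subgroup.mul_mem _ (Subgroup.inv_mem _ hk) hk'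
    have hNF : NF (Lam α) (k⁻¹ * k') := by
      refine NF_of_mem (s := kg α) ?_ hmem
      intro g hg
      simp only [kg, Set.mem_insert_iff, Set.mem_singleton_iff] at hg
      rcases hg with rfl | rfl | rfl
      · exact Or.inl ⟨α, ⟨1, 0, by simp⟩, rfl⟩
      · exact Or.inl ⟨α * √2, ⟨0, 1, by simp⟩, rfl⟩
      · exact Or.inr rfl
    have h6 := eq_one_of_near hα hNF n4
    have h7 : k' = k := (inv_mul_eq_one.1 h6).symm
    rw [h7]

lemma GG_subPC (α : ℝ) : SubPC (GG α) := by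
  rintro _ ⟨g, hg, rfl⟩
  exact ⟨g, bg_PC hg, rfl⟩

lemma GG_fg (α : ℝ) : (GG α).FG := by
  unfold GG
  rw [Subgroup.fg_iff]
  refine ⟨cls S1 '' bg α, (MonoidHom.map_closure _ _).symm, Set.Finite.image _ ?_⟩
  unfold bg; exact Set.toFinite _

end Pool.Agent.R291
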